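import Pool.Agent.H.MP_e11395_an.E.Tw

/-!
# Part E: elementary properties of `Kap`
-/

set_option autoImplicit false

open Filter Topology
open Pool.Agent.H.MP_43b197_an

namespace Pool.Agent.H.MP_e11395_an

variable {N : Type} [Ring N] [StarRing N] [Algebra ℂ N] [StarModule ℂ N] {T : TVN N}
  {w : ℕ → N} {Θ : N →⋆ₐ[ℂ] N} {κ : ℂ}

namespace Kap

variable (K : Kap T w Θ κ)
include K

theorem KapL_l (m : ℕ) : star (w m) * w m = 1 := (K.unit m).1

theorem KapL_r (m : ℕ) : w m * star (w m) = 1 := (K.unit m).2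

theorem KapL_n2 (m : ℕ) (x : N) : T.n2 (w m * x * star (w m)) = T.n2 x := by
  rw [T.n2_mul_unitary (by rw [star_star]; exact K.KapL_l m), T.n2_unitary_mul (K.KapL_l m)]

/-- `Θ` is isometric: `n2 (w x w*) = n2 x` and pass to the limit (`TrState.abs_n2_sub_n2_le`). -/
theorem n2 (x : N) : T.n2 (Θ x) = T.n2 x := by
  have h : |T.n2 x - T.n2 (Θ x)| ≤ 0 := by
    refine ge_of_tendsto' (K.lim x) fun m => ?_
    have h1 := T.abs_n2_sub_n2_le (w m * x * star (w m)) (Θ x)
    rwa [K.KapL_n2] at h1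
  have h2 := abs_nonpos_iff.1 h
  linarith

/-- `Θ` preserves the trace: `tr (w x w*) = tr x`, and `TVN.CLim.tr` or `norm_tr_le_n2`. -/
theorem tr (x : N) : T.tr (Θ x) = T.tr x := by
  have h : ‖T.tr x - T.tr (Θ x)‖ ≤ 0 := by
    refine ge_of_tendsto' (K.lim x) fun m => ?_
    have h1 : T.tr x = T.tr (w m * x * star (w m)) := by
      rw [T.comm, ← mul_assoc, K.KapL_l, one_mul]
    rw [h1, ← map_sub]
    exact T.norm_tr_le_n2 _
  exact (sub_eq_zero.1 (norm_le_zero_iff.1 h)).symm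

/-- `Θ` preserves the balls (`TVN_bd_lim`). -/
theorem bd {C : ℝ} {x : N} (h : T.Bd C x) : T.Bd C (Θ x) := by
  refine TVN_bd_lim T (fun m => ?_) (K.lim x)
  have h1 := T.bd_mul _ _ _ _ (T.bd_mul _ _ _ _ (T.bd_unitary (K.unit m)) h)
    (T.bd_star _ _ (T.bd_unitary (K.unit m)))
  rwa [one_mul, mul_one] at h1

/-- `Θ x * w m - w m * x → 0` in the 2-norm (right multiplication by the unitary `w m` is
isometric). -/
theorem inter (x : N) : Tendsto (fun m => T.n2 (Θ x * w m - w m * x)) atTop (𝓝 0) := by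
  refine Tendsto.congr (fun m => ?_) (K.lim x)
  have h1 : Θ x * w m - w m * x = (Θ x - w m * x * star (w m)) * w m := by
    rw [sub_mul, mul_assoc (w m * x), K.KapL_l, mul_one]
  rw [h1, T.n2_mul_unitary (K.KapL_r m), T.n2_sub_comm]

/-- `star (w m) * Θ x * w m → x` in the 2-norm. -/
theorem inter' (x : N) : Tendsto (fun m => T.n2 (star (w m) * Θ x * w m - x)) atTop (𝓝 0) := by
  refine Tendsto.congr (fun m => ?_) (K.inter x)
  have h1 : star (w m) * Θ x * w m - x = star (w m) * (Θ x * w m - w m * x) := by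
    rw [mul_sub, ← mul_assoc, ← mul_assoc, K.KapL_l, one_mul]
  rw [h1, T.n2_unitary_mul (by rw [star_star]; exact K.KapL_r m)]

end Kap

end Pool.Agent.H.MP_e11395_an
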