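import Pool.Agent.H.MP_e11395_an.E.Closure
import Pool.Agent.H.MP_e11395_an.E.KapL

/-!
# Part E: anti-isomorphisms
-/

set_option autoImplicit false

open Filter Topology
open Pool.Agent.H.MP_43b197_an

namespace Pool.Agent.H.MP_e11395_an

/-- A trace preserving star anti-isomorphism of tracial von Neumann algebras. -/
structure AntiIso {N₀ N₁ : Type} [Ring N₀] [StarRing N₀] [Algebra ℂ N₀] [StarModule ℂ N₀]
    [Ring N₁] [StarRing N₁] [Algebra ℂ N₁] [StarModule ℂ N₁] (T₀ : TVN N₀) (T₁ : TVN N₁) where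
  f : N₀ → N₁
  g : N₁ → N₀
  fg : ∀ y, f (g y) = y
  gf : ∀ x, g (f x) = x
  add : ∀ x y, f (x + y) = f x + f y
  smul : ∀ (c : ℂ) x, f (c • x) = c • f x
  mul : ∀ x y, f (x * y) = f y * f x
  star : ∀ x, f (star x) = star (f x)
  n2 : ∀ x, T₁.n2 (f x) = T₀.n2 x
  bd : ∀ C x, T₁.Bd C (f x) ↔ T₀.Bd C x

namespace AntiIso

variable {N₀ N₁ : Type} [Ring N₀] [StarRing N₀] [Algebra ℂ N₀] [StarModule ℂ N₀]
    [Ring N₁] [StarRing N₁] [Algebra ℂ N₁] [StarModule ℂ N₁] {T₀ : TVN N₀} {T₁ : TVN N₁}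
    (ψ : AntiIso T₀ T₁)
include ψ

theorem Anti_zero : ψ.f 0 = 0 := by
  have h := ψ.smul 0 0
  rwa [zero_smul, zero_smul] at h

theorem Anti_neg (x : N₀) : ψ.f (-x) = -ψ.f x := by
  have h := ψ.add (-x) x
  rw [neg_add_cancel, ψ.Anti_zero] at h
  exact eq_neg_of_add_eq_zero_left h.symm

theorem Anti_sub (x y : N₀) : ψ.f (x - y) = ψ.f x - ψ.f y := by
  rw [sub_eq_add_neg, ψ.add, ψ.Anti_neg, ← sub_eq_add_neg]

theorem Anti_one : ψ.f 1 = 1 := by
  have h : ψ.f 1 * ψ.f (ψ.g 1) = ψ.f (ψ.g 1) := by rw [← ψ.mul, mul_one]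
  rwa [ψ.fg, mul_one] at h

theorem Anti_inj {x y : N₀} (h : ψ.f x = ψ.f y) : x = y := by
  rw [← ψ.gf x, h, ψ.gf]

theorem Anti_g_add (x y : N₁) : ψ.g (x + y) = ψ.g x + ψ.g y := by
  apply ψ.Anti_inj; rw [ψ.add, ψ.fg, ψ.fg, ψ.fg]

theorem Anti_g_smul (c : ℂ) (x : N₁) : ψ.g (c • x) = c • ψ.g x := by
  apply ψ.Anti_inj; rw [ψ.smul, ψ.fg, ψ.fg]

theorem Anti_g_mul (x y : N₁) : ψ.g (x * y) = ψ.g y * ψ.g x := by
  apply ψ.Anti_inj; rw [ψ.mul, ψ.fg, ψ.fg, ψ.fg]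

theorem Anti_g_star (x : N₁) : ψ.g (Star.star x) = Star.star (ψ.g x) := by
  apply ψ.Anti_inj; rw [ψ.star, ψ.fg, ψ.fg]

theorem Anti_g_one : ψ.g 1 = 1 := by
  apply ψ.Anti_inj; rw [ψ.Anti_one, ψ.fg]

theorem Anti_g_zero : ψ.g 0 = 0 := by
  apply ψ.Anti_inj; rw [ψ.Anti_zero, ψ.fg]

/-- The transported endomorphism. -/
noncomputable def Anti_hom (Θ : N₀ →⋆ₐ[ℂ] N₀) : N₁ →⋆ₐ[ℂ] N₁ where
  toFun y := ψ.f (Θ (ψ.g y))
  map_one' := by rw [ψ.Anti_g_one, map_one, ψ.Anti_one]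
  map_mul' x y := by rw [ψ.Anti_g_mul, map_mul, ψ.mul]
  map_zero' := by rw [ψ.Anti_g_zero, map_zero, ψ.Anti_zero]
  map_add' x y := by rw [ψ.Anti_g_add, map_add, ψ.add]
  commutes' c := by
    rw [Algebra.algebraMap_eq_smul_one, ψ.Anti_g_smul, map_smul, ψ.smul, ψ.Anti_g_one, map_one,
      ψ.Anti_one]
  map_star' x := by rw [ψ.Anti_g_star, map_star, ψ.star]

theorem Anti_hom_apply (Θ : N₀ →⋆ₐ[ℂ] N₀) (y : N₁) : ψ.Anti_hom Θ y = ψ.f (Θ (ψ.g y)) := rfl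

theorem Anti_hom_f (Θ : N₀ →⋆ₐ[ℂ] N₀) (x : N₀) : ψ.Anti_hom Θ (ψ.f x) = ψ.f (Θ x) := by
  rw [ψ.Anti_hom_apply, ψ.gf]

end AntiIso

/-- **Transport of `Kap`.**

Proof. `Θ' y = f (Θ (g y))`, which is a unital star homomorphism (`g` is also linear, anti-
multiplicative, star preserving, from `fg`, `gf`; `f 1 = 1`: `f 1 * y = f 1 * f (g y) = f (g y * 1)
= y`). `w' m = star (f (w m))`, a unitary. For `y = f x`: `w' m * y * star (w' m)
= f (star (w m)) * f x * f (w m) = f (w m * x * star (w m))`, whose 2-distance to `f (Θ x) = Θ' y`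
is `n2 (w m * x * star (w m) - Θ x)`. Central triviality: for `y n = f (x n)`,
`x n = g (y n)` is bounded (`bd`) and asymptotically central (`n2 (x n * x - x * x n)
= n2 (f x * y n - y n * f x)`), and `n2 (Θ' (y n) - y n) = n2 (Θ (x n) - x n)`. Last:
`Θ' (w' n) = f (Θ (star (w n))) = star (f (Θ (w n)))`, and
`star (f (Θ (w n))) - star κ • star (f (w n)) = star (f (Θ (w n) - κ • w n))`. -/
theorem Kap.transport {N₀ N₁ : Type} [Ring N₀] [StarRing N₀] [Algebra ℂ N₀] [StarModule ℂ N₀]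
    [Ring N₁] [StarRing N₁] [Algebra ℂ N₁] [StarModule ℂ N₁] {T₀ : TVN N₀} {T₁ : TVN N₁}
    (ψ : AntiIso T₀ T₁) {w : ℕ → N₀} {Θ : N₀ →⋆ₐ[ℂ] N₀} {κ : ℂ} (K : Kap T₀ w Θ κ) :
    ∃ (w' : ℕ → N₁) (Θ' : N₁ →⋆ₐ[ℂ] N₁), Kap T₁ w' Θ' (starRingEnd ℂ κ) := by
  refine ⟨fun m => star (ψ.f (w m)), ψ.Anti_hom Θ, ?_, ?_, ?_, ?_⟩
  · intro m
    have h1 : star (w m) * w m = 1 := (K.unit m).1
    have h2 : w m * star (w m) = 1 := (K.unit m).2
    refine ⟨?_, ?_⟩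
    · change star (star (ψ.f (w m))) * star (ψ.f (w m)) = 1
      rw [star_star, ← ψ.star, ← ψ.mul, h1, ψ.Anti_one]
    · change star (ψ.f (w m)) * star (star (ψ.f (w m))) = 1
      rw [star_star, ← ψ.star, ← ψ.mul, h2, ψ.Anti_one]
  · intro y
    obtain ⟨x, rfl⟩ : ∃ x, ψ.f x = y := ⟨ψ.g y, ψ.fg y⟩
    have h := K.lim x
    refine Tendsto.congr (fun m => ?_) h
    beta_reduce
    rw [ψ.Anti_hom_f, star_star, ← ψ.star, ← ψ.mul, ← ψ.mul, ← ψ.Anti_sub, ψ.n2, mul_assoc]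
  · intro y C hC hy
    have hg : ∀ n, ψ.f (ψ.g (y n)) = y n := fun n => ψ.fg (y n)
    have h := K.cent (fun n => ψ.g (y n)) C (fun n => (ψ.bd C _).1 (by rw [ψ.fg]; exact hC n)) ?_
    · refine Tendsto.congr (fun n => ?_) h
      rw [← ψ.n2, ψ.Anti_sub, ψ.fg, ψ.Anti_hom_apply]
    · intro x
      refine Tendsto.congr (fun n => ?_) (hy (ψ.f x))
      rw [← ψ.n2, ψ.Anti_sub, ψ.mul, ψ.mul, ψ.fg, T₁.n2_sub_comm]
  · refine Tendsto.congr (fun n => ?_) K.kap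
    beta_reduce
    rw [map_star, ψ.Anti_hom_f, ← ψ.n2, ψ.Anti_sub, ψ.smul, ← T₁.n2_star, star_sub, star_smul]
    rfl

/-! ### Extension to the closures -/

/-- A trace preserving isometric star anti-endomorphism. -/
structure Anti_S {A : Type} [CStarAlgebra A] (τ₀ τ₁ : TrState A) (s : A → A) : Prop where
  add : ∀ a b, s (a + b) = s a + s b
  smul : ∀ (c : ℂ) a, s (c • a) = c • s a
  mul : ∀ a b, s (a * b) = s b * s a
  star : ∀ a, s (star a) = star (s a)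
  norm : ∀ a, ‖s a‖ = ‖a‖
  tr : ∀ a, τ₁.tr (s a) = τ₀.tr a

namespace Anti_S

variable {A : Type} [CStarAlgebra A] {τ₀ τ₁ : TrState A} {s : A → A} (S : Anti_S τ₀ τ₁ s)
include S

theorem zero : s 0 = 0 := by
  have h := S.smul 0 0
  rwa [zero_smul, zero_smul] at h

theorem neg (x : A) : s (-x) = -s x := by
  have h := S.add (-x) x
  rw [neg_add_cancel, S.zero] at h
  exact eq_neg_of_add_eq_zero_left h.symm

theorem sub (x y : A) : s (x - y) = s x - s y := by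
  rw [sub_eq_add_neg, S.add, S.neg, ← sub_eq_add_neg]

theorem n2 (a : A) : τ₁.n2 (s a) = τ₀.n2 a := by
  unfold TrState.n2
  rw [← S.star, ← S.mul, S.tr, τ₀.comm]

/-- The map on bounded sequences. -/
noncomputable def seq (x : BSeq A) : BSeq A := ⟨fun n => s (x.1 n), by
  obtain ⟨C, hC⟩ := x.2
  exact ⟨C, fun n => by rw [S.norm]; exact hC n⟩⟩

/-- The map on the ultrapower. -/
noncomputable def F (x : RU τ₀ UF) : RU τ₁ UF :=
  mkU τ₁ UF (S.seq (Function.surjInv (mkU_surjective τ₀ UF) x))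

theorem F_mk (x : BSeq A) : S.F (mkU τ₀ UF x) = mkU τ₁ UF (S.seq x) := by
  unfold F
  rw [mkU_eq]
  have h : mkU τ₀ UF (Function.surjInv (mkU_surjective τ₀ UF) (mkU τ₀ UF x)) = mkU τ₀ UF x :=
    Function.surjInv_eq _ _
  rw [mkU_eq] at h
  refine Tendsto.congr (fun n => ?_) h
  change _ = τ₁.n2 (s _ - s _)
  rw [← S.sub, S.n2]

theorem F_add (x y : RU τ₀ UF) : S.F (x + y) = S.F x + S.F y := by
  obtain ⟨x, rfl⟩ := mkU_surjective τ₀ UF x
  obtain ⟨y, rfl⟩ := mkU_surjective τ₀ UF y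
  rw [← map_add, S.F_mk, S.F_mk, S.F_mk, ← map_add]
  congr 1
  exact Subtype.ext (funext fun n => S.add _ _)

theorem F_smul (c : ℂ) (x : RU τ₀ UF) : S.F (c • x) = c • S.F x := by
  obtain ⟨x, rfl⟩ := mkU_surjective τ₀ UF x
  rw [← map_smul, S.F_mk, S.F_mk, ← map_smul]
  congr 1
  exact Subtype.ext (funext fun n => S.smul _ _)

theorem F_mul (x y : RU τ₀ UF) : S.F (x * y) = S.F y * S.F x := by
  obtain ⟨x, rfl⟩ := mkU_surjective τ₀ UF x
  obtain ⟨y, rfl⟩ := mkU_surjective τ₀ UF y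
  rw [← map_mul, S.F_mk, S.F_mk, S.F_mk, ← map_mul]
  congr 1
  exact Subtype.ext (funext fun n => S.mul _ _)

theorem F_star (x : RU τ₀ UF) : S.F (Star.star x) = Star.star (S.F x) := by
  obtain ⟨x, rfl⟩ := mkU_surjective τ₀ UF x
  rw [← mkU_star, S.F_mk, S.F_mk, ← mkU_star]
  congr 1
  exact Subtype.ext (funext fun n => S.star _)

theorem F_n2 (x : RU τ₀ UF) : (TU τ₁ UF).n2 (S.F x) = (TU τ₀ UF).n2 x := by
  obtain ⟨x, rfl⟩ := mkU_surjective τ₀ UF x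
  rw [S.F_mk]
  refine tendsto_nhds_unique (tendsto_n2U τ₁ UF (S.seq x)) ?_
  refine Tendsto.congr (fun n => ?_) (tendsto_n2U τ₀ UF x)
  exact (S.n2 _).symm

theorem F_sub (x y : RU τ₀ UF) : S.F (x - y) = S.F x - S.F y := by
  have h := S.F_add (x - y) y
  rw [sub_add_cancel] at h
  exact eq_sub_of_add_eq h.symm

theorem F_cst (a : A) : S.F (mkU τ₀ UF (cst a)) = mkU τ₁ UF (cst (s a)) := by
  rw [S.F_mk]; rfl

theorem F_mem {x : RU τ₀ UF} (hx : x ∈ NC τ₀) : S.F x ∈ NC τ₁ := by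
  intro ε hε
  obtain ⟨a, ha⟩ := hx ε hε
  refine ⟨s a, ?_⟩
  rwa [← S.F_cst, ← S.F_sub, S.F_n2]

theorem F_bd (C : ℝ) (x : RU τ₀ UF) (h : BdU τ₀ UF C x) : BdU τ₁ UF C (S.F x) := by
  obtain ⟨x', rfl, h'⟩ := h
  refine ⟨S.seq x', (S.F_mk x').symm, fun n => ?_⟩
  change ‖s (x'.1 n)‖ ≤ C
  rw [S.norm]
  exact h' n

omit S in
theorem F_F {t : A → A} (S : Anti_S τ₀ τ₁ s) (S' : Anti_S τ₁ τ₀ t) (hts : ∀ a, t (s a) = a)
    (x : RU τ₀ UF) : S'.F (S.F x) = x := by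
  obtain ⟨x, rfl⟩ := mkU_surjective τ₀ UF x
  rw [S.F_mk, S'.F_mk]
  congr 1
  exact Subtype.ext (funext fun n => hts _)

omit S in
/-- The anti-isomorphism of the closures. -/
noncomputable def iso {t : A → A} (S : Anti_S τ₀ τ₁ s) (S' : Anti_S τ₁ τ₀ t)
    (hts : ∀ a, t (s a) = a) (hst : ∀ a, s (t a) = a) : AntiIso (NCT τ₀) (NCT τ₁) where
  f x := ⟨S.F x.1, S.F_mem x.2⟩
  g y := ⟨S'.F y.1, S'.F_mem y.2⟩
  fg y := Subtype.ext (F_F S' S hst y.1)
  gf x := Subtype.ext (F_F S S' hts x.1)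
  add x y := Subtype.ext (S.F_add _ _)
  smul c x := Subtype.ext (S.F_smul _ _)
  mul x y := Subtype.ext (S.F_mul _ _)
  star x := Subtype.ext (S.F_star _)
  n2 x := S.F_n2 _
  bd C x := ⟨fun h => by
    have h1 := S'.F_bd C _ h
    have h2 := F_F S S' hts x.1
    change BdU τ₀ UF C x.1
    rw [← h2]
    exact h1, fun h => S.F_bd C _ h⟩

end Anti_S

/-- **Extension to the closures.** An anti-automorphism `ψ` of `A` which carries the
trace `τ₀` to `τ₁`.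

Proof. `ψ` is isometric (a star isomorphism of C*-algebras: `ψ : A ≃⋆ₐ[ℂ] Aᵐᵒᵖ`,
`NonUnitalStarAlgHom.norm_map` or `StarAlgEquiv.norm_map`; and
`MulOpposite.norm_unop`). Put `s a = (ψ a).unop`; `s` is linear, star preserving,
anti-multiplicative, `τ₁.n2 (s a) = τ₀.n2 a` (`τ₁ (star (s a) * s a) = τ₁ (s (a * star a))
= τ₀ (a * star a) = τ₀ (star a * a)`). Applying `s` termwise to the bounded
sequences gives a map `RU τ₀ UF → RU τ₁ UF` (well defined: `mkU_eq`), linear, star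
preserving, anti-multiplicative, 2-isometric (`tendsto_n2U`), carrying `BdU C` to `BdU C`, the
classes of constants to classes of constants, hence `NC τ₀` to `NC τ₁`. The same with the
inverse `a ↦ ψ.symm (op a)`. (Define the map on `RU` by
`mkU_surjective`/choice: `f x = mkU (s ∘ x')` with `x'` any representative of `x`.) -/
theorem exists_antiIso {A : Type} [CStarAlgebra A] (τ₀ τ₁ : TrState A) (ψ : A ≃⋆ₐ[ℂ] Aᵐᵒᵖ)
    (h : ∀ a, τ₁.tr (ψ a).unop = τ₀.tr a) : Nonempty (AntiIso (NCT τ₀) (NCT τ₁)) := by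
  have hnorm : ∀ a, ‖(ψ a).unop‖ = ‖a‖ := fun a => by
    rw [MulOpposite.norm_unop]
    exact StarAlgEquiv.norm_map ψ a
  have S : Anti_S τ₀ τ₁ (fun a => (ψ a).unop) :=
    { add := fun a b => by simp only [map_add, MulOpposite.unop_add]
      smul := fun c a => by simp only [map_smul, MulOpposite.unop_smul]
      mul := fun a b => by simp only [map_mul, MulOpposite.unop_mul]
      star := fun a => by simp only [map_star, MulOpposite.unop_star]
      norm := hnorm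
      tr := h }
  have hts : ∀ a, ψ.symm (MulOpposite.op (ψ a).unop) = a := fun a => by
    rw [MulOpposite.op_unop, StarAlgEquiv.symm_apply_apply]
  have hst : ∀ a, (ψ (ψ.symm (MulOpposite.op a))).unop = a := fun a => by
    rw [StarAlgEquiv.apply_symm_apply, MulOpposite.unop_op]
  have S' : Anti_S τ₁ τ₀ (fun a => ψ.symm (MulOpposite.op a)) :=
    { add := fun a b => by simp only [MulOpposite.op_add, map_add]
      smul := fun c a => by simp only [MulOpposite.op_smul, map_smul]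
      mul := fun a b => by simp only [MulOpposite.op_mul, map_mul]
      star := fun a => by simp only [MulOpposite.op_star, map_star]
      norm := fun a => by
        rw [← hnorm, hst]
      tr := fun a => by
        rw [← h, hst] }
  exact ⟨Anti_S.iso S S' hts hst⟩

end Pool.Agent.H.MP_e11395_an
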