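import Pool.Agent.H.MP_e11395_an.E.Basic

/-!
# Part E: averaging
-/

set_option autoImplicit false

open Filter Topology
open Pool.Agent.H.MP_43b197_an

namespace Pool.Agent.H.MP_e11395_an

variable {N : Type} [Ring N] [StarRing N] [Algebra ℂ N] [StarModule ℂ N]

/-- The convex hull of the orbit of `ξ`. -/
def Avg_orb {G : Type} (r : G → N →ₗ[ℂ] N) (ξ : N) : Set N :=
  {y | ∃ (n : ℕ) (w : Fin n → ℝ) (g : Fin n → G), (∀ i, 0 ≤ w i) ∧ ∑ i, w i = 1 ∧
      y = ∑ i, ((w i : ℝ) : ℂ) • r (g i) ξ}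

omit [StarRing N] [StarModule ℂ N] in
theorem Avg_mem {G : Type} (r : G → N →ₗ[ℂ] N) (ξ : N) (g : G) : r g ξ ∈ Avg_orb r ξ :=
  ⟨1, fun _ => 1, fun _ => g, by simp, by simp, by simp⟩

omit [StarRing N] [StarModule ℂ N] in
theorem Avg_mid {G : Type} (r : G → N →ₗ[ℂ] N) {ξ a b : N} (ha : a ∈ Avg_orb r ξ)
    (hb : b ∈ Avg_orb r ξ) : (1 / 2 : ℂ) • (a + b) ∈ Avg_orb r ξ := by
  obtain ⟨n, w, u, hw, hs, rfl⟩ := ha
  obtain ⟨m, w', u', hw', hs', rfl⟩ := hb
  refine ⟨n + m, Fin.append (fun i => w i / 2) (fun i => w' i / 2), Fin.append u u', ?_, ?_, ?_⟩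
  · intro i
    refine Fin.addCases (fun i => ?_) (fun i => ?_) i
    · rw [Fin.append_left]; have := hw i; positivity
    · rw [Fin.append_right]; have := hw' i; positivity
  · rw [Fin.sum_univ_add]
    simp only [Fin.append_left, Fin.append_right]
    rw [← Finset.sum_div, ← Finset.sum_div, hs, hs']; norm_num
  · rw [Fin.sum_univ_add]
    simp only [Fin.append_left, Fin.append_right]
    rw [smul_add, Finset.smul_sum, Finset.smul_sum]
    congr 1
    · refine Finset.sum_congr rfl fun i _ => ?_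
      rw [smul_smul]; congr 1; push_cast; ring
    · refine Finset.sum_congr rfl fun i _ => ?_
      rw [smul_smul]; congr 1; push_cast; ring

omit [StarRing N] [StarModule ℂ N] in
theorem Avg_act {G : Type} [Monoid G] (r : G → N →ₗ[ℂ] N)
    (hmul : ∀ g h x, r (g * h) x = r g (r h x)) {ξ a : N} (ha : a ∈ Avg_orb r ξ) (g : G) :
    r g a ∈ Avg_orb r ξ := by
  obtain ⟨n, w, u, hw, hs, rfl⟩ := ha
  refine ⟨n, w, fun i => g * u i, hw, hs, ?_⟩
  rw [map_sum]
  refine Finset.sum_congr rfl fun i _ => ?_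
  rw [map_smul, hmul]

theorem Avg_bd (T : TVN N) {G : Type} (r : G → N →ₗ[ℂ] N)
    (hbd : ∀ g C x, T.Bd C x → T.Bd C (r g x)) {ξ a : N} {D : ℝ} (hx : T.Bd D ξ)
    (ha : a ∈ Avg_orb r ξ) : T.Bd D a := by
  obtain ⟨n, w, u, hw, hs, rfl⟩ := ha
  have key : ∀ s : Finset (Fin n), T.Bd (∑ i ∈ s, w i * D)
      (∑ i ∈ s, ((w i : ℝ) : ℂ) • r (u i) ξ) := by
    intro s
    induction s using Finset.induction_on with
    | empty => simpa using TVN_bd_zero T
    | insert i s hi ih =>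
      rw [Finset.sum_insert hi, Finset.sum_insert hi]
      refine T.bd_add _ _ _ _ ?_ ih
      have h2 := T.bd_smul _ _ ((w i : ℝ) : ℂ) (hbd (u i) _ _ hx)
      rw [Complex.norm_real, Real.norm_of_nonneg (hw i)] at h2
      exact h2
  have := key Finset.univ
  rwa [← Finset.sum_mul, hs, one_mul] at this

theorem Avg_near (T : TVN N) {G : Type} (r : G → N →ₗ[ℂ] N) {ξ a : N} {δ : ℝ}
    (hδ : ∀ g, T.n2 (r g ξ - ξ) ≤ δ) (ha : a ∈ Avg_orb r ξ) : T.n2 (a - ξ) ≤ δ := by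
  obtain ⟨n, w, u, hw, hs, rfl⟩ := ha
  have h1 : ∑ i, ((w i : ℝ) : ℂ) • r (u i) ξ - ξ =
      ∑ i, ((w i : ℝ) : ℂ) • (r (u i) ξ - ξ) := by
    simp only [smul_sub]
    rw [Finset.sum_sub_distrib, ← Finset.sum_smul, ← Complex.ofReal_sum, hs, Complex.ofReal_one,
      one_smul]
  rw [h1]
  calc T.n2 (∑ i, ((w i : ℝ) : ℂ) • (r (u i) ξ - ξ))
      ≤ ∑ i, T.n2 (((w i : ℝ) : ℂ) • (r (u i) ξ - ξ)) := T.n2_sum_le _ _
    _ ≤ ∑ i, w i * δ := by
        refine Finset.sum_le_sum fun i _ => ?_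
        rw [T.n2_smul, Complex.norm_real, Real.norm_of_nonneg (hw i)]
        exact mul_le_mul_of_nonneg_left (hδ _) (hw i)
    _ = δ := by rw [← Finset.sum_mul, hs, one_mul]

/-- **Averaging.** A monoid acting linearly by contractions of the 2-norm which preserve the balls,
and an element `ξ` of the ball of radius `C` which is moved by at most `δ` by every element of the
monoid; then there is a fixed point `V` in the ball of radius `C` within `δ` of `ξ`.

Proof. Let `O` be the (real) convex hull of the orbit of `ξ` and `K` the set of the elements `x`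
with `Bd C x` which are within every `ε > 0` of `O` in the 2-norm. `K` is a nonempty convex
complete (by `T.complete`) subset of the pre-Hilbert space `T.L2`, invariant under all `r g`, and
`n2 (x - ξ) ≤ δ` for `x ∈ K`. Let `V` be its element of minimal norm
(`exists_norm_eq_iInf_of_complete_convex` with `u = 0`, over `ℝ`). `r g V ∈ K` has
norm at most that of `V`, so it is also minimal; the midpoint is in `K`; the parallelogram law
gives `r g V = V`. -/
theorem TVN_avg (T : TVN N) {G : Type} [Monoid G] (r : G → N →ₗ[ℂ] N)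
    (hmul : ∀ g h x, r (g * h) x = r g (r h x)) (h2 : ∀ g x, T.n2 (r g x) ≤ T.n2 x)
    (hbd : ∀ g C x, T.Bd C x → T.Bd C (r g x)) {C δ : ℝ} (ξ : N) (hξ : T.Bd C ξ)
    (hδ : ∀ g, T.n2 (r g ξ - ξ) ≤ δ) :
    ∃ V, T.Bd C V ∧ T.n2 (V - ξ) ≤ δ ∧ ∀ g, r g V = V := by
  set S : Set ℝ := T.n2 '' Avg_orb r ξ with hS
  have hSne : S.Nonempty := ⟨_, r 1 ξ, Avg_mem r ξ 1, rfl⟩
  have hSb : BddBelow S := ⟨0, by rintro _ ⟨y, _, rfl⟩; exact T.n2_nonneg y⟩
  set d : ℝ := sInf S with hd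
  have hd0 : 0 ≤ d := le_csInf hSne (by rintro _ ⟨y, _, rfl⟩; exact T.n2_nonneg y)
  have hdle : ∀ y ∈ Avg_orb r ξ, d ≤ T.n2 y := fun y hy => csInf_le hSb ⟨y, hy, rfl⟩
  have par : ∀ a ∈ Avg_orb r ξ, ∀ b ∈ Avg_orb r ξ,
      T.n2 (a - b) ^ 2 ≤ 2 * (T.n2 a ^ 2 - d ^ 2) + 2 * (T.n2 b ^ 2 - d ^ 2) := by
    intro a ha b hb
    have h1 := parallelogram_law_with_norm ℂ (T.toL2 a) (T.toL2 b)
    rw [← map_add, ← map_sub, T.norm_toL2, T.norm_toL2, T.norm_toL2, T.norm_toL2] at h1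
    have h2 := hdle _ (Avg_mid r ha hb)
    rw [T.n2_smul] at h2
    norm_num at h2
    have h3 : 2 * d ≤ T.n2 (a + b) := by linarith
    nlinarith [mul_self_le_mul_self (by linarith : (0 : ℝ) ≤ 2 * d) h3]
  have hex : ∀ n : ℕ, ∃ y ∈ Avg_orb r ξ, T.n2 y ^ 2 < d ^ 2 + 1 / ((n : ℝ) + 1) := by
    intro n
    have h1 : d < Real.sqrt (d ^ 2 + 1 / ((n : ℝ) + 1)) := by
      apply Real.lt_sqrt_of_sq_lt
      have : (0 : ℝ) < 1 / ((n : ℝ) + 1) := by positivity
      linarith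
    obtain ⟨_, ⟨y, hy, rfl⟩, hlt⟩ := exists_lt_of_csInf_lt hSne h1
    refine ⟨y, hy, ?_⟩
    have h2 : (0 : ℝ) ≤ d ^ 2 + 1 / ((n : ℝ) + 1) := by positivity
    calc T.n2 y ^ 2 < Real.sqrt (d ^ 2 + 1 / ((n : ℝ) + 1)) ^ 2 :=
          pow_lt_pow_left₀ hlt (T.n2_nonneg y) two_ne_zero
      _ = _ := Real.sq_sqrt h2
  choose y hy hylt using hex
  have hlim0 : Tendsto (fun n : ℕ => 1 / ((n : ℝ) + 1)) atTop (𝓝 0) :=
    tendsto_one_div_add_atTop_nhds_zero_nat
  obtain ⟨z, hzD, hz⟩ := T.complete C y (fun n => Avg_bd T r hbd hξ (hy n)) (by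
    intro ε hε
    have hε2 : (0 : ℝ) < ε ^ 2 / 4 := by positivity
    obtain ⟨N, hN⟩ := (hlim0.eventually (gt_mem_nhds hε2)).exists_forall_of_atTop
    refine ⟨N, fun m hm n hn => ?_⟩
    have h1 := par _ (hy m) _ (hy n)
    have h2 := hylt m
    have h3 := hylt n
    have h4 := hN m hm
    have h5 := hN n hn
    have h6 : T.n2 (y m - y n) ^ 2 < ε ^ 2 := by linarith
    exact lt_of_pow_lt_pow_left₀ 2 hε.le h6)
  refine ⟨z, hzD, ?_, ?_⟩
  · have h1 : ∀ n, T.n2 (z - ξ) ≤ T.n2 (y n - z) + δ := by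
      intro n
      have h2 := T.n2_sub_le_sub z (y n) ξ
      have h3 := Avg_near T r hδ (hy n)
      rw [T.n2_sub_comm z (y n)] at h2
      linarith
    have h2 : Tendsto (fun n => T.n2 (y n - z) + δ) atTop (𝓝 δ) := by
      have := hz.add_const δ
      rwa [zero_add] at this
    exact ge_of_tendsto' h2 h1
  · intro g
    have hsmall : ∀ n, T.n2 (z - r g z) ≤
        2 * T.n2 (y n - z) + Real.sqrt (4 * (1 / ((n : ℝ) + 1))) := by
      intro n
      have h1 := T.n2_sub_le_sub z (y n) (r g z)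
      have h2' := T.n2_sub_le_sub (y n) (r g (y n)) (r g z)
      have h3 : T.n2 (r g (y n) - r g z) ≤ T.n2 (y n - z) := by
        rw [← map_sub]; exact h2 g _
      have h4 : T.n2 (y n - r g (y n)) ≤ Real.sqrt (4 * (1 / ((n : ℝ) + 1))) := by
        apply Real.le_sqrt_of_sq_le
        have h6 := par _ (hy n) _ (Avg_act r hmul (hy n) g)
        have h5 := hylt n
        have h7 : T.n2 (r g (y n)) ^ 2 ≤ T.n2 (y n) ^ 2 :=
          pow_le_pow_left₀ (T.n2_nonneg _) (h2 g _) 2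
        linarith
      rw [T.n2_sub_comm z (y n)] at h1
      linarith
    have hl : Tendsto (fun n : ℕ => 2 * T.n2 (y n - z) + Real.sqrt (4 * (1 / ((n : ℝ) + 1))))
        atTop (𝓝 0) := by
      have h1 : Tendsto (fun n : ℕ => Real.sqrt (4 * (1 / ((n : ℝ) + 1)))) atTop (𝓝 0) := by
        have := (hlim0.const_mul 4).sqrt
        simpa using this
      have h2 := (hz.const_mul 2).add h1
      simpa using h2
    have h0 : T.n2 (z - r g z) = 0 :=
      le_antisymm (ge_of_tendsto' hl hsmall) (T.n2_nonneg _)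
    rw [T.n2_eq_zero, sub_eq_zero] at h0
    exact h0.symm

end Pool.Agent.H.MP_e11395_an
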