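import Pool.Agent.H.MP_43b197_an.TVNU
import Pool.Agent.H.MP_43b197_an.TVNSub
import Pool.Agent.H.MP_43b197_an.CompareAux

/-!
# Part E: basic facts on tracial von Neumann algebras
-/

set_option autoImplicit false

open Filter Topology
open Pool.Agent.H.MP_43b197_an

namespace Pool.Agent.H.MP_e11395_an

variable {N : Type} [Ring N] [StarRing N] [Algebra ℂ N] [StarModule ℂ N]

theorem TVN_bd_one (T : TVN N) : T.Bd 1 (1 : N) := T.bd_unitary (one_mem _)

theorem TVN_bd_neg (T : TVN N) {C : ℝ} {x : N} (h : T.Bd C x) : T.Bd C (-x) := by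
  have := T.bd_smul C x (-1) h
  simpa using this

theorem TVN_bd_sub (T : TVN N) {C D : ℝ} {x y : N} (h : T.Bd C x) (h' : T.Bd D y) :
    T.Bd (C + D) (x - y) := by
  rw [sub_eq_add_neg]
  exact T.bd_add C D x (-y) h (TVN_bd_neg T h')

theorem TVN_bd_zero (T : TVN N) : T.Bd 0 (0 : N) := by
  have := T.bd_smul 1 1 0 (TVN_bd_one T)
  simpa using this

/-- `‖x y‖₂ ≤ ‖x‖₂ ‖y‖`. -/
theorem TVN_mul_le (T : TVN N) {C : ℝ} {y : N} (hy : T.Bd C y) (x : N) :
    T.n2 (x * y) ≤ C * T.n2 x := PolarAux.n2_mul_le' T hy x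

/-- A 2-norm limit of elements of the ball of radius `C` lies in the ball of radius `C`. -/
theorem TVN_bd_lim (T : TVN N) {C : ℝ} {x : ℕ → N} {y : N} (hx : ∀ n, T.Bd C (x n))
    (h : T.CLim x y) : T.Bd C y := by
  obtain ⟨y', hy', hlim⟩ := T.complete C x hx (by
    intro ε hε
    have h' := h.eventually (gt_mem_nhds (half_pos hε))
    obtain ⟨n0, hn0⟩ := eventually_atTop.1 h'
    refine ⟨n0, fun m hm n hn => ?_⟩
    have h1 := hn0 m hm
    have h2 := hn0 n hn
    have h3 := T.n2_sub_le_sub (x m) y (x n)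
    rw [T.n2_sub_comm y (x n)] at h3
    linarith)
  rwa [TVN.CLim.unique h hlim]

/-- A projection has `Bd 1`. -/
theorem TVN_bd_proj (T : TVN N) {z : N} (hz : IsStarProjection z) : T.Bd 1 z :=
  T.bd_pisom z (by rw [hz.isSelfAdjoint.star_eq, hz.isIdempotentElem.eq]; exact hz)

end Pool.Agent.H.MP_e11395_an
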