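import Pool.Agent.H.MP_e11395_an.E.BrCom

/-!
# Part E, bridge: the right end
-/

set_option autoImplicit false
set_option linter.unusedSectionVars false

open Filter Topology
open Pool.Agent.H.MP_43b197_an

namespace Pool.Agent.H.MP_e11395_an

variable {d : ℕ → ℕ} {T : TowerData d} {B : Type} [CStarAlgebra B] {C : ConeAlg d B}
  {A : Type} [CStarAlgebra A] {R : ∀ n, T.Bk B n →⋆ₐ[ℂ] A}
  {E : Type} [CStarAlgebra E] {τ : TrState E} {τA : TrState A}

/-- The matrix `g` with `f 1 = g ⊗ 1`. -/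
noncomputable def un1 (n : ℕ) (f : T.Bk B n) : Mt (Fin (T.q n)) B :=
  Mt.of fun i j => f.val 1 ((T.e₁ n).symm (i, ⟨0, T.p_pos n⟩)) ((T.e₁ n).symm (j, ⟨0, T.p_pos n⟩))

/-- `f ∈ T.Bl B n` says `f 1 = amp g` for some `g`, and then `g = un1 n f`. -/
theorem amp_un1 (n : ℕ) (f : T.Bk B n) : Mt.amp (T.e₁ n) (un1 n f) = f.val 1 := by
  obtain ⟨_, ⟨g, hg⟩⟩ := T.mem_Bl.1 f.val_mem
  have h : un1 n f = g := by
    refine Mt.ext fun i j => ?_
    change f.val 1 ((T.e₁ n).symm (i, ⟨0, T.p_pos n⟩))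
      ((T.e₁ n).symm (j, ⟨0, T.p_pos n⟩)) = g i j
    rw [← hg, Mt.amp_apply]
    simp
  rw [h, hg]

/-- `Mt.amp` is injective (`p n > 0`). -/
theorem amp_inj1 (n : ℕ) : Function.Injective
    (Mt.amp (T.e₁ n) : Mt (Fin (T.q n)) B →⋆ₐ[ℂ] Mt (Fin (T.r n)) B) := by
  intro M N h
  refine Mt.ext fun i j => ?_
  have h1 := congrArg (fun F : Mt (Fin (T.r n)) B =>
    F ((T.e₁ n).symm (i, ⟨0, T.p_pos n⟩)) ((T.e₁ n).symm (j, ⟨0, T.p_pos n⟩))) h
  simpa [Mt.amp_apply] using h1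

/-- Evaluation at the right end, followed by `q`. The fields: apply `amp_inj1` to `un1` of
products etc. (`amp_un1`), and `Mt.map q` is a star homomorphism. -/
noncomputable def th1 (T : TowerData d) (q : B →⋆ₐ[ℂ] E) (n : ℕ) :
    T.Bk B n →⋆ₐ[ℂ] Mt (Fin (T.q n)) E where
  toFun f := Mt.map q (un1 n f)
  map_one' := by
    have h : un1 n (1 : T.Bk B n) = 1 := amp_inj1 n (by
      rw [amp_un1]
      exact (map_one (Mt.amp (T.e₁ n) : Mt (Fin (T.q n)) B →⋆ₐ[ℂ] Mt (Fin (T.r n)) B)).symm)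
    rw [h, map_one]
  map_mul' f g := by
    have h : un1 n (f * g) = un1 n f * un1 n g :=
      amp_inj1 n (by rw [amp_un1, map_mul, amp_un1, amp_un1]; rfl)
    rw [h, map_mul]
  map_zero' := by
    have h : un1 n (0 : T.Bk B n) = 0 := amp_inj1 n (by
      rw [amp_un1]
      exact (map_zero (Mt.amp (T.e₁ n) : Mt (Fin (T.q n)) B →⋆ₐ[ℂ] Mt (Fin (T.r n)) B)).symm)
    rw [h, map_zero]
  map_add' f g := by
    have h : un1 n (f + g) = un1 n f + un1 n g :=
      amp_inj1 n (by rw [amp_un1, map_add, amp_un1, amp_un1]; rfl)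
    rw [h, map_add]
  commutes' c := by
    have h : un1 n (algebraMap ℂ (T.Bk B n) c) = algebraMap ℂ _ c :=
      amp_inj1 n (by
        rw [amp_un1, AlgHomClass.commutes (Mt.amp (T.e₁ n) :
          Mt (Fin (T.q n)) B →⋆ₐ[ℂ] Mt (Fin (T.r n)) B) c]
        rfl)
    rw [h]
    exact AlgHomClass.commutes (Mt.map q : Mt (Fin (T.q n)) B →⋆ₐ[ℂ] Mt (Fin (T.q n)) E) c
  map_star' f := by
    have h : un1 n (star f) = star (un1 n f) :=
      amp_inj1 n (by rw [amp_un1, map_star, amp_un1]; rfl)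
    rw [h, map_star]

/-- The connecting map at the right end: `un1 (Φ f) = reindex (Z₁ n) (two (μ₁ n) (un1 f) M)` for some
`M`.

Proof. `(Φ f).val 1 = reindex (E n) (slot m a b (f 1) M (cpath ..))` (`Φ_val`, `PhiC_apply`), with
`M = piAmp (C.π (sel n)) (f ξ)`; `cpath` at `1` is `piAmp (C.π _) (map (C.h (cPar 1)) (f ξ))`
(`if_neg`), `cPar 1 = 1`, `C.h 1 = id` (`h_one`), so it is `M`. With `f 1 = amp (un1 f)`, `T.compat₁`
gives `(Φ f).val 1 = amp (e₁ (n+1)) (reindex (Z₁ n) (two (μ₁ n) (un1 f) M))`; `amp_un1`, `amp_inj1`. -/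
theorem un1_Φ (C : ConeAlg d B) (n : ℕ) (f : T.Bk B n) :
    ∃ M, un1 (n + 1) (T.Φ C n f) = Mt.reindex (T.Z₁ n) (two (T.μ₁ n) (un1 n f) M) := by
  refine ⟨piAmp (C.π (T.sel n)) (f.val (T.ξ n)), ?_⟩
  apply amp_inj1
  rw [amp_un1, ← T.compat₁ n B (un1 n f) (piAmp (C.π (T.sel n)) (f.val (T.ξ n))), amp_un1,
    TowerData.Φ_val, TowerData.PhiC_apply, TowerData.Tower_cpath_one]

/-- **The tower at the right end.**

Proof. `θ = th1`. `θ_surj`: lift `b` to `g : Mt (Fin (q n)) B` (`map_surj`) and take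
`f y = y • amp (e₁ n) g`, which is in `T.Bl B n` (`f 0 = 0`). `θ_Φ`: `un1_Φ`, `map_reindex`,
`map_two`. `tr_le`: `IsPt.le` with `ε n = (1/8)^n`; `mtr (f.val 1) = mtr (amp (un1 f)) = mtr (un1 f)`
(`mtr_amp`, `Nonempty (Fin (p n))`), `tauM_map`, `pull_apply`. `compat`, `dense`: `IsLimit`. -/
theorem exists_tower1 (lim : T.IsLimit C A R) {q : B →⋆ₐ[ℂ] E} (hq : Function.Surjective q)
    (hσ : IsTr (pull τ.tr q)) (h : IsPt C R τA 1 (pull τ.tr q)) :
    Nonempty (TraceTower A τA (tow1 T) E τ) := by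
  refine ⟨{ X := T.Bk B, R := R, Φ := T.Φ C, compat := lim.compat, dense := lim.dense,
            θ := th1 T q, θ_surj := ?_, θ_Φ := ?_, ε := fun n => (1 / 8 : ℝ) ^ n,
            ε_lim := ?_, tr_le := ?_ }⟩
  · intro n b
    obtain ⟨g, hg⟩ := map_surj hq (T.q n) b
    have hc : Continuous fun y : unitInterval =>
        (((y : ℝ)) : ℂ) • (Mt.amp (T.e₁ n) g : Mt (Fin (T.r n)) B) := by
      have h0 : Continuous fun y : unitInterval => (((y : ℝ)) : ℂ) :=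
        Complex.continuous_ofReal.comp continuous_subtype_val
      exact h0.smul continuous_const
    refine ⟨TowerData.Bk.mk ⟨_, hc⟩ ?_, ?_⟩
    · rw [TowerData.mem_Bl]
      refine ⟨⟨0, ?_⟩, ⟨g, ?_⟩⟩
      · change Mt.amp (T.e₀ n) 0 =
          ((((0 : unitInterval) : ℝ)) : ℂ) • Mt.amp (T.e₁ n) g
        simp
      · change Mt.amp (T.e₁ n) g =
          ((((1 : unitInterval) : ℝ)) : ℂ) • Mt.amp (T.e₁ n) g
        simp
    · change Mt.map q (un1 n _) = b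
      rw [← hg]
      congr 1
      apply amp_inj1
      rw [amp_un1]
      change ((((1 : unitInterval) : ℝ)) : ℂ) • Mt.amp (T.e₁ n) g =
        Mt.amp (T.e₁ n) g
      simp
  · intro n f
    obtain ⟨M, hM⟩ := un1_Φ C n f
    obtain ⟨c, hc⟩ := map_two q (T.μ₁ n) (un1 n f) M
    refine ⟨c, ?_⟩
    change Mt.map q (un1 (n + 1) (T.Φ C n f)) =
      Mt.reindex (T.Z₁ n) (blk 1 (Mt.map q (un1 n f)) c)
    rw [hM, map_reindex, hc]
  · exact tendsto_pow_atTop_nhds_zero_of_lt_one (by norm_num) (by norm_num)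
  · intro n f
    have : Nonempty (Fin (T.p n)) := ⟨⟨0, T.p_pos n⟩⟩
    have h2 : tauM τ (th1 T q n f) = (pull τ.tr q) (mtr (f.val 1)) := by
      change tauM τ (Mt.map q (un1 n f)) = _
      rw [tauM_map, ← amp_un1, mtr_amp]
      rfl
    have h3 := h.le hσ n f
    rw [← h2] at h3
    exact h3

end Pool.Agent.H.MP_e11395_an
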