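import Pool.Agent.H.MP_e11395_an.E.Basic

/-!
# Part E: twisted systems, their representations, and approximately inner centrally trivial
endomorphisms
-/

set_option autoImplicit false

open Filter Topology
open Pool.Agent.H.MP_43b197_an

namespace Pool.Agent.H.MP_e11395_an

/-- A twisted system: an abelian group `Q` acting on a group `F`, a bicharacter `b` of `Q` (which
is used as a 2-cocycle), an exhaustion of `Q` by finite subgroups. -/
structure TwSys (F Q : Type) [Group F] [AddCommGroup Q] where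
  act : Q → F → F
  act_mul : ∀ q f g, act q (f * g) = act q f * act q g
  act_zero : ∀ f, act 0 f = f
  act_add : ∀ p q f, act (p + q) f = act p (act q f)
  b : Q → Q → ℂ
  b_norm : ∀ p q, ‖b p q‖ = 1
  b_add_left : ∀ p p' q, b (p + p') q = b p q * b p' q
  b_add_right : ∀ p q q', b p (q + q') = b p q * b p q'
  fil : ℕ → AddSubgroup Q
  fil_mono : Monotone fil
  fil_fin : ∀ n, (fil n : Set Q).Finite
  fil_exh : ∀ q, ∃ n, q ∈ fil n
  /-- the kernel of the action has finite index -/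
  ker_idx : ∃ S : Finset Q, ∀ q : Q, ∃ s ∈ S, ∀ f, act (q - s) f = f
  /-- nondegeneracy on the kernel of the action -/
  nondeg : ∀ k, (∀ f, act k f = f) → (∀ q, b k q = b q k) → k = 0

namespace TwSys

variable {F Q : Type} [Group F] [AddCommGroup Q] (S : TwSys F Q)

theorem act_one (q : Q) : S.act q 1 = 1 := by
  have := S.act_mul q 1 1
  simpa using this

theorem act_inv (q : Q) (f : F) : S.act q f⁻¹ = (S.act q f)⁻¹ := by
  rw [eq_inv_iff_mul_eq_one, ← S.act_mul, inv_mul_cancel, S.act_one]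

theorem act_neg_act (q : Q) (f : F) : S.act (-q) (S.act q f) = f := by
  rw [← S.act_add, neg_add_cancel, S.act_zero]

theorem act_act_neg (q : Q) (f : F) : S.act q (S.act (-q) f) = f := by
  rw [← S.act_add, add_neg_cancel, S.act_zero]

theorem b_ne_zero (p q : Q) : S.b p q ≠ 0 := by
  intro h
  have := S.b_norm p q
  rw [h, norm_zero] at this
  exact zero_ne_one this

theorem b_zero_left (q : Q) : S.b 0 q = 1 := by
  have := S.b_add_left 0 0 q
  rw [add_zero] at this
  exact (mul_eq_left₀ (S.b_ne_zero 0 q)).1 this.symm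

theorem b_zero_right (q : Q) : S.b q 0 = 1 := by
  have := S.b_add_right q 0 0
  rw [add_zero] at this
  exact (mul_eq_left₀ (S.b_ne_zero q 0)).1 this.symm

/-- The commutation bicharacter. -/
noncomputable def β (p q : Q) : ℂ := S.b p q / S.b q p

theorem β_norm (p q : Q) : ‖S.β p q‖ = 1 := by
  rw [β, norm_div, S.b_norm, S.b_norm, div_one]

theorem β_ne_zero (p q : Q) : S.β p q ≠ 0 := by
  intro h
  have := S.β_norm p q
  rw [h, norm_zero] at this
  exact zero_ne_one this

theorem β_add_left (p p' q : Q) : S.β (p + p') q = S.β p q * S.β p' q := by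
  rw [β, β, β, S.b_add_left, S.b_add_right, mul_div_mul_comm]

theorem β_add_right (p q q' : Q) : S.β p (q + q') = S.β p q * S.β p q' := by
  rw [β, β, β, S.b_add_left, S.b_add_right, mul_div_mul_comm]

theorem β_zero_left (q : Q) : S.β 0 q = 1 := by
  rw [β, S.b_zero_left, S.b_zero_right, div_one]

theorem β_zero_right (q : Q) : S.β q 0 = 1 := by
  rw [β, S.b_zero_left, S.b_zero_right, div_one]

theorem β_self (q : Q) : S.β q q = 1 := div_self (S.b_ne_zero q q)

theorem β_swap (p q : Q) : S.β p q * S.β q p = 1 := by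
  have h1 := S.b_ne_zero p q
  have h2 := S.b_ne_zero q p
  rw [β, β]; field_simp

theorem β_eq_one_iff (p q : Q) : S.β p q = 1 ↔ S.b p q = S.b q p := by
  rw [β, div_eq_one_iff_eq (S.b_ne_zero q p)]

/-- The kernel of the action. -/
def K : AddSubgroup Q where
  carrier := {k | ∀ f, S.act k f = f}
  zero_mem' := S.act_zero
  add_mem' {p q} hp hq f := by
    rw [S.act_add, hq, hp]
  neg_mem' {p} hp f := by
    have := S.act_neg_act p f
    rwa [hp f] at this

theorem mem_K {k : Q} : k ∈ S.K ↔ ∀ f, S.act k f = f := Iff.rfl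

/-- The elements of the kernel which commute with the finite subgroup `fil n`. -/
def Hn (n : ℕ) : AddSubgroup Q where
  carrier := {k | k ∈ S.K ∧ ∀ q ∈ S.fil n, S.β k q = 1}
  zero_mem' := ⟨S.K.zero_mem, fun q _ => S.β_zero_left q⟩
  add_mem' {p q} hp hq := ⟨S.K.add_mem hp.1 hq.1, fun r hr => by
    rw [S.β_add_left, hp.2 r hr, hq.2 r hr, one_mul]⟩
  neg_mem' {p} hp := ⟨S.K.neg_mem hp.1, fun r hr => by
    have h := S.β_add_left p (-p) r
    rw [add_neg_cancel, S.β_zero_left, hp.2 r hr, one_mul] at h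
    exact h.symm⟩

theorem mem_Hn {n : ℕ} {k : Q} : k ∈ S.Hn n ↔ k ∈ S.K ∧ ∀ q ∈ S.fil n, S.β k q = 1 := Iff.rfl

theorem Hn_le_K (n : ℕ) : S.Hn n ≤ S.K := fun _ h => h.1

end TwSys

/-! ### Spectral gap of the action on `F` -/

/-- The square of the `ℓ²` norm of a finitely supported function. -/
noncomputable def nsq {X : Type} (ξ : X →₀ ℂ) : ℝ := ξ.sum fun _ a => ‖a‖ ^ 2

/-- `f ↦ ξ (g⁻¹ * f * act q g)`. -/
noncomputable def TwSys.tw {F Q : Type} [Group F] [AddCommGroup Q] (S : TwSys F Q) (q : Q) (g : F)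
    (ξ : F →₀ ℂ) : F →₀ ℂ := ξ.mapDomain fun f => g * f * (S.act q g)⁻¹

/-- Spectral gap (non inner amenability), uniform in `q`. -/
def TwSys.HasGap {F Q : Type} [Group F] [AddCommGroup Q] (S : TwSys F Q) (Sf : Finset F)
    (C : ℝ) : Prop :=
  0 ≤ C ∧ ∀ (q : Q) (ξ : F →₀ ℂ), (q ∈ S.K → ξ 1 = 0) →
    nsq ξ ≤ C * ∑ g ∈ Sf, nsq (S.tw q g ξ - ξ)

/-! ### Twisted systems in C*-algebras -/

/-- A C*-algebra `E` with a tracial state generated by a twisted system: unitaries `u f` and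
`v q`, orthogonal with respect to the trace, with dense span. -/
structure Gen {F Q : Type} [Group F] [AddCommGroup Q] (S : TwSys F Q) (E : Type) [CStarAlgebra E]
    (τ : TrState E) where
  u : F → E
  v : Q → E
  u_one : u 1 = 1
  u_mul : ∀ f g, u (f * g) = u f * u g
  u_star : ∀ f, star (u f) = u f⁻¹
  v_zero : v 0 = 1
  v_mul : ∀ p q, v p * v q = S.b p q • v (p + q)
  v_star_mul : ∀ q, star (v q) * v q = 1
  v_mul_star : ∀ q, v q * star (v q) = 1
  vu : ∀ q f, v q * u f = u (S.act q f) * v q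
  tr_one : τ.tr (u 1 * v 0) = 1
  tr_ne : ∀ f q, (f, q) ≠ (1, 0) → τ.tr (u f * v q) = 0
  dense : ∀ (x : E) (ε : ℝ), 0 < ε → ∃ c : F × Q →₀ ℂ,
    ‖(c.sum fun y a => a • (u y.1 * v y.2)) - x‖ < ε

/-! ### Twisted systems in corners of tracial von Neumann algebras -/

/-- A representation of a twisted system in a corner of a tracial von Neumann algebra `N`, with
dense span in the corner, with the asymptotically central extensions `W n k`. -/
structure TwRep {N : Type} [Ring N] [StarRing N] [Algebra ℂ N] [StarModule ℂ N] (T : TVN N)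
    {F Q : Type} [Group F] [AddCommGroup Q] (S : TwSys F Q) where
  z : N
  U : F → N
  V : Q → N
  t : ℝ
  t_pos : 0 < t
  U_one : U 1 = z
  V_zero : V 0 = z
  U_mul : ∀ f g, U (f * g) = U f * U g
  U_star : ∀ f, star (U f) = U f⁻¹
  V_mul : ∀ p q, V p * V q = S.b p q • V (p + q)
  V_star_mul : ∀ q, star (V q) * V q = z
  V_mul_star : ∀ q, V q * star (V q) = z
  VU : ∀ q f, V q * U f = U (S.act q f) * V q
  tr_one : T.tr z = t
  tr_ne : ∀ f q, (f, q) ≠ (1, 0) → T.tr (U f * V q) = 0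
  dense : ∀ x : N, z * x * z = x → ∀ ε : ℝ, 0 < ε → ∃ c : F × Q →₀ ℂ,
    T.n2 ((c.sum fun y a => a • (U y.1 * V y.2)) - x) < ε
  W : ℕ → Q → N
  W_bd : ∀ n, ∀ k ∈ S.Hn n, T.Bd 1 (W n k)
  W_mul : ∀ n, ∀ k ∈ S.Hn n, W n k * z = V k
  mul_W : ∀ n, ∀ k ∈ S.Hn n, z * W n k = V k
  asy : ∀ (x : N) (ε : ℝ), 0 < ε → ∃ n₀, ∀ n, n₀ ≤ n → ∀ k ∈ S.Hn n,
    T.n2 (W n k * x - x * W n k) < ε

namespace TwRep

variable {N : Type} [Ring N] [StarRing N] [Algebra ℂ N] [StarModule ℂ N] {T : TVN N}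
  {F Q : Type} [Group F] [AddCommGroup Q] {S : TwSys F Q} (R : TwRep T S)

theorem z_mul_z : R.z * R.z = R.z := by
  have := R.U_mul 1 1
  rw [mul_one, R.U_one] at this
  exact this.symm

theorem z_star : star R.z = R.z := by
  have := R.U_star 1
  rwa [inv_one, R.U_one] at this

theorem z_proj : IsStarProjection R.z := ⟨R.z_mul_z, R.z_star⟩

theorem U_mul_z (f : F) : R.U f * R.z = R.U f := by
  rw [← R.U_one, ← R.U_mul, mul_one]

theorem z_mul_U (f : F) : R.z * R.U f = R.U f := by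
  rw [← R.U_one, ← R.U_mul, one_mul]

theorem V_mul_z (q : Q) : R.V q * R.z = R.V q := by
  rw [← R.V_zero, R.V_mul, S.b_zero_right, one_smul, add_zero]

theorem z_mul_V (q : Q) : R.z * R.V q = R.V q := by
  rw [← R.V_zero, R.V_mul, S.b_zero_left, one_smul, zero_add]

theorem VV (p q : Q) : R.V p * R.V q = S.β p q • (R.V q * R.V p) := by
  rw [R.V_mul, R.V_mul, smul_smul, TwSys.β, div_mul_cancel₀ _ (S.b_ne_zero q p), add_comm p q]

theorem U_bd (f : F) : T.Bd 1 (R.U f) :=
  T.bd_pisom _ (by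
    rw [R.U_star, ← R.U_mul, inv_mul_cancel, R.U_one]; exact R.z_proj)

theorem V_bd (q : Q) : T.Bd 1 (R.V q) :=
  T.bd_pisom _ (by rw [R.V_star_mul]; exact R.z_proj)

/-- The element with given coefficients. -/
noncomputable def elt (c : F × Q →₀ ℂ) : N := c.sum fun y a => a • (R.U y.1 * R.V y.2)

/-- The element of the span of the `V k` with given coefficients. -/
noncomputable def vlt (c : Q →₀ ℂ) : N := c.sum fun k a => a • R.V k

theorem V_mul_star_V (p q : Q) : R.V p * star (R.V q) = (S.b (p - q) q)⁻¹ • R.V (p - q) := by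
  have h : R.V (p - q) * R.V q = S.b (p - q) q • R.V p := by
    rw [R.V_mul, sub_add_cancel]
  have h2 : R.V p = (S.b (p - q) q)⁻¹ • (R.V (p - q) * R.V q) := by
    rw [h, smul_smul, inv_mul_cancel₀ (S.b_ne_zero _ _), one_smul]
  rw [h2, smul_mul_assoc, mul_assoc, R.V_mul_star, R.V_mul_z]

open Classical in
/-- Orthogonality. -/
theorem tr_star_mul (y y' : F × Q) :
    T.tr (star (R.U y.1 * R.V y.2) * (R.U y'.1 * R.V y'.2)) = if y = y' then (R.t : ℂ) else 0 := by
  obtain ⟨f, q⟩ := y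
  obtain ⟨f', q'⟩ := y'
  simp only
  rw [star_mul, R.U_star, mul_assoc, ← mul_assoc (R.U f⁻¹), ← R.U_mul, T.comm, mul_assoc,
    R.V_mul_star_V, mul_smul_comm, map_smul, smul_eq_mul]
  by_cases h : (f, q) = (f', q')
  · rw [if_pos h]
    obtain ⟨rfl, rfl⟩ := Prod.mk.inj h
    rw [inv_mul_cancel, sub_self, S.b_zero_left, R.U_one, R.V_zero, R.z_mul_z, R.tr_one, inv_one,
      one_mul]
  · rw [if_neg h, R.tr_ne, mul_zero]
    intro h'
    obtain ⟨h1, h2⟩ := Prod.mk.inj h'
    exact h (Prod.ext (inv_mul_eq_one.1 h1) (sub_eq_zero.1 h2).symm)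

theorem elt_add (c d : F × Q →₀ ℂ) : R.elt (c + d) = R.elt c + R.elt d :=
  Finsupp.sum_add_index' (fun _ => zero_smul _ _) fun _ _ _ => add_smul _ _ _

theorem elt_single (y : F × Q) (a : ℂ) :
    R.elt (Finsupp.single y a) = a • (R.U y.1 * R.V y.2) :=
  Finsupp.sum_single_index (zero_smul _ _)

theorem elt_sub (c d : F × Q →₀ ℂ) : R.elt (c - d) = R.elt c - R.elt d :=
  Finsupp.sum_sub_index fun _ _ _ => sub_smul _ _ _

theorem vlt_add (c d : Q →₀ ℂ) : R.vlt (c + d) = R.vlt c + R.vlt d :=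
  Finsupp.sum_add_index' (fun _ => zero_smul _ _) fun _ _ _ => add_smul _ _ _

theorem vlt_single (k : Q) (a : ℂ) : R.vlt (Finsupp.single k a) = a • R.V k :=
  Finsupp.sum_single_index (zero_smul _ _)

theorem vlt_sub (c d : Q →₀ ℂ) : R.vlt (c - d) = R.vlt c - R.vlt d :=
  Finsupp.sum_sub_index fun _ _ _ => sub_smul _ _ _

/-- The coefficients. -/
theorem tr_star_mul_elt (y : F × Q) (c : F × Q →₀ ℂ) :
    T.tr (star (R.U y.1 * R.V y.2) * R.elt c) = R.t * c y := by
  induction c using Finsupp.induction_linear with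
  | zero =>
    have : R.elt (0 : F × Q →₀ ℂ) = 0 := Finsupp.sum_zero_index
    rw [this]; simp
  | add c d hc hd => rw [elt_add, mul_add, map_add, hc, hd, Finsupp.add_apply, mul_add]
  | single y' a =>
    classical
    rw [elt_single, mul_smul_comm, map_smul, tr_star_mul, Finsupp.single_apply, smul_eq_mul]
    by_cases h : y = y'
    · rw [if_pos h, if_pos h.symm, mul_comm]
    · rw [if_neg h, if_neg fun h' => h h'.symm, mul_zero, mul_zero]

/-- Parseval. -/
theorem n2_elt (c : F × Q →₀ ℂ) : T.n2 (R.elt c) ^ 2 = R.t * nsq c := by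
  have key : ∀ d : F × Q →₀ ℂ, T.tr (star (R.elt d) * R.elt c) =
      R.t * d.sum fun y a => (starRingEnd ℂ) a * c y := by
    intro d
    induction d using Finsupp.induction_linear with
    | zero =>
      have : R.elt (0 : F × Q →₀ ℂ) = 0 := Finsupp.sum_zero_index
      rw [this]; simp
    | add d e hd he =>
      rw [elt_add, star_add, add_mul, map_add, hd, he, Finsupp.sum_add_index', mul_add]
      · intro y; simp
      · intro y a b; simp [add_mul]
    | single y' a =>
      rw [elt_single, star_smul, smul_mul_assoc, map_smul, tr_star_mul_elt,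
        Finsupp.sum_single_index (by simp), smul_eq_mul]
      simp only [Complex.star_def]
      ring
  have h := key c
  rw [T.tr_star_mul_self] at h
  have h2 : (c.sum fun y a => (starRingEnd ℂ) a * c y) = ((nsq c : ℝ) : ℂ) := by
    rw [nsq, Finsupp.sum, Finsupp.sum]
    push_cast
    refine Finset.sum_congr rfl fun y _ => ?_
    rw [mul_comm, Complex.mul_conj, Complex.normSq_eq_norm_sq]
    push_cast; rfl
  rw [h2] at h
  exact_mod_cast h

/-- `vlt` is a special case of `elt`. -/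
theorem vlt_eq (c : Q →₀ ℂ) : R.vlt c = R.elt (c.mapDomain fun k => ((1 : F), k)) := by
  have h := Finsupp.sum_mapDomain_index (f := fun k : Q => ((1 : F), k)) (s := c)
    (h := fun (y : F × Q) (a : ℂ) => a • (R.U y.1 * R.V y.2))
    (fun _ => zero_smul _ _) (fun _ _ _ => add_smul _ _ _)
  rw [elt, h, vlt]
  refine Finsupp.sum_congr fun k _ => ?_
  simp only [R.U_one, R.z_mul_V]

theorem nsq_mapDomain {X Y : Type} {φ : X → Y} (hφ : Function.Injective φ) (c : X →₀ ℂ) :
    nsq (c.mapDomain φ) = nsq c := by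
  classical
  rw [nsq, Finsupp.sum, Finsupp.mapDomain_support_of_injective hφ,
    Finset.sum_image fun _ _ _ _ h => hφ h]
  refine Finset.sum_congr rfl fun x _ => ?_
  rw [Finsupp.mapDomain_apply hφ]

theorem n2_vlt (c : Q →₀ ℂ) : T.n2 (R.vlt c) ^ 2 = R.t * nsq c := by
  rw [vlt_eq, n2_elt, nsq_mapDomain fun _ _ h => (Prod.mk.inj h).2]

theorem tr_star_mul_vlt (k : Q) (c : Q →₀ ℂ) : T.tr (star (R.V k) * R.vlt c) = R.t * c k := by
  have := R.tr_star_mul_elt (1, k) (c.mapDomain fun k => ((1 : F), k))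
  rwa [← vlt_eq, Finsupp.mapDomain_apply (f := fun k => ((1 : F), k))
    fun _ _ h => (Prod.mk.inj h).2, R.U_one, R.z_mul_V] at this

/-- The gap property of a representation. -/
def Gap (Sf : Finset F) (C : ℝ) : Prop :=
  0 ≤ C ∧ ∀ x : N, R.z * x * R.z = x → ∀ ε : ℝ, 0 < ε → ∃ c : Q →₀ ℂ,
    (∀ k, c k ≠ 0 → k ∈ S.K) ∧
    T.n2 (x - R.vlt c) ≤ C * ∑ s ∈ Sf, T.n2 (R.U s * x * star (R.U s) - x) + ε

end TwRep

/-! ### Connes' invariant -/

/-- `Θ` is the pointwise limit of the inner automorphisms `Ad (w m)`, centrally trivial, and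
`Θ (w m)` is asymptotically `κ • w m`. -/
structure Kap {N : Type} [Ring N] [StarRing N] [Algebra ℂ N] [StarModule ℂ N] (T : TVN N)
    (w : ℕ → N) (Θ : N →⋆ₐ[ℂ] N) (κ : ℂ) : Prop where
  unit : ∀ m, w m ∈ unitary N
  lim : ∀ x, T.CLim (fun m => w m * x * star (w m)) (Θ x)
  cent : ∀ (x : ℕ → N) (C : ℝ), (∀ n, T.Bd C (x n)) →
    (∀ y, Tendsto (fun n => T.n2 (x n * y - y * x n)) atTop (𝓝 0)) →
    Tendsto (fun n => T.n2 (Θ (x n) - x n)) atTop (𝓝 0)
  kap : Tendsto (fun n => T.n2 (Θ (w n) - κ • w n)) atTop (𝓝 0)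

end Pool.Agent.H.MP_e11395_an
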