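import Pool.Agent.H.MP_e11395_an.Mt
import Pool.Agent.H.MP_e11395_an.E.Tw

/-!
# Part E: towers of matrix algebras
-/

set_option autoImplicit false
set_option linter.unusedSectionVars false

open Filter Topology
open Pool.Agent.H.MP_43b197_an

namespace Pool.Agent.H.MP_e11395_an

/-! ### Block matrices -/

section blk

variable {E : Type} [CStarAlgebra E] {m r : ℕ} {C : Type} [Fintype C] [DecidableEq C]

/-- `(X ⊗ b) ⊕ c`. -/
def blk (X : Matrix (Fin m) (Fin m) ℂ) (b : Mt (Fin r) E) (c : Mt C E) :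
    Mt ((Fin m × Fin r) ⊕ C) E :=
  Mt.of fun i j => match i, j with
    | Sum.inl (u, i), Sum.inl (v, j) => X u v • b i j
    | Sum.inr i, Sum.inr j => c i j
    | _, _ => 0

@[simp] theorem blk_inl_inl (X : Matrix (Fin m) (Fin m) ℂ) (b : Mt (Fin r) E) (c : Mt C E)
    (p q : Fin m × Fin r) :
    blk X b c (Sum.inl p) (Sum.inl q) = X p.1 q.1 • b p.2 q.2 := rfl

@[simp] theorem blk_inr_inr (X : Matrix (Fin m) (Fin m) ℂ) (b : Mt (Fin r) E) (c : Mt C E)
    (p q : C) : blk X b c (Sum.inr p) (Sum.inr q) = c p q := rfl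

@[simp] theorem blk_inl_inr (X : Matrix (Fin m) (Fin m) ℂ) (b : Mt (Fin r) E) (c : Mt C E)
    (p : Fin m × Fin r) (q : C) : blk X b c (Sum.inl p) (Sum.inr q) = 0 := rfl

@[simp] theorem blk_inr_inl (X : Matrix (Fin m) (Fin m) ℂ) (b : Mt (Fin r) E) (c : Mt C E)
    (p : C) (q : Fin m × Fin r) : blk X b c (Sum.inr p) (Sum.inl q) = 0 := rfl

theorem blk_mul (X Y : Matrix (Fin m) (Fin m) ℂ) (b b' : Mt (Fin r) E) (c c' : Mt C E) :
    blk X b c * blk Y b' c' = blk (X * Y) (b * b') (c * c') := by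
  ext i j
  rw [Mt.mul_apply, Fintype.sum_sum_type]
  rcases i with ⟨u, i⟩ | i <;> rcases j with ⟨v, j⟩ | j
  · have h1 : ∀ p : Fin m × Fin r, blk X b c (Sum.inl (u, i)) (Sum.inl p) *
        blk Y b' c' (Sum.inl p) (Sum.inl (v, j)) = (X u p.1 * Y p.1 v) • (b i p.2 * b' p.2 j) := by
      intro p
      rw [blk_inl_inl, blk_inl_inl, smul_mul_smul_comm]
    rw [Finset.sum_congr rfl fun p _ => h1 p, blk_inl_inl, Fintype.sum_prod_type,
      Matrix.mul_apply, Mt.mul_apply, Finset.sum_smul]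
    simp [Finset.smul_sum]
  · simp
  · simp
  · simp [Mt.mul_apply]

theorem blk_one : blk (1 : Matrix (Fin m) (Fin m) ℂ) (1 : Mt (Fin r) E) (1 : Mt C E) = 1 := by
  ext i j
  rcases i with ⟨u, i⟩ | i <;> rcases j with ⟨v, j⟩ | j
  · rw [blk_inl_inl, Matrix.one_apply, Mt.one_apply, Mt.one_apply]
    by_cases h1 : u = v <;> by_cases h2 : i = j <;> simp [h1, h2]
  · simp [Mt.one_apply]
  · simp [Mt.one_apply]
  · simp [Mt.one_apply]

theorem blk_add (X : Matrix (Fin m) (Fin m) ℂ) (b b' : Mt (Fin r) E) (c c' : Mt C E) :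
    blk X (b + b') (c + c') = blk X b c + blk X b' c' := by
  ext i j
  rcases i with ⟨u, i⟩ | i <;> rcases j with ⟨v, j⟩ | j <;> simp

theorem blk_smul (a : ℂ) (X : Matrix (Fin m) (Fin m) ℂ) (b : Mt (Fin r) E) (c : Mt C E) :
    blk X (a • b) (a • c) = a • blk X b c := by
  ext i j
  rcases i with ⟨u, i⟩ | i <;> rcases j with ⟨v, j⟩ | j <;> simp [smul_comm a]

theorem blk_star (X : Matrix (Fin m) (Fin m) ℂ) (b : Mt (Fin r) E) (c : Mt C E) :
    star (blk X b c) = blk (star X) (star b) (star c) := by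
  ext i j
  rcases i with ⟨u, i⟩ | i <;> rcases j with ⟨v, j⟩ | j <;> simp [Matrix.star_apply]

/-- `M ⊗ a`. -/
def ten (M : Matrix (Fin r) (Fin r) ℂ) (a : E) : Mt (Fin r) E := Mt.of fun i j => M i j • a

@[simp] theorem ten_apply (M : Matrix (Fin r) (Fin r) ℂ) (a : E) (i j : Fin r) :
    ten M a i j = M i j • a := rfl

theorem ten_mul (M M' : Matrix (Fin r) (Fin r) ℂ) (a a' : E) :
    ten M a * ten M' a' = ten (M * M') (a * a') := by
  ext i j
  simp [Mt.mul_apply, Matrix.mul_apply, Finset.sum_smul, smul_smul, mul_comm]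

theorem ten_star (M : Matrix (Fin r) (Fin r) ℂ) (a : E) : star (ten M a) = ten (star M) (star a) := by
  ext i j
  simp [Matrix.star_apply]

theorem ten_one : ten (1 : Matrix (Fin r) (Fin r) ℂ) (1 : E) = 1 := by
  ext i j
  rw [ten_apply, Matrix.one_apply, Mt.one_apply]
  split_ifs <;> simp

theorem ten_smul_left (c : ℂ) (M : Matrix (Fin r) (Fin r) ℂ) (a : E) :
    ten (c • M) a = c • ten M a := by
  ext i j
  simp [smul_smul]

theorem ten_smul_right (c : ℂ) (M : Matrix (Fin r) (Fin r) ℂ) (a : E) :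
    ten M (c • a) = c • ten M a := by
  ext i j
  simp [smul_comm c]

theorem ten_add_left (M M' : Matrix (Fin r) (Fin r) ℂ) (a : E) :
    ten (M + M') a = ten M a + ten M' a := by
  ext i j
  simp [add_smul]

theorem ten_add_right (M : Matrix (Fin r) (Fin r) ℂ) (a a' : E) :
    ten M (a + a') = ten M a + ten M a' := by
  ext i j
  simp

/-- The normalised trace of a matrix. -/
noncomputable def tauM (τ : TrState E) (b : Mt (Fin r) E) : ℂ := (r : ℂ)⁻¹ * ∑ i, τ.tr (b i i)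

theorem tauM_ten (τ : TrState E) (M : Matrix (Fin r) (Fin r) ℂ) (a : E) :
    tauM τ (ten M a) = (r : ℂ)⁻¹ * M.trace * τ.tr a := by
  simp [tauM, Matrix.trace, Finset.sum_mul, mul_assoc]

end blk

/-! ### Towers -/

/-- The combinatorics of a tower of matrix algebras: matrices of size `ρ n` embed into matrices
of size `ρ (n + 1)` with multiplicity `μ n`, not unitally, with a small complement. -/
structure Tow where
  ρ : ℕ → ℕ
  μ : ℕ → ℕ
  Cx : ℕ → Type
  [fin : ∀ n, Fintype (Cx n)]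
  [dec : ∀ n, DecidableEq (Cx n)]
  e : ∀ n, (Fin (μ n) × Fin (ρ n)) ⊕ Cx n ≃ Fin (ρ (n + 1))
  ρ_zero : ρ 0 = 1
  μ_pos : ∀ n, 0 < μ n
  ratio : ∀ n, (1 - (1 / 8 : ℝ) ^ (n + 1)) * ρ (n + 1) ≤ μ n * ρ n

attribute [instance] Tow.fin Tow.dec

namespace Tow

variable (P : Tow)

instance neZero_μ (n : ℕ) : NeZero (P.μ n) := ⟨(P.μ_pos n).ne'⟩

theorem card_eq (n : ℕ) : P.μ n * P.ρ n + Fintype.card (P.Cx n) = P.ρ (n + 1) := by
  have := Fintype.card_congr (P.e n)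
  simpa using this

theorem ρ_pos (n : ℕ) : 0 < P.ρ n := by
  induction n with
  | zero => rw [P.ρ_zero]; exact one_pos
  | succ n ih =>
    rw [← P.card_eq]
    exact Nat.add_pos_left (Nat.mul_pos (P.μ_pos n) ih) _

variable {E : Type} [CStarAlgebra E]

/-- `(X ⊗ b) ⊕ c` at the next stage. -/
noncomputable def bl (n : ℕ) (X : Matrix (Fin (P.μ n)) (Fin (P.μ n)) ℂ) (b : Mt (Fin (P.ρ n)) E)
    (c : Mt (P.Cx n) E) : Mt (Fin (P.ρ (n + 1))) E := Mt.reindex (P.e n) (blk X b c)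

theorem bl_mul (n : ℕ) (X Y : Matrix (Fin (P.μ n)) (Fin (P.μ n)) ℂ) (b b' : Mt (Fin (P.ρ n)) E)
    (c c' : Mt (P.Cx n) E) :
    P.bl n X b c * P.bl n Y b' c' = P.bl n (X * Y) (b * b') (c * c') := by
  rw [bl, bl, ← map_mul, blk_mul, bl]

theorem bl_one (n : ℕ) : P.bl n 1 (1 : Mt (Fin (P.ρ n)) E) 1 = 1 := by
  rw [bl, blk_one, map_one]

theorem bl_star (n : ℕ) (X : Matrix (Fin (P.μ n)) (Fin (P.μ n)) ℂ) (b : Mt (Fin (P.ρ n)) E)
    (c : Mt (P.Cx n) E) : star (P.bl n X b c) = P.bl n (star X) (star b) (star c) := by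
  rw [bl, ← map_star, blk_star, bl]

/-- The embedding `b ↦ (1 ⊗ b) ⊕ 0`. -/
noncomputable def emb (n : ℕ) : Mt (Fin (P.ρ n)) E →⋆ₙₐ[ℂ] Mt (Fin (P.ρ (n + 1))) E where
  toFun b := P.bl n 1 b 0
  map_smul' a b := by
    change Mt.reindex (P.e n) (blk 1 (a • b) 0) = a • Mt.reindex (P.e n) (blk 1 b 0)
    rw [← map_smul, ← blk_smul, smul_zero]
  map_zero' := by
    change Mt.reindex (P.e n) (blk 1 0 0) = 0
    have h : blk (1 : Matrix (Fin (P.μ n)) (Fin (P.μ n)) ℂ) (0 : Mt (Fin (P.ρ n)) E)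
        (0 : Mt (P.Cx n) E) = 0 := by
      ext i j
      rcases i with ⟨u, i⟩ | i <;> rcases j with ⟨v, j⟩ | j <;> simp
    rw [h, map_zero]
  map_add' b b' := by
    change Mt.reindex (P.e n) (blk 1 (b + b') 0) =
      Mt.reindex (P.e n) (blk 1 b 0) + Mt.reindex (P.e n) (blk 1 b' 0)
    rw [← map_add, ← blk_add, add_zero]
  map_mul' b b' := by rw [bl_mul, mul_one, mul_zero]
  map_star' b := by rw [bl_star, star_one, star_zero]

theorem emb_apply (n : ℕ) (b : Mt (Fin (P.ρ n)) E) : P.emb n b = P.bl n 1 b 0 := rfl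

end Tow

/-! ### Towers in a C*-algebra with a trace, towers in a tracial von Neumann algebra -/

/-- A tower of quotients of the building blocks of an inductive limit, such that a
trace of the limit is approximately read off in the quotients. -/
structure TraceTower (A : Type) [CStarAlgebra A] (T : TrState A) (P : Tow) (E : Type)
    [CStarAlgebra E] (τ : TrState E) where
  X : ℕ → Type
  [cx : ∀ n, CStarAlgebra (X n)]
  R : ∀ n, X n →⋆ₐ[ℂ] A
  Φ : ∀ n, X n →⋆ₐ[ℂ] X (n + 1)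
  compat : ∀ n f, R (n + 1) (Φ n f) = R n f
  dense : ∀ (a : A) (ε : ℝ), 0 < ε → ∃ n f, ‖R n f - a‖ < ε
  θ : ∀ n, X n →⋆ₐ[ℂ] Mt (Fin (P.ρ n)) E
  θ_surj : ∀ n, Function.Surjective (θ n)
  θ_Φ : ∀ n f, ∃ c, θ (n + 1) (Φ n f) = P.bl n 1 (θ n f) c
  ε : ℕ → ℝ
  ε_lim : Tendsto ε atTop (𝓝 0)
  tr_le : ∀ n f, ‖T.tr (R n f) - tauM τ (θ n f)‖ ≤ ε n * ‖f‖

attribute [instance] TraceTower.cx

/-- A tower of matrix algebras over `E` in a tracial von Neumann algebra. -/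
structure NTower {N : Type} [Ring N] [StarRing N] [Algebra ℂ N] [StarModule ℂ N] (T : TVN N)
    (P : Tow) {E : Type} [CStarAlgebra E] (τ : TrState E) where
  i : ∀ n, Mt (Fin (P.ρ n)) E →⋆ₙₐ[ℂ] N
  bd : ∀ n b, ‖b‖ ≤ 1 → T.Bd 1 (i n b)
  emb : ∀ n b, i (n + 1) (P.emb n b) = i n b
  t : ℕ → ℝ
  t_pos : ∀ n, 0 < t n
  t_lim : Tendsto t atTop (𝓝 1)
  tr : ∀ n b, T.tr (i n b) = t n * tauM τ b
  dense : ∀ (x : N) (ε : ℝ), 0 < ε → ∃ n b, T.n2 (i n b - x) < ε

end Pool.Agent.H.MP_e11395_an
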