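import Pool.Agent.H.MP_e11395_an.Tower
import Pool.Agent.H.MP_e11395_an.E.Tow

/-!
# Part E, bridge: the three towers of sizes
-/

set_option autoImplicit false
set_option linter.unusedSectionVars false

open Filter Topology
open Pool.Agent.H.MP_43b197_an

namespace Pool.Agent.H.MP_e11395_an

variable {d : ℕ → ℕ} (T : TowerData d)

theorem BrTow_pow (n : ℕ) : (1 / 8 : ℝ) ^ (n + 1) < 1 :=
  pow_lt_one₀ (by norm_num) (by norm_num) (Nat.succ_ne_zero n)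

theorem BrTow_k₀ (n : ℕ) : 0 < T.k₀ n := by
  have h := T.p_pos (n + 1)
  rw [T.p_succ] at h
  exact Nat.pos_of_mul_pos_right h |> fun h => h

theorem BrTow_k₁ (n : ℕ) : 0 < T.k₁ n := by
  have h := T.q_pos (n + 1)
  rw [T.q_succ] at h
  exact Nat.pos_of_mul_pos_right h |> fun h => h

theorem BrTow_μ₀ (n : ℕ) : (1 - (1 / 8 : ℝ) ^ (n + 1)) * T.k₀ n ≤ T.μ₀ n := by
  have h1 := T.small₀ n
  have h2 : (T.μ₀ n : ℝ) + d (T.sel n) * T.q n = T.k₀ n := by exact_mod_cast T.μ₀_eq n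
  linarith

theorem BrTow_μ₁ (n : ℕ) : (1 - (1 / 8 : ℝ) ^ (n + 1)) * T.k₁ n ≤ T.μ₁ n := by
  have h1 := T.small₁ n
  have h2 : (T.μ₁ n : ℝ) + d (T.sel n) * T.p n = T.k₁ n := by exact_mod_cast T.μ₁_eq n
  linarith

theorem BrTow_μ₀_pos (n : ℕ) : 0 < T.μ₀ n := by
  have h1 := BrTow_μ₀ T n
  have h2 : (0 : ℝ) < T.k₀ n := by exact_mod_cast BrTow_k₀ T n
  have h3 : (0 : ℝ) < T.μ₀ n :=
    lt_of_lt_of_le (mul_pos (sub_pos.2 (BrTow_pow n)) h2) h1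
  exact_mod_cast h3

theorem BrTow_μ₁_pos (n : ℕ) : 0 < T.μ₁ n := by
  have h1 := BrTow_μ₁ T n
  have h2 : (0 : ℝ) < T.k₁ n := by exact_mod_cast BrTow_k₁ T n
  have h3 : (0 : ℝ) < T.μ₁ n :=
    lt_of_lt_of_le (mul_pos (sub_pos.2 (BrTow_pow n)) h2) h1
  exact_mod_cast h3

theorem BrTow_m (n : ℕ) : (1 - (1 / 8 : ℝ) ^ (n + 1)) * (T.k₀ n * T.k₁ n) ≤ T.m n := by
  have h1 := T.small₁ n
  have h2 : (T.m n : ℝ) + d (T.sel n) * T.p (n + 1) = T.k₀ n * T.k₁ n := by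
    exact_mod_cast T.m_eq n
  have h3 : (T.p (n + 1) : ℝ) = T.k₀ n * T.p n := by exact_mod_cast T.p_succ n
  rw [h3] at h2
  have h4 : (0 : ℝ) ≤ T.k₀ n := by positivity
  have h5 := mul_le_mul_of_nonneg_left h1 h4
  nlinarith

/-- The sizes at an interior point.

Proof of `ratio`: `m + d p' = k₀ k₁` (`m_eq`), `p' = k₀ p` (`p_succ`), `q' = k₁ q`,
`d p ≤ (1/8)^(n+1) k₁` (`small₁`): `m ≥ (1 - (1/8)^(n+1)) k₀ k₁`; multiply by `p q`. -/
noncomputable def towM : Tow where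
  ρ n := T.r n
  μ n := T.m n
  Cx n := (Fin (T.q (n + 1)) × (Fin (d (T.sel n)) × Fin (T.r n))) ⊕
    (Fin (T.p (n + 1) - T.q (n + 1)) × (Fin (d (T.sel n)) × Fin (T.r n)))
  e n := T.E n
  ρ_zero := by
    change T.p 0 * T.q 0 = 1
    rw [T.p_zero, T.q_zero]
  μ_pos n := T.m_pos n
  ratio n := by
    have h1 := BrTow_m T n
    have h2 : ((T.r (n + 1) : ℕ) : ℝ) = (T.k₀ n * T.k₁ n) * (T.r n : ℕ) := by
      have h3 : T.r (n + 1) = (T.k₀ n * T.k₁ n) * T.r n := by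
        rw [TowerData.r, TowerData.r, T.p_succ, T.q_succ]; ring
      rw [h3]; push_cast; ring
    rw [h2, ← mul_assoc]
    exact mul_le_mul_of_nonneg_right h1 (by positivity)

/-- The sizes at the left end.

Proof of `ratio`: `μ₀ + d q = k₀` (`μ₀_eq`), `d q ≤ (1/8)^(n+1) k₀` (`small₀`), `p' = k₀ p`.
`μ_pos`: `μ₀ = 0` would give `k₀ ≤ (1/8)^(n+1) k₀` with `k₀ > 0` (`p_succ`, `p_pos`). -/
noncomputable def tow0 : Tow where
  ρ n := T.p n
  μ n := T.μ₀ n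
  Cx n := Fin (d (T.sel n)) × Fin (T.r n)
  e n := T.Z₀ n
  ρ_zero := T.p_zero
  μ_pos n := BrTow_μ₀_pos T n
  ratio n := by
    have h1 := BrTow_μ₀ T n
    have h2 : (T.p (n + 1) : ℝ) = T.k₀ n * T.p n := by exact_mod_cast T.p_succ n
    rw [h2, ← mul_assoc]
    exact mul_le_mul_of_nonneg_right h1 (by positivity)

/-- The sizes at the right end. -/
noncomputable def tow1 : Tow where
  ρ n := T.q n
  μ n := T.μ₁ n
  Cx n := Fin (d (T.sel n)) × Fin (T.r n)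
  e n := T.Z₁ n
  ρ_zero := T.q_zero
  μ_pos n := BrTow_μ₁_pos T n
  ratio n := by
    have h1 := BrTow_μ₁ T n
    have h2 : (T.q (n + 1) : ℝ) = T.k₁ n * T.q n := by exact_mod_cast T.q_succ n
    rw [h2, ← mul_assoc]
    exact mul_le_mul_of_nonneg_right h1 (by positivity)

end Pool.Agent.H.MP_e11395_an
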