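import Pool.Agent.H.MP_e11395_an.D.Main
import Pool.Agent.H.MP_e11395_an.A.AData
import Pool.Agent.H.MP_e11395_an.E.BrTow

/-!
# Part E, bridge: common facts
-/

set_option autoImplicit false
set_option linter.unusedSectionVars false

open Filter Topology
open Pool.Agent.H.MP_43b197_an

namespace Pool.Agent.H.MP_e11395_an

variable {d : ℕ → ℕ} {T : TowerData d} {B : Type} [CStarAlgebra B] {C : ConeAlg d B}
  {A : Type} [CStarAlgebra A] {R : ∀ n, T.Bk B n →⋆ₐ[ℂ] A}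
  {E : Type} [CStarAlgebra E] {τ : TrState E} {τA : TrState A}

/-- The trace `τA` is given by the trace `σ` of `B` at the point `x`. -/
def IsPt (C : ConeAlg d B) (R : ∀ n, T.Bk B n →⋆ₐ[ℂ] A) (τA : TrState A) (x : unitInterval)
    (σ : B →ₗ[ℂ] ℂ) : Prop :=
  ∀ n (f : T.Bk B n), Tendsto (fun m => σ (mtr ((T.iter C n m f).val x))) atTop
    (𝓝 (τA.tr (R n f)))

/-- `|τA (R n f) - σ (mtr (f x))| ≤ 8^-n ‖f‖`.

Proof. `σ (mtr ((iter f).val x)) = σ (trIt n m f x)`, within `8^-n ‖f‖` of the same with `m = 0`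
(`norm_trIt_sub`, `IsTr.norm_le` for `σ`, `ContinuousMap.norm_coe_le_norm`); pass to the limit. -/
theorem IsPt.le {x : unitInterval} {σ : B →ₗ[ℂ] ℂ} (h : IsPt C R τA x σ) (hσ : IsTr σ) (n : ℕ)
    (f : T.Bk B n) : ‖τA.tr (R n f) - σ (mtr (f.val x))‖ ≤ (1 / 8 : ℝ) ^ n * ‖f‖ := by
  have h1 := ((h n f).sub_const (σ (mtr (f.val x)))).norm
  refine le_of_tendsto' h1 fun m => ?_
  have h2 : σ (mtr ((T.iter C n m f).val x)) - σ (mtr (f.val x)) =
      σ ((T.trIt C n m f - T.trIt C n 0 f) x) := by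
    rw [← map_sub]
    rfl
  rw [h2]
  refine (hσ.norm_le _).trans ((ContinuousMap.norm_coe_le_norm _ x).trans ?_)
  have h3 := T.norm_trIt_sub C n (Nat.zero_le m) f
  rwa [add_zero] at h3

/-- `tauM τ (Mt.map q M) = τ (q (mtr M))`. -/
theorem tauM_map (q : B →⋆ₐ[ℂ] E) {r : ℕ} (M : Mt (Fin r) B) :
    tauM τ (Mt.map q M) = τ.tr (q (mtr M)) := by
  rw [tauM, mtr_apply, map_smul, map_smul, map_sum, map_sum, Fintype.card_fin, one_div,
    smul_eq_mul]
  rfl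

/-- `Mt.map` commutes with `Mt.reindex`. -/
theorem map_reindex {ι κ : Type} [Fintype ι] [DecidableEq ι] [Fintype κ] [DecidableEq κ]
    (q : B →⋆ₐ[ℂ] E) (e : ι ≃ κ) (M : Mt ι B) :
    Mt.map q (Mt.reindex e M) = Mt.reindex e (Mt.map q M) := rfl

/-- A block diagonal matrix with main slots. -/
theorem map_slot (q : B →⋆ₐ[ℂ] E) (m a b : ℕ) {r k : ℕ} (M₀ : Mt (Fin r) B)
    (M₁ M₂ : Mt (Fin k × Fin r) B) :
    ∃ c, Mt.map q (slot m a b M₀ M₁ M₂) = blk 1 (Mt.map q M₀) c := by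
  refine ⟨Mt.of fun i j => q (slot m a b M₀ M₁ M₂ (Sum.inr i) (Sum.inr j)), ?_⟩
  ext i j
  rcases i with ⟨u, i⟩ | i <;> rcases j with ⟨v, j⟩ | j
  · rw [Mt.map_apply, Slot_aa, blk_inl_inl, Mt.map_apply, Matrix.one_apply]
    by_cases h : u = v
    · rw [if_pos h, if_pos h, one_smul]
    · rw [if_neg h, if_neg h, zero_smul, map_zero]
  · rw [Mt.map_apply, Slot_ab, blk_inl_inr, map_zero]
  · rw [Mt.map_apply, Slot_ba, blk_inr_inl, map_zero]
  · rfl

theorem map_two (q : B →⋆ₐ[ℂ] E) (m : ℕ) {r k s : ℕ} (g : Mt (Fin r) B)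
    (M : Mt (Fin k × Fin s) B) :
    ∃ c, Mt.map q (two m g M) = blk 1 (Mt.map q g) c := by
  refine ⟨Mt.map q M, ?_⟩
  ext i j
  rcases i with ⟨u, i⟩ | i <;> rcases j with ⟨v, j⟩ | j
  · change q (if u = v then g i j else 0) = (1 : Matrix (Fin m) (Fin m) ℂ) u v • q (g i j)
    rw [Matrix.one_apply]
    by_cases h : u = v
    · rw [if_pos h, if_pos h, one_smul]
    · rw [if_neg h, if_neg h, zero_smul, map_zero]
  · exact map_zero q
  · exact map_zero q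
  · rfl

/-- Surjectivity of `Mt.map`: lift the entries. -/
theorem map_surj {q : B →⋆ₐ[ℂ] E} (hq : Function.Surjective q) (r : ℕ) :
    Function.Surjective (Mt.map q : Mt (Fin r) B →⋆ₐ[ℂ] Mt (Fin r) E) := by
  intro M
  choose g hg using hq
  exact ⟨Mt.of fun i j => g (M i j), Mt.ext fun i j => hg (M i j)⟩

end Pool.Agent.H.MP_e11395_an
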