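import Pool.Agent.H.MP_e11395_an.E.BrCom

/-!
# Part E, bridge: interior points
-/

set_option autoImplicit false
set_option linter.unusedSectionVars false

open Filter Topology
open Pool.Agent.H.MP_43b197_an

namespace Pool.Agent.H.MP_e11395_an

variable {d : ℕ → ℕ} {T : TowerData d} {B : Type} [CStarAlgebra B] {C : ConeAlg d B}
  {A : Type} [CStarAlgebra A] {R : ∀ n, T.Bk B n →⋆ₐ[ℂ] A}
  {E : Type} [CStarAlgebra E] {τ : TrState E} {τA : TrState A}

/-- Evaluation at `x`, followed by `q`. -/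
noncomputable def thM (T : TowerData d) (q : B →⋆ₐ[ℂ] E) (x : unitInterval) (n : ℕ) :
    T.Bk B n →⋆ₐ[ℂ] Mt (Fin (T.r n)) E where
  toFun f := Mt.map q (f.val x)
  map_one' := by rw [TowerData.Bk.val_one, ContinuousMap.one_apply, map_one]
  map_mul' f g := by rw [TowerData.Bk.val_mul, ContinuousMap.mul_apply, map_mul]
  map_zero' := by rw [TowerData.Bk.val_zero, ContinuousMap.zero_apply, map_zero]
  map_add' f g := by rw [TowerData.Bk.val_add, ContinuousMap.add_apply, map_add]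
  commutes' c := by
    rw [TowerData.Bk.val_algebraMap]
    have h : (algebraMap ℂ C(unitInterval, Mt (Fin (T.r n)) B) c) x =
        algebraMap ℂ (Mt (Fin (T.r n)) B) c := rfl
    rw [h]
    exact AlgHomClass.commutes (Mt.map q) c
  map_star' f := by
    rw [TowerData.Bk.val_star, ContinuousMap.star_apply, map_star]

theorem thM_apply (q : B →⋆ₐ[ℂ] E) (x : unitInterval) (n : ℕ) (f : T.Bk B n) :
    thM T q x n f = Mt.map q (f.val x) := rfl

/-- Evaluation at an interior point is surjective. -/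
theorem BrM_surj {q : B →⋆ₐ[ℂ] E} (hq : Function.Surjective q)
    {x : unitInterval} (hx0 : 0 < (x : ℝ)) (hx1 : (x : ℝ) < 1) (n : ℕ) :
    Function.Surjective (thM T q x n) := by
  intro b
  obtain ⟨M, hM⟩ := map_surj hq (T.r n) b
  have hcont : Continuous fun y : unitInterval =>
      ((((y : ℝ) * (1 - (y : ℝ))) / ((x : ℝ) * (1 - (x : ℝ))) : ℝ) : ℂ) • M := by
    refine Continuous.smul (M := ℂ) (X := Mt (Fin (T.r n)) B) ?_ continuous_const
    refine Complex.continuous_ofReal.comp ?_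
    exact ((continuous_subtype_val.mul (continuous_const.sub continuous_subtype_val)).div_const _)
  have hmem : (⟨_, hcont⟩ : C(unitInterval, Mt (Fin (T.r n)) B)) ∈ T.Bl B n := by
    rw [TowerData.mem_Bl]
    refine ⟨⟨0, ?_⟩, ⟨0, ?_⟩⟩
    · rw [map_zero]
      change (0 : Mt (Fin (T.r n)) B) = ((((((0 : unitInterval) : ℝ) *
        (1 - ((0 : unitInterval) : ℝ))) / ((x : ℝ) * (1 - (x : ℝ))) : ℝ) : ℂ)) • M
      simp
    · rw [map_zero]
      change (0 : Mt (Fin (T.r n)) B) = ((((((1 : unitInterval) : ℝ) *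
        (1 - ((1 : unitInterval) : ℝ))) / ((x : ℝ) * (1 - (x : ℝ))) : ℝ) : ℂ)) • M
      simp
  refine ⟨TowerData.Bk.mk _ hmem, ?_⟩
  rw [thM_apply, TowerData.Bk.val_mk]
  change Mt.map q ((((((x : ℝ) * (1 - (x : ℝ))) / ((x : ℝ) * (1 - (x : ℝ))) : ℝ) : ℂ)) • M) = b
  have h1 : ((x : ℝ) * (1 - (x : ℝ))) / ((x : ℝ) * (1 - (x : ℝ))) = 1 :=
    div_self (mul_pos hx0 (sub_pos.2 hx1)).ne'
  rw [h1, Complex.ofReal_one, one_smul, hM]

/-- The connecting maps at an interior point. -/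
theorem BrM_Φ (C : ConeAlg d B) (q : B →⋆ₐ[ℂ] E) (x : unitInterval) (n : ℕ) (f : T.Bk B n) :
    ∃ c, thM T q x (n + 1) (T.Φ C n f) = (towM T).bl n 1 (thM T q x n f) c := by
  obtain ⟨c, hc⟩ := map_slot q (T.m n) (T.q (n + 1)) (T.p (n + 1) - T.q (n + 1)) (f.val x)
    (piAmp (C.π (T.sel n)) (f.val (T.ξ n))) (cpath C (T.sel n) (T.ξ n) x f.val)
  refine ⟨c, ?_⟩
  rw [thM_apply, TowerData.Φ_val, TowerData.PhiC_apply, map_reindex, hc]
  rfl

/-- **The tower at an interior point.**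

Proof. `θ_surj`: given `b`, lift it to `M : Mt (Fin (r n)) B` (`map_surj`); the function
`y ↦ g y • M` with `g : C(I, ℂ)`, `g x = 1`, `g 0 = g 1 = 0` (e.g. `g y = y (1 - y) / (x (1 - x))`) is in
`T.Bl B n` (`0` is in the ranges). `θ_Φ`: `(T.Φ C n f).val x = reindex (E n) (slot ..)`
(`PhiC_apply`), `map_reindex`, `map_slot`, and `Tow.bl` is `reindex (e n) (blk ..)`. `tr_le`:
`IsPt.le` with `ε n = (1/8)^n`, `tauM_map` and `pull_apply`. `compat`, `dense`: `IsLimit`. -/
theorem exists_towerM (lim : T.IsLimit C A R) {q : B →⋆ₐ[ℂ] E} (hq : Function.Surjective q)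
    {x : unitInterval} (hx0 : 0 < (x : ℝ)) (hx1 : (x : ℝ) < 1) (hσ : IsTr (pull τ.tr q))
    (h : IsPt C R τA x (pull τ.tr q)) : Nonempty (TraceTower A τA (towM T) E τ) := by
  refine ⟨{ X := fun n => T.Bk B n, R := R, Φ := fun n => T.Φ C n, compat := lim.compat,
            dense := lim.dense, θ := fun n => thM T q x n, θ_surj := fun n => BrM_surj hq hx0 hx1 n,
            θ_Φ := fun n f => BrM_Φ C q x n f, ε := fun n => (1 / 8 : ℝ) ^ n, ε_lim := ?_,
            tr_le := ?_ }⟩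
  · exact tendsto_pow_atTop_nhds_zero_of_lt_one (by norm_num) (by norm_num)
  · intro n f
    have h1 := h.le hσ n f
    rw [pull_apply] at h1
    have h2 := tauM_map (τ := τ) q (f.val x)
    change ‖τA.tr (R n f) - tauM τ (Mt.map q (f.val x))‖ ≤ _
    rw [h2]
    exact h1

end Pool.Agent.H.MP_e11395_an
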