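import Pool.Agent.H.MP_e11395_an.E.Basic

/-!
# Part E: the tracial von Neumann algebra generated by a C*-algebra with a faithful trace
-/

set_option autoImplicit false

open Filter Topology
open Pool.Agent.H.MP_43b197_an

namespace Pool.Agent.H.MP_e11395_an

variable {A : Type} [CStarAlgebra A]

/-- The free ultrafilter used to define the closures. -/
noncomputable abbrev UF : Ultrafilter ℕ := hyperfilter ℕ

/-- The constant sequence. -/
noncomputable def cst (a : A) : BSeq A := ⟨fun _ => a, ‖a‖, fun _ => le_rfl⟩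

theorem Closure_cst_mul (τ : TrState A) (a b : A) :
    mkU τ UF (cst (a * b)) = mkU τ UF (cst a) * mkU τ UF (cst b) := by
  rw [← map_mul]; rfl

theorem Closure_cst_add (τ : TrState A) (a b : A) :
    mkU τ UF (cst (a + b)) = mkU τ UF (cst a) + mkU τ UF (cst b) := by
  rw [← map_add]; rfl

theorem Closure_cst_star (τ : TrState A) (a : A) :
    mkU τ UF (cst (star a)) = star (mkU τ UF (cst a)) := by
  rw [← mkU_star]
  congr 1

theorem Closure_cst_algebraMap (τ : TrState A) (c : ℂ) :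
    mkU τ UF (cst (algebraMap ℂ A c)) = algebraMap ℂ (RU τ UF) c := by
  rw [← AlgHom.commutes (mkU τ UF) c]
  rfl

theorem Closure_cst_bd (τ : TrState A) (a : A) :
    (tvnU τ UF hyperfilter_le_cofinite).Bd ‖a‖ (mkU τ UF (cst a)) :=
  ⟨cst a, rfl, fun _ => le_rfl⟩

/-- The 2-norm closure of `A` in its tracial ultrapower.

Proof of `mul_mem'`: `x`, `y` in the closure, `ε > 0`. `x` has `BdU C` for some `C ≥ 0`
(`(tvnU τ UF hU).bd_exists`); choose `b` with `n2 (y - b) < ε / (2 (C + 1))`, so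
`n2 (x y - x b) < ε / 2`; then `a` with `n2 (x - a) < ε / (2 (‖b‖ + 1))`, so
`n2 (x b - a b) < ε / 2` (`TVN_mul_le`). -/
noncomputable def NC (τ : TrState A) : StarSubalgebra ℂ (RU τ UF) where
  carrier := {x | ∀ ε > 0, ∃ a : A, (TU τ UF).n2 (x - mkU τ UF (cst a)) < ε}
  mul_mem' {x y} hx hy := by
    intro ε hε
    obtain ⟨C, hC⟩ := (tvnU τ UF hyperfilter_le_cofinite).bd_exists x
    have hC0 := (tvnU τ UF hyperfilter_le_cofinite).bd_nonneg C x hC
    obtain ⟨b, hb⟩ := hy (ε / (2 * (C + 1))) (by positivity)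
    obtain ⟨a, ha⟩ := hx (ε / (2 * (‖b‖ + 1))) (by positivity)
    refine ⟨a * b, ?_⟩
    have e1 : x * y - mkU τ UF (cst (a * b)) = x * (y - mkU τ UF (cst b)) +
        (x - mkU τ UF (cst a)) * mkU τ UF (cst b) := by
      rw [Closure_cst_mul]; noncomm_ring
    rw [e1]
    have h1 : (TU τ UF).n2 (x * (y - mkU τ UF (cst b))) ≤ C * (ε / (2 * (C + 1))) :=
      ((tvnU τ UF hyperfilter_le_cofinite).bd_le C x hC _).trans
        (mul_le_mul_of_nonneg_left hb.le hC0)
    have h2 : (TU τ UF).n2 ((x - mkU τ UF (cst a)) * mkU τ UF (cst b)) ≤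
        ‖b‖ * (ε / (2 * (‖b‖ + 1))) :=
      (TVN_mul_le (tvnU τ UF hyperfilter_le_cofinite) (Closure_cst_bd τ b) _).trans
        (mul_le_mul_of_nonneg_left ha.le (norm_nonneg _))
    have h3 : C * (ε / (2 * (C + 1))) < ε / 2 := by
      rw [mul_div_assoc', div_lt_div_iff₀ (by positivity) (by norm_num)]
      nlinarith
    have h4 : ‖b‖ * (ε / (2 * (‖b‖ + 1))) < ε / 2 := by
      rw [mul_div_assoc', div_lt_div_iff₀ (by positivity) (by norm_num)]
      nlinarith
    have h5 := (TU τ UF).n2_add_le (x * (y - mkU τ UF (cst b)))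
      ((x - mkU τ UF (cst a)) * mkU τ UF (cst b))
    linarith
  add_mem' {x y} hx hy := by
    intro ε hε
    obtain ⟨a, ha⟩ := hx (ε / 2) (half_pos hε)
    obtain ⟨b, hb⟩ := hy (ε / 2) (half_pos hε)
    refine ⟨a + b, ?_⟩
    have e1 : x + y - mkU τ UF (cst (a + b)) = (x - mkU τ UF (cst a)) +
        (y - mkU τ UF (cst b)) := by
      rw [Closure_cst_add]; abel
    rw [e1]
    have h5 := (TU τ UF).n2_add_le (x - mkU τ UF (cst a)) (y - mkU τ UF (cst b))
    linarith
  algebraMap_mem' c := by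
    intro ε hε
    refine ⟨algebraMap ℂ A c, ?_⟩
    rw [Closure_cst_algebraMap, sub_self, (TU τ UF).n2_zero]
    exact hε
  star_mem' {x} hx := by
    intro ε hε
    obtain ⟨a, ha⟩ := hx ε hε
    refine ⟨star a, ?_⟩
    rw [Closure_cst_star, ← star_sub, (TU τ UF).n2_star]
    exact ha

theorem NC_closed (τ : TrState A) : (TU τ UF).Closed (NC τ) := by
  intro x hx ε hε
  obtain ⟨m, hm, hxm⟩ := hx (ε / 2) (half_pos hε)
  obtain ⟨a, ha⟩ := hm (ε / 2) (half_pos hε)
  refine ⟨a, ?_⟩
  have h := (TU τ UF).n2_sub_le_sub x m (mkU τ UF (cst a))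
  linarith

theorem UF_le : ((UF : Ultrafilter ℕ) : Filter ℕ) ≤ cofinite := hyperfilter_le_cofinite

/-- The closure is a tracial von Neumann algebra. -/
noncomputable def NCT (τ : TrState A) : TVN (NC τ) := (tvnU τ UF UF_le).sub (NC τ) (NC_closed τ)

/-- `N` is a 2-norm closure of `A`. -/
structure Cl {N : Type} [Ring N] [StarRing N] [Algebra ℂ N] [StarModule ℂ N] (T : TVN N)
    (τ : TrState A) (j : A →⋆ₐ[ℂ] N) : Prop where
  tr : ∀ a, T.tr (j a) = τ.tr a
  bd : ∀ a, T.Bd ‖a‖ (j a)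
  dense : ∀ (x : N) (ε : ℝ), 0 < ε → ∃ a, T.n2 (j a - x) < ε

/-- The canonical map: `a ↦ mkU (cst a)`. -/
theorem exists_Cl (τ : TrState A) : ∃ j : A →⋆ₐ[ℂ] NC τ, Cl (NCT τ) τ j := by
  have hmem : ∀ a : A, mkU τ UF (cst a) ∈ NC τ := fun a ε hε =>
    ⟨a, by rw [sub_self, (TU τ UF).n2_zero]; exact hε⟩
  have hone : mkU τ UF (cst (1 : A)) = 1 := by
    have h := Closure_cst_algebraMap τ 1
    rwa [map_one, map_one] at h
  have hzero : mkU τ UF (cst (0 : A)) = 0 := by
    have h := Closure_cst_algebraMap τ 0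
    rwa [map_zero, map_zero] at h
  refine ⟨{ toFun := fun a => ⟨mkU τ UF (cst a), hmem a⟩
            map_one' := Subtype.ext hone
            map_mul' := fun a b => Subtype.ext (Closure_cst_mul τ a b)
            map_zero' := Subtype.ext hzero
            map_add' := fun a b => Subtype.ext (Closure_cst_add τ a b)
            commutes' := fun c => Subtype.ext (Closure_cst_algebraMap τ c)
            map_star' := fun a => Subtype.ext (Closure_cst_star τ a) }, ?_, ?_, ?_⟩
  · intro a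
    have h := tendsto_trU τ UF (cst a)
    exact tendsto_nhds_unique h tendsto_const_nhds
  · intro a
    exact Closure_cst_bd τ a
  · intro x ε hε
    obtain ⟨a, ha⟩ := x.2 ε hε
    refine ⟨a, ?_⟩
    rw [(NCT τ).n2_sub_comm]
    exact ha

end Pool.Agent.H.MP_e11395_an
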