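import Pool.Agent.H.MP_e11395_an.E.Tw

/-!
# Part E: two sources of spectral gap
-/

set_option autoImplicit false

open Filter Topology
open Pool.Agent.H.MP_43b197_an

namespace Pool.Agent.H.MP_e11395_an

variable {F Q : Type} [Group F] [AddCommGroup Q] (S : TwSys F Q)

theorem GapSets_nsq_nonneg {X : Type} (ξ : X →₀ ℂ) : 0 ≤ nsq ξ :=
  Finset.sum_nonneg fun _ _ => sq_nonneg _

theorem GapSets_sum_le_nsq {X : Type} [DecidableEq X] (ξ : X →₀ ℂ) (T : Finset X) :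
    ∑ x ∈ T, ‖ξ x‖ ^ 2 ≤ nsq ξ := by
  classical
  have h : ∑ x ∈ T.filter (fun x => ξ x ≠ 0), ‖ξ x‖ ^ 2 = ∑ x ∈ T, ‖ξ x‖ ^ 2 :=
    Finset.sum_filter_of_ne fun x _ hx h0 => hx (by rw [h0, norm_zero]; norm_num)
  rw [← h]
  refine Finset.sum_le_sum_of_subset_of_nonneg (fun x hx => ?_) fun _ _ _ => sq_nonneg _
  exact Finsupp.mem_support_iff.2 (Finset.mem_filter.1 hx).2

/-- The trivial group: then `K = Q`, and `ξ 1 = 0` says `ξ = 0`. -/
theorem hasGap_trivial [Subsingleton F] : S.HasGap ∅ 0 := by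
  refine ⟨le_refl 0, fun q ξ hξ => ?_⟩
  have h1 : ξ 1 = 0 := hξ fun f => Subsingleton.elim _ _
  have h2 : ξ = 0 := by
    ext f
    rw [Subsingleton.elim f 1, h1]
    rfl
  rw [h2]
  simp [nsq]

/-- Three disjoint sets absorbing their complements.

Proof. Let `q`, `ξ` be as in the definition; let `A = nsq ξ` (square norm), `m i` the sum of
`‖ξ f‖ ^ 2` over `f ∈ E i` (in the support), `δ i = nsq (S.tw q (s i) ξ - ξ)`. The `E i` are
disjoint, so `∑ i, m i ≤ A` and `m i ≤ A / 3` for some `i`; fix it. The injective map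
`φ f = s i * f * (S.act q (s i))⁻¹` maps the part of the support of `ξ` outside of `E i` into
`E i` (the point `f = 1` is not in the support when `q ∈ K`), and `(S.tw q (s i) ξ) (φ f) = ξ f`
(`Finsupp.mapDomain_apply` for an injective map). So the `ℓ²` norm of `ξ` outside of `E i`, which is
`≥ √(2 A / 3)`, is at most the `ℓ²` norm of `S.tw q (s i) ξ` on `E i`, which is at most
`√(m i) + √(δ i) ≤ √(A / 3) + √(δ i)`. So `√(δ i) ≥ (√(2/3) - √(1/3)) * √A`, and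
`(√(2/3) - √(1/3)) ^ 2 = 1 - 2 * √2 / 3 ≥ 1 / 18` (`√2 ≤ 1.4166`), i.e. `A ≤ 18 * δ i`. -/
theorem hasGap_of_sets [DecidableEq F] (s : Fin 3 → F) (E : Fin 3 → Set F)
    (hd : ∀ i j, i ≠ j → Disjoint (E i) (E j))
    (h : ∀ i q x, x ∉ E i → (q ∈ S.K → x ≠ 1) → s i * x * (S.act q (s i))⁻¹ ∈ E i) :
    S.HasGap (Finset.univ.image s) 18 := by
  classical
  refine ⟨by norm_num, fun q ξ hξ => ?_⟩
  have hA : nsq ξ = ∑ f ∈ ξ.support, ‖ξ f‖ ^ 2 := rfl
  -- a small set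
  obtain ⟨i, hi⟩ : ∃ i, ∑ f ∈ ξ.support.filter (fun f => f ∈ E i), ‖ξ f‖ ^ 2 ≤ nsq ξ / 3 := by
    by_contra hcon
    push Not at hcon
    have h1 : ∑ i : Fin 3, ∑ f ∈ ξ.support.filter (fun f => f ∈ E i), ‖ξ f‖ ^ 2 ≤ nsq ξ := by
      simp only [Finset.sum_filter]
      rw [Finset.sum_comm, hA]
      refine Finset.sum_le_sum fun f _ => ?_
      rw [Fin.sum_univ_three]
      have hdis : ∀ i j : Fin 3, i ≠ j → f ∈ E i → f ∉ E j := fun i j hij hf =>
        Set.disjoint_left.1 (hd i j hij) hf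
      have h01 := hdis 0 1 (by decide)
      have h02 := hdis 0 2 (by decide)
      have h12 := hdis 1 2 (by decide)
      have hsq : (0 : ℝ) ≤ ‖ξ f‖ ^ 2 := sq_nonneg _
      by_cases a0 : f ∈ E 0
      · rw [if_pos a0, if_neg (h01 a0), if_neg (h02 a0)]
        linarith
      · by_cases a1 : f ∈ E 1
        · rw [if_neg a0, if_pos a1, if_neg (h12 a1)]
          linarith
        · rw [if_neg a0, if_neg a1]
          split_ifs
          · linarith
          · linarith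
    rw [Fin.sum_univ_three] at h1
    have c0 := hcon 0
    have c1 := hcon 1
    have c2 := hcon 2
    linarith
  set m : ℝ := ∑ f ∈ ξ.support.filter (fun f => f ∈ E i), ‖ξ f‖ ^ 2 with hm
  set P : Finset F := ξ.support.filter (fun f => f ∉ E i) with hP
  have hsplit : nsq ξ = m + ∑ f ∈ P, ‖ξ f‖ ^ 2 := by
    rw [hA, hm, hP]
    exact (Finset.sum_filter_add_sum_filter_not ξ.support (fun f => f ∈ E i) _).symm
  set φ : F → F := fun f => s i * f * (S.act q (s i))⁻¹ with hφ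
  have hinj : Function.Injective φ := by
    intro f g hfg
    exact mul_left_cancel (mul_right_cancel hfg)
  have htw : ∀ f, (S.tw q (s i) ξ) (φ f) = ξ f := fun f => Finsupp.mapDomain_apply hinj ξ f
  have hPE : ∀ g ∈ P.image φ, g ∈ E i := by
    intro g hg
    obtain ⟨f, hf, rfl⟩ := Finset.mem_image.1 hg
    obtain ⟨hf1, hf2⟩ := Finset.mem_filter.1 hf
    refine h i q f hf2 fun hq h1 => ?_
    rw [h1] at hf1
    exact (Finsupp.mem_support_iff.1 hf1) (hξ hq)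
  have e1 : ∑ f ∈ P, ‖ξ f‖ ^ 2 = ∑ g ∈ P.image φ, ‖(S.tw q (s i) ξ) g‖ ^ 2 := by
    rw [Finset.sum_image fun a _ b _ hab => hinj hab]
    exact Finset.sum_congr rfl fun f _ => by rw [htw]
  have e2 : ∑ g ∈ P.image φ, ‖(S.tw q (s i) ξ) g‖ ^ 2 ≤
      7 / 5 * ∑ g ∈ P.image φ, ‖ξ g‖ ^ 2 +
        7 / 2 * ∑ g ∈ P.image φ, ‖(S.tw q (s i) ξ - ξ) g‖ ^ 2 := by
    rw [Finset.mul_sum, Finset.mul_sum, ← Finset.sum_add_distrib]
    refine Finset.sum_le_sum fun g _ => ?_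
    have h1 : (S.tw q (s i) ξ) g = ξ g + (S.tw q (s i) ξ - ξ) g := by
      rw [Finsupp.sub_apply]
      ring
    have h2 : ‖(S.tw q (s i) ξ) g‖ ≤ ‖ξ g‖ + ‖(S.tw q (s i) ξ - ξ) g‖ := by
      rw [h1]
      exact norm_add_le _ _
    have h3 := norm_nonneg ((S.tw q (s i) ξ) g)
    have h4 := norm_nonneg (ξ g)
    have h5 := norm_nonneg ((S.tw q (s i) ξ - ξ) g)
    have h6 : ‖(S.tw q (s i) ξ) g‖ ^ 2 ≤ (‖ξ g‖ + ‖(S.tw q (s i) ξ - ξ) g‖) ^ 2 :=
      pow_le_pow_left₀ h3 h2 2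
    nlinarith [sq_nonneg (2 * ‖ξ g‖ - 5 * ‖(S.tw q (s i) ξ - ξ) g‖)]
  have e3 : ∑ g ∈ P.image φ, ‖ξ g‖ ^ 2 ≤ m := by
    have h1 : ∑ g ∈ (P.image φ).filter (fun g => ξ g ≠ 0), ‖ξ g‖ ^ 2 =
        ∑ g ∈ P.image φ, ‖ξ g‖ ^ 2 :=
      Finset.sum_filter_of_ne fun x _ hx h0 => hx (by rw [h0, norm_zero]; norm_num)
    rw [← h1, hm]
    refine Finset.sum_le_sum_of_subset_of_nonneg (fun g hg => ?_) fun _ _ _ => sq_nonneg _
    obtain ⟨h2, h3⟩ := Finset.mem_filter.1 hg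
    exact Finset.mem_filter.2 ⟨Finsupp.mem_support_iff.2 h3, hPE g h2⟩
  have e4 := GapSets_sum_le_nsq (S.tw q (s i) ξ - ξ) (P.image φ)
  have e5 : nsq (S.tw q (s i) ξ - ξ) ≤
      ∑ g ∈ Finset.univ.image s, nsq (S.tw q g ξ - ξ) :=
    Finset.single_le_sum (f := fun g => nsq (S.tw q g ξ - ξ))
      (fun g _ => GapSets_nsq_nonneg _) (Finset.mem_image_of_mem s (Finset.mem_univ i))
  have e6 := GapSets_nsq_nonneg (S.tw q (s i) ξ - ξ)
  linarith

end Pool.Agent.H.MP_e11395_an
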