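import Pool.Agent.H.MP_e11395_an.A.DMain
import Pool.Agent.H.MP_e11395_an.E.GapSets
import Pool.Agent.H.MP_e11395_an.D.StateA

/-!
# Part E: the twisted system of `D`
-/

set_option autoImplicit false
set_option linter.unusedSectionVars false

open Filter Topology
open Pool.Agent.H.MP_43b197_an

namespace Pool.Agent.H.MP_e11395_an

/-- A faithful tracial state in the sense of part D, as a `TrState`.

Proof. `tr_star`: `IsTr.map_star` (D/StateA.lean). `pos`: `0 ≤ τ (star x * x)` in the order of `ℂ`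
gives the real part. `faithful`: the imaginary part of `τ (star x * x)` is `0`. -/
noncomputable def trStateOf {A : Type} [CStarAlgebra A] (τ : A →ₗ[ℂ] ℂ) (h : IsTr τ)
    (hf : ∀ x, τ (star x * x) = 0 → x = 0) : TrState A where
  tr := τ
  one := h.one
  comm := h.comm
  tr_star x := h.map_star x
  pos x := (Complex.le_def.1 (h.pos x)).1
  faithful x hx := hf x (Complex.ext hx ((Complex.le_def.1 (h.pos x)).2).symm)

/-- The trace of `D`. -/
noncomputable def tauDS : TrState tw.DT :=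
  trStateOf tw.tauD (tauD_isTr tw) (tauD_faithful tw)

theorem tauDS_tr (x : tw.DT) : tauDS.tr x = tw.tauD x := rfl

/-- The elements supported in `{0, …, n}`. -/
def filQ (n : ℕ) : AddSubgroup QQ where
  carrier := {q | ∀ j, n < j → q.1 j = 0}
  zero_mem' := fun _ _ => rfl
  add_mem' {a b} ha hb j hj := by
    rw [Prod.fst_add, Finsupp.add_apply, ha j hj, hb j hj, add_zero]
  neg_mem' {a} ha j hj := by
    rw [Prod.fst_neg, Finsupp.neg_apply, ha j hj, neg_zero]

theorem DSys_s_inj {i j : Z9} (h : FF.s i = FF.s j) : i = j := by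
  have h1 : (FF.s i).w = (FF.s j).w := by rw [h]
  have h2 : [i] = [j] := h1
  simpa using h2

theorem DSys_sh_trivial {c : Z9} (h : ∀ f, FF.sh c f = f) : c = 0 := by
  have h1 := h (FF.s 0)
  rw [FF.sh_s] at h1
  simpa using DSys_s_inj h1

theorem DSys_fil_fin (n : ℕ) : (filQ n : Set QQ).Finite := by
  have hi : Function.Injective (fun q : (filQ n : Set QQ) =>
      ((fun i : Fin (n + 1) => q.1.1 i), q.1.2)) := by
    intro p q h
    have h1 := (Prod.mk.inj h).1
    have h2 := (Prod.mk.inj h).2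
    apply Subtype.ext
    refine Prod.ext ?_ h2
    ext j
    by_cases hj : n < j
    · rw [p.2 j hj, q.2 j hj]
    · have h3 := congrFun h1 ⟨j, by omega⟩
      simpa using h3
  have := Finite.of_injective _ hi
  exact Set.toFinite _

theorem DSys_fil_exh (q : QQ) : ∃ n, q ∈ filQ n := by
  refine ⟨q.1.support.sup id, fun j hj => ?_⟩
  by_contra h
  have h1 : id j ≤ q.1.support.sup id := Finset.le_sup (f := id) (Finsupp.mem_support_iff.2 h)
  exact absurd hj (not_lt.2 h1)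

/-- The twisted system `(FF, QQ)`: `q` acts by the shift by `aQ q`; the bicharacter is
`e9 (bQ p q)`.

Proofs: `fil_fin`: `filQ n` injects into `(Fin (n+1) → ZMod 9) × ZMod 3`. `ker_idx`: `aQ` is
surjective (`aQ_surj`): choose a preimage of every element of `ℤ/9`; `sh 0 = id`. `nondeg`: if the
shift by `aQ k` is trivial then `s (0 + aQ k) = sh (aQ k) (s 0) = s 0`, so `aQ k = 0`; from
`e9 (bQ k q) = e9 (bQ q k)` and `e9_inj`, `BQ k q = 0`; `BQ_nondeg`. -/
noncomputable def sysD : TwSys FF QQ where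
  act q f := FF.sh (aQ q) f
  act_mul q f g := map_mul _ f g
  act_zero f := by rw [map_zero]; exact FF.sh_zero f
  act_add p q f := by rw [map_add]; exact FF.sh_add _ _ f
  b p q := e9 (bQ p q)
  b_norm p q := e9_norm _
  b_add_left p p' q := by rw [bQ_add_left, e9_add]
  b_add_right p q q' := by rw [bQ_add_right, e9_add]
  fil := filQ
  fil_mono m n h q hq j hj := hq j (lt_of_le_of_lt h hj)
  fil_fin n := DSys_fil_fin n
  fil_exh q := DSys_fil_exh q
  ker_idx := by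
    classical
    refine ⟨Finset.univ.image (Function.surjInv aQ_surj), fun q => ?_⟩
    refine ⟨Function.surjInv aQ_surj (aQ q), Finset.mem_image_of_mem _ (Finset.mem_univ _),
      fun f => ?_⟩
    rw [map_sub, Function.surjInv_eq aQ_surj, sub_self]
    exact FF.sh_zero f
  nondeg k hk h := by
    refine BQ_nondeg (DSys_sh_trivial hk) fun q => ?_
    unfold BQ
    rw [e9_inj (h q), sub_self]

/-- The kernel of the action is `ker aQ` (consider `s 0`). -/
theorem sysD_mem_K (k : QQ) : k ∈ sysD.K ↔ aQ k = 0 := by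
  rw [TwSys.mem_K]
  constructor
  · intro h
    exact DSys_sh_trivial h
  · intro h f
    change FF.sh (aQ k) f = f
    rw [h]
    exact FF.sh_zero f

theorem DSys_e9_ne (j : Z9) : e9 j ≠ 0 := by
  intro h
  have h1 := e9_norm j
  rw [h, norm_zero] at h1
  exact zero_ne_one h1

theorem sysD_β (p q : QQ) : sysD.β p q = e9 (BQ p q) := by
  change e9 (bQ p q) / e9 (bQ q p) = e9 (bQ p q - bQ q p)
  rw [div_eq_iff (DSys_e9_ne _), ← e9_add, sub_add_cancel]

theorem DSys_mk_mul (f g : FF) (p q : QQ) :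
    (⟨f, p⟩ : GG) * ⟨g, q⟩ = ⟨f * FF.sh (aQ p) g, p + q⟩ := rfl

theorem DSys_lamD_mul (x y : GG) : tw.lamD x * tw.lamD y = e9 (bQ x.q y.q) • tw.lamD (x * y) := by
  ext1
  exact tw.lam_mul x y

theorem DSys_lamD_one : tw.lamD 1 = 1 := by
  ext1
  exact tw.lam_one

theorem DSys_lamD_star_mul (x : GG) : star (tw.lamD x) * tw.lamD x = 1 := by
  ext1
  exact tw.Tw_star_mul x

theorem DSys_lamD_mul_star (x : GG) : tw.lamD x * star (tw.lamD x) = 1 := by
  ext1
  exact ((Unitary.mem_iff).1 (tw.lam_unitary x)).2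

theorem DSys_uv (f : FF) (q : QQ) : tw.lamD ⟨f, 0⟩ * tw.lamD ⟨1, q⟩ = tw.lamD ⟨f, q⟩ := by
  rw [DSys_lamD_mul, DSys_mk_mul, map_one, mul_one, zero_add]
  change e9 (bQ 0 q) • _ = _
  rw [GG_bQ_zero_left, e9_zero, one_smul]

theorem DSys_tr_lamD {x : GG} (hx : x ≠ 1) : tw.tauD (tw.lamD x) = 0 := by
  rw [TwG.tauD_apply]
  change (tw.lam x (dl 1) : H2 GG) 1 = 0
  rw [TwG.lam_dl, lp.coeFn_smul, Pi.smul_apply, mul_one, dl_ne (fun h => hx h.symm), smul_zero]

/-- `u f = lamD (f, 0)`, `v q = lamD (1, q)`.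

Proofs: `TwG.lam_mul`, `lam_star`, `lam_unitary`; the cocycle is
`tw.ω x y = e9 (bQ x.q y.q)`, `e9 (bQ 0 _) = e9 (bQ _ 0) = 1`. `tr`: `tauD (lamD x) = 0` for
`x ≠ 1` (`tauD_apply`, `lam_dl`, `dl_ne`), and
`u f * v q = lamD (f, q)` (`(f, 0) * (1, q) = (f, q)`). `dense`: `TwG.D_dense`, with the
equivalence `GG ≃ FF × QQ` (`Finsupp.mapDomain`). -/
noncomputable def genD : Gen sysD tw.DT tauDS where
  u f := tw.lamD ⟨f, 0⟩
  v q := tw.lamD ⟨1, q⟩
  u_one := DSys_lamD_one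
  u_mul f g := by
    rw [DSys_lamD_mul, DSys_mk_mul, map_zero, FF.sh_zero, add_zero]
    change _ = e9 (bQ 0 0) • _
    rw [GG_bQ_zero_left, e9_zero, one_smul]
  u_star f := by
    have h1 : tw.lamD ⟨f, 0⟩ * tw.lamD ⟨f⁻¹, 0⟩ = 1 := by
      rw [DSys_lamD_mul, DSys_mk_mul, map_zero, FF.sh_zero, add_zero, mul_inv_cancel]
      change e9 (bQ 0 0) • tw.lamD 1 = _
      rw [GG_bQ_zero_left, e9_zero, one_smul, DSys_lamD_one]
    calc star (tw.lamD ⟨f, 0⟩) = star (tw.lamD ⟨f, 0⟩) * (tw.lamD ⟨f, 0⟩ * tw.lamD ⟨f⁻¹, 0⟩) := by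
          rw [h1, mul_one]
      _ = tw.lamD ⟨f⁻¹, 0⟩ := by rw [← mul_assoc, DSys_lamD_star_mul, one_mul]
  v_zero := DSys_lamD_one
  v_mul p q := by
    rw [DSys_lamD_mul, DSys_mk_mul, map_one, mul_one]
    rfl
  v_star_mul q := DSys_lamD_star_mul _
  v_mul_star q := DSys_lamD_mul_star _
  vu q f := by
    rw [DSys_uv, DSys_lamD_mul, DSys_mk_mul, one_mul, add_zero]
    change e9 (bQ q 0) • _ = _
    rw [GG_bQ_zero_right, e9_zero, one_smul]
    rfl
  tr_one := by
    rw [DSys_uv]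
    change tw.tauD (tw.lamD 1) = 1
    rw [DSys_lamD_one]
    exact (tauD_isTr tw).one
  tr_ne f q h := by
    rw [DSys_uv]
    refine DSys_tr_lamD fun h1 => h ?_
    have h2 := congrArg GG.f h1
    have h3 := congrArg GG.q h1
    exact Prod.ext h2 h3
  dense x ε hε := by
    obtain ⟨c, hc⟩ := tw.D_dense x ε hε
    refine ⟨c.mapDomain fun g => (g.f, g.q), ?_⟩
    have h1 : ((c.mapDomain fun g : GG => (g.f, g.q)).sum fun y a =>
        a • (tw.lamD ⟨y.1, 0⟩ * tw.lamD ⟨1, y.2⟩)) = c.sum fun x a => a • tw.lamD x := by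
      have h2 := Finsupp.sum_mapDomain_index (f := fun g : GG => (g.f, g.q)) (s := c)
        (h := fun (y : FF × QQ) (a : ℂ) => a • (tw.lamD ⟨y.1, 0⟩ * tw.lamD ⟨1, y.2⟩))
        (fun _ => zero_smul _ _) (fun _ _ _ => add_smul _ _ _)
      rw [h2]
      refine Finsupp.sum_congr fun g _ => ?_
      rw [DSys_uv]
    rw [h1, norm_sub_rev]
    exact hc

/-- `hasGap_of_sets` with `s i = FF.s i`, `E i = FF.E i`, `i = 0, 1, 2`
(`FF.E_disjoint`, `FF.s_mul_mul_s_mem`: `s i * x * (sh (aQ q) (s i))⁻¹ = s i * x * s (i + aQ q)`,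
and `i + aQ q ≠ i` if `aQ q ≠ 0`). -/
theorem sysD_hasGap : ∃ (Sf : Finset FF) (C : ℝ), sysD.HasGap Sf C := by
  have hinj : ∀ i j : Fin 3, i ≠ j → ((i : ℕ) : Z9) ≠ ((j : ℕ) : Z9) := by decide
  refine ⟨_, _, hasGap_of_sets sysD (fun i : Fin 3 => FF.s ((i : ℕ) : Z9))
    (fun i : Fin 3 => FF.E ((i : ℕ) : Z9)) (fun i j hij => FF.E_disjoint (hinj i j hij)) ?_⟩
  intro i q x hx hq
  have e : (sysD.act q (FF.s ((i : ℕ) : Z9)))⁻¹ = FF.s (((i : ℕ) : Z9) + aQ q) := by
    change (FF.sh (aQ q) (FF.s ((i : ℕ) : Z9)))⁻¹ = _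
    rw [FF.sh_s, FF.s_inv]
  beta_reduce
  rw [e]
  refine FF.s_mul_mul_s_mem hx ?_
  by_cases h : aQ q = 0
  · left
    exact hq ((sysD_mem_K q).2 h)
  · right
    intro h1
    exact h (by simpa using h1)

/-! ### Arithmetic -/

/-- (Q4) If `c` is a character of `QQ` with `c vQ = 1` and `c = β q₀` on `K` then
`(c q₀) ^ 3` is `1` or `e9 3`.

Proof. Let `n = (aQ q₀).val`. `aQ (3 • q₀ - n • vQ) = 3 n - 3 n = 0`, so
`c (3 • q₀) = c (3 • q₀ - n • vQ) = β q₀ (3 • q₀ - n • vQ) = (β q₀ vQ) ^ (-n) = e9 (3 n * n)`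
(`BQ_right_vQ`: `BQ q₀ vQ = - 3 aQ q₀`; `β q₀ q₀ = 1`), and `3 n ^ 2` is `0` or `3` in `ℤ/9`
(`decide` over `aQ q₀ : ZMod 9`). -/
theorem arith_Q4 (c : QQ → ℂ) (hc : ∀ p q, c (p + q) = c p * c q) (hn : ∀ q, ‖c q‖ = 1)
    (hv : c vQ = 1) (q₀ : QQ) (h : ∀ k ∈ sysD.K, c k = sysD.β q₀ k) :
    c q₀ ^ 3 = 1 ∨ c q₀ ^ 3 = e9 3 := by
  have hc0 : c 0 = 1 := by
    have h1 := hc 0 0
    rw [add_zero] at h1
    have h2 : c 0 ≠ 0 := fun h3 => by
      have h4 := hn 0
      rw [h3, norm_zero] at h4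
      exact zero_ne_one h4
    exact (mul_eq_left₀ h2).1 h1.symm
  have hcn : ∀ (n : ℕ) (q : QQ), c (n • q) = c q ^ n := by
    intro n q
    induction n with
    | zero => rw [zero_smul, hc0, pow_zero]
    | succ n ih => rw [succ_nsmul, hc, ih, pow_succ]
  have hBn : ∀ (n : ℕ) (p q : QQ), BQ p (n • q) = n * BQ p q := by
    intro n p q
    induction n with
    | zero =>
      unfold BQ
      rw [zero_smul, GG_bQ_zero_left, GG_bQ_zero_right]
      simp
    | succ n ih =>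
      have h1 : BQ p (n • q + q) = BQ p (n • q) + BQ p q := by
        unfold BQ
        rw [bQ_add_left, bQ_add_right]
        ring
      rw [succ_nsmul, h1, ih]
      push_cast
      ring
  have hBadd : ∀ p q r : QQ, BQ p (q + r) = BQ p q + BQ p r := by
    intro p q r
    unfold BQ
    rw [bQ_add_left, bQ_add_right]
    ring
  set a : ZMod 9 := aQ q₀ with ha
  set k : QQ := 3 • q₀ - a.val • vQ with hk
  have hk1 : k + a.val • vQ = 3 • q₀ := by rw [hk, sub_add_cancel]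
  have hav : aQ vQ = 3 := by
    change (0 : ℕ →₀ ZMod 9) 0 + three 1 = 3
    rw [Finsupp.coe_zero, Pi.zero_apply, zero_add]
    decide
  have hcast : ((a.val : ℕ) : ZMod 9) = a := ZMod.natCast_zmod_val a
  have hak : aQ k = 0 := by
    rw [hk, map_sub, map_nsmul, map_nsmul, hav, ← ha, nsmul_eq_mul, nsmul_eq_mul, hcast]
    push_cast
    ring
  have hck := h k ((sysD_mem_K k).2 hak)
  rw [sysD_β] at hck
  have hB : BQ q₀ k = 3 * a * a := by
    have h1 : BQ q₀ k + BQ q₀ (a.val • vQ) = BQ q₀ (3 • q₀) := by rw [← hBadd, hk1]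
    rw [hBn, hBn, BQ_right_vQ, hcast, ← ha] at h1
    have h2 : BQ q₀ q₀ = 0 := by unfold BQ; rw [sub_self]
    rw [h2, mul_zero] at h1
    linear_combination h1
  have h3 : c q₀ ^ 3 = e9 (3 * a * a) := by
    rw [← hcn, ← hk1, hc, hcn, hv, one_pow, mul_one, hck, hB]
  have h4 : ∀ a : ZMod 9, 3 * a * a = 0 ∨ 3 * a * a = 3 := by decide
  rcases h4 a with h5 | h5
  · left
    rw [h3, h5, e9_zero]
  · right
    rw [h3, h5]

end Pool.Agent.H.MP_e11395_an
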