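import Pool.Agent.H.MP_e11395_an.E.Tw

/-!
# Part E: finite index and duality
-/

set_option autoImplicit false

open Filter Topology
open Pool.Agent.H.MP_43b197_an

namespace Pool.Agent.H.MP_e11395_an

namespace TwSys

variable {F Q : Type} [Group F] [AddCommGroup Q] (S : TwSys F Q)

theorem Dual_sum_zero {G : Type} [AddGroup G] [Fintype G] (φ : G → ℂ)
    (h : ∀ a b, φ (a + b) = φ a * φ b) (g : G) (hg : φ g ≠ 1) : ∑ x, φ x = 0 := by
  have h1 : ∑ x, φ (x + g) = ∑ x, φ x := Equiv.sum_comp (Equiv.addRight g) φ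
  have h2 : ∑ x, φ (x + g) = (∑ x, φ x) * φ g := by
    rw [Finset.sum_mul]
    exact Finset.sum_congr rfl fun x _ => h x g
  have h3 : (∑ x, φ x) * (φ g - 1) = 0 := by
    rw [mul_sub, mul_one, ← h2, h1, sub_self]
  rcases mul_eq_zero.1 h3 with h4 | h4
  · exact h4
  · exact absurd (sub_eq_zero.1 h4) hg

theorem Dual_nsmul (k q : Q) (m : ℕ) : S.β k (m • q) = S.β k q ^ m := by
  induction m with
  | zero => rw [zero_nsmul, S.β_zero_right, pow_zero]
  | succ m ih => rw [succ_nsmul, S.β_add_right, ih, pow_succ]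

theorem Dual_sub (p p' q : Q) (h : S.β p q = S.β p' q) : S.β (p - p') q = 1 := by
  have h1 := S.β_add_left (p - p') p' q
  rw [sub_add_cancel, h] at h1
  exact (mul_eq_right₀ (S.β_ne_zero p' q)).1 h1.symm

theorem Dual_finite (n : ℕ) : Finite (S.fil n) := (S.fil_fin n).to_subtype

theorem Dual_pow (n : ℕ) (k : Q) (q : S.fil n) : S.β k q ^ Nat.card (S.fil n) = 1 := by
  rw [← Dual_nsmul]
  have h : Nat.card (S.fil n) • q = 0 := card_nsmul_eq_zero'
  have h2 : Nat.card (S.fil n) • (q : Q) = 0 := congrArg (fun x : S.fil n => (x : Q)) h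
  rw [h2, S.β_zero_right]

theorem Dual_quot (n : ℕ) : Finite (Q ⧸ S.Hn n) := by
  classical
  haveI := S.Dual_finite n
  obtain ⟨T, hT⟩ := S.ker_idx
  choose r hr hr2 using hT
  haveI : Finite {z : ℂ // z ^ Nat.card (S.fil n) = 1} := by
    have hfin : {z : ℂ | z ^ Nat.card (S.fil n) = 1}.Finite := by
      refine (Polynomial.nthRootsFinset (Nat.card (S.fil n)) (1 : ℂ)).finite_toSet.subset ?_
      intro z hz
      rw [Finset.mem_coe, Polynomial.mem_nthRootsFinset Nat.card_pos]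
      exact hz
    exact hfin.to_subtype
  let Φ : Q → T × (S.fil n → {z : ℂ // z ^ Nat.card (S.fil n) = 1}) := fun q =>
    (⟨r q, hr q⟩, fun x => ⟨S.β (q - r q) x, S.Dual_pow n _ x⟩)
  have key : ∀ q q', Φ q = Φ q' → q - q' ∈ S.Hn n := by
    intro q q' h
    have h1 : r q = r q' := congrArg (fun y => (y.1 : Q)) h
    have h2 : ∀ x : S.fil n, S.β (q - r q) x = S.β (q' - r q') x := fun x =>
      congrArg (fun y => ((y.2 x : {z : ℂ // z ^ Nat.card (S.fil n) = 1}) : ℂ)) h
    have e : q - q' = (q - r q) - (q' - r q') := by rw [h1]; abel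
    refine ⟨?_, ?_⟩
    · rw [e]
      exact S.K.sub_mem (hr2 q) (hr2 q')
    · intro x hx
      rw [e]
      exact S.Dual_sub _ _ _ (h2 ⟨x, hx⟩)
  refine Finite.of_injective (fun y : Q ⧸ S.Hn n => Φ (Quotient.out y)) ?_
  intro y y' h
  have h1 := key _ _ h
  have h2 : ((Quotient.out y : Q) : Q ⧸ S.Hn n) = ((Quotient.out y' : Q) : Q ⧸ S.Hn n) := by
    rw [eq_comm, QuotientAddGroup.eq, neg_add_eq_sub]
    exact h1
  have e1 : ((Quotient.out y : Q) : Q ⧸ S.Hn n) = y := QuotientAddGroup.out_eq' y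
  have e2 : ((Quotient.out y' : Q) : Q ⧸ S.Hn n) = y' := QuotientAddGroup.out_eq' y'
  rw [e1, e2] at h2
  exact h2

/-- `Hn n` has finite index in `Q`.

Proof. `K` has finite index by `ker_idx` (finitely many cosets). `fil n` is finite; for `k ∈ K` and
`q ∈ fil n`, `(β k q) ^ M = β k (M • q) = 1` with `M` the cardinality of `fil n`, so the function
`k ↦ (fun q : fil n => β k q)` takes its values in the finite set of functions
`fil n → {z : ℂ | z ^ M = 1}`. Two elements of `K` with the same function differ by an element of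
`Hn n`. So there are finitely many cosets of `Hn n` in `K`, hence in `Q`: e.g.
`AddSubgroup.finiteIndex_iff_finite_quotient`/`Finite.of_injective` for
`Q ⧸ Hn n → (Q ⧸ K) × ...`, or the composition `relIndex * index ≠ 0`
(`AddSubgroup.relIndex_mul_index`). -/
theorem Hn_index (n : ℕ) : (S.Hn n).FiniteIndex := by
  haveI := S.Dual_quot n
  exact AddSubgroup.finiteIndex_of_finite_quotient

/-- **Duality.** A character of `Q` which is trivial on `Hn n` is of the form `β q₀` on `K`.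

Proof. Let `Y = K ⧸ (Hn n)` (finite by `Hn_index`; or: `Y` = the quotient of `K` by
`(S.Hn n).addSubgroupOf S.K`). `c` and the `β q ·`, `q ∈ fil n`, are characters of `Y`. If `c` is
different from all of them then, for every `q ∈ fil n`, `∑_{y ∈ Y} c y * (β q y)⁻¹ = 0` (a
nontrivial character sums to zero: `AddChar.sum_eq_zero_of_ne_one` or the direct argument). Sum
over `q ∈ fil n` and exchange: `∑_{q ∈ fil n} (β q y)⁻¹ = 0` unless `β q y = 1` for all
`q ∈ fil n`, i.e. `y = 0` in `Y`. So `0 = |fil n| * c 0 = |fil n|`, a contradiction. -/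
theorem duality (n : ℕ) (c : Q → ℂ) (hc : ∀ p q, c (p + q) = c p * c q) (hn : ∀ q, ‖c q‖ = 1)
    (h : ∀ k ∈ S.Hn n, c k = 1) : ∃ q₀ ∈ S.fil n, ∀ k ∈ S.K, c k = S.β q₀ k := by
  classical
  by_contra hcon
  push Not at hcon
  haveI := S.Dual_finite n
  letI : Fintype (S.fil n) := Fintype.ofFinite _
  -- the finite group
  let H : AddSubgroup S.K := (S.Hn n).addSubgroupOf S.K
  haveI hfin : Finite (S.K ⧸ H) := by
    haveI := S.Dual_quot n
    refine Finite.of_injective
      (fun y : S.K ⧸ H => (((Quotient.out y : S.K) : Q) : Q ⧸ S.Hn n)) ?_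
    intro y y' hy
    have hy1 : (((Quotient.out y : S.K) : Q) : Q ⧸ S.Hn n) =
      (((Quotient.out y' : S.K) : Q) : Q ⧸ S.Hn n) := hy
    rw [QuotientAddGroup.eq] at hy1
    have h2 : ((Quotient.out y : S.K) : S.K ⧸ H) = ((Quotient.out y' : S.K) : S.K ⧸ H) := by
      rw [QuotientAddGroup.eq]
      exact hy1
    have e1 : ((Quotient.out y : S.K) : S.K ⧸ H) = y := QuotientAddGroup.out_eq' y
    have e2 : ((Quotient.out y' : S.K) : S.K ⧸ H) = y' := QuotientAddGroup.out_eq' y'
    rw [e1, e2] at h2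
    exact h2
  letI : Fintype (S.K ⧸ H) := Fintype.ofFinite _
  -- the values at the representatives
  have hval : ∀ χ : Q → ℂ, (∀ p q, χ (p + q) = χ p * χ q) → (∀ k ∈ S.Hn n, χ k = 1) →
      ∀ k : S.K, χ ((Quotient.out (k : S.K ⧸ H) : S.K) : Q) = χ k := by
    intro χ h1 h2 k
    obtain ⟨m, hm⟩ := QuotientAddGroup.mk_out_eq_add H k
    have hm' : (Quotient.out (k : S.K ⧸ H) : S.K) = k + (m : S.K) := hm
    rw [hm']
    have e : ((k + (m : S.K) : S.K) : Q) = (k : Q) + ((m : S.K) : Q) := rfl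
    have h3 : χ ((m : S.K) : Q) = 1 := h2 _ m.2
    rw [e, h1, h3, mul_one]
  have hmul : ∀ χ : Q → ℂ, (∀ p q, χ (p + q) = χ p * χ q) → (∀ k ∈ S.Hn n, χ k = 1) →
      ∀ y y' : S.K ⧸ H, χ ((Quotient.out (y + y') : S.K) : Q) =
        χ ((Quotient.out y : S.K) : Q) * χ ((Quotient.out y' : S.K) : Q) := by
    intro χ h1 h2 y y'
    induction y using QuotientAddGroup.induction_on with
    | H k =>
      induction y' using QuotientAddGroup.induction_on with
      | H k' =>
        rw [← QuotientAddGroup.mk_add, hval χ h1 h2, hval χ h1 h2, hval χ h1 h2, ← h1]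
        rfl
  -- first sums
  have hsum1 : ∀ q : S.fil n, ∑ y : S.K ⧸ H,
      c ((Quotient.out y : S.K) : Q) * (S.β q ((Quotient.out y : S.K) : Q))⁻¹ = 0 := by
    intro q
    obtain ⟨k, hk, hk2⟩ := hcon q q.2
    have m1 : ∀ p p' : Q, c (p + p') * (S.β q (p + p'))⁻¹ =
        (c p * (S.β q p)⁻¹) * (c p' * (S.β q p')⁻¹) := by
      intro p p'
      rw [hc, S.β_add_right, mul_inv]; ring
    have m2 : ∀ k ∈ S.Hn n, c k * (S.β q k)⁻¹ = 1 := by
      intro k hk
      have := S.β_swap k q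
      rw [hk.2 q q.2, one_mul] at this
      rw [h k hk, this]; simp
    have m3 := hmul (fun p => c p * (S.β q p)⁻¹) m1 m2
    refine Dual_sum_zero (fun y : S.K ⧸ H =>
      c ((Quotient.out y : S.K) : Q) * (S.β q ((Quotient.out y : S.K) : Q))⁻¹) m3
      ((⟨k, hk⟩ : S.K) : S.K ⧸ H) ?_
    have m4 := hval (fun p => c p * (S.β q p)⁻¹) m1 m2 ⟨k, hk⟩
    intro h5
    have h6 : c k * (S.β q k)⁻¹ = 1 := by
      rw [← m4]; exact h5
    rw [← div_eq_mul_inv, div_eq_one_iff_eq (S.β_ne_zero q k)] at h6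
    exact hk2 h6
  have hsum2 : ∀ y : S.K ⧸ H, y ≠ 0 →
      ∑ q : S.fil n, (S.β q ((Quotient.out y : S.K) : Q))⁻¹ = 0 := by
    intro y hy
    have hy1 : ((Quotient.out y : S.K) : Q) ∉ S.Hn n := by
      intro h1
      apply hy
      have e1 : ((Quotient.out y : S.K) : S.K ⧸ H) = y := QuotientAddGroup.out_eq' y
      rw [← e1, QuotientAddGroup.eq_zero_iff]
      exact h1
    have hy2 : ∃ q : S.fil n, S.β ((Quotient.out y : S.K) : Q) q ≠ 1 := by
      by_contra hno
      push Not at hno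
      exact hy1 ⟨(Quotient.out y : S.K).2, fun q hq => hno ⟨q, hq⟩⟩
    obtain ⟨q, hq⟩ := hy2
    refine Dual_sum_zero (fun q : S.fil n => (S.β q ((Quotient.out y : S.K) : Q))⁻¹) ?_ q ?_
    · intro a b
      have e : ((a + b : S.fil n) : Q) = (a : Q) + (b : Q) := rfl
      simp only [e, S.β_add_left, mul_inv]
    · intro h1
      apply hq
      have h2 := S.β_swap ((Quotient.out y : S.K) : Q) q
      have h3 : S.β q ((Quotient.out y : S.K) : Q) = 1 := inv_eq_one.1 h1
      rw [h3, mul_one] at h2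
      exact h2
  have h0 : ((Quotient.out (0 : S.K ⧸ H) : S.K) : Q) ∈ S.Hn n := by
    have e1 : ((Quotient.out (0 : S.K ⧸ H) : S.K) : S.K ⧸ H) = 0 :=
      QuotientAddGroup.out_eq' (0 : S.K ⧸ H)
    rw [QuotientAddGroup.eq_zero_iff] at e1
    exact e1
  have htot : ∑ q : S.fil n, ∑ y : S.K ⧸ H,
      c ((Quotient.out y : S.K) : Q) * (S.β q ((Quotient.out y : S.K) : Q))⁻¹ = 0 :=
    Finset.sum_eq_zero fun q _ => hsum1 q
  rw [Finset.sum_comm] at htot
  simp only [← Finset.mul_sum] at htot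
  rw [Finset.sum_eq_single (0 : S.K ⧸ H)] at htot
  · rw [h _ h0, one_mul] at htot
    have e : ∀ q : S.fil n, (S.β q ((Quotient.out (0 : S.K ⧸ H) : S.K) : Q))⁻¹ = 1 := by
      intro q
      have := S.β_swap ((Quotient.out (0 : S.K ⧸ H) : S.K) : Q) q
      rw [h0.2 q q.2, one_mul] at this
      rw [this, inv_one]
    rw [Finset.sum_congr rfl fun q _ => e q, Finset.sum_const, nsmul_eq_mul, mul_one] at htot
    have hpos : 0 < (Finset.univ : Finset (S.fil n)).card :=
      Finset.card_pos.2 ⟨0, Finset.mem_univ _⟩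
    exact hpos.ne' (by exact_mod_cast htot)
  · intro y _ hy
    rw [hsum2 y hy, mul_zero]
  · intro h1
    exact absurd (Finset.mem_univ _) h1

end TwSys

end Pool.Agent.H.MP_e11395_an
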