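import Pool.Agent.H.MP_e11395_an.E.Basic

/-!
# Part E: pointwise limits of inner automorphisms
-/

set_option autoImplicit false

open Filter Topology
open Pool.Agent.H.MP_43b197_an

namespace Pool.Agent.H.MP_e11395_an

variable {N : Type} [Ring N] [StarRing N] [Algebra ℂ N] [StarModule ℂ N]

/-- If the sequences `w m * x' * star (w m)` are eventually constant for a 2-norm dense set of
elements `x'` then the inner automorphisms `Ad (w m)` converge pointwise in the 2-norm to
a unital star homomorphism.

Proof. Let `x : N`, `Bd C x` for some `C`. The sequence `y m = w m * x * star (w m)` is bounded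
(`bd_mul` with `bd_unitary`) by `1 * C * 1`, and 2-norm Cauchy: for `ε > 0` choose `x'` within `ε / 3`;
for `m, m' ≥ M`, `n2 (y m - y m') ≤ 2 * n2 (x' - x) < ε` (`n2_unitary_mul`, `n2_mul_unitary`). So it
converges (`T.complete`); let `Θ x` be the limit (choice). `CLim.unique`, `CLim.add`, `CLim.star`,
and for products: `y m * y' m → Θ x * Θ x'` by
`n2 (y y' - L L') ≤ n2 (y (y' - L')) + n2 ((y - L) L')`, `y m` bounded, `L'` bounded
(`TVN_mul_le`); `w x w* w x' w* = w x x' w*`. `Θ 1 = 1`, `commutes'` (constant sequences). -/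
theorem exists_limHom (T : TVN N) {w : ℕ → N} (hw : ∀ m, w m ∈ unitary N)
    (h : ∀ (x : N) (ε : ℝ), 0 < ε → ∃ x', T.n2 (x' - x) < ε ∧
      ∃ M, ∀ m, M ≤ m → w m * x' * star (w m) = w M * x' * star (w M)) :
    ∃ Θ : N →⋆ₐ[ℂ] N, ∀ x, T.CLim (fun m => w m * x * star (w m)) (Θ x) := by
  have hw1 : ∀ m, star (w m) * w m = 1 := fun m => Unitary.star_mul_self_of_mem (hw m)
  have hw2 : ∀ m, w m * star (w m) = 1 := fun m => Unitary.mul_star_self_of_mem (hw m)
  have hiso : ∀ m y, T.n2 (w m * y * star (w m)) = T.n2 y := by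
    intro m y
    rw [T.n2_mul_unitary (by rw [star_star]; exact hw1 m), T.n2_unitary_mul (hw1 m)]
  have hbd : ∀ (C : ℝ) (x : N), T.Bd C x → ∀ m, T.Bd C (w m * x * star (w m)) := by
    intro C x hx m
    have h1 := T.bd_mul 1 C _ _ (T.bd_unitary (hw m)) hx
    have h2 := T.bd_mul _ 1 _ _ h1 (T.bd_star 1 _ (T.bd_unitary (hw m)))
    rwa [one_mul, mul_one] at h2
  have hlim : ∀ x : N, ∃ y, T.CLim (fun m => w m * x * star (w m)) y := by
    intro x
    obtain ⟨C, hC⟩ := T.bd_exists x
    obtain ⟨y, -, hy⟩ := T.complete C (fun m => w m * x * star (w m)) (hbd C x hC) (by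
      intro ε hε
      obtain ⟨x', hx', M, hM⟩ := h x (ε / 3) (by positivity)
      refine ⟨M, fun m hm n hn => ?_⟩
      have e1 : w m * x * star (w m) - w n * x * star (w n) =
          w n * (x' - x) * star (w n) - w m * (x' - x) * star (w m) := by
        have h1 := hM m hm
        have h2 := hM n hn
        simp only [mul_sub, sub_mul]
        rw [h1, h2]
        abel
      rw [e1]
      have h3 := T.n2_sub_le (w n * (x' - x) * star (w n)) (w m * (x' - x) * star (w m))
      rw [hiso, hiso] at h3
      linarith)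
    exact ⟨y, hy⟩
  choose Θ hΘ using hlim
  have hmul : ∀ x y : N, ∀ m, w m * x * star (w m) * (w m * y * star (w m)) =
      w m * (x * y) * star (w m) := by
    intro x y m
    calc w m * x * star (w m) * (w m * y * star (w m))
        = w m * x * (star (w m) * w m) * y * star (w m) := by simp only [mul_assoc]
      _ = w m * (x * y) * star (w m) := by rw [hw1]; simp only [mul_one, mul_assoc]
  refine ⟨{ toFun := Θ
            map_one' := ?_
            map_mul' := ?_
            map_zero' := ?_
            map_add' := ?_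
            commutes' := ?_
            map_star' := ?_ }, hΘ⟩
  · refine TVN.CLim.unique (hΘ 1) ((TVN.CLim.const (T := T) 1).congr fun n => ?_)
    rw [mul_one, hw2]
  · intro x y
    obtain ⟨C, hC⟩ := T.bd_exists x
    refine TVN.CLim.unique (hΘ (x * y)) (((hΘ x).mul (hΘ y) C (hbd C x hC)).congr fun n => ?_)
    exact hmul x y n
  · refine TVN.CLim.unique (hΘ 0) ((TVN.CLim.const (T := T) 0).congr fun n => ?_)
    rw [mul_zero, zero_mul]
  · intro x y
    refine TVN.CLim.unique (hΘ (x + y)) (((hΘ x).add (hΘ y)).congr fun n => ?_)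
    rw [mul_add, add_mul]
  · intro r
    refine TVN.CLim.unique (hΘ _) ((TVN.CLim.const (T := T) _).congr fun n => ?_)
    rw [← Algebra.commutes, mul_assoc, hw2, mul_one]
  · intro x
    refine TVN.CLim.unique (hΘ (star x)) ((hΘ x).star.congr fun n => ?_)
    rw [star_mul, star_mul, star_star, mul_assoc]

end Pool.Agent.H.MP_e11395_an
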