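import Pool.Agent.H.MP_e11395_an.E.RepN
import Pool.Agent.H.MP_e11395_an.E.LimHom

/-!
# Part E, existence: the unitaries and the limit automorphism
-/

set_option autoImplicit false
set_option linter.unusedSectionVars false

open Filter Topology
open Pool.Agent.H.MP_43b197_an

namespace Pool.Agent.H.MP_e11395_an

variable {N : Type} [Ring N] [StarRing N] [Algebra ℂ N] [StarModule ℂ N] {T : TVN N} {P : Tow}
  {E : Type} [CStarAlgebra E] {τ : TrState E} (R : NTower T P τ)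
  {F Q : Type} [Group F] [AddCommGroup Q] {S : TwSys F Q} (G : Gen S E τ)

/-- The element `i m (1 ⊗ v q)`. -/
noncomputable def lamE (m : ℕ) (q : Q) : N := R.i m (ten 1 (G.v q))

/-- The unitaries `i m (1 ⊗ v (k m)) + (1 - i m 1)`. -/
noncomputable def wE (k : ℕ → Q) (m : ℕ) : N := lamE R G m (k m) + (1 - R.i m 1)

theorem ExA_unitary {a p : N} (h1 : star a * a = p) (h2 : a * star a = p) (h3 : a * p = a)
    (h4 : p * a = a) (hs : star p = p) (hp : p * p = p) : a + (1 - p) ∈ unitary N := by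
  have h3' : p * star a = star a := by
    have := congrArg star h3
    rwa [star_mul, hs] at this
  have h4' : star a * p = star a := by
    have := congrArg star h4
    rwa [star_mul, hs] at this
  rw [Unitary.mem_iff, star_add, star_sub, star_one, hs]
  constructor
  · have e : (star a + (1 - p)) * (a + (1 - p)) =
        star a * a + (star a - star a * p) + (a - p * a) + (1 - p - p + p * p) := by
      noncomm_ring
    rw [e, h1, h4', h4, hp]
    abel
  · have e : (a + (1 - p)) * (star a + (1 - p)) =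
        a * star a + (a - a * p) + (star a - p * star a) + (1 - p - p + p * p) := by
      noncomm_ring
    rw [e, h2, h3, h3', hp]
    abel

theorem ExA_ten_star_mul (r : ℕ) (q : Q) : star (ten (1 : Matrix (Fin r) (Fin r) ℂ) (G.v q)) *
    ten 1 (G.v q) = 1 := by
  rw [ten_star, ten_mul, star_one, mul_one, G.v_star_mul, ten_one]

theorem ExA_ten_mul_star (r : ℕ) (q : Q) : ten (1 : Matrix (Fin r) (Fin r) ℂ) (G.v q) *
    star (ten 1 (G.v q)) = 1 := by
  rw [ten_star, ten_mul, star_one, mul_one, G.v_mul_star, ten_one]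

theorem ExA_i_one_mul (m : ℕ) (b : Mt (Fin (P.ρ m)) E) : R.i m 1 * R.i m b = R.i m b := by
  rw [← map_mul, one_mul]

theorem ExA_i_mul_one (m : ℕ) (b : Mt (Fin (P.ρ m)) E) : R.i m b * R.i m 1 = R.i m b := by
  rw [← map_mul, mul_one]

theorem ExA_i_one_star (m : ℕ) : star (R.i m 1) = R.i m 1 := by
  rw [← map_star, star_one]

/-- `i m` is a star homomorphism, `star (ten 1 v) * ten 1 v = 1`, and
`i m 1 * (1 - i m 1) = 0`. -/
theorem wE_unitary (k : ℕ → Q) (m : ℕ) : wE R G k m ∈ unitary N := by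
  refine ExA_unitary ?_ ?_ ?_ ?_ (ExA_i_one_star R m) (ExA_i_one_mul R m 1)
  · rw [lamE, ← map_star, ← map_mul, ExA_ten_star_mul]
  · rw [lamE, ← map_star, ← map_mul, ExA_ten_mul_star]
  · exact ExA_i_mul_one R m _
  · exact ExA_i_one_mul R m _

/-- An element of stage `n` seen at stage `m ≥ n`: `i n (ten M a) = i m (ten M' a)`
(induction with `R.emb`, `emb_ten`). -/
theorem exists_stage {n m : ℕ} (h : n ≤ m) (M : Matrix (Fin (P.ρ n)) (Fin (P.ρ n)) ℂ) :
    ∃ M' : Matrix (Fin (P.ρ m)) (Fin (P.ρ m)) ℂ, ∀ a : E, R.i n (ten M a) = R.i m (ten M' a) := by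
  induction m, h using Nat.le_induction with
  | base => exact ⟨M, fun _ => rfl⟩
  | succ m hm ih =>
    obtain ⟨M', hM'⟩ := ih
    refine ⟨P.mbl m 1 M', fun a => ?_⟩
    rw [hM' a, ← P.emb_ten, R.emb]

theorem ExA_v_conj {k : Q} (hk : k ∈ S.K) (f : F) (q : Q) :
    G.v k * (G.u f * G.v q) * star (G.v k) = S.β k q • (G.u f * G.v q) := by
  have h1 : G.v k * G.u f = G.u f * G.v k := by
    rw [G.vu, hk f]
  have h2 : G.v k * G.v q = S.β k q • (G.v q * G.v k) := by
    rw [G.v_mul, G.v_mul, smul_smul, TwSys.β, div_mul_cancel₀ _ (S.b_ne_zero q k), add_comm k q]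
  rw [← mul_assoc, h1, mul_assoc (G.u f), h2, mul_smul_comm, smul_mul_assoc, mul_assoc,
    mul_assoc (G.v q), G.v_mul_star, mul_one]

/-- `Ad (w m)` on the elements of stage `n ≤ m`.

Proof. `i n (ten M a) = i m (ten M' a)` with `a = u f * v q`; `(1 - i m 1) * i m (..) = 0`; so
`w m * i m (ten M' a) * star (w m) = i m (ten M' (v k * a * star (v k)))`, `k = k m`; and
`v k * u f = u f * v k` as `k ∈ K`, `v k * v q * star (v k) = β k q • v q` (`v_mul`, the
definition of `β`, `v_mul_star`). -/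
theorem wE_conj {k : ℕ → Q} (hk : ∀ m, k m ∈ S.K) {c : Q → ℂ}
    (hc : ∀ m, ∀ q ∈ S.fil m, S.β (k m) q = c q) {n m : ℕ} (h : n ≤ m)
    (M : Matrix (Fin (P.ρ n)) (Fin (P.ρ n)) ℂ) (f : F) {q : Q} (hq : q ∈ S.fil m) :
    wE R G k m * R.i n (ten M (G.u f * G.v q)) * star (wE R G k m) =
      c q • R.i n (ten M (G.u f * G.v q)) := by
  obtain ⟨M', hM'⟩ := exists_stage R h M (E := E)
  rw [hM']
  set b := ten M' (G.u f * G.v q) with hb
  have e1 : wE R G k m * R.i m b = R.i m (ten 1 (G.v (k m)) * b) := by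
    rw [wE, add_mul, sub_mul, one_mul, ExA_i_one_mul, sub_self, add_zero, lamE, ← map_mul]
  have e2 : ∀ b' : Mt (Fin (P.ρ m)) E, R.i m b' * star (wE R G k m) =
      R.i m (b' * star (ten 1 (G.v (k m)))) := by
    intro b'
    rw [wE, star_add, star_sub, star_one, ExA_i_one_star, mul_add, mul_sub, mul_one,
      ExA_i_mul_one, sub_self, add_zero, lamE, ← map_star, ← map_mul]
  rw [e1, e2, hb, ten_star, ten_mul, ten_mul, star_one, one_mul, mul_one,
    ExA_v_conj G (hk m), ten_smul_right, map_smul, hc m q hq]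

/-- **The limit automorphism.**

Proof. `exists_limHom`: given `x`, `ε`, take `n`, `b` with `n2 (i n b - x) < ε / 2` and `b'` in the
span with `‖b' - b‖ < ε / 2` (`exists_near_span`, `NTower.n2_le`), `x' = i n b'`. For an
element `i n (ten M (u f * v q))` the conjugates are `c q • ...` for all `m ≥ n` with `q ∈ fil m`
(`fil_exh`, `fil_mono`), so eventually constant; the property is closed under sums and multiples
(`Submodule.span_induction`). The formula for `Θ` is the limit of an eventually constant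
sequence (`CLim.unique`, `CLim.congr'`). -/
theorem exists_thE {k : ℕ → Q} (hk : ∀ m, k m ∈ S.K) {c : Q → ℂ}
    (hc : ∀ m, ∀ q ∈ S.fil m, S.β (k m) q = c q) :
    ∃ Θ : N →⋆ₐ[ℂ] N, (∀ x, T.CLim (fun m => wE R G k m * x * star (wE R G k m)) (Θ x)) ∧
      ∀ (n : ℕ) (M : Matrix (Fin (P.ρ n)) (Fin (P.ρ n)) ℂ) (f : F) (q : Q),
        Θ (R.i n (ten M (G.u f * G.v q))) = c q • R.i n (ten M (G.u f * G.v q)) := by
  have hconj : ∀ (n : ℕ) (M : Matrix (Fin (P.ρ n)) (Fin (P.ρ n)) ℂ) (f : F) (q : Q),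
      ∃ L, ∀ m, L ≤ m → wE R G k m * R.i n (ten M (G.u f * G.v q)) * star (wE R G k m) =
        c q • R.i n (ten M (G.u f * G.v q)) := by
    intro n M f q
    obtain ⟨m₀, hm₀⟩ := S.fil_exh q
    exact ⟨max n m₀, fun m hm => wE_conj R G hk hc ((le_max_left _ _).trans hm) M f
      (S.fil_mono ((le_max_right _ _).trans hm) hm₀)⟩
  have hev : ∀ (n : ℕ) (b' : Mt (Fin (P.ρ n)) E),
      b' ∈ Submodule.span ℂ {x : Mt (Fin (P.ρ n)) E | ∃ (M : Matrix (Fin (P.ρ n))
        (Fin (P.ρ n)) ℂ) (f : F) (q : Q), x = ten M (G.u f * G.v q)} →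
      ∃ y L, ∀ m, L ≤ m → wE R G k m * R.i n b' * star (wE R G k m) = y := by
    intro n b' hb'
    induction hb' using Submodule.span_induction with
    | mem x hx =>
      obtain ⟨M, f, q, rfl⟩ := hx
      obtain ⟨L, hL⟩ := hconj n M f q
      exact ⟨_, L, hL⟩
    | zero => exact ⟨0, 0, fun m _ => by rw [map_zero, mul_zero, zero_mul]⟩
    | add x y _ _ hx hy =>
      obtain ⟨y₁, L₁, h₁⟩ := hx
      obtain ⟨y₂, L₂, h₂⟩ := hy
      refine ⟨y₁ + y₂, max L₁ L₂, fun m hm => ?_⟩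
      rw [map_add, mul_add, add_mul, h₁ m ((le_max_left _ _).trans hm),
        h₂ m ((le_max_right _ _).trans hm)]
    | smul a x _ hx =>
      obtain ⟨y₁, L₁, h₁⟩ := hx
      refine ⟨a • y₁, L₁, fun m hm => ?_⟩
      rw [map_smul, mul_smul_comm, smul_mul_assoc, h₁ m hm]
  obtain ⟨Θ, hΘ⟩ := exists_limHom T (fun m => wE_unitary R G k m) (by
    intro x ε hε
    obtain ⟨n, b, hb⟩ := R.dense x (ε / 2) (half_pos hε)
    obtain ⟨b', hb', hbb'⟩ := exists_near_span G n b (ε / 2) (half_pos hε) (P := P)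
    obtain ⟨y, L, hL⟩ := hev n b' hb'
    refine ⟨R.i n b', ?_, L, fun m hm => ?_⟩
    · have h1 := T.n2_sub_le_sub (R.i n b') (R.i n b) x
      have h2 := R.n2_le n (b' - b)
      rw [map_sub] at h2
      linarith
    · rw [hL m hm, hL L le_rfl])
  refine ⟨Θ, hΘ, fun n M f q => ?_⟩
  obtain ⟨L, hL⟩ := hconj n M f q
  have h1 : T.CLim (fun m => wE R G k m * R.i n (ten M (G.u f * G.v q)) * star (wE R G k m))
      (c q • R.i n (ten M (G.u f * G.v q))) :=
    TVN.CLim.congr' (TVN.CLim.const _) L fun m hm => (hL m hm).symm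
  exact TVN.CLim.unique (hΘ _) h1

/-- `1 - i n 1 → 0` in the 2-norm: `n2 (1 - i n 1) ^ 2 = tr (1 - i n 1) = 1 - t n`
(`R.tr`, `tauM τ 1 = 1`, `i n 1` is a projection). -/
theorem one_sub_lim : Tendsto (fun n => T.n2 (1 - R.i n 1)) atTop (𝓝 0) := by
  have hτ : ∀ n, tauM τ (1 : Mt (Fin (P.ρ n)) E) = 1 := by
    intro n
    have h0 : (P.ρ n : ℂ) ≠ 0 := by
      exact_mod_cast (P.ρ_pos n).ne'
    simp only [tauM, Mt.one_apply, if_true, τ.one, Finset.sum_const, Finset.card_univ,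
      Fintype.card_fin, nsmul_eq_mul, mul_one]
    exact inv_mul_cancel₀ h0
  have h1 : ∀ n, T.n2 (1 - R.i n 1) ^ 2 = 1 - R.t n := by
    intro n
    have e : star (1 - R.i n 1) * (1 - R.i n 1) = 1 - R.i n 1 := by
      rw [star_sub, star_one, ExA_i_one_star, mul_sub, mul_one, sub_mul, one_mul,
        ExA_i_one_mul, sub_self, sub_zero]
    rw [T.n2_sq, e, map_sub, T.one, R.tr, hτ, mul_one]
    simp
  have h2 : ∀ n, T.n2 (1 - R.i n 1) = Real.sqrt (1 - R.t n) := fun n => by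
    rw [← h1 n, Real.sqrt_sq (T.n2_nonneg _)]
  have h3 : Tendsto (fun n => Real.sqrt (1 - R.t n)) atTop (𝓝 (Real.sqrt (1 - 1))) :=
    (Real.continuous_sqrt.tendsto _).comp (tendsto_const_nhds.sub R.t_lim)
  rw [sub_self, Real.sqrt_zero] at h3
  exact h3.congr fun n => (h2 n).symm

/-- `Θ (w n) - κ • w n = (1 - κ) • (1 - i n 1)` if `c (k n) = κ`: `Θ (i n (ten 1 (v (k n)))) =
c (k n) • ..` (`f = 1`, `u 1 = 1`), `Θ (i n 1) = i n 1` (`q = 0`, `c 0 = β (k 0) 0 = 1`). -/
theorem kap_E {k : ℕ → Q} {c : Q → ℂ} (hc : ∀ m, ∀ q ∈ S.fil m, S.β (k m) q = c q)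
    {Θ : N →⋆ₐ[ℂ] N} (hΘ : ∀ (n : ℕ) (M : Matrix (Fin (P.ρ n)) (Fin (P.ρ n)) ℂ) (f : F) (q : Q),
        Θ (R.i n (ten M (G.u f * G.v q))) = c q • R.i n (ten M (G.u f * G.v q)))
    {κ : ℂ} (hκ : ∀ m, c (k m) = κ) :
    Tendsto (fun n => T.n2 (Θ (wE R G k n) - κ • wE R G k n)) atTop (𝓝 0) := by
  have hc0 : c 0 = 1 := by
    rw [← hc 0 0 (S.fil 0).zero_mem, S.β_zero_right]
  have h1 : ∀ n, Θ (lamE R G n (k n)) = κ • lamE R G n (k n) := by
    intro n
    have := hΘ n 1 1 (k n)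
    rwa [G.u_one, one_mul, hκ] at this
  have h2 : ∀ n, Θ (R.i n 1) = R.i n 1 := by
    intro n
    have := hΘ n 1 1 0
    rwa [G.u_one, G.v_zero, one_mul, ten_one, hc0, one_smul] at this
  have h3 : ∀ n, T.n2 (Θ (wE R G k n) - κ • wE R G k n) =
      ‖1 - κ‖ * T.n2 (1 - R.i n 1) := by
    intro n
    rw [← T.n2_smul, wE, map_add, map_sub, map_one, h1, h2]
    congr 1
    rw [smul_add, sub_smul, one_smul]
    abel
  have h4 := (one_sub_lim R).const_mul ‖1 - κ‖
  rw [mul_zero] at h4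
  exact h4.congr fun n => (h3 n).symm

end Pool.Agent.H.MP_e11395_an
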