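import Pool.Agent.H.MP_e11395_an.E.Tw

/-!
# Part E, existence: central triviality in the corner
-/

set_option autoImplicit false
set_option linter.unusedSectionVars false

open Filter Topology
open Pool.Agent.H.MP_43b197_an

namespace Pool.Agent.H.MP_e11395_an

variable {N : Type} [Ring N] [StarRing N] [Algebra ℂ N] [StarModule ℂ N] {T : TVN N}
  {F Q : Type} [Group F] [AddCommGroup Q] {S : TwSys F Q}

theorem ExB_l (T : TVN N) {a : N} (ha : T.Bd 1 a) (x : N) : T.n2 (a * x) ≤ T.n2 x := by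
  simpa using T.bd_le 1 a ha x

theorem ExB_r (T : TVN N) {a : N} (ha : T.Bd 1 a) (x : N) : T.n2 (x * a) ≤ T.n2 x := by
  simpa using TVN_mul_le T ha x

theorem ExB_comm (R : TwRep T S) {u : N} (h1 : R.z * u = u) (h2 : u * R.z = u) (x : N) :
    T.n2 (u * (R.z * x * R.z) - R.z * x * R.z * u) ≤ T.n2 (x * u - u * x) := by
  have e : u * (R.z * x * R.z) - R.z * x * R.z * u = R.z * (u * x - x * u) * R.z := by
    have e1 : u * (R.z * x * R.z) = R.z * (u * x) * R.z := by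
      rw [← mul_assoc, ← mul_assoc, h2, ← mul_assoc, h1]
    have e2 : R.z * x * R.z * u = R.z * (x * u) * R.z := by
      rw [mul_assoc (R.z * x), h1, mul_assoc R.z (x * u), mul_assoc x u, h2, mul_assoc]
    rw [e1, e2, mul_sub, sub_mul]
  rw [e]
  have hz : T.Bd 1 R.z := TVN_bd_proj T R.z_proj
  refine (ExB_r T hz _).trans ((ExB_l T hz _).trans ?_)
  rw [T.n2_sub_comm]

theorem ExB_E1 (R : TwRep T S) (q₀ : Q) (d : Q →₀ ℂ) :
    R.V q₀ * R.vlt d - R.vlt d * R.V q₀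
      = (∑ k ∈ d.support, ((S.β q₀ k - 1) * d k) • R.V k) * R.V q₀ := by
  rw [TwRep.vlt, Finsupp.sum, Finset.mul_sum, Finset.sum_mul, Finset.sum_mul,
    ← Finset.sum_sub_distrib]
  refine Finset.sum_congr rfl fun k _ => ?_
  rw [mul_smul_comm, R.VV q₀ k, smul_mul_assoc, smul_mul_assoc, smul_smul, ← sub_smul]
  congr 1
  ring

theorem ExB_E2 (R : TwRep T S) (Θ : N →⋆ₐ[ℂ] N) (q₀ : Q)
    (h : ∀ k ∈ S.K, Θ (R.V k) = S.β q₀ k • R.V k) (d : Q →₀ ℂ) (hd : ∀ k, d k ≠ 0 → k ∈ S.K) :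
    Θ (R.vlt d) - R.vlt d = ∑ k ∈ d.support, ((S.β q₀ k - 1) * d k) • R.V k := by
  rw [TwRep.vlt, Finsupp.sum, map_sum, ← Finset.sum_sub_distrib]
  refine Finset.sum_congr rfl fun k hk => ?_
  rw [map_smul, h k (hd k (Finsupp.mem_support_iff.1 hk)), smul_smul, ← sub_smul]
  congr 1
  ring

theorem ExB_E3 (R : TwRep T S) (q₀ : Q) (d : Q →₀ ℂ) :
    T.n2 (∑ k ∈ d.support, ((S.β q₀ k - 1) * d k) • R.V k)
      ≤ T.n2 (R.V q₀ * R.vlt d - R.vlt d * R.V q₀) := by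
  rw [ExB_E1]
  set E := ∑ k ∈ d.support, ((S.β q₀ k - 1) * d k) • R.V k with hE
  have e : E = E * R.V q₀ * star (R.V q₀) := by
    rw [mul_assoc, R.V_mul_star, hE, Finset.sum_mul]
    refine Finset.sum_congr rfl fun k _ => ?_
    rw [smul_mul_assoc, R.V_mul_z]
  conv_lhs => rw [e]
  exact ExB_r T (T.bd_star 1 _ (R.V_bd q₀)) _

/-- **Central triviality in the corner.**

Proof. Let `y n = z * x n * z`. For `U = U s` or `V q` (elements with `z U = U = U z`),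
`U * y n - y n * U = z * (U * x n - x n * U) * z → 0` in the 2-norm. Also
`n2 (U s * y n * star (U s) - y n) ≤ n2 (U s * y n - y n * U s)` as
`y n = y n * U s * star (U s)`. By the gap property (with `ε = 1 / (n + 1)`) there are
`d n : Q →₀ ℂ`, supported in `K`, with `n2 (y n - vlt (d n)) → 0`. Hence
`n2 (V q₀ * vlt (d n) - vlt (d n) * V q₀) → 0`. Let `d' n k = (β q₀ k - 1) * d n k`. As
`V q₀ * V k = β q₀ k • V k * V q₀` (`VV`), `V q₀ * vlt (d n) - vlt (d n) * V q₀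
= vlt (d' n) * V q₀`, so `n2 (vlt (d' n)) → 0` (multiply by `star (V q₀)`, `V_mul_star`,
`vlt d' * z = vlt d'`). And `Θ (vlt (d n)) - vlt (d n) = vlt (d' n)`. Finally
`n2 (Θ (y n) - y n) ≤ 2 * n2 (y n - vlt (d n)) + n2 (vlt (d' n))`. -/
theorem central_corner (R : TwRep T S) {Sf : Finset F} {C : ℝ} (hg : R.Gap Sf C)
    (Θ : N →⋆ₐ[ℂ] N) (hΘ : ∀ x, T.n2 (Θ x) = T.n2 x) (q₀ : Q)
    (h : ∀ k ∈ S.K, Θ (R.V k) = S.β q₀ k • R.V k) (x : ℕ → N)
    (hx : ∀ y, Tendsto (fun n => T.n2 (x n * y - y * x n)) atTop (𝓝 0)) :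
    Tendsto (fun n => T.n2 (Θ (R.z * x n * R.z) - R.z * x n * R.z)) atTop (𝓝 0) := by
  obtain ⟨hC, hgap⟩ := hg
  have hyz : ∀ n, R.z * (R.z * x n * R.z) * R.z = R.z * x n * R.z := by
    intro n
    rw [← mul_assoc, ← mul_assoc, R.z_mul_z, mul_assoc (R.z * x n), R.z_mul_z]
  choose d hdK hd using fun n : ℕ => hgap (R.z * x n * R.z) (hyz n) (1 / ((n : ℝ) + 1))
    Nat.one_div_pos_of_nat
  -- the commutators with the generators
  have hU : ∀ s, Tendsto (fun n => T.n2 (R.U s * (R.z * x n * R.z) * star (R.U s)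
      - R.z * x n * R.z)) atTop (𝓝 0) := by
    intro s
    refine squeeze_zero (fun n => T.n2_nonneg _) (fun n => ?_) (hx (R.U s))
    have e : R.U s * (R.z * x n * R.z) * star (R.U s) - R.z * x n * R.z
        = (R.U s * (R.z * x n * R.z) - R.z * x n * R.z * R.U s) * star (R.U s) := by
      rw [sub_mul, mul_assoc (R.z * x n * R.z) (R.U s), R.U_star, ← R.U_mul, mul_inv_cancel,
        R.U_one, mul_assoc (R.z * x n), R.z_mul_z]
    rw [e]
    exact (ExB_r T (T.bd_star 1 _ (R.U_bd s)) _).trans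
      (ExB_comm R (R.z_mul_U s) (R.U_mul_z s) (x n))
  have hδ : Tendsto (fun n => T.n2 (R.z * x n * R.z - R.vlt (d n))) atTop (𝓝 0) := by
    refine squeeze_zero (fun n => T.n2_nonneg _) (fun n => hd n) ?_
    have h1 : Tendsto (fun n => C * ∑ s ∈ Sf, T.n2 (R.U s * (R.z * x n * R.z) * star (R.U s)
        - R.z * x n * R.z)) atTop (𝓝 (C * ∑ s ∈ Sf, 0)) :=
      (tendsto_finsetSum _ fun s _ => hU s).const_mul C
    have h2 := h1.add (tendsto_one_div_add_atTop_nhds_zero_nat (𝕜 := ℝ))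
    simpa using h2
  have hV : Tendsto (fun n => T.n2 (R.V q₀ * (R.z * x n * R.z) - R.z * x n * R.z * R.V q₀))
      atTop (𝓝 0) :=
    squeeze_zero (fun n => T.n2_nonneg _)
      (fun n => ExB_comm R (R.z_mul_V q₀) (R.V_mul_z q₀) (x n)) (hx (R.V q₀))
  have hE : ∀ n, T.n2 (∑ k ∈ (d n).support, ((S.β q₀ k - 1) * d n k) • R.V k)
      ≤ 2 * T.n2 (R.z * x n * R.z - R.vlt (d n))
        + T.n2 (R.V q₀ * (R.z * x n * R.z) - R.z * x n * R.z * R.V q₀) := by
    intro n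
    refine (ExB_E3 R q₀ (d n)).trans ?_
    set y := R.z * x n * R.z
    set v := R.vlt (d n)
    have e : R.V q₀ * v - v * R.V q₀
        = (R.V q₀ * y - y * R.V q₀) - (R.V q₀ * (y - v) - (y - v) * R.V q₀) := by
      rw [mul_sub, sub_mul]; abel
    rw [e]
    have h1 := T.n2_sub_le (R.V q₀ * y - y * R.V q₀) (R.V q₀ * (y - v) - (y - v) * R.V q₀)
    have h2 := T.n2_sub_le (R.V q₀ * (y - v)) ((y - v) * R.V q₀)
    have h3 := ExB_l T (R.V_bd q₀) (y - v)
    have h4 := ExB_r T (R.V_bd q₀) (y - v)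
    linarith
  have hlim : Tendsto (fun n => 4 * T.n2 (R.z * x n * R.z - R.vlt (d n))
      + T.n2 (R.V q₀ * (R.z * x n * R.z) - R.z * x n * R.z * R.V q₀)) atTop (𝓝 0) := by
    have := (hδ.const_mul 4).add hV
    simpa using this
  refine squeeze_zero (fun n => T.n2_nonneg _) (fun n => ?_) hlim
  have hEn := hE n
  have hΘv := ExB_E2 R Θ q₀ h (d n) (hdK n)
  set y := R.z * x n * R.z
  set v := R.vlt (d n)
  have e : Θ y - y = (Θ (y - v) + (Θ v - v)) - (y - v) := by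
    rw [map_sub]; abel
  rw [e, hΘv]
  have h1 := T.n2_sub_le (Θ (y - v) + ∑ k ∈ (d n).support, ((S.β q₀ k - 1) * d n k) • R.V k)
    (y - v)
  have h2 := T.n2_add_le (Θ (y - v)) (∑ k ∈ (d n).support, ((S.β q₀ k - 1) * d n k) • R.V k)
  rw [hΘ] at h2
  linarith

end Pool.Agent.H.MP_e11395_an
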