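import Pool.Agent.H.MP_e11395_an.E.Tens

/-!
# Part E, existence: from the corner to the whole algebra
-/

set_option autoImplicit false
set_option linter.unusedSectionVars false

open Filter Topology
open Pool.Agent.H.MP_43b197_an

namespace Pool.Agent.H.MP_e11395_an

variable {N : Type} [Ring N] [StarRing N] [Algebra ℂ N] [StarModule ℂ N] {T : TVN N} {P : Tow}
  {E : Type} [CStarAlgebra E] {τ : TrState E} (R : NTower T P τ)

/-- `z₀ = i 0 1` at stage `j` (induction: `R.emb`, `emb_ten`, `tens_succ'`). -/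
theorem i_zero_one (j : ℕ) : R.i 0 1 = R.i j (ten (P.tens 0 j 0) 1) := by
  induction j with
  | zero =>
    change R.i 0 1 = R.i 0 (ten 1 1)
    rw [ten_one]
  | succ j ih =>
    rw [ih, ← R.emb j, P.emb_ten, P.tens_succ' (Nat.zero_le j) (w := 0) rfl]

theorem ExC_single (j : ℕ) (a : Fin (P.ρ j)) :
    (Matrix.single (P.e j (Sum.inl (0, a))) (P.e j (Sum.inl (0, a))) 1 :
      Matrix (Fin (P.ρ (j + 1))) (Fin (P.ρ (j + 1))) ℂ) =
      P.mbl j (Matrix.single 0 0 1) (Matrix.single a a 1) := by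
  ext p q
  obtain ⟨p', rfl⟩ := (P.e j).surjective p
  obtain ⟨q', rfl⟩ := (P.e j).surjective q
  rw [Tow.mbl, Matrix.reindex_apply, Matrix.submatrix_apply, Equiv.symm_apply_apply,
    Equiv.symm_apply_apply, Matrix.single_apply]
  simp only [EmbeddingLike.apply_eq_iff_eq]
  rcases p' with ⟨u, i⟩ | i <;> rcases q' with ⟨v, k⟩ | k
  · simp only [Matrix.fromBlocks_apply₁₁, Matrix.kroneckerMap_apply, Matrix.single_apply,
      Sum.inl.injEq, Prod.mk.injEq]
    simp only [mul_ite, mul_one, mul_zero, ← ite_and]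
    refine if_congr ?_ rfl rfl
    tauto
  · simp
  · simp
  · simp

/-- A matrix unit below `z₀`.

Proof. Induction: `j = 0`: `ρ 0 = 1`, `tens 0 0 0 = 1`. Step: with `a' = P.e j (Sum.inl (0, a))`
(`μ j > 0`), `single a' a' 1 = mbl j (single 0 0 1) (single a a 1)` and
`tens 0 (j + 1) 0 = mbl j 1 (tens 0 j 0)`; `mbl_mul`. -/
theorem exists_unit (j : ℕ) : ∃ a : Fin (P.ρ j),
    P.tens 0 j 0 * (Matrix.single a a 1 : Matrix (Fin (P.ρ j)) (Fin (P.ρ j)) ℂ) =
      Matrix.single a a 1 := by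
  induction j with
  | zero =>
    refine ⟨⟨0, P.ρ_pos 0⟩, ?_⟩
    change (1 : Matrix (Fin (P.ρ 0)) (Fin (P.ρ 0)) ℂ) * _ = _
    rw [one_mul]
  | succ j ih =>
    obtain ⟨a, ha⟩ := ih
    refine ⟨P.e j (Sum.inl (0, a)), ?_⟩
    rw [ExC_single, P.tens_succ' (Nat.zero_le j) (w := 0) rfl, P.mbl_mul, one_mul, ha]

theorem ExC_l (T : TVN N) {a : N} (ha : T.Bd 1 a) (x : N) : T.n2 (a * x) ≤ T.n2 x := by
  simpa using T.bd_le 1 a ha x

theorem ExC_r (T : TVN N) {a : N} (ha : T.Bd 1 a) (x : N) : T.n2 (x * a) ≤ T.n2 x := by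
  simpa using TVN_mul_le T ha x

/-- The elements `v b` (matrix units moved to the corner). -/
theorem ExC_v (j : ℕ) : ∃ v : Fin (P.ρ j) → N, (∀ b, T.Bd 1 (v b)) ∧
    (∀ b, ∃ M : Matrix (Fin (P.ρ j)) (Fin (P.ρ j)) ℂ, v b = R.i j (ten M 1)) ∧
    (∀ b, v b * R.i 0 1 = v b) ∧ ∑ b, v b * star (v b) = R.i j 1 := by
  obtain ⟨a, ha⟩ := exists_unit (P := P) j
  have hs : ∀ p q : Fin (P.ρ j), star (R.i j (ten (Matrix.single p q 1) 1)) =
      R.i j (ten (Matrix.single q p 1) 1) := by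
    intro p q
    rw [← map_star, ten_star, star_one, Matrix.star_eq_conjTranspose,
      Matrix.conjTranspose_single, star_one]
  have hm : ∀ p q r : Fin (P.ρ j), R.i j (ten (Matrix.single p q 1) 1) *
      R.i j (ten (Matrix.single q r 1) 1) = R.i j (ten (Matrix.single p r 1) 1) := by
    intro p q r
    rw [← map_mul, ten_mul, Matrix.single_mul_single_same, one_mul, one_mul]
  have h0s : star (R.i 0 1) = R.i 0 1 := by rw [← map_star, star_one]
  have h1 : R.i 0 1 * R.i j (ten (Matrix.single a a 1) 1) =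
      R.i j (ten (Matrix.single a a 1) 1) := by
    rw [i_zero_one R j, ← map_mul, ten_mul, ha, one_mul]
  have h2 : R.i j (ten (Matrix.single a a 1) 1) * R.i 0 1 =
      R.i j (ten (Matrix.single a a 1) 1) := by
    have := congrArg star h1
    rwa [star_mul, hs, h0s] at this
  refine ⟨fun b => R.i j (ten (Matrix.single b a 1) 1), fun b => ?_, fun b => ⟨_, rfl⟩,
    fun b => ?_, ?_⟩
  · refine T.bd_pisom _ ?_
    rw [hs, hm]
    exact ⟨hm a a a, hs a a⟩
  · change R.i j (ten (Matrix.single b a 1) 1) * R.i 0 1 = R.i j (ten (Matrix.single b a 1) 1)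
    rw [← hm b a a, mul_assoc, h2]
  · change ∑ b, R.i j (ten (Matrix.single b a 1) 1) * star (R.i j (ten (Matrix.single b a 1) 1)) =
      R.i j 1
    have h3 : ∀ b, R.i j (ten (Matrix.single b a 1) 1) *
        star (R.i j (ten (Matrix.single b a 1) 1)) = R.i j (ten (Matrix.single b b 1) 1) := by
      intro b
      rw [hs, hm]
    rw [Finset.sum_congr rfl fun b _ => h3 b, ← map_sum]
    congr 1
    rw [← ten_one]
    ext p q
    rw [ten_apply]
    have h4 : (∑ b, ten (Matrix.single b b 1 : Matrix (Fin (P.ρ j)) (Fin (P.ρ j)) ℂ) (1 : E)) p q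
        = ∑ b, ten (Matrix.single b b 1 : Matrix (Fin (P.ρ j)) (Fin (P.ρ j)) ℂ) (1 : E) p q := by
      exact Matrix.sum_apply _ _ _ _
    rw [h4]
    simp only [ten_apply, Matrix.single_apply, Matrix.one_apply]
    rw [Finset.sum_eq_single p]
    · simp
    · intro b _ hb
      rw [if_neg, zero_smul]
      exact fun h => hb h.1
    · intro h; exact absurd (Finset.mem_univ p) h

/-- **From the corner to the whole algebra.**

Proof. Fix `j` and `a` as in `exists_unit`. Let `v b = i j (ten (single b a 1) 1)`,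
`e = i j (ten (single a a 1) 1)`, `z j = i j 1`. Then `v b * e = v b`, `∑ b, v b * star (v b) = z j`,
`z₀ * e = e = e * z₀` (take stars), `Θ (v b) = v b`, `Θ e = e`, all of `Bd 1`.
`v b * x n * star (v b) = v b * (e * x n * e) * star (v b)` and
`e * x n * e = e * (z₀ * x n * z₀) * e`, so
`Θ (v b x n v b*) - v b x n v b* = v b e (Θ (z₀ x n z₀) - z₀ x n z₀) e v b* → 0`. Next
`n2 (v b * x n * star (v b) - x n * v b * star (v b)) ≤ n2 (v b * x n - x n * v b) → 0`; sum over `b`: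
`∑ b, v b * x n * star (v b) - x n * z j → 0`. As `Θ` is isometric,
`Θ (x n * z j) - x n * z j → 0`. And `n2 (x n - x n * z j) ≤ C * n2 (1 - z j)`. So for
every `j`, eventually `n2 (Θ (x n) - x n) ≤ 2 * C * n2 (1 - i j 1) + ε`, and
`n2 (1 - i j 1) → 0` (hypothesis `h1`). -/
theorem central_all (Θ : N →⋆ₐ[ℂ] N) (hΘ : ∀ x, T.n2 (Θ x) = T.n2 x)
    (h1 : Tendsto (fun n => T.n2 (1 - R.i n 1)) atTop (𝓝 0))
    (hM : ∀ (n : ℕ) (M : Matrix (Fin (P.ρ n)) (Fin (P.ρ n)) ℂ),
      Θ (R.i n (ten M 1)) = R.i n (ten M 1)) (x : ℕ → N) {C : ℝ} (hC : ∀ n, T.Bd C (x n))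
    (hx : ∀ y, Tendsto (fun n => T.n2 (x n * y - y * x n)) atTop (𝓝 0))
    (hz : Tendsto (fun n => T.n2 (Θ (R.i 0 1 * x n * R.i 0 1) - R.i 0 1 * x n * R.i 0 1))
      atTop (𝓝 0)) :
    Tendsto (fun n => T.n2 (Θ (x n) - x n)) atTop (𝓝 0) := by
  have hC0 : 0 ≤ C := T.bd_nonneg C (x 0) (hC 0)
  have h0s : star (R.i 0 1) = R.i 0 1 := by rw [← map_star, star_one]
  have key : ∀ j : ℕ, ∃ δ : ℕ → ℝ, Tendsto δ atTop (𝓝 0) ∧
      ∀ n, T.n2 (Θ (x n) - x n) ≤ 2 * C * T.n2 (1 - R.i j 1) + δ n := by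
    intro j
    obtain ⟨v, hv1, hv2, hv3, hv4⟩ := ExC_v R j
    have hv3' : ∀ b, R.i 0 1 * star (v b) = star (v b) := by
      intro b
      have := congrArg star (hv3 b)
      rwa [star_mul, h0s] at this
    have hΘv : ∀ b, Θ (v b) = v b := by
      intro b
      obtain ⟨M, hMb⟩ := hv2 b
      rw [hMb, hM]
    have hΘvs : ∀ b, Θ (star (v b)) = star (v b) := by
      intro b
      rw [map_star, hΘv]
    refine ⟨fun n => (∑ _b : Fin (P.ρ j),
        T.n2 (Θ (R.i 0 1 * x n * R.i 0 1) - R.i 0 1 * x n * R.i 0 1)) +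
        2 * ∑ b, T.n2 (x n * v b - v b * x n), ?_, fun n => ?_⟩
    · have e1 : Tendsto (fun n => ∑ _b : Fin (P.ρ j),
          T.n2 (Θ (R.i 0 1 * x n * R.i 0 1) - R.i 0 1 * x n * R.i 0 1)) atTop
          (𝓝 (∑ _b : Fin (P.ρ j), 0)) := tendsto_finsetSum _ fun _ _ => hz
      have e2 : Tendsto (fun n => ∑ b, T.n2 (x n * v b - v b * x n)) atTop
          (𝓝 (∑ _b : Fin (P.ρ j), 0)) := tendsto_finsetSum _ fun b _ => hx (v b)
      have := e1.add (e2.const_mul 2)
      simpa using this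
    · set B := ∑ b, v b * x n * star (v b) with hB
      have hA : ∀ b, v b * x n * star (v b) =
          v b * (R.i 0 1 * x n * R.i 0 1) * star (v b) := by
        intro b
        rw [mul_assoc (R.i 0 1) (x n), ← mul_assoc (v b) (R.i 0 1), hv3 b, mul_assoc (v b),
          mul_assoc (v b), mul_assoc (x n), hv3' b]
      have hΘA : ∀ b, T.n2 (Θ (v b * x n * star (v b)) - v b * x n * star (v b)) ≤
          T.n2 (Θ (R.i 0 1 * x n * R.i 0 1) - R.i 0 1 * x n * R.i 0 1) := by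
        intro b
        have e : Θ (v b * x n * star (v b)) - v b * x n * star (v b) =
            v b * (Θ (R.i 0 1 * x n * R.i 0 1) - R.i 0 1 * x n * R.i 0 1) * star (v b) := by
          rw [hA b, map_mul, map_mul, hΘv, hΘvs, mul_sub, sub_mul]
        rw [e]
        exact (ExC_r T (T.bd_star 1 _ (hv1 b)) _).trans (ExC_l T (hv1 b) _)
      have hBΘ : T.n2 (Θ B - B) ≤ ∑ _b : Fin (P.ρ j),
          T.n2 (Θ (R.i 0 1 * x n * R.i 0 1) - R.i 0 1 * x n * R.i 0 1) := by
        rw [hB, map_sum, ← Finset.sum_sub_distrib]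
        exact (T.n2_sum_le _ _).trans (Finset.sum_le_sum fun b _ => hΘA b)
      have hBx : T.n2 (B - x n * R.i j 1) ≤ ∑ b, T.n2 (x n * v b - v b * x n) := by
        rw [hB, ← hv4, Finset.mul_sum, ← Finset.sum_sub_distrib]
        refine (T.n2_sum_le _ _).trans (Finset.sum_le_sum fun b _ => ?_)
        have e : v b * x n * star (v b) - x n * (v b * star (v b)) =
            (v b * x n - x n * v b) * star (v b) := by
          rw [sub_mul, mul_assoc (x n)]
        rw [e, T.n2_sub_comm (x n * v b)]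
        exact ExC_r T (T.bd_star 1 _ (hv1 b)) _
      have hxz : T.n2 (x n - x n * R.i j 1) ≤ C * T.n2 (1 - R.i j 1) := by
        have e : x n - x n * R.i j 1 = x n * (1 - R.i j 1) := by rw [mul_sub, mul_one]
        rw [e]
        exact T.bd_le C (x n) (hC n) _
      have e : Θ (x n) - x n = ((Θ (x n - x n * R.i j 1) - (x n - x n * R.i j 1)) -
          (Θ (B - x n * R.i j 1) - (B - x n * R.i j 1))) + (Θ B - B) := by
        rw [map_sub, map_sub]; abel
      have f1 := T.n2_add_le ((Θ (x n - x n * R.i j 1) - (x n - x n * R.i j 1)) -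
          (Θ (B - x n * R.i j 1) - (B - x n * R.i j 1))) (Θ B - B)
      have f2 := T.n2_sub_le (Θ (x n - x n * R.i j 1) - (x n - x n * R.i j 1))
          (Θ (B - x n * R.i j 1) - (B - x n * R.i j 1))
      have f3 := T.n2_sub_le (Θ (x n - x n * R.i j 1)) (x n - x n * R.i j 1)
      have f4 := T.n2_sub_le (Θ (B - x n * R.i j 1)) (B - x n * R.i j 1)
      rw [hΘ] at f3 f4
      rw [e]
      linarith
  rw [Metric.tendsto_atTop]
  intro ε hε
  obtain ⟨j, hj⟩ : ∃ j, 2 * C * T.n2 (1 - R.i j 1) < ε / 2 := by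
    have h2 := h1.const_mul (2 * C)
    rw [mul_zero] at h2
    exact (h2.eventually (gt_mem_nhds (half_pos hε))).exists
  obtain ⟨δ, hδ, hb⟩ := key j
  obtain ⟨n0, hn0⟩ := eventually_atTop.1 (hδ.eventually (gt_mem_nhds (half_pos hε)))
  refine ⟨n0, fun n hn => ?_⟩
  rw [Real.dist_eq, sub_zero, abs_of_nonneg (T.n2_nonneg _)]
  have h3 := hb n
  have h4 := hn0 n hn
  linarith

end Pool.Agent.H.MP_e11395_an
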