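import Pool.Agent.H.MP_e11395_an.E.Tw

/-!
# Part E: the spectral gap of a representation
-/

set_option autoImplicit false

open Filter Topology
open Pool.Agent.H.MP_43b197_an

namespace Pool.Agent.H.MP_e11395_an

variable {N : Type} [Ring N] [StarRing N] [Algebra ℂ N] [StarModule ℂ N] {T : TVN N}
  {F Q : Type} [Group F] [AddCommGroup Q] {S : TwSys F Q} (R : TwRep T S)

/-- Conjugation of a finite sum.

Proof. `U g (U f V q) (U g)* = U (g f) V q U g⁻¹ = U (g f) U (act q g⁻¹) V q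
= U (g f (act q g)⁻¹) V q`. -/
theorem TwRep.conj_elt (g : F) (c : F × Q →₀ ℂ) :
    R.U g * R.elt c * star (R.U g) =
      R.elt (c.mapDomain fun y => (g * y.1 * (S.act y.2 g)⁻¹, y.2)) := by
  induction c using Finsupp.induction_linear with
  | zero =>
    have : R.elt (0 : F × Q →₀ ℂ) = 0 := Finsupp.sum_zero_index
    rw [Finsupp.mapDomain_zero, this]; simp
  | add c d hc hd =>
    rw [Finsupp.mapDomain_add, R.elt_add, R.elt_add, mul_add, add_mul, hc, hd]
  | single y a =>
    rw [Finsupp.mapDomain_single, R.elt_single, R.elt_single, mul_smul_comm, smul_mul_assoc,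
      R.U_star, ← mul_assoc, mul_assoc, R.VU, ← mul_assoc, ← R.U_mul, ← R.U_mul, S.act_inv]

/-- The slice of a finitely supported function. -/
noncomputable def GapRep_sl {F Q : Type} (q : Q) (c : F × Q →₀ ℂ) : F →₀ ℂ :=
  c.comapDomain (fun f => (f, q)) (fun _ _ _ _ h => (Prod.mk.inj h).1)

theorem GapRep_sl_apply {F Q : Type} (q : Q) (c : F × Q →₀ ℂ) (f : F) :
    GapRep_sl q c f = c (f, q) := by
  rw [GapRep_sl, Finsupp.comapDomain_apply]

theorem GapRep_sl_sub {F Q : Type} (q : Q) (c d : F × Q →₀ ℂ) :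
    GapRep_sl q (c - d) = GapRep_sl q c - GapRep_sl q d := by
  ext f
  simp only [GapRep_sl_apply, Finsupp.sub_apply]

theorem GapRep_sl_add {F Q : Type} (q : Q) (c d : F × Q →₀ ℂ) :
    GapRep_sl q (c + d) = GapRep_sl q c + GapRep_sl q d := by
  ext f
  simp only [GapRep_sl_apply, Finsupp.add_apply]

theorem GapRep_sl_zero {F Q : Type} (q : Q) :
    GapRep_sl q (0 : F × Q →₀ ℂ) = 0 := by
  ext f
  simp only [GapRep_sl_apply, Finsupp.zero_apply]

open Classical in
theorem GapRep_sl_single {F Q : Type} (q : Q) (y : F × Q) (a : ℂ) :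
    GapRep_sl q (Finsupp.single y a) = if y.2 = q then Finsupp.single y.1 a else 0 := by
  obtain ⟨f', q'⟩ := y
  ext f
  rw [GapRep_sl_apply, Finsupp.single_apply]
  by_cases h : q' = q
  · subst h
    by_cases h2 : f' = f
    · subst h2; simp
    · have : ¬ ((f', q') = (f, q')) := fun h3 => h2 (Prod.mk.inj h3).1
      simp [this, h2]
  · have : ¬ ((f', q') = (f, q)) := fun h3 => h (Prod.mk.inj h3).2
    simp [this, h]

theorem GapRep_nsq_sub {X : Type} (ξ : X →₀ ℂ) {A : Finset X} (h : ξ.support ⊆ A) :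
    nsq ξ = ∑ f ∈ A, ‖ξ f‖ ^ 2 := by
  rw [nsq, Finsupp.sum]
  refine Finset.sum_subset h fun x _ hx => ?_
  rw [Finsupp.notMem_support_iff.1 hx]
  simp

theorem GapRep_nsq_sl {F Q : Type} (c : F × Q →₀ ℂ) {A : Finset Q}
    (h : ∀ y, c y ≠ 0 → y.2 ∈ A) : nsq c = ∑ q ∈ A, nsq (GapRep_sl q c) := by
  classical
  set B : Finset F := c.support.image Prod.fst with hB
  have h1 : ∀ q, (GapRep_sl q c).support ⊆ B := by
    intro q f hf
    rw [Finsupp.mem_support_iff, GapRep_sl_apply] at hf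
    exact Finset.mem_image.2 ⟨(f, q), Finsupp.mem_support_iff.2 hf, rfl⟩
  have h2 : c.support ⊆ B ×ˢ A := by
    intro y hy
    rw [Finset.mem_product]
    exact ⟨Finset.mem_image.2 ⟨y, hy, rfl⟩, h y (Finsupp.mem_support_iff.1 hy)⟩
  rw [GapRep_nsq_sub c h2, Finset.sum_product_right]
  refine Finset.sum_congr rfl fun q _ => ?_
  rw [GapRep_nsq_sub _ (h1 q)]
  refine Finset.sum_congr rfl fun f _ => ?_
  rw [GapRep_sl_apply]

theorem GapRep_tw_sl (S : TwSys F Q) (g : F) (q : Q) (c : F × Q →₀ ℂ) :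
    GapRep_sl q (c.mapDomain fun y => (g * y.1 * (S.act y.2 g)⁻¹, y.2)) =
      S.tw q g (GapRep_sl q c) := by
  classical
  induction c using Finsupp.induction_linear with
  | zero => rw [Finsupp.mapDomain_zero, GapRep_sl_zero, TwSys.tw, Finsupp.mapDomain_zero]
  | add c d hc hd =>
    rw [Finsupp.mapDomain_add, GapRep_sl_add, GapRep_sl_add, hc, hd, TwSys.tw, TwSys.tw,
      TwSys.tw, Finsupp.mapDomain_add]
  | single y a =>
    rw [Finsupp.mapDomain_single, GapRep_sl_single, GapRep_sl_single, TwSys.tw]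
    by_cases h : y.2 = q
    · subst h
      rw [if_pos rfl, if_pos rfl, Finsupp.mapDomain_single]
    · rw [if_neg h, if_neg h, Finsupp.mapDomain_zero]

/-- The gap inequality for finite sums: for `c : F × Q →₀ ℂ`, with
`d k = c (1, k)` for `k ∈ K` and `d k = 0` otherwise,
`nsq (c - d') ≤ C * ∑ g, nsq (c_g - c)`, where `d' (1, k) = d k`.

Proof. For `q : Q` let `ξ_q f = c (f, q)`, except that `ξ_q 1 = 0` if `q ∈ K`
(`ξ_q = (c - d') (·, q)`). The map `f ↦ g * f * (act q g)⁻¹` fixes `1` if `q ∈ K`, so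
`tw q g ξ_q - ξ_q` is `c_g (·, q) - c (·, q)` (also at `f = 1` when `q ∈ K`, where both are `0`).
Apply `HasGap` for every `q` in the finite set of the second coordinates of the support, and add
up (a sum over `F × Q` is an iterated sum: `Finsupp.curry`, or
`Finset.sum_sigma`/`Finset.sum_product` over a product of finite sets containing all the
supports). -/
theorem TwRep.hasGap_sum {Sf : Finset F} {C : ℝ} (h : S.HasGap Sf C) (c : F × Q →₀ ℂ) :
    ∃ d : Q →₀ ℂ, (∀ k, d k ≠ 0 → k ∈ S.K) ∧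
      nsq (c - d.mapDomain fun k => ((1 : F), k)) ≤
        C * ∑ g ∈ Sf, nsq ((c.mapDomain fun y => (g * y.1 * (S.act y.2 g)⁻¹, y.2)) - c) := by
  classical
  set d : Q →₀ ℂ := (c.comapDomain (fun k => ((1 : F), k))
    (fun _ _ _ _ h => (Prod.mk.inj h).2)).filter (fun k => k ∈ S.K) with hd
  have hdK : ∀ k, k ∈ S.K → d k = c (1, k) := by
    intro k hk
    rw [hd, Finsupp.filter_apply_pos _ _ hk, Finsupp.comapDomain_apply]
  have hdn : ∀ k, k ∉ S.K → d k = 0 := by
    intro k hk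
    rw [hd, Finsupp.filter_apply_neg _ _ hk]
  refine ⟨d, ?_, ?_⟩
  · intro k hk
    by_contra hn
    exact hk (hdn k hn)
  set d' : F × Q →₀ ℂ := d.mapDomain fun k => ((1 : F), k) with hd'
  have hsl : ∀ q, GapRep_sl q d' = Finsupp.single (1 : F) (d q) := by
    intro q
    have : ∀ e : Q →₀ ℂ, GapRep_sl q (e.mapDomain fun k => ((1 : F), k)) =
        Finsupp.single (1 : F) (e q) := by
      intro e
      induction e using Finsupp.induction_linear with
      | zero => rw [Finsupp.mapDomain_zero, GapRep_sl_zero]; simp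
      | add e e' he he' =>
        rw [Finsupp.mapDomain_add, GapRep_sl_add, he, he', Finsupp.add_apply,
          Finsupp.single_add]
      | single k a =>
        rw [Finsupp.mapDomain_single, GapRep_sl_single, Finsupp.single_apply]
        by_cases hk : k = q
        · rw [if_pos hk, if_pos hk]
        · rw [if_neg hk, if_neg hk, Finsupp.single_zero]
    exact this d
  -- the slices of `c - d'`
  have key : ∀ q g, S.tw q g (GapRep_sl q (c - d')) - GapRep_sl q (c - d') =
      GapRep_sl q ((c.mapDomain fun y => (g * y.1 * (S.act y.2 g)⁻¹, y.2)) - c) := by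
    intro q g
    rw [GapRep_sl_sub, GapRep_sl_sub, GapRep_tw_sl, hsl]
    have htw : S.tw q g (Finsupp.single (1 : F) (d q)) = Finsupp.single (1 : F) (d q) := by
      rw [TwSys.tw, Finsupp.mapDomain_single]
      by_cases hq : q ∈ S.K
      · rw [S.mem_K.1 hq g, mul_one, mul_inv_cancel]
      · rw [hdn q hq, Finsupp.single_zero, Finsupp.single_zero]
    have hsub : S.tw q g (GapRep_sl q c - Finsupp.single (1 : F) (d q)) =
        S.tw q g (GapRep_sl q c) - Finsupp.single (1 : F) (d q) := by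
      conv_rhs => rw [← htw]
      rw [TwSys.tw, TwSys.tw, TwSys.tw]
      exact map_sub (Finsupp.mapDomain.addMonoidHom _) _ _
    rw [hsub]
    abel
  set A : Finset Q := (c - d').support.image Prod.snd ∪
    Sf.biUnion (fun g =>
      (((c.mapDomain fun y => (g * y.1 * (S.act y.2 g)⁻¹, y.2)) - c).support.image Prod.snd))
    with hA
  rw [GapRep_nsq_sl (c - d') (A := A) (fun y hy => Finset.mem_union_left _
    (Finset.mem_image.2 ⟨y, Finsupp.mem_support_iff.2 hy, rfl⟩))]
  have h3 : ∀ g ∈ Sf, nsq ((c.mapDomain fun y => (g * y.1 * (S.act y.2 g)⁻¹, y.2)) - c) =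
      ∑ q ∈ A, nsq (GapRep_sl q
        ((c.mapDomain fun y => (g * y.1 * (S.act y.2 g)⁻¹, y.2)) - c)) := by
    intro g hg
    refine GapRep_nsq_sl _ fun y hy => Finset.mem_union_right _ ?_
    exact Finset.mem_biUnion.2 ⟨g, hg, Finset.mem_image.2
      ⟨y, Finsupp.mem_support_iff.2 hy, rfl⟩⟩
  rw [Finset.sum_congr rfl h3, Finset.sum_comm, Finset.mul_sum]
  refine Finset.sum_le_sum fun q _ => ?_
  have h4 := h.2 q (GapRep_sl q (c - d')) (by
    intro hq
    rw [GapRep_sl_sub, hsl, Finsupp.sub_apply, GapRep_sl_apply, Finsupp.single_eq_same,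
      hdK q hq, sub_self])
  refine h4.trans (le_of_eq ?_)
  congr 1
  exact Finset.sum_congr rfl fun g _ => by rw [key]

/-- The gap property of a representation.

Proof. Let `D = √C`. For `x` and `ε` let `ε' = ε / (1 + 2 * D * Sf.card)` and `c` with
`n2 (elt c - x) < ε'` (`R.dense`), `d` from `hasGap_sum`. By Parseval (`n2_elt`) and `conj_elt`,
`n2 (elt c - vlt d) ^ 2 ≤ C * ∑ g, n2 (U g (elt c) (U g)* - elt c) ^ 2`, so
`n2 (elt c - vlt d) ≤ D * ∑ g, n2 (U g (elt c) (U g)* - elt c)` (the root of a sum of squares is at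
most the sum). And `n2 (U g (elt c) (U g)* - elt c) ≤ n2 (U g x (U g)* - x) + 2 * ε'`. -/
theorem TwRep.gap_of_hasGap {Sf : Finset F} {C : ℝ} (h : S.HasGap Sf C) :
    R.Gap Sf (Real.sqrt C) := by
  have hC : 0 ≤ C := h.1
  refine ⟨Real.sqrt_nonneg C, fun x hx ε hε => ?_⟩
  set D : ℝ := Real.sqrt C with hD
  have hD0 : 0 ≤ D := Real.sqrt_nonneg C
  have hDD : D ^ 2 = C := Real.sq_sqrt hC
  set M : ℝ := 1 + 2 * D * (Sf.card : ℝ) with hM
  have hM0 : 0 < M := by positivity
  set δ : ℝ := ε / M with hδ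
  have hδ0 : 0 < δ := div_pos hε hM0
  obtain ⟨c, hc⟩ := R.dense x hx δ hδ0
  change T.n2 (R.elt c - x) < δ at hc
  obtain ⟨d, hdK, hd⟩ := TwRep.hasGap_sum (S := S) h c
  refine ⟨d, hdK, ?_⟩
  -- the finite sum
  have h1 : R.elt c - R.vlt d = R.elt (c - d.mapDomain fun k => ((1 : F), k)) := by
    rw [R.vlt_eq, R.elt_sub]
  have h2 : ∀ g, R.elt ((c.mapDomain fun y => (g * y.1 * (S.act y.2 g)⁻¹, y.2)) - c) =
      R.U g * R.elt c * star (R.U g) - R.elt c := by
    intro g
    rw [R.elt_sub, R.conj_elt]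
  have h3 : T.n2 (R.elt c - R.vlt d) ^ 2 ≤
      C * ∑ g ∈ Sf, T.n2 (R.U g * R.elt c * star (R.U g) - R.elt c) ^ 2 := by
    rw [h1, R.n2_elt]
    have e : ∑ g ∈ Sf, T.n2 (R.U g * R.elt c * star (R.U g) - R.elt c) ^ 2 =
        R.t * ∑ g ∈ Sf, nsq ((c.mapDomain fun y => (g * y.1 * (S.act y.2 g)⁻¹, y.2)) - c) := by
      rw [Finset.mul_sum]
      refine Finset.sum_congr rfl fun g _ => ?_
      rw [← h2, R.n2_elt]
    rw [e]
    calc R.t * nsq (c - d.mapDomain fun k => ((1 : F), k))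
        ≤ R.t * (C * ∑ g ∈ Sf,
          nsq ((c.mapDomain fun y => (g * y.1 * (S.act y.2 g)⁻¹, y.2)) - c)) :=
          mul_le_mul_of_nonneg_left hd R.t_pos.le
      _ = _ := by ring
  have hn : ∀ g, 0 ≤ T.n2 (R.U g * R.elt c * star (R.U g) - R.elt c) := fun g => T.n2_nonneg _
  have h4 : T.n2 (R.elt c - R.vlt d) ≤
      D * ∑ g ∈ Sf, T.n2 (R.U g * R.elt c * star (R.U g) - R.elt c) := by
    have hs : 0 ≤ ∑ g ∈ Sf, T.n2 (R.U g * R.elt c * star (R.U g) - R.elt c) :=
      Finset.sum_nonneg fun g _ => hn g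
    refine (sq_le_sq₀ (T.n2_nonneg _) (mul_nonneg hD0 hs)).1 (h3.trans ?_)
    rw [mul_pow, hDD]
    exact mul_le_mul_of_nonneg_left
      (Finset.sum_sq_le_sq_sum_of_nonneg fun g _ => hn g) hC
  have h5 : ∀ g, T.n2 (R.U g * R.elt c * star (R.U g) - R.elt c) ≤
      T.n2 (R.U g * x * star (R.U g) - x) + 2 * δ := by
    intro g
    have e1 : R.U g * R.elt c * star (R.U g) - R.elt c =
        (R.U g * x * star (R.U g) - x) + (R.U g * (R.elt c - x) * star (R.U g) -
          (R.elt c - x)) := by noncomm_ring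
    have e2 : T.n2 (R.U g * (R.elt c - x) * star (R.U g)) ≤ δ := by
      have b1 := TVN_mul_le T (T.bd_star _ _ (R.U_bd g)) (R.U g * (R.elt c - x))
      have b2 := T.bd_le 1 (R.U g) (R.U_bd g) (R.elt c - x)
      linarith
    rw [e1]
    have e3 := T.n2_add_le (R.U g * x * star (R.U g) - x)
      (R.U g * (R.elt c - x) * star (R.U g) - (R.elt c - x))
    have e4 := T.n2_sub_le (R.U g * (R.elt c - x) * star (R.U g)) (R.elt c - x)
    linarith
  have h6 : ∑ g ∈ Sf, T.n2 (R.U g * R.elt c * star (R.U g) - R.elt c) ≤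
      ∑ g ∈ Sf, T.n2 (R.U g * x * star (R.U g) - x) + (Sf.card : ℝ) * (2 * δ) := by
    calc ∑ g ∈ Sf, T.n2 (R.U g * R.elt c * star (R.U g) - R.elt c)
        ≤ ∑ g ∈ Sf, (T.n2 (R.U g * x * star (R.U g) - x) + 2 * δ) :=
          Finset.sum_le_sum fun g _ => h5 g
      _ = _ := by rw [Finset.sum_add_distrib, Finset.sum_const, nsmul_eq_mul]
  have h7 : T.n2 (x - R.vlt d) ≤ T.n2 (x - R.elt c) + T.n2 (R.elt c - R.vlt d) :=
    T.n2_sub_le_sub _ _ _
  rw [T.n2_sub_comm x (R.elt c)] at h7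
  have h8 := mul_le_mul_of_nonneg_left h6 hD0
  have h9 : δ * M = ε := div_mul_cancel₀ ε hM0.ne'
  have h10 : δ + D * ((Sf.card : ℝ) * (2 * δ)) = ε := by rw [← h9, hM]; ring
  rw [mul_add] at h8
  linarith

end Pool.Agent.H.MP_e11395_an
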