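import Pool.Agent.H.MP_e11395_an.E.RepN

/-!
# Part E: asymptotic centrality
-/

set_option autoImplicit false
set_option linter.unusedSectionVars false

open Filter Topology
open Pool.Agent.H.MP_43b197_an

namespace Pool.Agent.H.MP_e11395_an

variable {N : Type} [Ring N] [StarRing N] [Algebra ℂ N] [StarModule ℂ N] {T : TVN N} {P : Tow}
  {E : Type} [CStarAlgebra E] {τ : TrState E} (R : NTower T P τ)
  {F Q : Type} [Group F] [AddCommGroup Q] {S : TwSys F Q} (G : Gen S E τ)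

/-- The entries of `emb b` are `0` or entries of `b`. -/
theorem RepW_emb_entry (n : ℕ) (b : Mt (Fin (P.ρ n)) E) (a : E)
    (hb : ∀ s t, b s t * a = a * b s t) (s t : Fin (P.ρ (n + 1))) :
    (P.emb n b) s t * a = a * (P.emb n b) s t := by
  rw [Tow.emb_apply, Tow.bl, Mt.reindex_apply]
  rcases (P.e n).symm s with ⟨u, i⟩ | i <;> rcases (P.e n).symm t with ⟨v, j⟩ | j
  · rw [blk_inl_inl, smul_mul_assoc, mul_smul_comm, hb]
  · rw [blk_inl_inr, zero_mul, mul_zero]
  · rw [blk_inr_inl, zero_mul, mul_zero]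
  · rw [blk_inr_inr, Mt.zero_apply, zero_mul, mul_zero]

theorem RepW_lift {n n' : ℕ} (h : n ≤ n') (b : Mt (Fin (P.ρ n)) E) (a : E)
    (hb : ∀ s t, b s t * a = a * b s t) :
    ∃ b' : Mt (Fin (P.ρ n')) E, R.i n' b' = R.i n b ∧ ∀ s t, b' s t * a = a * b' s t := by
  induction n', h using Nat.le_induction with
  | base => exact ⟨b, rfl, hb⟩
  | succ m hm ih =>
    obtain ⟨b', h1, h2⟩ := ih
    exact ⟨P.emb m b', by rw [R.emb, h1], RepW_emb_entry m b' a h2⟩

theorem RepW_ten_one_comm {r : ℕ} (b : Mt (Fin r) E) (a : E)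
    (hb : ∀ s t, b s t * a = a * b s t) :
    ten (1 : Matrix (Fin r) (Fin r) ℂ) a * b = b * ten 1 a := by
  ext s t
  rw [Mt.mul_apply, Mt.mul_apply]
  have h1 : ∀ k, ten (1 : Matrix (Fin r) (Fin r) ℂ) a s k * b k t =
      if s = k then a * b k t else 0 := by
    intro k
    rw [ten_apply, Matrix.one_apply]
    split_ifs <;> simp
  have h2 : ∀ k, b s k * ten (1 : Matrix (Fin r) (Fin r) ℂ) a k t =
      if k = t then b s k * a else 0 := by
    intro k
    rw [ten_apply, Matrix.one_apply]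
    split_ifs <;> simp
  rw [Finset.sum_congr rfl fun k _ => h1 k, Finset.sum_congr rfl fun k _ => h2 k]
  simp [hb]

theorem RepW_ten_comm {n' m : ℕ} (h : n' ≤ m) (b : Mt (Fin (P.ρ n')) E) (a : E) (w : Wy P.μ)
    (hb : ∀ s t, b s t * a = a * b s t) :
    ∃ b' : Mt (Fin (P.ρ m)) E, R.i m b' = R.i n' b ∧
      ten (P.tens n' m w) a * b' = b' * ten (P.tens n' m w) a := by
  induction m, h using Nat.le_induction with
  | base =>
    refine ⟨b, rfl, ?_⟩
    rw [Tow.tens_of_le P le_rfl]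
    exact RepW_ten_one_comm b a hb
  | succ m hm ih =>
    obtain ⟨b', h1, h2⟩ := ih
    refine ⟨P.emb m b', by rw [R.emb, h1], ?_⟩
    rw [Tow.tens_succ P hm, ← Tow.bl_ten, Tow.emb_apply, Tow.bl_mul, Tow.bl_mul, h2, mul_one,
      one_mul]

/-- `i n b` commutes with `rW n' k` for `n' ≥ n`, if the entries of `b` commute with `v k.1`.

Proof. Let `m₀ = n'`. First `i n b = i n' b'` for some `b'` with entries commuting with `v k.1`
(iterate `R.emb`; the entries of `emb b` are `0` or entries of `b`). Then by induction on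
`m ≥ n'`: there is `b'` with `i m b' = i n b` which commutes with
`ten (tens n' m k.2) (v k.1)`: at `m = n'`, `tens n' n' = 1`, and
`ten 1 a` commutes with a matrix whose entries commute with `a`; step: `emb b' = bl 1 b' 0`,
`ten (tens n' (m+1) w) a = bl (Wl ..) (ten (tens n' m w) a) 0` (`bl_ten`, `tens_succ`), `bl_mul`.
Take `m ≥ n'`, `m ≥ wb` and `rW_eq`. -/
theorem rW_comm {n n' : ℕ} (h : n ≤ n') (b : Mt (Fin (P.ρ n)) E) (k : Q × Wy P.μ)
    (hb : ∀ s t, b s t * G.v k.1 = G.v k.1 * b s t) :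
    rW R G n' k * R.i n b = R.i n b * rW R G n' k := by
  obtain ⟨b1, h1, h2⟩ := RepW_lift R h b (G.v k.1) hb
  obtain ⟨b2, h3, h4⟩ := RepW_ten_comm R (le_max_left n' (wb P.μ k.2)) b1 (G.v k.1) k.2 h2
  rw [← h1, ← h3, rW_eq R G k (le_max_left n' (wb P.μ k.2)) (le_max_right _ _), ← map_mul,
    ← map_mul, h4]

/-- The elements `v k`, `k` in the kernel of the action, commute with `u f * v q` if
`β k q = 1`. -/
theorem RepW_gen_comm (f : F) {k q : Q} (hk : k ∈ S.K) (hβ : S.β k q = 1) :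
    (G.u f * G.v q) * G.v k = G.v k * (G.u f * G.v q) := by
  have h1 : G.v k * G.u f = G.u f * G.v k := by rw [G.vu, hk f]
  have h2 : G.v k * G.v q = G.v q * G.v k := by
    rw [G.v_mul, G.v_mul, (S.β_eq_one_iff k q).1 hβ, add_comm]
  rw [← mul_assoc, h1, mul_assoc, mul_assoc, h2]

theorem RepW_span_comm {n : ℕ} {b : Mt (Fin (P.ρ n)) E}
    (hb : b ∈ Submodule.span ℂ {x : Mt (Fin (P.ρ n)) E |
      ∃ (M : Matrix (Fin (P.ρ n)) (Fin (P.ρ n)) ℂ) (f : F) (q : Q),
        x = ten M (G.u f * G.v q)}) :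
    ∃ n₁ : ℕ, ∀ n', n₁ ≤ n' → ∀ k ∈ S.K, (∀ q ∈ S.fil n', S.β k q = 1) →
      ∀ s t, b s t * G.v k = G.v k * b s t := by
  induction hb using Submodule.span_induction with
  | mem x hx =>
    obtain ⟨M, f, q, rfl⟩ := hx
    obtain ⟨n₁, hn₁⟩ := S.fil_exh q
    refine ⟨n₁, fun n' hn' k hk hβ s t => ?_⟩
    rw [ten_apply, smul_mul_assoc, mul_smul_comm,
      RepW_gen_comm G f hk (hβ q (S.fil_mono hn' hn₁))]
  | zero =>
    refine ⟨0, fun n' _ k _ _ s t => ?_⟩
    rw [Mt.zero_apply, zero_mul, mul_zero]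
  | add x y _ _ hx hy =>
    obtain ⟨n₁, h1⟩ := hx
    obtain ⟨n₂, h2⟩ := hy
    refine ⟨max n₁ n₂, fun n' hn' k hk hβ s t => ?_⟩
    rw [Mt.add_apply, add_mul, mul_add, h1 n' ((le_max_left _ _).trans hn') k hk hβ,
      h2 n' ((le_max_right _ _).trans hn') k hk hβ]
  | smul c x _ hx =>
    obtain ⟨n₁, h1⟩ := hx
    refine ⟨n₁, fun n' hn' k hk hβ s t => ?_⟩
    rw [Mt.smul_apply, smul_mul_assoc, mul_smul_comm, h1 n' hn' k hk hβ]

/-- Asymptotic centrality.

Proof. Given `x` and `ε`; choose `n`, `b` with `n2 (i n b - x) < ε / 4`, `b'` in the span of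
the `ten M (u f * v q)` within `ε / 4` (`exists_near_span`). Finitely many `q` occur in `b'`; let
`n₁` be such that all of them are in `S.fil n₁`
(`Submodule.span_induction`: the claim that there is `n₁` such that the entries of `b'`
commute with `v k` for all `k ∈ S.K` with `β k q = 1` for `q ∈ S.fil n₁` is closed under sums,
`fil_mono`). For `k.1 ∈ K` with `β k.1 q = 1`: `v k.1 * (u f * v q) = (u f * v q) * v k.1`:
`v k u f = u (act k f) v k = u f v k` and `v k v q = b k q v (k + q)`,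
`v q v k = b q k v (k + q)`. So for `n' ≥ max n n₁` and `k ∈ Hn n'` (`ext_mem_Hn`), `rW n' k` commutes
with `i n b'` (`rW_comm`), and `n2 (rW x - x rW) ≤ 2 * n2 (i n b' - x) < ε` (`rW_bd`). -/
theorem r_asy (x : N) (ε : ℝ) (hε : 0 < ε) : ∃ n₀, ∀ n, n₀ ≤ n → ∀ k ∈ (S.ext P.μ).Hn n,
    T.n2 (rW R G n k * x - x * rW R G n k) < ε := by
  obtain ⟨n, b, hb⟩ := R.dense x (ε / 4) (by linarith)
  obtain ⟨b', hb', hbb'⟩ := exists_near_span G n b (ε / 4) (by linarith)
  obtain ⟨n₁, hn₁⟩ := RepW_span_comm G hb'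
  refine ⟨max n n₁, fun n' hn' k hk => ?_⟩
  obtain ⟨hk1, hk2, _⟩ := ext_mem_Hn hk
  have hc := rW_comm R G ((le_max_left _ _).trans hn') b' k
    (hn₁ n' ((le_max_right _ _).trans hn') k.1 hk1 hk2)
  have h1 : T.n2 (R.i n b' - x) < ε / 2 := by
    have e1 : T.n2 (R.i n b' - R.i n b) ≤ ‖b' - b‖ := by
      rw [← map_sub]; exact R.n2_le n (b' - b)
    have e2 := T.n2_sub_le_sub (R.i n b') (R.i n b) x
    linarith
  have h2 : rW R G n' k * x - x * rW R G n' k =
      (R.i n b' - x) * rW R G n' k - rW R G n' k * (R.i n b' - x) := by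
    rw [sub_mul, mul_sub, hc]; abel
  have hW := rW_bd R G n' k
  have h3 : T.n2 ((R.i n b' - x) * rW R G n' k) ≤ 1 * T.n2 (R.i n b' - x) := TVN_mul_le T hW _
  have h4 : T.n2 (rW R G n' k * (R.i n b' - x)) ≤ 1 * T.n2 (R.i n b' - x) := T.bd_le 1 _ hW _
  have h5 := T.n2_sub_le ((R.i n b' - x) * rW R G n' k) (rW R G n' k * (R.i n b' - x))
  rw [h2]
  linarith

end Pool.Agent.H.MP_e11395_an
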