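import Pool.Agent.H.MP_e11395_an.E.RepD
import Pool.Agent.H.MP_e11395_an.E.RepW

/-!
# Part E: the representation of the extended system in a tower
-/

set_option autoImplicit false
set_option linter.unusedSectionVars false

open Filter Topology
open Pool.Agent.H.MP_43b197_an

namespace Pool.Agent.H.MP_e11395_an

variable {N : Type} [Ring N] [StarRing N] [Algebra ℂ N] [StarModule ℂ N] {T : TVN N} {P : Tow}
  {E : Type} [CStarAlgebra E] {τ : TrState E} (R : NTower T P τ)
  {F Q : Type} [Group F] [AddCommGroup Q] {S : TwSys F Q} (G : Gen S E τ)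

/-- **The representation of the extended system.** -/
noncomputable def repOf : TwRep T (S.ext P.μ) where
  z := R.i 0 1
  U := rU R G
  V := rV R G
  t := R.t 0
  t_pos := R.t_pos 0
  U_one := rU_one R G
  V_zero := rV_zero R G
  U_mul := rU_mul R G
  U_star := rU_star R G
  V_mul := rV_mul R G
  V_star_mul := rV_star_mul R G
  V_mul_star := rV_mul_star R G
  VU := rVU R G
  tr_one := r_tr_one R
  tr_ne := r_tr_ne R G
  dense := r_dense R G
  W := rW R G
  W_bd := fun n k _ => rW_bd R G n k
  W_mul := rW_mul R G
  mul_W := mul_rW R G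
  asy := r_asy R G

end Pool.Agent.H.MP_e11395_an
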