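import Pool.Agent.H.MP_e11395_an.E.ExA
import Pool.Agent.H.MP_e11395_an.E.ExB
import Pool.Agent.H.MP_e11395_an.E.ExC
import Pool.Agent.H.MP_e11395_an.E.Rep
import Pool.Agent.H.MP_e11395_an.E.GapRep

/-!
# Part E: the existence theorem
-/

set_option autoImplicit false
set_option linter.unusedSectionVars false

open Filter Topology
open Pool.Agent.H.MP_43b197_an

namespace Pool.Agent.H.MP_e11395_an

variable {N : Type} [Ring N] [StarRing N] [Algebra ℂ N] [StarModule ℂ N] {T : TVN N} {P : Tow}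
  {E : Type} [CStarAlgebra E] {τ : TrState E} (R : NTower T P τ)
  {F Q : Type} [Group F] [AddCommGroup Q] {S : TwSys F Q} (G : Gen S E τ)

include R G in
/-- **The existence theorem.**

Proof. `Θ` from `exists_thE`; `wE_unitary`; `kap_E`. `n2 (Θ x) = n2 x` (limit of
`n2 (w x w*) = n2 x`, as in `Kap.n2`). Central triviality: `central_corner` for
`repOf R G : TwRep T (S.ext P.μ)` with the gap from `TwRep.gap_of_hasGap (ext_hasGap hg)`, the
element `(q₀, 0)` and: for `k = (p, w) ∈ (S.ext μ).K` (`p ∈ S.K`),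
`rV k = i (wb w) (ten (tens ..) (v p))`, so `Θ (rV k) = c p • rV k` (`f = 1`, `u 1 = 1`), and
`β (q₀, 0) (p, w) = β q₀ p * 1 = c p` (`bW 0 w = bW w 0 = 1` by `bW_eq` with `n = 0`). Then
`central_all`, with `one_sub_lim` and `Θ (i n (ten M 1)) = i n (ten M 1)` (`f = 1`, `q = 0`,
`c 0 = 1`). -/
theorem exists_kapE {Sf : Finset F} {C : ℝ} (hg : S.HasGap Sf C) {k : ℕ → Q}
    (hk : ∀ m, k m ∈ S.K) {c : Q → ℂ} (hc : ∀ m, ∀ q ∈ S.fil m, S.β (k m) q = c q) {q₀ : Q}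
    (hq : ∀ x ∈ S.K, c x = S.β q₀ x) {κ : ℂ} (hκ : ∀ m, c (k m) = κ) :
    ∃ (w : ℕ → N) (Θ : N →⋆ₐ[ℂ] N), Kap T w Θ κ := by
  obtain ⟨Θ, hlim, hΘ⟩ := exists_thE R G hk hc
  have hiso : ∀ x, T.n2 (Θ x) = T.n2 x := by
    intro x
    have h1 : ∀ m, T.n2 (wE R G k m * x * star (wE R G k m)) = T.n2 x := by
      intro m
      have hu := wE_unitary R G k m
      rw [T.n2_mul_unitary (by rw [star_star]; exact Unitary.star_mul_self_of_mem hu),
        T.n2_unitary_mul (Unitary.star_mul_self_of_mem hu)]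
    have h2 : ∀ m, |T.n2 x - T.n2 (Θ x)| ≤ T.n2 (wE R G k m * x * star (wE R G k m) - Θ x) := by
      intro m
      rw [← h1 m]
      exact T.abs_n2_sub_n2_le _ _
    have h3 : |T.n2 x - T.n2 (Θ x)| ≤ 0 := ge_of_tendsto' (hlim x) h2
    have h4 := abs_nonpos_iff.1 h3
    linarith
  refine ⟨wE R G k, Θ, ⟨wE_unitary R G k, hlim, ?_, kap_E R G hc hΘ hκ⟩⟩
  intro x C hC hx
  have c0 : c 0 = 1 := by
    rw [← hc 0 0 (S.fil 0).zero_mem, S.β_zero_right]
  have hM : ∀ (n : ℕ) (M : Matrix (Fin (P.ρ n)) (Fin (P.ρ n)) ℂ),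
      Θ (R.i n (ten M 1)) = R.i n (ten M 1) := by
    intro n M
    have h1 := hΘ n M 1 0
    rwa [G.u_one, G.v_zero, mul_one, c0, one_smul] at h1
  have hbeta : ∀ y ∈ (S.ext P.μ).K, (S.ext P.μ).β (q₀, 0) y = c y.1 := by
    intro y hy
    have e1 : bW P.μ y.2 0 = 1 := by rw [bW_eq P.μ (n := 0) fun l _ => Or.inr rfl]; simp
    have e2 : bW P.μ 0 y.2 = 1 := by rw [bW_eq P.μ (n := 0) fun l _ => Or.inl rfl]; simp
    rw [hq y.1 hy, TwSys.β, TwSys.β]
    change (S.b q₀ y.1 * bW P.μ 0 y.2) / (S.b y.1 q₀ * bW P.μ y.2 0) = S.b q₀ y.1 / S.b y.1 q₀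
    rw [e1, e2, mul_one, mul_one]
  have hV : ∀ y ∈ (S.ext P.μ).K,
      Θ ((repOf R G).V y) = (S.ext P.μ).β (q₀, 0) y • (repOf R G).V y := by
    intro y hy
    change Θ (rV R G y) = (S.ext P.μ).β (q₀, 0) y • rV R G y
    have h1 : Θ (rV R G y) = c y.1 • rV R G y := by
      have h2 := hΘ (wb P.μ y.2) (P.tens 0 (wb P.μ y.2) y.2) 1 y.1
      rwa [G.u_one, one_mul] at h2
    rw [h1, hbeta y hy]
  have hgap := TwRep.gap_of_hasGap (repOf R G) (TwSys.ext_hasGap hg P.μ)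
  have h5 := central_corner (repOf R G) hgap Θ hiso (q₀, 0) hV x hx
  exact central_all R Θ hiso (one_sub_lim R) hM x hC hx h5

end Pool.Agent.H.MP_e11395_an
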