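import Pool.Agent.H.MP_e11395_an.E.WeylG

/-!
# Part E: the extension of a twisted system by the Weyl indices
-/

set_option autoImplicit false
set_option linter.unusedSectionVars false

open Filter Topology
open Pool.Agent.H.MP_43b197_an

namespace Pool.Agent.H.MP_e11395_an

variable {F Q : Type} [Group F] [AddCommGroup Q]

/-- The extension of a twisted system by the Weyl indices. -/
noncomputable def TwSys.ext (S : TwSys F Q) (μ : ℕ → ℕ) [∀ l, NeZero (μ l)] :
    TwSys F (Q × Wy μ) where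
  act q f := S.act q.1 f
  act_mul q f g := S.act_mul q.1 f g
  act_zero f := S.act_zero f
  act_add p q f := S.act_add p.1 q.1 f
  b p q := S.b p.1 q.1 * bW μ p.2 q.2
  b_norm p q := by rw [norm_mul, S.b_norm, bW_norm, one_mul]
  b_add_left p p' q := by
    rw [Prod.fst_add, Prod.snd_add, S.b_add_left, bW_add_left, mul_mul_mul_comm]
  b_add_right p q q' := by
    rw [Prod.fst_add, Prod.snd_add, S.b_add_right, bW_add_right, mul_mul_mul_comm]
  fil n := (S.fil n).prod (filW μ n)
  fil_mono m n h x hx := ⟨S.fil_mono h hx.1, filW_mono μ h hx.2⟩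
  fil_fin n := by
    have := (S.fil_fin n).prod (filW_fin μ n)
    refine this.subset fun x hx => ?_
    exact hx
  fil_exh q := by
    obtain ⟨n, hn⟩ := S.fil_exh q.1
    exact ⟨max n (wb μ q.2), S.fil_mono (le_max_left _ _) hn,
      filW_mono μ (le_max_right _ _) (filW_exh μ q.2)⟩
  ker_idx := by
    classical
    obtain ⟨I, hI⟩ := S.ker_idx
    refine ⟨I.image fun q => (q, 0), fun q => ?_⟩
    obtain ⟨s, hs, h⟩ := hI q.1
    exact ⟨(s, 0), Finset.mem_image_of_mem _ hs, h⟩
  nondeg k hk h := by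
    have h1 : k.1 = 0 := by
      refine S.nondeg k.1 hk fun q => ?_
      have := h (q, 0)
      have e1 : bW μ k.2 0 = 1 := by rw [bW_eq μ (n := 0) fun l _ => Or.inr rfl]; simp
      have e2 : bW μ 0 k.2 = 1 := by rw [bW_eq μ (n := 0) fun l _ => Or.inl rfl]; simp
      simpa [e1, e2] using this
    have h2 : k.2 = 0 := by
      refine bW_nondeg μ fun u => ?_
      have := h (0, u)
      simpa [S.b_zero_left, S.b_zero_right] using this
    exact Prod.ext h1 h2

theorem TwSys.ext_mem_K (S : TwSys F Q) (μ : ℕ → ℕ) [∀ l, NeZero (μ l)] (k : Q × Wy μ) :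
    k ∈ (S.ext μ).K ↔ k.1 ∈ S.K := Iff.rfl

/-- The gap only concerns the action on `F`. -/
theorem TwSys.ext_hasGap {S : TwSys F Q} {Sf : Finset F} {C : ℝ} (h : S.HasGap Sf C) (μ : ℕ → ℕ)
    [∀ l, NeZero (μ l)] : (S.ext μ).HasGap Sf C :=
  ⟨h.1, fun q ξ hq => h.2 q.1 ξ hq⟩

end Pool.Agent.H.MP_e11395_an
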