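import Pool.Agent.H.MP_e11395_an.D.StateA
import Pool.Agent.H.MP_e11395_an.Defs

/-!
# Part E: tracial states of simple C*-algebras are faithful
-/

set_option autoImplicit false

open Filter Topology
open scoped ComplexOrder

namespace Pool.Agent.H.MP_e11395_an

variable {A : Type} [CStarAlgebra A]

theorem faithful_of_simple (hs : SimpleCStar A) {τ : A →ₗ[ℂ] ℂ} (h : IsTr τ) (x : A)
    (hx : τ (star x * x) = 0) : x = 0 := by
  let J : TwoSidedIdeal A := TwoSidedIdeal.mk' {x | ∀ y, τ (y * x) = 0}
    (fun y => by simp)
    (fun {a b} ha hb y => by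
      have h1 : τ (y * a) = 0 := ha y
      have h2 : τ (y * b) = 0 := hb y
      rw [mul_add, map_add, h1, h2, add_zero])
    (fun {a} ha y => by
      have h1 : τ (y * a) = 0 := ha y
      rw [mul_neg, map_neg, h1, neg_zero])
    (fun {a b} hb y => by
      have h1 : τ (y * a * b) = 0 := hb (y * a)
      rw [← mul_assoc, h1])
    (fun {a b} ha y => by
      have h1 : τ (b * y * a) = 0 := ha (b * y)
      rw [← mul_assoc, h.comm, ← mul_assoc, h1])
  have hmem : ∀ a, a ∈ J ↔ ∀ y, τ (y * a) = 0 := fun a => by
    simp only [J, TwoSidedIdeal.mem_mk']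
    rfl
  have hcl : IsClosed (J : Set A) := by
    have e : (J : Set A) = ⋂ y, {a | τ (y * a) = 0} := by
      ext a
      rw [Set.mem_iInter]
      exact hmem a
    rw [e]
    refine isClosed_iInter fun y => ?_
    have hc : Continuous fun a => τ (y * a) := by
      have h1 : Continuous τ :=
        (LinearMap.mkContinuous τ 1 fun a => by rw [one_mul]; exact h.norm_le a).continuous
      exact h1.comp (continuous_const.mul continuous_id)
    exact isClosed_eq hc continuous_const
  rcases hs.2 J hcl with h0 | h1
  · have : x ∈ J := by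
      rw [hmem]
      intro y
      have h2 := h.cauchy x (star y)
      rw [hx, Complex.zero_re, mul_zero, star_star] at h2
      have h3 : ‖τ (y * x)‖ = 0 := by
        have h4 := norm_nonneg (τ (y * x))
        nlinarith
      exact norm_eq_zero.1 h3
    rw [h0] at this
    exact this
  · exfalso
    have h2 : (1 : A) ∈ J := by rw [h1]; trivial
    have h3 := (hmem 1).1 h2 1
    rw [mul_one, h.one] at h3
    exact one_ne_zero h3

end Pool.Agent.H.MP_e11395_an
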