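import Pool.Agent.H.MP_e11395_an.E.Tow

/-!
# Part E: Weyl matrices
-/

set_option autoImplicit false

open Filter Topology
open Pool.Agent.H.MP_43b197_an

namespace Pool.Agent.H.MP_e11395_an

section Wl

variable (m : ℕ) [NeZero m]

/-- The standard character of `ℤ/m`. -/
noncomputable def ch (x : ZMod m) : ℂ := ZMod.stdAddChar x

theorem ch_add (x y : ZMod m) : ch m (x + y) = ch m x * ch m y := AddChar.map_add_eq_mul _ _ _

theorem ch_zero : ch m 0 = 1 := AddChar.map_zero_eq_one _

theorem ch_norm (x : ZMod m) : ‖ch m x‖ = 1 := AddChar.norm_apply _ _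

theorem ch_inj {x y : ZMod m} (h : ch m x = ch m y) : x = y := ZMod.injective_stdAddChar h

theorem ch_neg (x : ZMod m) : ch m (-x) = (starRingEnd ℂ) (ch m x) := AddChar.map_neg_eq_conj _ _

/-- The Weyl matrix `X^{x.1} Z^{x.2}`, of size `m`. -/
noncomputable def Wl (x : ZMod m × ZMod m) : Matrix (Fin m) (Fin m) ℂ := Matrix.of fun s s' =>
  if ZMod.finEquiv m s = ZMod.finEquiv m s' + x.1 then ch m (x.2 * ZMod.finEquiv m s') else 0

theorem Wl_apply (x : ZMod m × ZMod m) (s s' : Fin m) : Wl m x s s' =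
    if ZMod.finEquiv m s = ZMod.finEquiv m s' + x.1 then ch m (x.2 * ZMod.finEquiv m s') else 0 :=
  rfl

theorem Wl_zero : Wl m 0 = 1 := by
  ext s s'
  rw [Wl_apply, Matrix.one_apply]
  simp only [Prod.fst_zero, Prod.snd_zero, add_zero, zero_mul, ch_zero, EmbeddingLike.apply_eq_iff_eq]

theorem WeylM_sum (f : Fin m → ℂ) (a : ZMod m) :
    (∑ s, if ZMod.finEquiv m s = a then f s else 0) = f ((ZMod.finEquiv m).symm a) := by
  rw [Finset.sum_eq_single ((ZMod.finEquiv m).symm a)]
  · rw [RingEquiv.apply_symm_apply, if_pos rfl]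
  · intro s _ hs
    rw [if_neg]
    intro h
    exact hs (by rw [← h, RingEquiv.symm_apply_apply])
  · intro h
    exact absurd (Finset.mem_univ _) h

theorem WeylM_card : Fintype.card (ZMod m) = m := ZMod.card m

theorem WeylM_char_sum (a : ZMod m) :
    (∑ y : ZMod m, ch m (y * a)) = if a = 0 then (m : ℂ) else 0 := by
  have := AddChar.sum_mulShift a (ZMod.isPrimitive_stdAddChar m)
  rw [ZMod.card] at this
  unfold ch
  rw [this]
  split_ifs <;> simp

/-- `X^x Z^y X^x' Z^y' = χ(y x') X^{x+x'} Z^{y+y'}`: the entry `(s, s'')` of the product is the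
sum over `s'` with `s' = s'' + x'` (exactly one) of `[s = s'' + x' + x] χ(y (s'' + x') + y' s'')`. -/
theorem Wl_mul (x y : ZMod m × ZMod m) : Wl m x * Wl m y = ch m (x.2 * y.1) • Wl m (x + y) := by
  ext s s''
  rw [Matrix.mul_apply, Matrix.smul_apply, smul_eq_mul]
  have e1 : ∀ s' : Fin m, Wl m x s s' * Wl m y s' s'' =
      if ZMod.finEquiv m s' = ZMod.finEquiv m s'' + y.1 then
        Wl m x s s' * ch m (y.2 * ZMod.finEquiv m s'') else 0 := by
    intro s'
    rw [Wl_apply m y]
    split_ifs <;> simp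
  rw [Finset.sum_congr rfl fun s' _ => e1 s', WeylM_sum, Wl_apply, Wl_apply,
    RingEquiv.apply_symm_apply]
  by_cases h : ZMod.finEquiv m s = ZMod.finEquiv m s'' + (x + y).1
  · rw [if_pos h, if_pos (by rw [h, Prod.fst_add]; ring), ← ch_add, ← ch_add]
    congr 1
    rw [Prod.snd_add]; ring
  · rw [if_neg h, if_neg (fun h' => h (by rw [h', Prod.fst_add]; ring))]
    simp

theorem Wl_star_mul (x : ZMod m × ZMod m) : star (Wl m x) * Wl m x = 1 := by
  ext s s''
  rw [Matrix.mul_apply, Matrix.one_apply]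
  have e1 : ∀ s' : Fin m, (star (Wl m x)) s s' * Wl m x s' s'' =
      if ZMod.finEquiv m s' = ZMod.finEquiv m s + x.1 then
        (starRingEnd ℂ) (ch m (x.2 * ZMod.finEquiv m s)) * Wl m x s' s'' else 0 := by
    intro s'
    rw [Matrix.star_apply, Wl_apply m x s' s]
    split_ifs <;> simp
  rw [Finset.sum_congr rfl fun s' _ => e1 s', WeylM_sum, Wl_apply, RingEquiv.apply_symm_apply]
  by_cases h : s = s''
  · rw [h, if_pos rfl, if_pos rfl, Complex.conj_mul', ch_norm]
    simp
  · rw [if_neg h, if_neg, mul_zero]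
    intro h'
    exact h ((ZMod.finEquiv m).injective (add_right_cancel h'))

theorem Wl_mul_star (x : ZMod m × ZMod m) : Wl m x * star (Wl m x) = 1 :=
  mul_eq_one_comm.1 (Wl_star_mul m x)

theorem trace_Wl_zero : (Wl m 0).trace = m := by
  rw [Wl_zero]; simp

/-- If `x.1 ≠ 0` the diagonal is `0`; if `x.1 = 0` the trace is `∑ s, χ(x.2 s) = 0`
(`AddChar.sum_mulShift` or `AddChar.sum_eq_zero_of_ne_one`). -/
theorem trace_Wl {x : ZMod m × ZMod m} (hx : x ≠ 0) : (Wl m x).trace = 0 := by
  rw [Matrix.trace]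
  by_cases h1 : x.1 = 0
  · have h2 : x.2 ≠ 0 := fun h2 => hx (Prod.ext h1 h2)
    have e1 : ∀ s : Fin m, Matrix.diag (Wl m x) s = ch m (ZMod.finEquiv m s * x.2) := by
      intro s
      rw [Matrix.diag_apply, Wl_apply, h1, add_zero, if_pos rfl, mul_comm]
    rw [Finset.sum_congr rfl fun s _ => e1 s]
    have e2 := Equiv.sum_comp (ZMod.finEquiv m).toEquiv (fun y : ZMod m => ch m (y * x.2))
    have e3 : (∑ s : Fin m, ch m (ZMod.finEquiv m s * x.2)) = ∑ y : ZMod m, ch m (y * x.2) := e2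
    rw [e3, WeylM_char_sum, if_neg h2]
  · refine Finset.sum_eq_zero fun s _ => ?_
    rw [Matrix.diag_apply, Wl_apply, if_neg]
    intro h
    exact h1 (by simpa using h)

/-- The matrix units are combinations of Weyl matrices:
`e_{s t} = m⁻¹ ∑_y χ(- y t) X^{s - t} Z^y`. -/
theorem single_mem_span (s t : Fin m) :
    (Matrix.single s t 1 : Matrix (Fin m) (Fin m) ℂ) ∈ Submodule.span ℂ (Set.range (Wl m)) := by
  have hm : (m : ℂ) ≠ 0 := by exact_mod_cast (NeZero.ne m)
  have key : (Matrix.single s t 1 : Matrix (Fin m) (Fin m) ℂ) =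
      ∑ y : ZMod m, ((m : ℂ)⁻¹ * ch m (-(y * ZMod.finEquiv m t))) •
        Wl m (ZMod.finEquiv m s - ZMod.finEquiv m t, y) := by
    ext a b
    rw [Matrix.sum_apply, Matrix.single_apply]
    have e1 : ∀ y : ZMod m, (((m : ℂ)⁻¹ * ch m (-(y * ZMod.finEquiv m t))) •
        Wl m (ZMod.finEquiv m s - ZMod.finEquiv m t, y)) a b =
        (m : ℂ)⁻¹ * (if ZMod.finEquiv m a = ZMod.finEquiv m b +
          (ZMod.finEquiv m s - ZMod.finEquiv m t) then (1 : ℂ) else 0) *
          ch m (y * (ZMod.finEquiv m b - ZMod.finEquiv m t)) := by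
      intro y
      rw [Matrix.smul_apply, smul_eq_mul, Wl_apply]
      dsimp only
      split_ifs
      · rw [mul_assoc, mul_assoc, one_mul, ← ch_add]
        congr 2
        ring
      · ring
    rw [Finset.sum_congr rfl fun y _ => e1 y, ← Finset.mul_sum, WeylM_char_sum]
    by_cases hb : b = t
    · subst hb
      rw [sub_self, if_pos rfl]
      by_cases ha : a = s
      · subst ha
        rw [if_pos ⟨rfl, rfl⟩, if_pos (by ring), mul_one, inv_mul_cancel₀ hm]
      · rw [if_neg (fun h => ha h.1.symm), if_neg, mul_zero, zero_mul]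
        intro h
        exact ha ((ZMod.finEquiv m).injective (by rw [h]; ring))
    · have hb' : ZMod.finEquiv m b - ZMod.finEquiv m t ≠ 0 := fun h =>
        hb ((ZMod.finEquiv m).injective (sub_eq_zero.1 h))
      rw [if_neg (fun h => hb h.2.symm), if_neg hb', mul_zero]
  rw [key]
  exact Submodule.sum_mem _ fun y _ => Submodule.smul_mem _ _
    (Submodule.subset_span ⟨_, rfl⟩)

end Wl

end Pool.Agent.H.MP_e11395_an
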