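import Pool.Agent.H.MP_e11395_an.D.Tr
import Pool.Agent.H.MP_e11395_an.E.WeylM
import Pool.Agent.H.MP_e11395_an.E.GapSets

/-!
# Part E: the twisted system of a matrix algebra
-/

set_option autoImplicit false
set_option linter.unusedSectionVars false

open Filter Topology
open Pool.Agent.H.MP_43b197_an

namespace Pool.Agent.H.MP_e11395_an

variable (m : ℕ) [NeZero m]

open scoped ComplexOrder in
theorem MatSys_isTr : IsTr (LinearMap.id : ℂ →ₗ[ℂ] ℂ) where
  one := rfl
  pos a := by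
    rw [LinearMap.id_apply]
    exact star_mul_self_nonneg a
  comm a b := mul_comm a b

theorem MatSys_isTr_mtr : IsTr (mtr : Mt (Fin m) ℂ →ₗ[ℂ] ℂ) := by
  have h := IsTr.mat (ι := Fin m) MatSys_isTr
  rwa [LinearMap.id_comp] at h

theorem MatSys_re (x : Mt (Fin m) ℂ) :
    (mtr (star x * x)).re = (m : ℝ)⁻¹ * ∑ i, ∑ k, ‖x k i‖ ^ 2 := by
  have h1 : mtr (star x * x) = (((m : ℝ)⁻¹ * ∑ i, ∑ k, ‖x k i‖ ^ 2 : ℝ) : ℂ) := by
    rw [mtr_apply, Fintype.card_fin, smul_eq_mul, one_div]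
    push_cast
    congr 1
    refine Finset.sum_congr rfl fun i _ => ?_
    rw [Mt.mul_apply]
    refine Finset.sum_congr rfl fun k _ => ?_
    rw [Mt.star_apply, Complex.star_def, Complex.conj_mul']
  rw [h1, Complex.ofReal_re]

/-- The normalised trace of the matrix algebra (of `M : Mt (Fin m) ℂ`; `mtr M : ℂ`).

Proofs: `mtr_apply`, `mtr_one`; `comm`: exchange the sums; `mtr (star x * x)
= m⁻¹ ∑ i, ∑ j, ‖x j i‖ ^ 2`. -/
noncomputable def tauMS : TrState (Mt (Fin m) ℂ) where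
  tr := mtr
  one := (MatSys_isTr_mtr m).one
  comm x y := (MatSys_isTr_mtr m).comm x y
  tr_star x := by
    rw [mtr_apply, mtr_apply]
    simp only [Mt.star_apply, smul_eq_mul, map_mul, map_sum, map_div₀, map_one, map_natCast,
      Complex.star_def]
  pos x := by
    rw [MatSys_re]
    positivity
  faithful x hx := by
    rw [MatSys_re] at hx
    have hm : (m : ℝ)⁻¹ ≠ 0 := inv_ne_zero (by exact_mod_cast NeZero.ne m)
    have h1 : ∑ i, ∑ k, ‖x k i‖ ^ 2 = 0 := (mul_eq_zero.1 hx).resolve_left hm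
    have h2 := (Finset.sum_eq_zero_iff_of_nonneg fun i _ =>
      Finset.sum_nonneg fun k _ => sq_nonneg _).1 h1
    ext k i
    have h3 := (Finset.sum_eq_zero_iff_of_nonneg fun k _ => sq_nonneg _).1
      (h2 i (Finset.mem_univ i)) k (Finset.mem_univ k)
    exact norm_eq_zero.1 (pow_eq_zero_iff two_ne_zero |>.1 h3)

theorem tauMS_tr (x : Mt (Fin m) ℂ) : (tauMS m).tr x = mtr x := rfl

/-- The system: trivial group `Unit`, `Q = (ℤ/m)²`, `b x y = ch (x.2 * y.1)`. -/
noncomputable def sysM : TwSys Unit (ZMod m × ZMod m) where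
  act _ f := f
  act_mul _ _ _ := rfl
  act_zero _ := rfl
  act_add _ _ _ := rfl
  b x y := ch m (x.2 * y.1)
  b_norm x y := ch_norm m _
  b_add_left x x' y := by rw [Prod.snd_add, add_mul, ch_add]
  b_add_right x y y' := by rw [Prod.fst_add, mul_add, ch_add]
  fil _ := ⊤
  fil_mono _ _ _ := le_rfl
  fil_fin n := Set.toFinite _
  fil_exh q := ⟨0, trivial⟩
  ker_idx := ⟨{0}, fun q => ⟨0, Finset.mem_singleton_self _, fun _ => rfl⟩⟩
  nondeg k hk h := by
    have h1 := ch_inj m (h (1, 0))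
    have h2 := ch_inj m (h (0, 1))
    simp only [mul_one, mul_zero, zero_mul, one_mul] at h1 h2
    exact Prod.ext h2.symm h1

/-- A scalar matrix as an element of `Mt (Fin m) ℂ`. -/
def mtOf (X : Matrix (Fin m) (Fin m) ℂ) : Mt (Fin m) ℂ := Mt.of fun i j => X i j

theorem MatSys_apply (X : Matrix (Fin m) (Fin m) ℂ) (i j : Fin m) : mtOf m X i j = X i j := rfl

theorem MatSys_one : mtOf m 1 = 1 := by
  ext i j
  rw [MatSys_apply, Matrix.one_apply, Mt.one_apply]

theorem MatSys_mul (X Y : Matrix (Fin m) (Fin m) ℂ) : mtOf m X * mtOf m Y = mtOf m (X * Y) := by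
  ext i j
  rw [Mt.mul_apply, MatSys_apply, Matrix.mul_apply]
  rfl

theorem MatSys_star (X : Matrix (Fin m) (Fin m) ℂ) : star (mtOf m X) = mtOf m (star X) := by
  ext i j
  rw [Mt.star_apply, MatSys_apply, MatSys_apply, Matrix.star_apply]

/-- `mtOf` as a linear map. -/
def MatSys_lin : Matrix (Fin m) (Fin m) ℂ →ₗ[ℂ] Mt (Fin m) ℂ where
  toFun X := mtOf m X
  map_add' X Y := by
    ext i j
    rw [Mt.add_apply]
    rfl
  map_smul' c X := by
    ext i j
    rw [Mt.smul_apply]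
    rfl

theorem MatSys_smul (c : ℂ) (X : Matrix (Fin m) (Fin m) ℂ) : mtOf m (c • X) = c • mtOf m X :=
  (MatSys_lin m).map_smul c X

theorem MatSys_tr (X : Matrix (Fin m) (Fin m) ℂ) : mtr (mtOf m X) = (m : ℂ)⁻¹ * X.trace := by
  rw [mtr_apply, Fintype.card_fin, smul_eq_mul, one_div]
  rfl

theorem MatSys_span (X : Matrix (Fin m) (Fin m) ℂ) :
    X ∈ Submodule.span ℂ (Set.range (Wl m)) := by
  rw [Matrix.matrix_eq_sum_single X]
  refine Submodule.sum_mem _ fun i _ => Submodule.sum_mem _ fun j _ => ?_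
  have h : (Matrix.single i j (X i j) : Matrix (Fin m) (Fin m) ℂ) =
      X i j • Matrix.single i j 1 := by
    rw [Matrix.smul_single, smul_eq_mul, mul_one]
  rw [h]
  exact Submodule.smul_mem _ _ (single_mem_span m i j)

theorem MatSys_rep (X : Matrix (Fin m) (Fin m) ℂ) : ∃ c : Unit × (ZMod m × ZMod m) →₀ ℂ,
    (c.sum fun y a => a • ((1 : Mt (Fin m) ℂ) * mtOf m (Wl m y.2))) = mtOf m X := by
  obtain ⟨c, hc⟩ := (Finsupp.mem_span_range_iff_exists_finsupp).1 (MatSys_span m X)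
  refine ⟨c.mapDomain fun k => ((), k), ?_⟩
  rw [Finsupp.sum_mapDomain_index
    (h := fun (y : Unit × (ZMod m × ZMod m)) (a : ℂ) => a • ((1 : Mt (Fin m) ℂ) * mtOf m (Wl m y.2)))
    (fun _ => zero_smul _ _) (fun _ _ _ => add_smul _ _ _)]
  have h : mtOf m X = MatSys_lin m X := rfl
  rw [h, ← hc, Finsupp.sum, Finsupp.sum, map_sum]
  refine Finset.sum_congr rfl fun k _ => ?_
  rw [map_smul, one_mul]
  rfl

/-- The Weyl matrices generate (`Wl_zero`, `Wl_mul`, `Wl_star_mul`, `Wl_mul_star`, `trace_Wl`,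
`single_mem_span`). -/
noncomputable def genM : Gen (sysM m) (Mt (Fin m) ℂ) (tauMS m) where
  u _ := 1
  v x := mtOf m (Wl m x)
  u_one := rfl
  u_mul _ _ := (mul_one _).symm
  u_star _ := star_one _
  v_zero := by
    rw [Wl_zero, MatSys_one]
  v_mul p q := by
    rw [MatSys_mul, Wl_mul, MatSys_smul]
    rfl
  v_star_mul q := by
    rw [MatSys_star, MatSys_mul, Wl_star_mul, MatSys_one]
  v_mul_star q := by
    rw [MatSys_star, MatSys_mul, Wl_mul_star, MatSys_one]
  vu q f := by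
    rw [mul_one, one_mul]
  tr_one := by
    rw [one_mul, tauMS_tr, MatSys_tr, trace_Wl_zero]
    exact inv_mul_cancel₀ (by exact_mod_cast NeZero.ne m)
  tr_ne f q h := by
    rw [one_mul, tauMS_tr, MatSys_tr, trace_Wl m (fun h' => h (Prod.ext rfl h')), mul_zero]
  dense x ε hε := by
    obtain ⟨c, hc⟩ := MatSys_rep m (Matrix.of fun i j => x i j)
    refine ⟨c, ?_⟩
    rw [hc]
    have h : mtOf m (Matrix.of fun i j => x i j) = x := by
      ext i j
      rfl
    rw [h, sub_self, norm_zero]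
    exact hε

theorem sysM_hasGap : (sysM m).HasGap ∅ 0 := hasGap_trivial _

end Pool.Agent.H.MP_e11395_an
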