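import Pool.Agent.H.MP_e11395_an.E.ThrLim

/-!
# Part E: the tower in the closure
-/

set_option autoImplicit false

open Filter Topology
open Pool.Agent.H.MP_43b197_an

namespace Pool.Agent.H.MP_e11395_an

variable {A : Type} [CStarAlgebra A] {τA : TrState A} {P : Tow} {E : Type} [CStarAlgebra E]
  {τ : TrState E}

variable {N : Type} [Ring N] [StarRing N] [Algebra ℂ N] [StarModule ℂ N] {T : TVN N}
  {j : A →⋆ₐ[ℂ] N}

/-- The limits of the threads, as functions. -/
theorem NTow_fun (hj : Cl T τA j) (TT : TraceTower A τA P E τ) :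
    ∃ F : ∀ n, Mt (Fin (P.ρ n)) E → N,
      (∀ n b, T.Bd ‖b‖ (F n b)) ∧
      (∀ n b, ∃ c : ∀ l, Mt (Fin (P.ρ l)) E, P.IsThr n c ∧ c n = b ∧ TT.IsLim T j c (F n b)) ∧
      (∀ n (c : ∀ l, Mt (Fin (P.ρ l)) E) (L : N), P.IsThr n c → TT.IsLim T j c L →
        L = F n (c n)) := by
  have key : ∀ n (b : Mt (Fin (P.ρ n)) E), ∃ L, T.Bd ‖b‖ L ∧
      ∃ c : ∀ l, Mt (Fin (P.ρ l)) E, P.IsThr n c ∧ c n = b ∧ TT.IsLim T j c L := by
    intro n b
    obtain ⟨c, h1, h2, h3⟩ := Tow.exists_thr (P := P) n b
    obtain ⟨L, hL, hb⟩ := TT.exists_isLim hj h1 h3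
    exact ⟨L, hb, c, h1, h2, hL⟩
  choose F hF using key
  refine ⟨F, fun n b => (hF n b).1, fun n b => (hF n b).2, fun n c L hc hL => ?_⟩
  obtain ⟨c', h1, h2, h3⟩ := (hF n (c n)).2
  refine TraceTower.IsLim.unique TT hj hL (TraceTower.IsLim.congr TT h3 ?_)
  filter_upwards [eventually_ge_atTop n] with l hl
  exact Tow.thr_unique h1 hc h2 l hl

/-- **The tower in the closure.**

Proof. For `b : Mt (Fin (ρ n)) E` let `c` be its thread (`Tow.exists_thr`) and `i n b` the limit of
`c` (`exists_isLim`, `Bd ‖b‖`), both by choice. If `c'` is any thread from some `n' ≥ n`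
on with `c' n' = c n'`, then `IsLim c' (i n b)` (`thr_unique`, `IsLim.congr`); so `i n b` is
characterised by: `IsLim c' L` for a thread `c'` from `n` on with `c' n = b`
implies `L = i n b` (`IsLim.unique`). Threads of
`b + b'`, `z • b`, `b * b'`, `star b` are the sums etc. of the threads (`emb` is a star homomorphism),
so `IsLim.add`, `.smul`, `.mul`, `.star` show that `i n` is a star homomorphism. The thread of
`emb n b` from `n + 1` on is the thread of `b`, so `i (n + 1) (emb n b) = i n b`. Traces: `Tow.exists_t`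
and `IsLim.tr`. Density: `exists_near` (`L = i n (c n)`). -/
theorem exists_nTower (hj : Cl T τA j) (TT : TraceTower A τA P E τ) :
    Nonempty (NTower T P τ) := by
  obtain ⟨F, hb, hF, hu⟩ := NTow_fun hj TT
  obtain ⟨t, ht, htl, htr⟩ := Tow.exists_t P
  have hsmul : ∀ n (z : ℂ) (b : Mt (Fin (P.ρ n)) E), F n (z • b) = z • F n b := by
    intro n z b
    obtain ⟨c, h1, rfl, h3⟩ := hF n b
    refine (hu n (fun l => z • c l) _ (fun l hl => ?_) (TraceTower.IsLim.smul TT z h3)).symm
    change z • c (l + 1) = P.emb l (z • c l)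
    rw [h1 l hl, map_smul]
  have hadd : ∀ n (b b' : Mt (Fin (P.ρ n)) E), F n (b + b') = F n b + F n b' := by
    intro n b b'
    obtain ⟨c, h1, rfl, h3⟩ := hF n b
    obtain ⟨c', h1', rfl, h3'⟩ := hF n b'
    refine (hu n (fun l => c l + c' l) _ (fun l hl => ?_) (TraceTower.IsLim.add TT h3 h3')).symm
    change c (l + 1) + c' (l + 1) = P.emb l (c l + c' l)
    rw [h1 l hl, h1' l hl, map_add]
  have hmul : ∀ n (b b' : Mt (Fin (P.ρ n)) E), F n (b * b') = F n b * F n b' := by
    intro n b b'
    obtain ⟨c, h1, rfl, h3⟩ := hF n b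
    obtain ⟨c', h1', rfl, h3'⟩ := hF n b'
    refine (hu n (fun l => c l * c' l) _ (fun l hl => ?_)
      (TraceTower.IsLim.mul TT hj h3 h3')).symm
    change c (l + 1) * c' (l + 1) = P.emb l (c l * c' l)
    rw [h1 l hl, h1' l hl, map_mul]
  have hstar : ∀ n (b : Mt (Fin (P.ρ n)) E), F n (star b) = star (F n b) := by
    intro n b
    obtain ⟨c, h1, rfl, h3⟩ := hF n b
    refine (hu n (fun l => star (c l)) _ (fun l hl => ?_) (TraceTower.IsLim.star TT h3)).symm
    change star (c (l + 1)) = P.emb l (star (c l))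
    rw [h1 l hl, map_star]
  have hzero : ∀ n, F n 0 = 0 := by
    intro n
    have h := hsmul n 0 0
    rwa [zero_smul, zero_smul] at h
  refine ⟨{ i := fun n =>
              { toFun := F n
                map_smul' := fun z b => hsmul n z b
                map_zero' := hzero n
                map_add' := hadd n
                map_mul' := hmul n
                map_star' := hstar n }
            bd := fun n b h => ?_
            emb := fun n b => ?_
            t := t
            t_pos := ht
            t_lim := htl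
            tr := fun n b => ?_
            dense := fun x ε hε => ?_ }⟩
  · exact T.bd_mono _ _ _ h (hb n b)
  · change F (n + 1) (P.emb n b) = F n b
    obtain ⟨c, h1, rfl, h3⟩ := hF n b
    rw [← h1 n le_rfl]
    exact (hu (n + 1) c _ (fun l hl => h1 l (by omega)) h3).symm
  · change T.tr (F n b) = t n * tauM τ b
    obtain ⟨c, h1, rfl, h3⟩ := hF n b
    exact TraceTower.IsLim.tr TT hj h3 (htr E τ n c h1)
  · obtain ⟨n, c, L, h1, h2, h3⟩ := TT.exists_near hj x hε
    refine ⟨n, c n, ?_⟩
    change T.n2 (F n (c n) - x) < ε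
    rw [← hu n c L h1 h2]
    exact h3

end Pool.Agent.H.MP_e11395_an
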