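import Pool.Agent.H.MP_e11395_an.E.Dual

/-!
# Part E, the upper bound, step C2: eigenvectors
-/

set_option autoImplicit false

open Filter Topology
open Pool.Agent.H.MP_43b197_an

namespace Pool.Agent.H.MP_e11395_an

variable {N : Type} [Ring N] [StarRing N] [Algebra ℂ N] [StarModule ℂ N] {T : TVN N}
  {w : ℕ → N} {Θ : N →⋆ₐ[ℂ] N} {κ : ℂ}
  {F Q : Type} [Group F] [AddCommGroup Q] {S : TwSys F Q} (R : TwRep T S)

/-- `ρ q X = Θ (V q) * X * star (V q)` -/
def StepC2_rho (Θ : N →⋆ₐ[ℂ] N) (q : Q) (X : N) : N := Θ (R.V q) * X * star (R.V q)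

theorem StepC2_starV_z (q : Q) : star (R.V q) * R.z = star (R.V q) := by
  have h := congrArg star (R.z_mul_V q)
  rwa [star_mul, R.z_star] at h

theorem StepC2_z_starV (q : Q) : R.z * star (R.V q) = star (R.V q) := by
  have h := congrArg star (R.V_mul_z q)
  rwa [star_mul, R.z_star] at h

theorem StepC2_Xz {X : N} (hz : Θ R.z * X * R.z = X) : X * R.z = X := by
  conv_lhs => rw [← hz]
  rw [mul_assoc, R.z_mul_z, hz]

theorem StepC2_rho_rho (p q : Q) (X : N) :
    StepC2_rho R Θ p (StepC2_rho R Θ q X) = StepC2_rho R Θ (p + q) X := by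
  unfold StepC2_rho
  have h1 : Θ (R.V p) * (Θ (R.V q) * X * star (R.V q)) * star (R.V p) =
      Θ (R.V p * R.V q) * X * star (R.V p * R.V q) := by
    rw [map_mul, star_mul]
    simp only [mul_assoc]
  rw [h1, R.V_mul, map_smul, star_smul, smul_mul_assoc, smul_mul_assoc, mul_smul_comm, smul_smul]
  have h2 : S.b p q * star (S.b p q) = 1 := by
    rw [Complex.star_def, Complex.mul_conj, Complex.normSq_eq_norm_sq, S.b_norm]
    norm_num
  rw [h2, one_smul]

theorem StepC2_rho_ker {n : ℕ} {X : N} (hz : Θ R.z * X * R.z = X)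
    (hV : ∀ k ∈ S.Hn n, Θ (R.V k) * X = X * R.V k) {k : Q} (hk : k ∈ S.Hn n) :
    StepC2_rho R Θ k X = X := by
  unfold StepC2_rho
  rw [hV k hk, mul_assoc, R.V_mul_star, StepC2_Xz R hz]

theorem StepC2_rho_U {X : N} (hU : ∀ f, Θ (R.U f) * X = X * R.U f) (q : Q) (f : F) :
    Θ (R.U f) * StepC2_rho R Θ q X = StepC2_rho R Θ q X * R.U f := by
  have h1 : R.V q * R.U (S.act (-q) f) = R.U f * R.V q := by
    rw [R.VU, S.act_act_neg]
  have h2 : R.U (S.act (-q) f) * star (R.V q) = star (R.V q) * R.U f := by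
    have h3 : star (R.V q) * (R.V q * R.U (S.act (-q) f)) * star (R.V q) =
        star (R.V q) * (R.U f * R.V q) * star (R.V q) := by rw [h1]
    rw [← mul_assoc, R.V_star_mul, R.z_mul_U, mul_assoc, mul_assoc, R.V_mul_star, R.U_mul_z] at h3
    exact h3
  unfold StepC2_rho
  calc Θ (R.U f) * (Θ (R.V q) * X * star (R.V q))
      = Θ (R.U f * R.V q) * X * star (R.V q) := by
        rw [map_mul]
        simp only [mul_assoc]
    _ = Θ (R.V q) * (Θ (R.U (S.act (-q) f)) * X) * star (R.V q) := by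
        rw [← h1, map_mul]
        simp only [mul_assoc]
    _ = Θ (R.V q) * X * (R.U (S.act (-q) f) * star (R.V q)) := by
        rw [hU]
        simp only [mul_assoc]
    _ = Θ (R.V q) * X * star (R.V q) * R.U f := by
        rw [h2]
        simp only [mul_assoc]

theorem StepC2_rho_z (q : Q) (X : N) :
    Θ R.z * StepC2_rho R Θ q X * R.z = StepC2_rho R Θ q X := by
  unfold StepC2_rho
  calc Θ R.z * (Θ (R.V q) * X * star (R.V q)) * R.z
      = Θ (R.z * R.V q) * X * (star (R.V q) * R.z) := by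
        rw [map_mul]
        simp only [mul_assoc]
    _ = _ := by rw [R.z_mul_V, StepC2_starV_z]

theorem StepC2_rho_sum {ι : Type} (s : Finset ι) (a : ι → ℂ) (Y : ι → N) (q : Q) :
    StepC2_rho R Θ q (∑ i ∈ s, a i • Y i) = ∑ i ∈ s, a i • StepC2_rho R Θ q (Y i) := by
  unfold StepC2_rho
  rw [Finset.mul_sum, Finset.sum_mul]
  refine Finset.sum_congr rfl fun i _ => ?_
  rw [mul_smul_comm, smul_mul_assoc]

/-- **Step C2.** Decomposition into eigenvectors.

Proof. For `q ∈ Q` let `ρ q X = Θ (V q) * X * star (V q)`. `ρ (p + q) = ρ p ∘ ρ q` on all of `N`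
(the scalars cancel). If `X` satisfies the hypotheses then so does `ρ q X`: for `U f`:
`Θ (U f) Θ (V q) X (V q)* = Θ (V q) Θ (U (act (-q) f)) X (V q)*
= Θ (V q) X U (act (-q) f) (V q)* = Θ (V q) X (V q)* U f`, using
`V q * U (act (-q) f) = U f * V q` and its consequence
`U (act (-q) f) * star (V q) = star (V q) * U f` (multiply by `star (V q)` on both sides). For
`k ∈ Hn n` (indeed for every `k` with `Θ (V k) X = X V k`): `V k V q = β k q V q V k`, and the two
scalars `β k q` from the two sides cancel. Also `ρ k X = X` for `k ∈ Hn n`, so `q ↦ ρ q X` is a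
function on the finite group `Y = Q ⧸ Hn n` (`Hn_index`), and for a character `χ` of `Y` let
`X_χ = ∑_{y ∈ Y} (χ y)⁻¹ • ρ y X`. Then `ρ q X_χ = χ q • X_χ`, and
`∑_χ X_χ = |Y| X` (`∑_χ χ y = 0` unless `y = 0`: `AddChar.sum_apply_eq_ite` for
the finite abelian group `Y`), so some `X_χ ≠ 0`. From `ρ q X_χ = χ q X_χ` multiply by `V q` from
the right: `Θ (V q) X_χ z = χ q X_χ V q`. -/
theorem stepC2 {n : ℕ} {X : N} (hX : X ≠ 0) (hz : Θ R.z * X * R.z = X)
    (hU : ∀ f, Θ (R.U f) * X = X * R.U f) (hV : ∀ k ∈ S.Hn n, Θ (R.V k) * X = X * R.V k) :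
    ∃ (c : Q → ℂ) (Y : N), (∀ p q, c (p + q) = c p * c q) ∧ (∀ q, ‖c q‖ = 1) ∧
      (∀ k ∈ S.Hn n, c k = 1) ∧ Y ≠ 0 ∧ Θ R.z * Y * R.z = Y ∧
      (∀ f, Θ (R.U f) * Y = Y * R.U f) ∧ ∀ q, Θ (R.V q) * Y = c q • (Y * R.V q) := by
  classical
  have := S.Hn_index n
  have : Finite (Q ⧸ S.Hn n) := AddSubgroup.finite_quotient_of_finiteIndex
  have : Fintype (Q ⧸ S.Hn n) := Fintype.ofFinite _
  let r : Q ⧸ S.Hn n → N := fun y => StepC2_rho R Θ y.out X
  have hr : ∀ q : Q, r (QuotientAddGroup.mk q) = StepC2_rho R Θ q X := by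
    intro q
    obtain ⟨h, hh⟩ := QuotientAddGroup.mk_out_eq_add (S.Hn n) q
    change StepC2_rho R Θ (QuotientAddGroup.mk q : Q ⧸ S.Hn n).out X = _
    rw [hh, ← StepC2_rho_rho, StepC2_rho_ker R hz hV h.2]
  have hr0 : r 0 = X := by
    have h1 : (0 : Q ⧸ S.Hn n) = QuotientAddGroup.mk 0 := rfl
    rw [h1, hr, StepC2_rho_ker R hz hV (S.Hn n).zero_mem]
  have hρr : ∀ (q : Q) (y : Q ⧸ S.Hn n),
      StepC2_rho R Θ q (r y) = r (QuotientAddGroup.mk q + y) := by
    intro q y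
    obtain ⟨p, rfl⟩ := QuotientAddGroup.mk_surjective y
    rw [hr, StepC2_rho_rho, ← QuotientAddGroup.mk_add, hr]
  let Yc : AddChar (Q ⧸ S.Hn n) ℂ → N := fun χ => ∑ y, χ (-y) • r y
  have hsum : ∑ χ : AddChar (Q ⧸ S.Hn n) ℂ, Yc χ = (Fintype.card (Q ⧸ S.Hn n) : ℂ) • X := by
    have h1 : ∑ χ : AddChar (Q ⧸ S.Hn n) ℂ, Yc χ =
        ∑ y, (∑ χ : AddChar (Q ⧸ S.Hn n) ℂ, χ (-y)) • r y := by
      change ∑ χ : AddChar (Q ⧸ S.Hn n) ℂ, ∑ y, χ (-y) • r y = _
      rw [Finset.sum_comm]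
      refine Finset.sum_congr rfl fun y _ => ?_
      rw [Finset.sum_smul]
    rw [h1, Finset.sum_eq_single 0]
    · rw [AddChar.sum_apply_eq_ite, neg_zero, if_pos rfl, hr0]
    · intro y _ hy
      rw [AddChar.sum_apply_eq_ite, if_neg (neg_ne_zero.2 hy), zero_smul]
    · intro h
      exact absurd (Finset.mem_univ _) h
  obtain ⟨χ, hχ⟩ : ∃ χ, Yc χ ≠ 0 := by
    by_contra hcon
    push Not at hcon
    rw [Finset.sum_eq_zero fun χ _ => hcon χ] at hsum
    rcases smul_eq_zero.1 hsum.symm with h | h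
    · have : Fintype.card (Q ⧸ S.Hn n) ≠ 0 := Fintype.card_ne_zero
      exact this (by exact_mod_cast h)
    · exact hX h
  have heig : ∀ q : Q, StepC2_rho R Θ q (Yc χ) = χ (QuotientAddGroup.mk q) • Yc χ := by
    intro q
    change StepC2_rho R Θ q (∑ y, χ (-y) • r y) = χ (QuotientAddGroup.mk q) • ∑ y, χ (-y) • r y
    rw [StepC2_rho_sum, Finset.smul_sum]
    rw [← Equiv.sum_comp (Equiv.addLeft (QuotientAddGroup.mk q : Q ⧸ S.Hn n))
      (fun y => χ (QuotientAddGroup.mk q) • χ (-y) • r y)]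
    refine Finset.sum_congr rfl fun y _ => ?_
    rw [hρr, Equiv.coe_addLeft, smul_smul, ← AddChar.map_add_eq_mul]
    congr 2
    rw [neg_add, add_neg_cancel_left]
  have hYz : Θ R.z * Yc χ * R.z = Yc χ := by
    change Θ R.z * (∑ y, χ (-y) • r y) * R.z = ∑ y, χ (-y) • r y
    rw [Finset.mul_sum, Finset.sum_mul]
    refine Finset.sum_congr rfl fun y _ => ?_
    rw [mul_smul_comm, smul_mul_assoc]
    congr 1
    exact StepC2_rho_z R _ _
  refine ⟨fun q => χ (QuotientAddGroup.mk q), Yc χ, fun p q => ?_, fun q => ?_, fun k hk => ?_, hχ,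
    hYz, fun f => ?_, fun q => ?_⟩
  · change χ (QuotientAddGroup.mk (p + q)) = _
    rw [QuotientAddGroup.mk_add, AddChar.map_add_eq_mul]
  · exact AddChar.norm_apply χ _
  · change χ (QuotientAddGroup.mk k) = 1
    rw [(QuotientAddGroup.eq_zero_iff k).2 hk, AddChar.map_zero_eq_one]
  · change Θ (R.U f) * (∑ y, χ (-y) • r y) = (∑ y, χ (-y) • r y) * R.U f
    rw [Finset.mul_sum, Finset.sum_mul]
    refine Finset.sum_congr rfl fun y _ => ?_
    rw [mul_smul_comm, smul_mul_assoc]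
    congr 1
    exact StepC2_rho_U R hU _ _
  · have h1 := congrArg (· * R.V q) (heig q)
    change StepC2_rho R Θ q (Yc χ) * R.V q = (χ (QuotientAddGroup.mk q) • Yc χ) * R.V q at h1
    rw [smul_mul_assoc] at h1
    rw [← h1]
    unfold StepC2_rho
    rw [mul_assoc, R.V_star_mul, mul_assoc, StepC2_Xz R hYz]

end Pool.Agent.H.MP_e11395_an
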