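import Pool.Agent.H.MP_e11395_an.E.StepD1
import Pool.Agent.H.MP_e11395_an.E.KapL

/-!
# Part E, the upper bound, step D2: the isometry W
-/

set_option autoImplicit false

open Filter Topology
open Pool.Agent.H.MP_43b197_an

namespace Pool.Agent.H.MP_e11395_an

variable {N : Type} [Ring N] [StarRing N] [Algebra ℂ N] [StarModule ℂ N] {T : TVN N}
  {w : ℕ → N} {Θ : N →⋆ₐ[ℂ] N} {κ : ℂ}
  {F Q : Type} [Group F] [AddCommGroup Q] {S : TwSys F Q} (R : TwRep T S)

/-- **Step D2.** From the eigenvector to an isometry from `z` to `Θ z`.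

Proof. `x = star Y * Y`: `z x z = x`; `U f x = x U f`: from `Θ (U f) Y = Y U f` and its adjoint
`star Y * Θ (U f⁻¹) = U f⁻¹ * star Y`: `U f star Y Y = star Y Θ (U f) Y = star Y Y U f`. For
`V q`: `Θ (V q) Y = c q • (Y V q)`; multiplying from the left by `star Y`, and using the adjoint
relation `star Y * star (Θ (V q)) = star (c q) • (star (V q) * star Y)`, i.e. (multiply by `V q`
from the left and `Θ (V q)` from the right, `Θ (V q)* Θ (V q) = Θ z`, `star Y Θ z = star Y`)
`V q star Y = star (c q) • star Y Θ (V q)`: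
`V q star Y Y = star (c q) • star Y Θ (V q) Y = (star (c q) * c q) • star Y Y V q`. So by `stepD1`
`x = a • z`; `tr x = n2 Y ^ 2 > 0` and `tr x = a t`, so `a = r ^ 2` with
`r = n2 Y / √t > 0` real. `W = (1 / r) • Y`: `star W * W = z`. `W * star W` is a star projection
`p` with `Θ z * p = p`, `tr p = tr z = tr (Θ z)` (`Kap.tr`); `Θ z - p` is a projection of trace
zero, so it is `0` (`T.faithful`). -/
theorem stepD2 (K : Kap T w Θ κ) {Sf : Finset F} {C : ℝ} (hg : R.Gap Sf C) {c : Q → ℂ} {Y : N}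
    (hc : ∀ q, ‖c q‖ = 1) (hY : Y ≠ 0) (hz : Θ R.z * Y * R.z = Y)
    (hU : ∀ f, Θ (R.U f) * Y = Y * R.U f) (hV : ∀ q, Θ (R.V q) * Y = c q • (Y * R.V q)) :
    ∃ W : N, star W * W = R.z ∧ W * star W = Θ R.z ∧ (∀ f, Θ (R.U f) * W = W * R.U f) ∧
      ∀ q, Θ (R.V q) * W = c q • (W * R.V q) := by
  have hzz : R.z * R.z = R.z := R.z_mul_z
  have hzs : star R.z = R.z := R.z_star
  have hΘz : Θ R.z * Θ R.z = Θ R.z := by rw [← map_mul, hzz]
  have hΘs : star (Θ R.z) = Θ R.z := by rw [← map_star, hzs]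
  have h1 : Θ R.z * Y = Y := by
    calc Θ R.z * Y = Θ R.z * (Θ R.z * Y * R.z) := by rw [hz]
      _ = (Θ R.z * Θ R.z) * Y * R.z := by noncomm_ring
      _ = Y := by rw [hΘz, hz]
  have h2 : Y * R.z = Y := by
    calc Y * R.z = (Θ R.z * Y * R.z) * R.z := by rw [hz]
      _ = Θ R.z * Y * (R.z * R.z) := by noncomm_ring
      _ = Y := by rw [hzz, hz]
  have h1s : star Y * Θ R.z = star Y := by
    have := congrArg star h1
    rwa [star_mul, hΘs] at this
  have h2s : R.z * star Y = star Y := by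
    have := congrArg star h2
    rwa [star_mul, hzs] at this
  have hUs : ∀ f, star Y * Θ (R.U f) = R.U f * star Y := by
    intro f
    have := congrArg star (hU f⁻¹)
    rwa [star_mul, star_mul, ← map_star, R.U_star, inv_inv] at this
  have hVs : ∀ q, R.V q * star Y = (starRingEnd ℂ) (c q) • (star Y * Θ (R.V q)) := by
    intro q
    have e := congrArg star (hV q)
    rw [star_mul, star_smul, star_mul, ← map_star] at e
    have e2 : R.V q * (star Y * Θ (star (R.V q))) * Θ (R.V q) = R.V q * star Y := by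
      rw [mul_assoc, mul_assoc, ← map_mul, R.V_star_mul, h1s]
    have e3 : R.V q * (star (c q) • (star (R.V q) * star Y)) * Θ (R.V q)
        = star (c q) • (star Y * Θ (R.V q)) := by
      rw [mul_smul_comm, smul_mul_assoc, ← mul_assoc, R.V_mul_star, h2s]
    rw [← e2, e, e3]
    rfl
  have hcc : ∀ q, (starRingEnd ℂ) (c q) * c q = 1 := by
    intro q
    rw [mul_comm, Complex.mul_conj, Complex.normSq_eq_norm_sq, hc q]
    norm_num
  obtain ⟨a, ha⟩ := stepD1 R hg (x := star Y * Y)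
    (by rw [← mul_assoc, h2s, mul_assoc, h2])
    (fun s _ => by rw [← mul_assoc, ← hUs, mul_assoc, hU, mul_assoc])
    (fun q => by
      rw [← mul_assoc, hVs, smul_mul_assoc, mul_assoc, hV, mul_smul_comm, smul_smul, hcc,
        one_smul, mul_assoc])
  -- the scalar
  have ht := R.t_pos
  have htr : ((T.n2 Y ^ 2 : ℝ) : ℂ) = a * R.t := by
    rw [← T.tr_star_mul_self, ha, map_smul, R.tr_one, smul_eq_mul]
  have hY0 : T.n2 Y ≠ 0 := fun h => hY (T.n2_eq_zero.1 h)
  have hYp : 0 < T.n2 Y := lt_of_le_of_ne (T.n2_nonneg Y) (Ne.symm hY0)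
  set r : ℝ := T.n2 Y / Real.sqrt R.t with hr
  have hst : 0 < Real.sqrt R.t := Real.sqrt_pos.2 ht
  have hrp : 0 < r := div_pos hYp hst
  have hr2 : ((r : ℝ) : ℂ) ^ 2 = a := by
    have : r ^ 2 = T.n2 Y ^ 2 / R.t := by
      rw [hr, div_pow, Real.sq_sqrt ht.le]
    have e : ((r ^ 2 : ℝ) : ℂ) = a := by
      rw [this]
      push_cast
      have htc : (R.t : ℂ) ≠ 0 := by exact_mod_cast ht.ne'
      rw [div_eq_iff htc]
      exact_mod_cast htr
    exact_mod_cast e
  have hrc : ((r : ℝ) : ℂ) ≠ 0 := by exact_mod_cast hrp.ne'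
  set W : N := ((r : ℂ)⁻¹) • Y with hW
  have hWW : star W * W = R.z := by
    rw [hW, star_smul, smul_mul_assoc, mul_smul_comm, smul_smul, ha, smul_smul]
    have : star ((r : ℂ)⁻¹) * (r : ℂ)⁻¹ * a = 1 := by
      rw [Complex.star_def, map_inv₀, Complex.conj_ofReal, ← hr2]
      field_simp
    rw [this, one_smul]
  have hΘW : Θ R.z * W = W := by rw [hW, mul_smul_comm, h1]
  have hWz : W * R.z = W := by rw [hW, smul_mul_assoc, h2]
  have hWs : star W * Θ R.z = star W := by
    have := congrArg star hΘW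
    rwa [star_mul, hΘs] at this
  set d : N := Θ R.z - W * star W with hd
  have hds : star d = d := by
    rw [hd, star_sub, star_mul, star_star, hΘs]
  have hdd : star d * d = d := by
    rw [hds, hd, sub_mul, mul_sub, mul_sub, hΘz, ← mul_assoc (Θ R.z), hΘW, mul_assoc W, hWs,
      mul_assoc W, ← mul_assoc (star W), hWW, ← mul_assoc W, hWz]
    abel
  have hdt : T.tr d = 0 := by
    rw [hd, map_sub, K.tr, T.comm, hWW, sub_self]
  have hd0 : d = 0 := T.faithful d (by rw [hdd, hdt]; rfl)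
  refine ⟨W, hWW, ?_, ?_, ?_⟩
  · rw [hd, sub_eq_zero] at hd0
    exact hd0.symm
  · intro f
    rw [hW, mul_smul_comm, hU, smul_mul_assoc]
  · intro q
    rw [hW, mul_smul_comm, hV, smul_mul_assoc, smul_comm]

end Pool.Agent.H.MP_e11395_an
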