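import Pool.Agent.H.MP_e11395_an.E.StepE1

/-!
# Part E, the upper bound, step E2
-/

set_option autoImplicit false

open Filter Topology
open Pool.Agent.H.MP_43b197_an

namespace Pool.Agent.H.MP_e11395_an

variable {N : Type} [Ring N] [StarRing N] [Algebra ℂ N] [StarModule ℂ N] {T : TVN N}
  {w : ℕ → N} {Θ : N →⋆ₐ[ℂ] N} {κ : ℂ}
  {F Q : Type} [Group F] [AddCommGroup Q] {S : TwSys F Q} (R : TwRep T S)

/-- Parseval for a span element with modified coefficients. -/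
theorem StepE2_pars (φ : Q → ℂ) (d : Q →₀ ℂ) :
    T.n2 (∑ k ∈ d.support, (φ k * d k) • R.V k) ^ 2 =
      R.t * ∑ k ∈ d.support, ‖φ k‖ ^ 2 * ‖d k‖ ^ 2 := by
  classical
  have hsub : ∀ k, φ k * d k ≠ 0 → k ∈ d.support := by
    intro k hk
    rw [Finsupp.mem_support_iff]
    exact right_ne_zero_of_mul hk
  have h1 := R.n2_vlt (Finsupp.onFinset d.support (fun k => φ k * d k) hsub)
  have h2 : R.vlt (Finsupp.onFinset d.support (fun k => φ k * d k) hsub) =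
      ∑ k ∈ d.support, (φ k * d k) • R.V k :=
    Finsupp.onFinset_sum (g := fun k (a : ℂ) => a • R.V k) hsub (fun k => zero_smul ℂ (R.V k))
  have h3 : nsq (Finsupp.onFinset d.support (fun k => φ k * d k) hsub) =
      ∑ k ∈ d.support, ‖φ k‖ ^ 2 * ‖d k‖ ^ 2 := by
    have h4 : nsq (Finsupp.onFinset d.support (fun k => φ k * d k) hsub) =
        ∑ k ∈ d.support, ‖φ k * d k‖ ^ 2 :=
      Finsupp.onFinset_sum (g := fun _ (a : ℂ) => ‖a‖ ^ 2) hsub (fun k => by simp)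
    rw [h4]
    refine Finset.sum_congr rfl (fun k _ => ?_)
    rw [norm_mul, mul_pow]
  rw [h2, h3] at h1
  exact h1

/-- the sum form of a span element -/
theorem StepE2_vlt (d : Q →₀ ℂ) : R.vlt d = ∑ k ∈ d.support, d k • R.V k := rfl

theorem StepE2_comm (q : Q) (a : ℂ) (d : Q →₀ ℂ) :
    a • (R.V q * R.vlt d) - R.vlt d * R.V q =
      (∑ k ∈ d.support, ((a * S.β q k - 1) * d k) • R.V k) * R.V q := by
  rw [StepE2_vlt, Finset.mul_sum, Finset.sum_mul, Finset.sum_mul, Finset.smul_sum,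
    ← Finset.sum_sub_distrib]
  refine Finset.sum_congr rfl (fun k _ => ?_)
  rw [mul_smul_comm, smul_mul_assoc, smul_mul_assoc, R.VV q k, smul_smul, smul_smul, ← sub_smul]
  congr 1
  ring

/-- **Step E2.** For finitely many `q` and `ε > 0` there is `k ∈ K` such that `c k` is within `ε` of
`κ` and `c q * β q k` is within `ε` of `1`.

Proof. Let `Y` be as in `stepE1`. By the gap property, applied with
`x = Y m` and `ε = 1 / (m + 1)`, there are `d m : Q →₀ ℂ` supported in `K` with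
`n2 (Y m - vlt (d m)) ≤ C * ∑ ... + 1 / (m + 1) → 0` (`n2 (U s Y m (U s)* - Y m)
≤ n2 (U s Y m - Y m U s)` as `Y m z = Y m`). So `n2 (vlt (d m)) → √t` and
(*) `n2 (c q • V q vlt (d m) - vlt (d m) V q) → 0`,
(**) `n2 (star W Θ (vlt (d m)) W - κ • vlt (d m)) → 0`.
`V q * V k = β q k • V k * V q`; so `c q • V q vlt d - vlt d V q = vlt d' * V q` where
`d' k = (c q * β q k - 1) * d k`, of square 2-norm `t * ∑ ‖c q * β q k - 1‖ ^ 2 * ‖d k‖ ^ 2`.
`star W Θ (V k) W = c k • V k`, so the expression in (**) is `vlt d''` with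
`d'' k = (c k - κ) * d k`. If the claim fails for the finite set `P` and `ε`, then for every
`k ∈ K`, `‖c k - κ‖ ^ 2 + ∑_{q ∈ P} ‖c q * β q k - 1‖ ^ 2 ≥ ε ^ 2`, so the sum of the square
2-norms of (**) and of (*) for `q ∈ P` is `≥ ε ^ 2 * n2 (vlt (d m)) ^ 2 → ε ^ 2 * t > 0`, a
contradiction. -/
theorem stepE2 (K : Kap T w Θ κ) {Sf : Finset F} {C : ℝ} (hg : R.Gap Sf C) {c : Q → ℂ} {W : N}
    (hW : star W * W = R.z)
    (hW' : W * star W = Θ R.z) (hU : ∀ f, Θ (R.U f) * W = W * R.U f)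
    (hV : ∀ q, Θ (R.V q) * W = c q • (W * R.V q)) (hc : ∀ q, ‖c q‖ = 1)
    (P : Finset Q) (ε : ℝ) (hε : 0 < ε) :
    ∃ k ∈ S.K, ‖c k - κ‖ < ε ∧ ∀ q ∈ P, ‖c q * S.β q k - 1‖ < ε := by
  obtain ⟨Y, hz, hn, hUl, hVl, hΘl⟩ := stepE1 R K hW hW' hU hV hc
  by_contra hcon
  push Not at hcon
  have hBW : T.Bd 1 W := T.bd_pisom W (by rw [hW]; exact R.z_proj)
  have hBW' : T.Bd 1 (star W) := T.bd_star 1 W hBW
  -- the coefficients
  have hchoose : ∀ m : ℕ, ∃ d : Q →₀ ℂ, (∀ k, d k ≠ 0 → k ∈ S.K) ∧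
      T.n2 (Y m - R.vlt d) ≤ C * ∑ s ∈ Sf, T.n2 (R.U s * Y m * star (R.U s) - Y m) +
        1 / ((m : ℝ) + 1) := fun m => hg.2 (Y m) (hz m) (1 / ((m : ℝ) + 1)) (by positivity)
  choose d hdK hd using hchoose
  -- the approximation
  have hYz : ∀ m, Y m * R.z = Y m := by
    intro m
    calc Y m * R.z = R.z * Y m * R.z * R.z := by rw [hz m]
      _ = R.z * Y m * (R.z * R.z) := by rw [mul_assoc]
      _ = Y m := by rw [R.z_mul_z, hz m]
  have hUs : ∀ (m : ℕ) (s : F), T.n2 (R.U s * Y m * star (R.U s) - Y m) ≤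
      T.n2 (R.U s * Y m - Y m * R.U s) := by
    intro m s
    have h1 : R.U s * Y m * star (R.U s) - Y m = (R.U s * Y m - Y m * R.U s) * star (R.U s) := by
      have h2 : R.U s * star (R.U s) = R.z := by
        rw [R.U_star, ← R.U_mul, mul_inv_cancel, R.U_one]
      rw [sub_mul, mul_assoc (Y m), h2, hYz]
    rw [h1]
    have h3 := TVN_mul_le T (T.bd_star 1 _ (R.U_bd s)) (R.U s * Y m - Y m * R.U s)
    rwa [one_mul] at h3
  have happ : Tendsto (fun m => T.n2 (Y m - R.vlt (d m))) atTop (𝓝 0) := by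
    have h1 : Tendsto (fun m : ℕ => C * ∑ s ∈ Sf, T.n2 (R.U s * Y m - Y m * R.U s) +
        1 / ((m : ℝ) + 1)) atTop (𝓝 (C * ∑ s ∈ Sf, (0 : ℝ) + 0)) := by
      refine Tendsto.add (Tendsto.const_mul C (tendsto_finsetSum _ (fun s _ => hUl s)))
        tendsto_one_div_add_atTop_nhds_zero_nat
    have h2 : C * ∑ s ∈ Sf, (0 : ℝ) + 0 = 0 := by simp
    rw [h2] at h1
    refine squeeze_zero (fun m => T.n2_nonneg _) (fun m => ?_) h1
    refine (hd m).trans ?_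
    have h3 : ∑ s ∈ Sf, T.n2 (R.U s * Y m * star (R.U s) - Y m) ≤
        ∑ s ∈ Sf, T.n2 (R.U s * Y m - Y m * R.U s) := Finset.sum_le_sum (fun s _ => hUs m s)
    have h4 := mul_le_mul_of_nonneg_left h3 hg.1
    linarith
  have hnv : Tendsto (fun m => T.n2 (R.vlt (d m))) atTop (𝓝 (Real.sqrt R.t)) := by
    have h1 : Tendsto (fun m => T.n2 (R.vlt (d m)) - T.n2 (Y m)) atTop (𝓝 0) := by
      refine squeeze_zero_norm (fun m => ?_) happ
      rw [Real.norm_eq_abs, abs_sub_comm]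
      exact T.abs_n2_sub_n2_le _ _
    have h2 := h1.add hn
    rw [zero_add] at h2
    refine h2.congr (fun m => ?_)
    ring
  -- (*)
  have hstar1 : ∀ q, Tendsto (fun m => T.n2 (c q • (R.V q * R.vlt (d m)) - R.vlt (d m) * R.V q))
      atTop (𝓝 0) := by
    intro q
    have h1 : Tendsto (fun m => T.n2 (c q • (R.V q * Y m) - Y m * R.V q) +
        (T.n2 (Y m - R.vlt (d m)) + T.n2 (Y m - R.vlt (d m)))) atTop (𝓝 (0 + (0 + 0))) :=
      (hVl q).add (happ.add happ)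
    rw [add_zero, add_zero] at h1
    refine squeeze_zero (fun m => T.n2_nonneg _) (fun m => ?_) h1
    have h2 : c q • (R.V q * R.vlt (d m)) - R.vlt (d m) * R.V q =
        (c q • (R.V q * Y m) - Y m * R.V q) -
          (c q • (R.V q * (Y m - R.vlt (d m))) - (Y m - R.vlt (d m)) * R.V q) := by
      rw [mul_sub, sub_mul, smul_sub]
      abel
    rw [h2]
    refine (T.n2_sub_le _ _).trans ?_
    have h3 : T.n2 (c q • (R.V q * (Y m - R.vlt (d m)))) ≤ T.n2 (Y m - R.vlt (d m)) := by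
      rw [T.n2_smul, hc, one_mul]
      have := T.bd_le 1 _ (R.V_bd q) (Y m - R.vlt (d m))
      rwa [one_mul] at this
    have h4 : T.n2 ((Y m - R.vlt (d m)) * R.V q) ≤ T.n2 (Y m - R.vlt (d m)) := by
      have := TVN_mul_le T (R.V_bd q) (Y m - R.vlt (d m))
      rwa [one_mul] at this
    have h5 := T.n2_sub_le (c q • (R.V q * (Y m - R.vlt (d m)))) ((Y m - R.vlt (d m)) * R.V q)
    linarith
  -- (**)
  have hstar2 : Tendsto (fun m => T.n2 (star W * Θ (R.vlt (d m)) * W - κ • R.vlt (d m)))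
      atTop (𝓝 0) := by
    have h1 : Tendsto (fun m => T.n2 (star W * Θ (Y m) * W - κ • Y m) +
        (T.n2 (Y m - R.vlt (d m)) + ‖κ‖ * T.n2 (Y m - R.vlt (d m)))) atTop
        (𝓝 (0 + (0 + ‖κ‖ * 0))) :=
      hΘl.add (happ.add (happ.const_mul _))
    rw [mul_zero, add_zero, add_zero] at h1
    refine squeeze_zero (fun m => T.n2_nonneg _) (fun m => ?_) h1
    have h2 : star W * Θ (R.vlt (d m)) * W - κ • R.vlt (d m) =
        (star W * Θ (Y m) * W - κ • Y m) -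
          (star W * Θ (Y m - R.vlt (d m)) * W - κ • (Y m - R.vlt (d m))) := by
      rw [map_sub, mul_sub, sub_mul, smul_sub]
      abel
    rw [h2]
    refine (T.n2_sub_le _ _).trans ?_
    have h3 : T.n2 (star W * Θ (Y m - R.vlt (d m)) * W) ≤ T.n2 (Y m - R.vlt (d m)) := by
      have h31 := TVN_mul_le T hBW (star W * Θ (Y m - R.vlt (d m)))
      have h32 := T.bd_le 1 _ hBW' (Θ (Y m - R.vlt (d m)))
      rw [one_mul] at h31 h32
      rw [K.n2] at h32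
      exact h31.trans h32
    have h4 : T.n2 (κ • (Y m - R.vlt (d m))) = ‖κ‖ * T.n2 (Y m - R.vlt (d m)) := T.n2_smul _ _
    have h5 := T.n2_sub_le (star W * Θ (Y m - R.vlt (d m)) * W) (κ • (Y m - R.vlt (d m)))
    linarith
  -- the square norms
  have hq : ∀ (q : Q) (m : ℕ), R.t * ∑ k ∈ (d m).support, ‖c q * S.β q k - 1‖ ^ 2 * ‖d m k‖ ^ 2 ≤
      T.n2 (c q • (R.V q * R.vlt (d m)) - R.vlt (d m) * R.V q) ^ 2 := by
    intro q m
    rw [← StepE2_pars R (fun k => c q * S.β q k - 1) (d m), StepE2_comm R q (c q) (d m)]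
    refine pow_le_pow_left₀ (T.n2_nonneg _) ?_ 2
    set x := ∑ k ∈ (d m).support, ((c q * S.β q k - 1) * d m k) • R.V k with hx
    have h1 : x * R.z = x := by
      rw [hx, Finset.sum_mul]
      refine Finset.sum_congr rfl (fun k _ => ?_)
      rw [smul_mul_assoc, R.V_mul_z]
    have h2 : x = (x * R.V q) * star (R.V q) := by
      rw [mul_assoc, R.V_mul_star, h1]
    have h3 := TVN_mul_le T (T.bd_star 1 _ (R.V_bd q)) (x * R.V q)
    rw [one_mul, ← h2] at h3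
    exact h3
  have hκ : ∀ m : ℕ, R.t * ∑ k ∈ (d m).support, ‖c k - κ‖ ^ 2 * ‖d m k‖ ^ 2 =
      T.n2 (star W * Θ (R.vlt (d m)) * W - κ • R.vlt (d m)) ^ 2 := by
    intro m
    rw [← StepE2_pars R (fun k => c k - κ) (d m)]
    congr 2
    rw [StepE2_vlt, map_sum, Finset.mul_sum, Finset.sum_mul, Finset.smul_sum,
      ← Finset.sum_sub_distrib]
    refine Finset.sum_congr rfl (fun k _ => ?_)
    rw [map_smul, mul_smul_comm, smul_mul_assoc, mul_assoc, hV, mul_smul_comm, ← mul_assoc, hW,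
      R.z_mul_V, smul_smul, smul_smul, ← sub_smul]
    congr 1
    ring
  have hlow : ∀ m : ℕ, ε ^ 2 * T.n2 (R.vlt (d m)) ^ 2 ≤
      T.n2 (star W * Θ (R.vlt (d m)) * W - κ • R.vlt (d m)) ^ 2 +
        ∑ q ∈ P, T.n2 (c q • (R.V q * R.vlt (d m)) - R.vlt (d m) * R.V q) ^ 2 := by
    intro m
    have h1 : R.t * ∑ k ∈ (d m).support, ‖c k - κ‖ ^ 2 * ‖d m k‖ ^ 2 +
        ∑ q ∈ P, R.t * ∑ k ∈ (d m).support, ‖c q * S.β q k - 1‖ ^ 2 * ‖d m k‖ ^ 2 ≤
        T.n2 (star W * Θ (R.vlt (d m)) * W - κ • R.vlt (d m)) ^ 2 +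
        ∑ q ∈ P, T.n2 (c q • (R.V q * R.vlt (d m)) - R.vlt (d m) * R.V q) ^ 2 :=
      add_le_add (hκ m).le (Finset.sum_le_sum (fun q _ => hq q m))
    refine le_trans ?_ h1
    rw [R.n2_vlt, nsq, Finsupp.sum, ← Finset.mul_sum, ← mul_add, Finset.sum_comm,
      ← Finset.sum_add_distrib]
    have h2 : ε ^ 2 * (R.t * ∑ k ∈ (d m).support, ‖d m k‖ ^ 2) =
        R.t * ∑ k ∈ (d m).support, ε ^ 2 * ‖d m k‖ ^ 2 := by
      rw [← Finset.mul_sum]; ring
    rw [h2]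
    refine mul_le_mul_of_nonneg_left (Finset.sum_le_sum (fun k hk => ?_)) R.t_pos.le
    rw [← Finset.sum_mul, ← add_mul]
    refine mul_le_mul_of_nonneg_right ?_ (by positivity)
    have hkK : k ∈ S.K := hdK m k (Finsupp.mem_support_iff.1 hk)
    have hs0 : 0 ≤ ∑ q ∈ P, ‖c q * S.β q k - 1‖ ^ 2 := Finset.sum_nonneg (fun q _ => by positivity)
    rcases lt_or_ge ‖c k - κ‖ ε with h3 | h3
    · obtain ⟨q, hqP, h4⟩ := hcon k hkK h3
      have h5 : ε ^ 2 ≤ ‖c q * S.β q k - 1‖ ^ 2 := pow_le_pow_left₀ hε.le h4 2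
      have h6 : ‖c q * S.β q k - 1‖ ^ 2 ≤ ∑ q ∈ P, ‖c q * S.β q k - 1‖ ^ 2 :=
        Finset.single_le_sum (f := fun q => ‖c q * S.β q k - 1‖ ^ 2)
          (fun q _ => by positivity) hqP
      have h7 : 0 ≤ ‖c k - κ‖ ^ 2 := by positivity
      linarith
    · have h5 : ε ^ 2 ≤ ‖c k - κ‖ ^ 2 := pow_le_pow_left₀ hε.le h3 2
      linarith
  have hL : Tendsto (fun m => ε ^ 2 * T.n2 (R.vlt (d m)) ^ 2) atTop
      (𝓝 (ε ^ 2 * (Real.sqrt R.t) ^ 2)) := (hnv.pow 2).const_mul _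
  have hRr : Tendsto (fun m => T.n2 (star W * Θ (R.vlt (d m)) * W - κ • R.vlt (d m)) ^ 2 +
        ∑ q ∈ P, T.n2 (c q • (R.V q * R.vlt (d m)) - R.vlt (d m) * R.V q) ^ 2) atTop
      (𝓝 (0 ^ 2 + ∑ q ∈ P, (0 : ℝ) ^ 2)) :=
    (hstar2.pow 2).add (tendsto_finsetSum _ (fun q _ => (hstar1 q).pow 2))
  have hfin := le_of_tendsto_of_tendsto' hL hRr hlow
  rw [Real.sq_sqrt R.t_pos.le] at hfin
  have h0 : (0 : ℝ) ^ 2 + ∑ q ∈ P, (0 : ℝ) ^ 2 = 0 := by simp
  rw [h0] at hfin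
  have : 0 < ε ^ 2 * R.t := mul_pos (by positivity) R.t_pos
  linarith

end Pool.Agent.H.MP_e11395_an
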