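import Pool.Agent.H.MP_e11395_an.E.StepC1
import Pool.Agent.H.MP_e11395_an.E.StepC2
import Pool.Agent.H.MP_e11395_an.E.StepD2
import Pool.Agent.H.MP_e11395_an.E.StepE2

/-!
# Part E, the upper bound theorem
-/

set_option autoImplicit false

open Filter Topology
open Pool.Agent.H.MP_43b197_an

namespace Pool.Agent.H.MP_e11395_an

variable {N : Type} [Ring N] [StarRing N] [Algebra ℂ N] [StarModule ℂ N] {T : TVN N}
  {w : ℕ → N} {Θ : N →⋆ₐ[ℂ] N} {κ : ℂ}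
  {F Q : Type} [Group F] [AddCommGroup Q] {S : TwSys F Q} (R : TwRep T S)

/-- **The upper bound theorem.**

Proof. `stepC1`, `stepC2`, `stepD2` give `n`, `c`, `W`; `duality` gives `q₀`. By `stepE2` with
`P = {q₀}`: `c k = β q₀ k` for `k ∈ K`, so `‖κ * c q₀ - 1‖ ≤ ‖κ - c k‖ * ‖c q₀‖
+ ‖c q₀ * β q₀ k - 1‖ < 2 ε` for every `ε > 0`. For `v` with `β v k = 1` on `K`, with `P = {v}`:
`‖c v - 1‖ < ε` for all `ε`. -/
theorem upper (K : Kap T w Θ κ) {Sf : Finset F} {C : ℝ} (hg : R.Gap Sf C) :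
    ∃ (q₀ : Q) (c : Q → ℂ), (∀ p q, c (p + q) = c p * c q) ∧ (∀ q, ‖c q‖ = 1) ∧
      (∀ k ∈ S.K, c k = S.β q₀ k) ∧ (∀ v, (∀ k ∈ S.K, S.β v k = 1) → c v = 1) ∧
      κ * c q₀ = 1 := by
  obtain ⟨n, X, hX, hz, hU, hV⟩ := stepC1 R K hg
  obtain ⟨c, Y, hcm, hcn, hc1, hY, hYz, hYU, hYV⟩ := stepC2 R hX hz hU hV
  obtain ⟨W, hW, hW', hWU, hWV⟩ := stepD2 R K hg hcn hY hYz hYU hYV
  obtain ⟨q₀, -, hd⟩ := S.duality n c hcm hcn hc1
  refine ⟨q₀, c, hcm, hcn, hd, fun v hv => ?_, ?_⟩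
  · rw [← sub_eq_zero, ← norm_le_zero_iff]
    refine le_of_forall_pos_le_add fun ε hε => ?_
    obtain ⟨k, hk, -, h⟩ := stepE2 R K hg hW hW' hWU hWV hcn {v} ε hε
    have h1 := h v (Finset.mem_singleton_self v)
    rw [hv k hk, mul_one] at h1
    rw [zero_add]
    exact h1.le
  · rw [← sub_eq_zero, ← norm_le_zero_iff]
    refine le_of_forall_pos_le_add fun ε hε => ?_
    obtain ⟨k, hk, h0, h⟩ := stepE2 R K hg hW hW' hWU hWV hcn {q₀} (ε / 2) (by positivity)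
    have h1 := h q₀ (Finset.mem_singleton_self q₀)
    have e : κ * c q₀ - 1 = (κ - c k) * c q₀ + (c q₀ * S.β q₀ k - 1) := by
      rw [hd k hk]; ring
    rw [zero_add, e]
    refine (norm_add_le _ _).trans ?_
    rw [norm_mul, hcn, mul_one, norm_sub_rev]
    linarith

end Pool.Agent.H.MP_e11395_an
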