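import Pool.Agent.H.MP_e11395_an.E.Faith
import Pool.Agent.H.MP_e11395_an.E.BrM
import Pool.Agent.H.MP_e11395_an.E.Br0
import Pool.Agent.H.MP_e11395_an.E.Br1
import Pool.Agent.H.MP_e11395_an.E.DSys
import Pool.Agent.H.MP_e11395_an.E.MatSys
import Pool.Agent.H.MP_e11395_an.E.Exist
import Pool.Agent.H.MP_e11395_an.E.Upper
import Pool.Agent.H.MP_e11395_an.E.Anti
import Pool.Agent.H.MP_e11395_an.E.NTow

/-!
# Part E: the limit is not anti-isomorphic to itself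
-/

set_option autoImplicit false
set_option linter.unusedSectionVars false

open Filter Topology
open Pool.Agent.H.MP_43b197_an

namespace Pool.Agent.H.MP_e11395_an

/-- The inverse anti-isomorphism. -/
noncomputable def AntiIso.symm {N₀ N₁ : Type} [Ring N₀] [StarRing N₀] [Algebra ℂ N₀]
    [StarModule ℂ N₀] [Ring N₁] [StarRing N₁] [Algebra ℂ N₁] [StarModule ℂ N₁] {T₀ : TVN N₀}
    {T₁ : TVN N₁} (ψ : AntiIso T₀ T₁) : AntiIso T₁ T₀ where
  f := ψ.g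
  g := ψ.f
  fg := ψ.gf
  gf := ψ.fg
  add x y := by
    rw [← ψ.gf (ψ.g x + ψ.g y), ψ.add, ψ.fg, ψ.fg]
  smul c x := by
    rw [← ψ.gf (c • ψ.g x), ψ.smul, ψ.fg]
  mul x y := by
    rw [← ψ.gf (ψ.g y * ψ.g x), ψ.mul, ψ.fg, ψ.fg]
  star x := by
    rw [← ψ.gf (Star.star (ψ.g x)), ψ.star, ψ.fg]
  n2 x := by
    rw [← ψ.n2, ψ.fg]
  bd C x := by
    rw [← ψ.bd, ψ.fg]

section ext

variable {F Q : Type} [Group F] [AddCommGroup Q] (S : TwSys F Q) (μ : ℕ → ℕ)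
  [∀ l, NeZero (μ l)]

theorem bW_zero_left (u : Wy μ) : bW μ 0 u = 1 := by
  rw [bW_eq μ (n := 0) fun l _ => Or.inl rfl]; simp

theorem bW_zero_right (u : Wy μ) : bW μ u 0 = 1 := by
  rw [bW_eq μ (n := 0) fun l _ => Or.inr rfl]; simp

theorem bW_ne_zero (w u : Wy μ) : bW μ w u ≠ 0 := by
  intro h
  have := bW_norm μ w u
  rw [h, norm_zero] at this
  exact zero_ne_one this

theorem ext_β (x y : Q × Wy μ) :
    (S.ext μ).β x y = S.β x.1 y.1 * (bW μ x.2 y.2 / bW μ y.2 x.2) := by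
  have h : (S.ext μ).β x y = (S.b x.1 y.1 * bW μ x.2 y.2) / (S.b y.1 x.1 * bW μ y.2 x.2) := rfl
  rw [h, TwSys.β, mul_div_mul_comm]

/-- The upper bound theorem for an extended system, in terms of the original system. -/
theorem upper_ext {N : Type} [Ring N] [StarRing N] [Algebra ℂ N] [StarModule ℂ N] {T : TVN N}
    {w : ℕ → N} {Θ : N →⋆ₐ[ℂ] N} {κ : ℂ} (K : Kap T w Θ κ) {S : TwSys F Q}
    (R : TwRep T (S.ext μ)) {Sf : Finset F} {C : ℝ} (hg : S.HasGap Sf C) :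
    ∃ (q₀ : Q) (c : Q → ℂ), (∀ p q, c (p + q) = c p * c q) ∧ (∀ q, ‖c q‖ = 1) ∧
      (∀ k ∈ S.K, c k = S.β q₀ k) ∧ (∀ v, (∀ k ∈ S.K, S.β v k = 1) → c v = 1) ∧
      κ * c q₀ = 1 := by
  obtain ⟨q', c', hm, hn, hK, hv, hκ⟩ := upper R K (TwRep.gap_of_hasGap R (TwSys.ext_hasGap hg μ))
  refine ⟨q'.1, fun q => c' (q, 0), fun p q => ?_, fun q => hn _, fun k hk => ?_, fun v h => ?_, ?_⟩
  · rw [← hm, Prod.mk_add_mk, add_zero]
  · have h1 : ((k, 0) : Q × Wy μ) ∈ (S.ext μ).K := hk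
    change c' (k, 0) = _
    rw [hK _ h1, ext_β, bW_zero_left, bW_zero_right, div_one, mul_one]
  · refine hv (v, 0) fun k hk => ?_
    have h1 : k.1 ∈ S.K := hk
    rw [ext_β, bW_zero_left, bW_zero_right, div_one, mul_one]
    exact h k.1 h1
  · have h1 : c' q' = c' (q'.1, 0) * c' (0, q'.2) := by
      rw [← hm, Prod.mk_add_mk, add_zero, zero_add]
    have h2 : ((0, q'.2) : Q × Wy μ) ∈ (S.ext μ).K := S.K.zero_mem
    have h3 : c' (0, q'.2) = 1 := by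
      rw [hK _ h2, ext_β, S.β_zero_right, one_mul, div_self (bW_ne_zero μ _ _)]
    rw [h3, mul_one] at h1
    change κ * c' (q'.1, 0) = 1
    rw [← h1]
    exact hκ

end ext

section cases

variable {A : Type} [CStarAlgebra A] {τ : TrState A} {w : ℕ → NC τ} {Θ : NC τ →⋆ₐ[ℂ] NC τ} {κ : ℂ}

/-- The values of the invariant for a trace of type `D`. -/
theorem case_D {P : Tow} (TT : TraceTower A τ P tw.DT tauDS) (K : Kap (NCT τ) w Θ κ) :
    κ ^ 3 = 1 ∨ κ ^ 3 * e9 3 = 1 := by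
  obtain ⟨j, hj⟩ := exists_Cl τ
  obtain ⟨R⟩ := exists_nTower hj TT
  obtain ⟨Sf, C, hg⟩ := sysD_hasGap
  obtain ⟨q₀, c, hm, hn, hK, hv, hκ⟩ := upper_ext P.μ K (repOf R genD) hg
  have h1 : c vQ = 1 := by
    refine hv vQ fun k hk => ?_
    rw [sysD_mem_K] at hk
    have h2 : BQ vQ k = 0 := by
      have := BQ_vQ hk
      unfold BQ at this ⊢
      rw [← neg_sub, this, neg_zero]
    rw [sysD_β, h2, e9_zero]
  have h3 : κ ^ 3 * c q₀ ^ 3 = 1 := by rw [← mul_pow, hκ, one_pow]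
  rcases arith_Q4 c hm hn h1 q₀ hK with h4 | h4
  · left; rwa [h4, mul_one] at h3
  · right; rwa [h4] at h3

/-- The value of the invariant for a finite dimensional trace. -/
theorem case_M {P : Tow} {k : ℕ}
    (TT : TraceTower A τ P (Mt (Fin (k + 1)) ℂ) (tauMS (k + 1))) (K : Kap (NCT τ) w Θ κ) :
    κ = 1 := by
  obtain ⟨j, hj⟩ := exists_Cl τ
  obtain ⟨R⟩ := exists_nTower hj TT
  obtain ⟨q₀, c, hm, hn, hK, hv, hκ⟩ := upper_ext P.μ K (repOf R (genM (k + 1)))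
    (sysM_hasGap (k + 1))
  have h1 : q₀ ∈ (sysM (k + 1)).K := fun _ => rfl
  rw [hK q₀ h1, TwSys.β_self, mul_one] at hκ
  exact hκ

end cases

theorem e9_one_pow : (e9 1) ^ 3 = e9 3 := by
  have h : (3 : Z9) = 1 + 1 + 1 := by decide
  rw [h, e9_add, e9_add]; ring

theorem e9_three_ne : e9 3 ≠ 1 ∧ e9 3 * e9 3 ≠ 1 := by
  constructor
  · intro h
    rw [← e9_zero] at h
    exact absurd (e9_inj h) (by decide)
  · intro h
    rw [← e9_zero, ← e9_add] at h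
    exact absurd (e9_inj h) (by decide)

/-- **The limit algebra is not isomorphic to its opposite.** -/
theorem no_anti {d : ℕ → ℕ} {B : Type} [CStarAlgebra B] (T : TowerData d) (C : ConeAlg d B)
    (hext : ExtTr tw B) (q₀ : B →⋆ₐ[ℂ] tw.DT) (hq₀ : Function.Surjective q₀)
    (he : IsExt (pull tw.tauD q₀)) {A : Type} [CStarAlgebra A] {R : ∀ n, T.Bk B n →⋆ₐ[ℂ] A}
    (hlim : T.IsLimit C A R) (hs : SimpleCStar A) : IsEmpty (A ≃⋆ₐ[ℂ] Aᵐᵒᵖ) := by
  refine ⟨fun Φ => ?_⟩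
  -- the trace `τ₀` at the midpoint
  let x₀ : unitInterval := ⟨1 / 2, by norm_num, by norm_num⟩
  obtain ⟨t₀, ht₀, hf₀⟩ := TowerData.D_two hlim x₀ he
  let τ₀ : TrState A := trStateOf t₀ ht₀.toIsTr fun x hx => faithful_of_simple hs ht₀.toIsTr x hx
  obtain ⟨TT₀⟩ := exists_towerM (τ := tauDS) (τA := τ₀) hlim hq₀ (x := x₀)
    (by norm_num [x₀]) (by norm_num [x₀]) he.toIsTr hf₀
  obtain ⟨j₀, hj₀⟩ := exists_Cl τ₀
  obtain ⟨R₀⟩ := exists_nTower hj₀ TT₀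
  obtain ⟨Sf, C', hg⟩ := sysD_hasGap
  -- the invariant of `τ₀`
  obtain ⟨w₀, Θ₀, K₀⟩ := exists_kapE R₀ genD hg (k := fun m => -eQ (m + 1))
    (fun m => (sysD_mem_K _).2 (cQ_eQ m).2) (c := fun q => e9 (cQ q))
    (fun m q hq => by rw [sysD_β]; exact congrArg e9 (cQ_eq' m hq).symm) (q₀ := eQ 0)
    (fun x hx => by rw [sysD_β]; exact congrArg e9 (cQ_eq ((sysD_mem_K x).1 hx))) (κ := e9 (-1))
    (fun m => congrArg e9 (cQ_eQ m).1)
  -- the trace `τ₁`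
  have ht₁ : IsExt (opTr Φ t₀) := ht₀.op Φ
  let τ₁ : TrState A := trStateOf (opTr Φ t₀) ht₁.toIsTr
    fun x hx => faithful_of_simple hs ht₁.toIsTr x hx
  obtain ⟨ψ⟩ := exists_antiIso τ₁ τ₀ Φ fun a => rfl
  obtain ⟨w₁, Θ₁, K₁⟩ := Kap.transport ψ.symm K₀
  rw [e9_conj, neg_neg] at K₁
  -- the two kinds of extreme traces
  obtain ⟨x, σ, hσ, hf⟩ := TowerData.D_one hlim ht₁
  rcases hext σ hσ with ⟨k, q, hq, rfl⟩ | ⟨q, hq, rfl⟩
  · have h1 : e9 1 = 1 := by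
      rcases eq_or_lt_of_le x.2.1 with h0 | h0
      · have hx : x = 0 := Subtype.ext h0.symm
        subst hx
        obtain ⟨TT⟩ := exists_tower0 (τ := tauMS (k + 1)) (τA := τ₁) hlim hq hσ.toIsTr hf
        exact case_M TT K₁
      · rcases eq_or_lt_of_le x.2.2 with h1 | h1
        · have hx : x = 1 := Subtype.ext h1
          subst hx
          obtain ⟨TT⟩ := exists_tower1 (τ := tauMS (k + 1)) (τA := τ₁) hlim hq hσ.toIsTr hf
          exact case_M TT K₁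
        · obtain ⟨TT⟩ := exists_towerM (τ := tauMS (k + 1)) (τA := τ₁) hlim hq h0 h1 hσ.toIsTr hf
          exact case_M TT K₁
    rw [← e9_zero] at h1
    exact absurd (e9_inj h1) (by decide)
  · have h1 : (e9 1) ^ 3 = 1 ∨ (e9 1) ^ 3 * e9 3 = 1 := by
      rcases eq_or_lt_of_le x.2.1 with h0 | h0
      · have hx : x = 0 := Subtype.ext h0.symm
        subst hx
        obtain ⟨TT⟩ := exists_tower0 (τ := tauDS) (τA := τ₁) hlim hq hσ.toIsTr hf
        exact case_D TT K₁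
      · rcases eq_or_lt_of_le x.2.2 with h1 | h1
        · have hx : x = 1 := Subtype.ext h1
          subst hx
          obtain ⟨TT⟩ := exists_tower1 (τ := tauDS) (τA := τ₁) hlim hq hσ.toIsTr hf
          exact case_D TT K₁
        · obtain ⟨TT⟩ := exists_towerM (τ := tauDS) (τA := τ₁) hlim hq h0 h1 hσ.toIsTr hf
          exact case_D TT K₁
    rw [e9_one_pow] at h1
    rcases h1 with h1 | h1
    · exact e9_three_ne.1 h1
    · exact e9_three_ne.2 h1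

end Pool.Agent.H.MP_e11395_an
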