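import Mathlib

/-!
# Part E: lifting with control of the norm
-/

set_option autoImplicit false

namespace Pool.Agent.H.MP_e11395_an

/-- The case of norm at most one. -/
theorem Lift_aux {X Y : Type} [CStarAlgebra X] [CStarAlgebra Y] (φ : X →⋆ₐ[ℂ] Y)
    (hφ : Function.Surjective φ) (b : Y) (hb : ‖b‖ ≤ 1) : ∃ a, φ a = b ∧ ‖a‖ ≤ 1 := by
  obtain ⟨a₀, ha₀⟩ := hφ b
  set h : ℝ → ℝ := fun t => (Real.sqrt (max 1 t))⁻¹ with hh
  have hm : ∀ t : ℝ, 0 < Real.sqrt (max 1 t) := fun t =>
    Real.sqrt_pos.2 (lt_of_lt_of_le one_pos (le_max_left 1 t))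
  have hcont : Continuous h :=
    (Real.continuous_sqrt.comp (continuous_const.max continuous_id)).inv₀ fun t => (hm t).ne'
  set c : X := star a₀ * a₀ with hc
  have hcsa : IsSelfAdjoint c := IsSelfAdjoint.star_mul_self a₀
  have hφc : φ c = star b * b := by rw [hc, map_mul, map_star, ha₀]
  have hφsa : IsSelfAdjoint (φ c) := by rw [hφc]; exact IsSelfAdjoint.star_mul_self b
  have hφcont : Continuous φ := AddMonoidHomClass.continuous_of_bound φ 1 fun x => by
    rw [one_mul]; exact NonUnitalStarAlgHom.norm_apply_le φ x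
  have hmap : φ (cfc h c) = cfc h (φ c) :=
    StarAlgHomClass.map_cfc φ h c hcont.continuousOn hφcont hcsa hφsa
  have hone : cfc h (φ c) = 1 := by
    rw [hφc]
    rcases subsingleton_or_nontrivial Y with hY | hY
    · exact Subsingleton.elim _ _
    have h1 : cfc h (star b * b) = cfc (fun _ : ℝ => (1 : ℝ)) (star b * b) := by
      refine cfc_congr fun x hx => ?_
      have h2 : x ≤ 1 := by
        have h3 := spectrum.norm_le_norm_of_mem hx
        rw [CStarRing.norm_star_mul_self] at h3
        have h4 : ‖b‖ * ‖b‖ ≤ 1 := mul_le_one₀ hb (norm_nonneg _) hb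
        exact (le_abs_self x).trans (h3.trans h4)
      simp only [hh]
      rw [max_eq_left h2, Real.sqrt_one, inv_one]
    rw [h1]
    exact cfc_const_one ℝ (star b * b) (IsSelfAdjoint.star_mul_self b)
  refine ⟨a₀ * cfc h c, ?_, ?_⟩
  · rw [map_mul, hmap, hone, mul_one, ha₀]
  · have hstar : star (cfc h c) = cfc h c := (cfc_predicate h c : IsSelfAdjoint (cfc h c))
    have h1 : star (a₀ * cfc h c) * (a₀ * cfc h c) = cfc (fun t => h t * t * h t) c := by
      rw [star_mul, hstar]
      calc cfc h c * star a₀ * (a₀ * cfc h c) = cfc h c * c * cfc h c := by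
            rw [hc]; noncomm_ring
        _ = cfc h c * cfc (fun t : ℝ => t) c * cfc h c := by
            rw [cfc_id' ℝ c hcsa]
        _ = cfc (fun t => h t * t * h t) c := by
            rw [← cfc_mul h (fun t : ℝ => t) c hcont.continuousOn continuous_id.continuousOn,
              ← cfc_mul (fun t => h t * t) h c (hcont.mul continuous_id).continuousOn
                hcont.continuousOn]
    have h2 : ‖star (a₀ * cfc h c) * (a₀ * cfc h c)‖ ≤ 1 := by
      rw [h1]
      refine norm_cfc_le zero_le_one fun t ht => ?_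
      have ht0 : 0 ≤ t := spectrum_star_mul_self_nonneg t ht
      have h3 : Real.sqrt (max 1 t) * Real.sqrt (max 1 t) = max 1 t :=
        Real.mul_self_sqrt (le_trans zero_le_one (le_max_left 1 t))
      have h4 : h t * t * h t = t / max 1 t := by
        have h5 : h t * t * h t = t * (Real.sqrt (max 1 t) * Real.sqrt (max 1 t))⁻¹ := by
          simp only [hh]
          rw [mul_inv]
          ring
        rw [h5, h3, div_eq_mul_inv]
      rw [Real.norm_eq_abs, h4, abs_of_nonneg (div_nonneg ht0 (le_trans zero_le_one (le_max_left 1 t)))]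
      exact div_le_one_of_le₀ (le_max_right 1 t) (le_trans zero_le_one (le_max_left 1 t))
    rw [CStarRing.norm_star_mul_self] at h2
    nlinarith [norm_nonneg (a₀ * cfc h c)]

/-- A surjective star homomorphism of C*-algebras has norm preserving lifts.

Proof. If `b = 0` take `0`. By scaling assume `‖b‖ = 1` (or keep `s = ‖b‖`). Let `a₀` be any lift,
`h t = min 1 (1 / √t)` for `t > 0`, i.e. the continuous function
`h t = 1 / √(max 1 t)` on `ℝ`. Put `a = a₀ * cfc h (star a₀ * a₀)`. Then
`φ a = b * cfc h (star b * b)` (`StarAlgHomClass.map_cfc`, `φ` is continuous) and `h = 1` on the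
spectrum of `star b * b`, contained in `[0, 1]` (`spectrum_star_mul_self_nonneg`,
`‖star b * b‖ ≤ 1`), so `cfc h (star b * b) = 1` and `φ a = b`. And
`star a * a = cfc h c * c * cfc h c = cfc (fun t => h t * t * h t) c` with `c = star a₀ * a₀ ≥ 0`,
`0 ≤ h t * t * h t ≤ 1` for `t ≥ 0`, so `‖a‖ ^ 2 = ‖star a * a‖ ≤ 1` (`norm_cfc_le`). -/
theorem exists_lift {X Y : Type} [CStarAlgebra X] [CStarAlgebra Y] (φ : X →⋆ₐ[ℂ] Y)
    (hφ : Function.Surjective φ) (b : Y) : ∃ a, φ a = b ∧ ‖a‖ ≤ ‖b‖ := by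
  rcases eq_or_ne b 0 with hb | hb
  · exact ⟨0, by rw [map_zero, hb], by rw [norm_zero]; exact norm_nonneg _⟩
  · have hpos : 0 < ‖b‖ := norm_pos_iff.2 hb
    have hne : ((‖b‖ : ℝ) : ℂ) ≠ 0 := by exact_mod_cast hpos.ne'
    obtain ⟨a, ha, han⟩ := Lift_aux φ hφ ((((‖b‖ : ℝ) : ℂ))⁻¹ • b) (by
      rw [norm_smul, norm_inv, Complex.norm_real, norm_norm, inv_mul_cancel₀ hpos.ne'])
    refine ⟨((‖b‖ : ℝ) : ℂ) • a, ?_, ?_⟩
    · rw [map_smul, ha, smul_smul, mul_inv_cancel₀ hne, one_smul]
    · rw [norm_smul, Complex.norm_real, norm_norm]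
      nlinarith

end Pool.Agent.H.MP_e11395_an
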