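import Pool.Agent.H.MP_e11395_an.E.ExtSys

/-!
# Part E: scalar matrices in a tower
-/

set_option autoImplicit false
set_option linter.unusedSectionVars false

open Filter Topology
open Pool.Agent.H.MP_43b197_an

namespace Pool.Agent.H.MP_e11395_an

open scoped Kronecker

namespace Tow

variable (P : Tow)

/-- `(X ⊗ M) ⊕ 0` for scalar matrices. -/
def mbl (n : ℕ) (X : Matrix (Fin (P.μ n)) (Fin (P.μ n)) ℂ)
    (M : Matrix (Fin (P.ρ n)) (Fin (P.ρ n)) ℂ) :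
    Matrix (Fin (P.ρ (n + 1))) (Fin (P.ρ (n + 1))) ℂ :=
  Matrix.reindex (P.e n) (P.e n) (Matrix.fromBlocks (X ⊗ₖ M) 0 0 0)

/-- `Matrix.submatrix_mul_equiv`, `Matrix.fromBlocks_multiply`, `Matrix.mul_kronecker_mul`. -/
theorem mbl_mul (n : ℕ) (X Y : Matrix (Fin (P.μ n)) (Fin (P.μ n)) ℂ)
    (M M' : Matrix (Fin (P.ρ n)) (Fin (P.ρ n)) ℂ) :
    P.mbl n X M * P.mbl n Y M' = P.mbl n (X * Y) (M * M') := by
  rw [mbl, mbl, mbl, Matrix.reindex_apply, Matrix.reindex_apply, Matrix.reindex_apply,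
    Matrix.submatrix_mul_equiv, Matrix.fromBlocks_multiply, Matrix.mul_kronecker_mul]
  simp

theorem mbl_star (n : ℕ) (X : Matrix (Fin (P.μ n)) (Fin (P.μ n)) ℂ)
    (M : Matrix (Fin (P.ρ n)) (Fin (P.ρ n)) ℂ) :
    star (P.mbl n X M) = P.mbl n (star X) (star M) := by
  rw [mbl, mbl, Matrix.star_eq_conjTranspose, Matrix.star_eq_conjTranspose,
    Matrix.star_eq_conjTranspose, Matrix.conjTranspose_reindex, Matrix.fromBlocks_conjTranspose,
    Matrix.conjTranspose_kronecker]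
  simp

theorem mbl_trace (n : ℕ) (X : Matrix (Fin (P.μ n)) (Fin (P.μ n)) ℂ)
    (M : Matrix (Fin (P.ρ n)) (Fin (P.ρ n)) ℂ) :
    (P.mbl n X M).trace = X.trace * M.trace := by
  have h : (P.mbl n X M).trace = (Matrix.fromBlocks (X ⊗ₖ M) 0 0
      (0 : Matrix (P.Cx n) (P.Cx n) ℂ)).trace :=
    Equiv.sum_comp (P.e n).symm
      fun i => (Matrix.fromBlocks (X ⊗ₖ M) 0 0 (0 : Matrix (P.Cx n) (P.Cx n) ℂ)) i i
  rw [h, Matrix.trace, Fintype.sum_sum_type, ← Matrix.trace_kronecker]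
  simp [Matrix.trace]

theorem mbl_smul (n : ℕ) (a c : ℂ) (X : Matrix (Fin (P.μ n)) (Fin (P.μ n)) ℂ)
    (M : Matrix (Fin (P.ρ n)) (Fin (P.ρ n)) ℂ) :
    P.mbl n (a • X) (c • M) = (a * c) • P.mbl n X M := by
  have h : Matrix.fromBlocks ((a * c) • (X ⊗ₖ M)) 0 0 (0 : Matrix (P.Cx n) (P.Cx n) ℂ) =
      (a * c) • Matrix.fromBlocks (X ⊗ₖ M) 0 0 (0 : Matrix (P.Cx n) (P.Cx n) ℂ) := by
    rw [Matrix.fromBlocks_smul]
    simp
  rw [mbl, mbl, Matrix.smul_kronecker, Matrix.kronecker_smul, smul_smul, h]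
  rfl

variable {E : Type} [CStarAlgebra E]

/-- Entrywise: `(X u v * M i j) • a = X u v • (M i j • a)`. -/
theorem bl_ten (n : ℕ) (X : Matrix (Fin (P.μ n)) (Fin (P.μ n)) ℂ)
    (M : Matrix (Fin (P.ρ n)) (Fin (P.ρ n)) ℂ) (a : E) :
    P.bl n X (ten M a) 0 = ten (P.mbl n X M) a := by
  ext i j
  rw [bl, Mt.reindex_apply, ten_apply, mbl, Matrix.reindex_apply, Matrix.submatrix_apply]
  rcases (P.e n).symm i with ⟨u, i⟩ | i <;> rcases (P.e n).symm j with ⟨v, j⟩ | j <;>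
    simp [Matrix.kroneckerMap_apply, smul_smul]

theorem emb_ten (n : ℕ) (M : Matrix (Fin (P.ρ n)) (Fin (P.ρ n)) ℂ) (a : E) :
    P.emb n (ten M a) = ten (P.mbl n 1 M) a := P.bl_ten n 1 M a

end Tow

end Pool.Agent.H.MP_e11395_an
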