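import Pool.Agent.H.MP_e11395_an.E.Tens

/-!
# Part E: the representation of the extended system in a tower, definitions
-/

set_option autoImplicit false
set_option linter.unusedSectionVars false

open Filter Topology
open Pool.Agent.H.MP_43b197_an

namespace Pool.Agent.H.MP_e11395_an

variable {N : Type} [Ring N] [StarRing N] [Algebra ℂ N] [StarModule ℂ N] {T : TVN N} {P : Tow}
  {E : Type} [CStarAlgebra E] {τ : TrState E} (R : NTower T P τ)
  {F Q : Type} [Group F] [AddCommGroup Q] {S : TwSys F Q} (G : Gen S E τ)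

/-- The unitaries of `F` in the corner. -/
noncomputable def rU (f : F) : N := R.i 0 (ten 1 (G.u f))

/-- The unitaries of `Q × Wy` in the corner. -/
noncomputable def rV (y : Q × Wy P.μ) : N :=
  R.i (wb P.μ y.2) (ten (P.tens 0 (wb P.μ y.2) y.2) (G.v y.1))

/-- The asymptotically central extensions. -/
noncomputable def rW (n : ℕ) (y : Q × Wy P.μ) : N :=
  R.i (max n (wb P.μ y.2)) (ten (P.tens n (max n (wb P.μ y.2)) y.2) (G.v y.1))

theorem RepA_step {n m : ℕ} (h : n ≤ m) {w : Wy P.μ} (hw : w m = 0) (a : E) :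
    R.i (m + 1) (ten (P.tens n (m + 1) w) a) = R.i m (ten (P.tens n m w) a) := by
  rw [P.tens_succ' h hw, ← P.emb_ten, R.emb]

theorem RepA_le {n m : ℕ} (h : n ≤ m) {w : Wy P.μ} (a : E) {k : ℕ} (hk : m ≤ k)
    (hw : ∀ l, m ≤ l → w l = 0) :
    R.i k (ten (P.tens n k w) a) = R.i m (ten (P.tens n m w) a) := by
  induction k, hk using Nat.le_induction with
  | base => rfl
  | succ k hk ih => rw [RepA_step R (h.trans hk) (hw k hk), ih]

/-- `rU` at every stage: by induction on `m`, `R.emb`, `emb_ten`, `tens_succ'`;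
`tens 0 0 0 = 1`. -/
theorem rU_eq (f : F) (m : ℕ) : rU R G f = R.i m (ten (P.tens 0 m 0) (G.u f)) := by
  rw [RepA_le R le_rfl (G.u f) (Nat.zero_le m) fun _ _ => rfl]
  rfl

/-- `rV` at every stage `m ≥ wb`: by induction on `m` from `wb`
(`eq_zero_of_wb_le`, `tens_succ'`). -/
theorem rV_eq (y : Q × Wy P.μ) {m : ℕ} (h : wb P.μ y.2 ≤ m) :
    rV R G y = R.i m (ten (P.tens 0 m y.2) (G.v y.1)) := by
  rw [RepA_le R (Nat.zero_le _) (G.v y.1) h fun _ hl => eq_zero_of_wb_le P.μ hl]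
  rfl

theorem rV_eq' (q : Q) {w : Wy P.μ} {m : ℕ} (h : w ∈ filW P.μ m) :
    rV R G (q, w) = R.i m (ten (P.tens 0 m w) (G.v q)) := by
  rw [rV_eq R G (q, w) (le_max_left (wb P.μ w) m),
    RepA_le R (Nat.zero_le _) (G.v q) (le_max_right (wb P.μ w) m) h]

theorem rW_eq {n : ℕ} (y : Q × Wy P.μ) {m : ℕ} (hn : n ≤ m) (h : wb P.μ y.2 ≤ m) :
    rW R G n y = R.i m (ten (P.tens n m y.2) (G.v y.1)) := by
  rw [RepA_le R (le_max_left n (wb P.μ y.2)) (G.v y.1) (max_le hn h) fun _ hl =>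
    eq_zero_of_wb_le P.μ ((le_max_right _ _).trans hl)]
  rfl

end Pool.Agent.H.MP_e11395_an
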