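import Pool.Agent.H.MP_e11395_an.E.RepA

/-!
# Part E: the representation of the extended system in a tower, algebraic identities

In all proofs: take a common stage `m` (`rU_eq`, `rV_eq`, `rW_eq`), use that `R.i m` is
a star homomorphism and `ten_mul`, `ten_star`, `ten_smul_left`, `ten_smul_right`, and the
identities `tens_mul`, `tens_star_mul`, `tens_mul_star`, `tens_mul_tens`.
-/

set_option autoImplicit false
set_option linter.unusedSectionVars false

open Filter Topology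
open Pool.Agent.H.MP_43b197_an

namespace Pool.Agent.H.MP_e11395_an

variable {N : Type} [Ring N] [StarRing N] [Algebra ℂ N] [StarModule ℂ N] {T : TVN N} {P : Tow}
  {E : Type} [CStarAlgebra E] {τ : TrState E} (R : NTower T P τ)
  {F Q : Type} [Group F] [AddCommGroup Q] {S : TwSys F Q} (G : Gen S E τ)

/-- The unit of the big corner at every stage. -/
theorem RepB_one (m : ℕ) : R.i m (ten (P.tens 0 m 0) 1) = R.i 0 1 := by
  have h := RepA_le R (n := 0) (m := 0) le_rfl (w := 0) (1 : E) (Nat.zero_le m) fun _ _ => rfl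
  rw [h, Tow.tens_of_le P le_rfl, ten_one]

theorem rU_one : rU R G 1 = R.i 0 1 := by
  rw [rU, G.u_one, ten_one]

theorem rV_zero : rV R G 0 = R.i 0 1 := by
  rw [rV, Prod.fst_zero, Prod.snd_zero, G.v_zero, RepB_one]

theorem rU_mul (f g : F) : rU R G (f * g) = rU R G f * rU R G g := by
  rw [rU, rU, rU, ← map_mul, ten_mul, one_mul, G.u_mul]

theorem rU_star (f : F) : star (rU R G f) = rU R G f⁻¹ := by
  rw [rU, rU, ← map_star, ten_star, star_one, G.u_star]

/-- The product over `Ico 0 m` in `tens_mul` is `bW` by `bW_eq`. -/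
theorem rV_mul (p q : Q × Wy P.μ) :
    rV R G p * rV R G q = (S.ext P.μ).b p q • rV R G (p + q) := by
  set m := max (wb P.μ p.2) (max (wb P.μ q.2) (wb P.μ (p + q).2)) with hm
  have h1 : wb P.μ p.2 ≤ m := le_max_left _ _
  have h2 : wb P.μ q.2 ≤ m := (le_max_left _ _).trans (le_max_right _ _)
  have h3 : wb P.μ (p + q).2 ≤ m := (le_max_right _ _).trans (le_max_right _ _)
  have h4 : bW P.μ p.2 q.2 = ∏ l ∈ Finset.Ico 0 m, ch (P.μ l) ((p.2 l).2 * (q.2 l).1) := by
    rw [← Finset.range_eq_Ico]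
    exact bW_eq P.μ fun l hl => Or.inl (eq_zero_of_wb_le P.μ (h1.trans hl))
  rw [rV_eq R G p h1, rV_eq R G q h2, rV_eq R G (p + q) h3, ← map_mul, ten_mul, Tow.tens_mul,
    G.v_mul, ten_smul_left, ten_smul_right, map_smul, map_smul, smul_smul, ← h4]
  change _ = (S.b p.1 q.1 * bW P.μ p.2 q.2) • _
  rw [mul_comm, Prod.fst_add, Prod.snd_add]

theorem rV_star_mul (q : Q × Wy P.μ) : star (rV R G q) * rV R G q = R.i 0 1 := by
  rw [rV, ← map_star, ← map_mul, ten_star, ten_mul, Tow.tens_star_mul, G.v_star_mul, RepB_one]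

theorem rV_mul_star (q : Q × Wy P.μ) : rV R G q * star (rV R G q) = R.i 0 1 := by
  rw [rV, ← map_star, ← map_mul, ten_star, ten_mul, Tow.tens_mul_star, G.v_mul_star, RepB_one]

theorem rVU (q : Q × Wy P.μ) (f : F) :
    rV R G q * rU R G f = rU R G ((S.ext P.μ).act q f) * rV R G q := by
  have h := P.tens_mul_tens (n := 0) (wb P.μ q.2) (w := q.2) fun l hl => absurd hl (Nat.not_lt_zero l)
  rw [rV_eq R G q le_rfl, rU_eq R G f (wb P.μ q.2), rU_eq R G _ (wb P.μ q.2), ← map_mul, ← map_mul,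
    ten_mul, ten_mul, h.1, h.2, G.vu]
  rfl

theorem r_tr_one : T.tr (R.i 0 1) = R.t 0 := by
  have h : (P.ρ 0 : ℂ) = 1 := by rw [P.ρ_zero, Nat.cast_one]
  rw [R.tr, ← ten_one, tauM_ten, Matrix.trace_one, Fintype.card_fin, τ.one, h]
  simp

/-- For `y = (f, (q, w)) ≠ (1, 0)`: `rU f * rV (q, w) = i m (ten (tens 0 m w) (u f * v q))` has trace
`t m * (ρ m)⁻¹ * trace (tens 0 m w) * τ (u f * v q)` (`R.tr`, `tauM_ten`); if
`w ≠ 0` then some `w l ≠ 0` and the matrix trace is `0` (`tens_trace_eq_zero`, `m > l`);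
otherwise `(f, q) ≠ (1, 0)` and `G.tr_ne`. -/
theorem r_tr_ne (f : F) (q : Q × Wy P.μ) (h : (f, q) ≠ (1, 0)) :
    T.tr (rU R G f * rV R G q) = 0 := by
  have h1 := P.tens_mul_tens (n := 0) (wb P.μ q.2) (w := q.2) fun l hl =>
    absurd hl (Nat.not_lt_zero l)
  rw [rV_eq R G q le_rfl, rU_eq R G f (wb P.μ q.2), ← map_mul, ten_mul, h1.2, R.tr, tauM_ten]
  by_cases hw : q.2 = 0
  · have h2 : (f, q.1) ≠ (1, 0) := by
      intro h3
      obtain ⟨h4, h5⟩ := Prod.mk.inj h3
      exact h (Prod.ext h4 (Prod.ext h5 hw))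
    rw [G.tr_ne f q.1 h2, mul_zero, mul_zero]
  · obtain ⟨l, hl⟩ : ∃ l, q.2 l ≠ 0 := by
      by_contra hcon
      push Not at hcon
      exact hw (DFinsupp.ext hcon)
    have hl2 : l < wb P.μ q.2 := by
      by_contra hcon
      exact hl (eq_zero_of_wb_le P.μ (not_lt.1 hcon))
    rw [P.tens_trace_eq_zero hl2 hl, mul_zero, zero_mul, mul_zero]

/-- The bicharacter on a single index, on the right. -/
theorem RepB_bW_single (μ : ℕ → ℕ) [∀ l, NeZero (μ l)] (w : Wy μ) (l : ℕ)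
    (x : ZMod (μ l) × ZMod (μ l)) :
    bW μ w (DFinsupp.single l x) = ch (μ l) ((w l).2 * x.1) := by
  rw [bW_eq μ (n := l + 1) fun k hk => Or.inr (DFinsupp.single_eq_of_ne (by omega)),
    Finset.prod_eq_single l]
  · rw [DFinsupp.single_eq_same]
  · intro k _ hk
    rw [DFinsupp.single_eq_of_ne hk, Prod.fst_zero, mul_zero, ch_zero]
  · intro hl
    exact absurd (Finset.mem_range.2 (Nat.lt_succ_self l)) hl

/-- The bicharacter on a single index, on the left. -/
theorem RepB_bW_single' (μ : ℕ → ℕ) [∀ l, NeZero (μ l)] (w : Wy μ) (l : ℕ)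
    (x : ZMod (μ l) × ZMod (μ l)) :
    bW μ (DFinsupp.single l x) w = ch (μ l) (x.2 * (w l).1) := by
  rw [bW_eq μ (n := l + 1) fun k hk => Or.inl (DFinsupp.single_eq_of_ne (by omega)),
    Finset.prod_eq_single l]
  · rw [DFinsupp.single_eq_same]
  · intro k _ hk
    rw [DFinsupp.single_eq_of_ne hk, Prod.snd_zero, zero_mul, ch_zero]
  · intro hl
    exact absurd (Finset.mem_range.2 (Nat.lt_succ_self l)) hl

/-- Elements of `Hn n` of the extended system: `k.1 ∈ S.K`, `β k.1 q = 1` for `q ∈ S.fil n`, and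
`k.2 l = 0` for `l < n`.

Proof. `(q, 0) ∈ (S.ext μ).fil n` for `q ∈ S.fil n`; and for `l < n`,
`(0, DFinsupp.single l x) ∈ fil n` for all `x`, so
`bW k.2 (single l x) = bW (single l x) k.2`, i.e. `ch ((k.2 l).2 * x.1) = ch (x.2 * (k.2 l).1)`;
take `x = (1, 0)` and `(0, 1)` and `ch_inj`. -/
theorem ext_mem_Hn {n : ℕ} {k : Q × Wy P.μ} (hk : k ∈ (S.ext P.μ).Hn n) :
    k.1 ∈ S.K ∧ (∀ q ∈ S.fil n, S.β k.1 q = 1) ∧ ∀ l, l < n → k.2 l = 0 := by
  obtain ⟨hK, hβ⟩ := hk
  have e1 : bW P.μ k.2 0 = 1 := by rw [bW_eq P.μ (n := 0) fun l _ => Or.inr rfl]; simp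
  have e2 : bW P.μ 0 k.2 = 1 := by rw [bW_eq P.μ (n := 0) fun l _ => Or.inl rfl]; simp
  refine ⟨hK, fun q hq => ?_, fun l hl => ?_⟩
  · have h := hβ (q, 0) ⟨hq, (filW P.μ n).zero_mem⟩
    rw [TwSys.β_eq_one_iff] at h
    change S.b k.1 q * bW P.μ k.2 0 = S.b q k.1 * bW P.μ 0 k.2 at h
    rw [e1, e2, mul_one, mul_one] at h
    exact (S.β_eq_one_iff k.1 q).2 h
  · have key : ∀ x : ZMod (P.μ l) × ZMod (P.μ l), (k.2 l).2 * x.1 = x.2 * (k.2 l).1 := by
      intro x
      have hmem : ((0 : Q), (DFinsupp.single l x : Wy P.μ)) ∈ (S.ext P.μ).fil n := by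
        refine ⟨(S.fil n).zero_mem, fun l' hl' => ?_⟩
        exact DFinsupp.single_eq_of_ne (by omega)
      have h := hβ _ hmem
      rw [TwSys.β_eq_one_iff] at h
      change S.b k.1 0 * bW P.μ k.2 (DFinsupp.single l x) =
        S.b 0 k.1 * bW P.μ (DFinsupp.single l x) k.2 at h
      rw [S.b_zero_left, S.b_zero_right, one_mul, one_mul, RepB_bW_single, RepB_bW_single'] at h
      exact ch_inj (P.μ l) h
    have h1 := key (1, 0)
    have h2 := key (0, 1)
    simp only [mul_one, zero_mul, mul_zero, one_mul] at h1 h2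
    exact Prod.ext h2.symm h1

theorem rW_mul (n : ℕ) (k : Q × Wy P.μ) (hk : k ∈ (S.ext P.μ).Hn n) :
    rW R G n k * R.i 0 1 = rV R G k := by
  have h := (P.tens_mul_tens (max n (wb P.μ k.2)) (ext_mem_Hn hk).2.2).1
  rw [rW_eq R G k (le_max_left _ _) (le_max_right _ _), rV_eq R G k (le_max_right n _),
    ← RepB_one R (max n (wb P.μ k.2)), ← map_mul, ten_mul, h, mul_one]

theorem mul_rW (n : ℕ) (k : Q × Wy P.μ) (hk : k ∈ (S.ext P.μ).Hn n) :
    R.i 0 1 * rW R G n k = rV R G k := by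
  have h := (P.tens_mul_tens (max n (wb P.μ k.2)) (ext_mem_Hn hk).2.2).2
  rw [rW_eq R G k (le_max_left _ _) (le_max_right _ _), rV_eq R G k (le_max_right n _),
    ← RepB_one R (max n (wb P.μ k.2)), ← map_mul, ten_mul, h, one_mul]

/-- `star (rW n k) * rW n k = i m (ten (tens n m 0) 1)` is a projection, `bd_pisom`. -/
theorem rW_bd (n : ℕ) (k : Q × Wy P.μ) : T.Bd 1 (rW R G n k) := by
  refine T.bd_pisom _ ?_
  rw [rW, ← map_star, ← map_mul, ten_star, ten_mul, Tow.tens_star_mul, G.v_star_mul]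
  set t := P.tens n (max n (wb P.μ k.2)) 0 with ht
  have h1 : star t * t = t := P.tens_star_mul n _ 0
  have h2 : star t = t := by
    have h := congrArg star h1
    rw [star_mul, star_star, h1] at h
    exact h.symm
  have h3 : t * t = t := by
    have h := h1
    rwa [h2] at h
  refine ⟨?_, ?_⟩
  · change _ * _ = _
    rw [← map_mul, ten_mul, h3, mul_one]
  · change star _ = _
    rw [← map_star, ten_star, h2, star_one]

end Pool.Agent.H.MP_e11395_an
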