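import Pool.Agent.H.MP_e11395_an.E.Tens

/-!
# Part E: the span of the tensor products of Weyl matrices
-/

set_option autoImplicit false
set_option linter.unusedSectionVars false

open Filter Topology
open Pool.Agent.H.MP_43b197_an

namespace Pool.Agent.H.MP_e11395_an

namespace Tow

variable (P : Tow)

open scoped Kronecker

/-- `A ⊕ 0` at the next stage, as a linear map. -/
noncomputable def TensSpan_Psi (m : ℕ) :
    Matrix (Fin (P.μ m) × Fin (P.ρ m)) (Fin (P.μ m) × Fin (P.ρ m)) ℂ →ₗ[ℂ]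
      Matrix (Fin (P.ρ (m + 1))) (Fin (P.ρ (m + 1))) ℂ where
  toFun A := Matrix.reindex (P.e m) (P.e m) (Matrix.fromBlocks A 0 0 0)
  map_add' A B := by
    refine Matrix.ext fun i j => ?_
    simp only [Matrix.reindex_apply, Matrix.submatrix_apply, Matrix.add_apply]
    rcases (P.e m).symm i with a | a <;> rcases (P.e m).symm j with b | b <;> simp
  map_smul' c A := by
    refine Matrix.ext fun i j => ?_
    simp only [Matrix.reindex_apply, Matrix.submatrix_apply, Matrix.smul_apply, RingHom.id_apply]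
    rcases (P.e m).symm i with a | a <;> rcases (P.e m).symm j with b | b <;> simp

theorem TensSpan_mbl (m : ℕ) (X : Matrix (Fin (P.μ m)) (Fin (P.μ m)) ℂ)
    (M : Matrix (Fin (P.ρ m)) (Fin (P.ρ m)) ℂ) : P.mbl m X M = P.TensSpan_Psi m (X ⊗ₖ M) := rfl

theorem TensSpan_mem (m : ℕ) {X : Matrix (Fin (P.μ m)) (Fin (P.μ m)) ℂ}
    (hX : X ∈ Submodule.span ℂ (Set.range (Wl (P.μ m))))
    {Y : Matrix (Fin (P.ρ m)) (Fin (P.ρ m)) ℂ}
    (hY : Y ∈ Submodule.span ℂ {X | ∃ w ∈ filW P.μ m, X = P.tens 0 m w}) :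
    P.mbl m X Y ∈ Submodule.span ℂ {X | ∃ w ∈ filW P.μ (m + 1), X = P.tens 0 (m + 1) w} := by
  induction hX using Submodule.span_induction with
  | mem X hX =>
    obtain ⟨x, rfl⟩ := hX
    induction hY using Submodule.span_induction with
    | mem Y hY =>
      obtain ⟨w, hw, rfl⟩ := hY
      obtain ⟨v, hv, hv'⟩ : ∃ v : Wy P.μ, v m = x ∧ ∀ l, l ≠ m → v l = 0 :=
        ⟨DFinsupp.single m x, DFinsupp.single_eq_same, fun l hl =>
          DFinsupp.single_eq_of_ne hl⟩
      refine Submodule.subset_span ⟨w + v, ?_, ?_⟩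
      · intro l hl
        rw [DFinsupp.add_apply, hw l ((Nat.le_succ m).trans hl), hv' l (by omega), add_zero]
      · have h1 : (w + v) m = x := by
          rw [DFinsupp.add_apply, hw m le_rfl, hv, zero_add]
        rw [P.tens_succ (Nat.zero_le m), h1]
        congr 1
        refine P.tens_congr fun l _ hl => ?_
        rw [DFinsupp.add_apply, hv' l (by omega), add_zero]
    | zero =>
      rw [TensSpan_mbl, Matrix.kronecker_zero, map_zero]
      exact Submodule.zero_mem _
    | add Y Y' _ _ h h' =>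
      rw [TensSpan_mbl, Matrix.kronecker_add, map_add]
      exact Submodule.add_mem _ h h'
    | smul a Y _ h =>
      rw [TensSpan_mbl, Matrix.kronecker_smul, map_smul]
      exact Submodule.smul_mem _ _ h
  | zero =>
    rw [TensSpan_mbl, Matrix.zero_kronecker, map_zero]
    exact Submodule.zero_mem _
  | add X X' _ _ h h' =>
    rw [TensSpan_mbl, Matrix.add_kronecker, map_add]
    exact Submodule.add_mem _ h h'
  | smul a X _ h =>
    rw [TensSpan_mbl, Matrix.smul_kronecker, map_smul]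
    exact Submodule.smul_mem _ _ h

theorem TensSpan_block {α β : Type} [Fintype α] [DecidableEq α] [Fintype β] [DecidableEq β]
    (A : Matrix (α × β) (α × β) ℂ) :
    A = ∑ s, ∑ s', (Matrix.single s s' (1 : ℂ) : Matrix α α ℂ) ⊗ₖ
      (Matrix.of fun i j => A (s, i) (s', j) : Matrix β β ℂ) := by
  refine Matrix.ext fun p q => ?_
  rw [Matrix.sum_apply, Finset.sum_eq_single p.1, Matrix.sum_apply, Finset.sum_eq_single q.1]
  · rw [Matrix.kroneckerMap_apply, Matrix.single_apply_same, one_mul, Matrix.of_apply]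
  · intro b _ hb
    rw [Matrix.kroneckerMap_apply, Matrix.single_apply_of_ne, zero_mul]
    rintro ⟨_, h⟩
    exact hb h
  · intro h
    exact absurd (Finset.mem_univ _) h
  · intro b _ hb
    rw [Matrix.sum_apply]
    refine Finset.sum_eq_zero fun b' _ => ?_
    rw [Matrix.kroneckerMap_apply, Matrix.single_apply_of_ne, zero_mul]
    rintro ⟨h, _⟩
    exact hb h
  · intro h
    exact absurd (Finset.mem_univ _) h

theorem TensSpan_corner (m : ℕ) (T : Matrix (Fin (P.ρ m)) (Fin (P.ρ m)) ℂ)
    (M : Matrix (Fin (P.ρ (m + 1))) (Fin (P.ρ (m + 1))) ℂ) :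
    ∃ B : Fin (P.μ m) → Fin (P.μ m) → Matrix (Fin (P.ρ m)) (Fin (P.ρ m)) ℂ,
      P.mbl m 1 T * M * P.mbl m 1 T =
        ∑ s, ∑ s', P.mbl m (Matrix.single s s' 1) (T * B s s' * T) := by
  set M' := Matrix.reindex (P.e m).symm (P.e m).symm M with hM'
  have hM : M = Matrix.reindex (P.e m) (P.e m) M' := by
    rw [hM']
    refine Matrix.ext fun i j => ?_
    simp
  set A := M'.toBlocks₁₁ with hA
  refine ⟨fun s s' => Matrix.of fun i j => A (s, i) (s', j), ?_⟩
  have h1 : P.mbl m 1 T * M * P.mbl m 1 T =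
      P.TensSpan_Psi m (((1 : Matrix (Fin (P.μ m)) (Fin (P.μ m)) ℂ) ⊗ₖ T) * A *
        ((1 : Matrix (Fin (P.μ m)) (Fin (P.μ m)) ℂ) ⊗ₖ T)) := by
    rw [hM]
    unfold mbl
    simp only [Matrix.reindex_apply]
    rw [Matrix.submatrix_mul_equiv, Matrix.submatrix_mul_equiv, ← Matrix.fromBlocks_toBlocks M',
      Matrix.fromBlocks_multiply, Matrix.fromBlocks_multiply]
    simp only [Matrix.mul_zero, Matrix.zero_mul, add_zero]
    rfl
  rw [h1]
  conv_lhs => rw [TensSpan_block A]
  rw [Finset.mul_sum, Finset.sum_mul, map_sum]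
  refine Finset.sum_congr rfl fun s _ => ?_
  rw [Finset.mul_sum, Finset.sum_mul, map_sum]
  refine Finset.sum_congr rfl fun s' _ => ?_
  rw [← Matrix.mul_kronecker_mul, ← Matrix.mul_kronecker_mul, one_mul, mul_one, TensSpan_mbl]

/-- The corner cut out by `tens 0 m 0` is spanned by the `tens 0 m w`, `w` supported below `m`.

Proof. Induction on `m`. `m = 0`: `ρ 0 = 1`, every `1 × 1` matrix is a multiple of
`1 = tens 0 0 0`. `m + 1`: by linearity let `M = single r r' 1`. With `P.e m`:
if `r` or `r'` is the image of an element of `Cx m` then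
`tens 0 (m+1) 0 * M * tens 0 (m+1) 0 = 0`. Otherwise `r = e (inl (s, i))`, `r' = e (inl (s', i'))`,
`M = mbl m (single s s' 1) (single i i' 1)`, and the product is
`mbl m (single s s' 1) (tens 0 m 0 * single i i' 1 * tens 0 m 0)`; `single s s' 1` is a combination
of `Wl x` (`single_mem_span`), the other factor a combination of `tens 0 m w` with `w` in
`filW m` (induction), and `mbl m (Wl x) (tens 0 m w) = tens 0 (m + 1) (w + single m x)`
(`tens_succ`, `tens_congr`). Use bilinearity of `mbl` and `Submodule.span_induction`. -/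
theorem tens_span (m : ℕ) (M : Matrix (Fin (P.ρ m)) (Fin (P.ρ m)) ℂ) :
    P.tens 0 m 0 * M * P.tens 0 m 0 ∈
      Submodule.span ℂ {X | ∃ w ∈ filW P.μ m, X = P.tens 0 m w} := by
  induction m with
  | zero =>
    have h0 : P.tens 0 0 0 = 1 := rfl
    have hs : Subsingleton (Fin (P.ρ 0)) := by
      rw [P.ρ_zero]; infer_instance
    let i0 : Fin (P.ρ 0) := ⟨0, P.ρ_pos 0⟩
    have hM : P.tens 0 0 0 * M * P.tens 0 0 0 = M i0 i0 • P.tens 0 0 0 := by
      rw [h0, one_mul, mul_one]
      refine Matrix.ext fun i j => ?_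
      rw [Matrix.smul_apply, Subsingleton.elim i i0, Subsingleton.elim j i0, Matrix.one_apply_eq,
        smul_eq_mul, mul_one]
    rw [hM]
    exact Submodule.smul_mem _ _ (Submodule.subset_span ⟨0, AddSubgroup.zero_mem _, rfl⟩)
  | succ m ih =>
    have h0 : P.tens 0 (m + 1) 0 = P.mbl m 1 (P.tens 0 m 0) :=
      P.tens_succ' (Nat.zero_le m) rfl
    obtain ⟨B, hB⟩ := P.TensSpan_corner m (P.tens 0 m 0) M
    rw [h0, hB]
    refine Submodule.sum_mem _ fun s _ => Submodule.sum_mem _ fun s' _ => ?_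
    exact P.TensSpan_mem m (single_mem_span (P.μ m) s s') (ih (B s s'))

end Tow

end Pool.Agent.H.MP_e11395_an
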