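import Pool.Agent.H.MP_e11395_an.E.RepN
import Pool.Agent.H.MP_e11395_an.E.TensSpan

/-!
# Part E: density of the span in the corner
-/

set_option autoImplicit false
set_option linter.unusedSectionVars false

open Filter Topology
open Pool.Agent.H.MP_43b197_an

namespace Pool.Agent.H.MP_e11395_an

variable {N : Type} [Ring N] [StarRing N] [Algebra ℂ N] [StarModule ℂ N] {T : TVN N} {P : Tow}
  {E : Type} [CStarAlgebra E] {τ : TrState E} (R : NTower T P τ)
  {F Q : Type} [Group F] [AddCommGroup Q] {S : TwSys F Q} (G : Gen S E τ)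

include G in
/-- The unit of the corner at stage `n`. -/
theorem RepD_z_eq (n : ℕ) : R.i 0 1 = R.i n (ten (P.tens 0 n 0) 1) := by
  rw [← rU_one R G, rU_eq R G 1 n, G.u_one]

theorem RepD_z_proj : IsStarProjection (R.i 0 1) :=
  ⟨by rw [IsIdempotentElem, ← map_mul, mul_one], by rw [isSelfAdjoint_iff, ← map_star, star_one]⟩

/-- The elements of the family at stage `n`. -/
theorem RepD_elt (n : ℕ) (f : F) (q : Q) {w : Wy P.μ} (hw : w ∈ filW P.μ n) :
    rU R G f * rV R G (q, w) = R.i n (ten (P.tens 0 n w) (G.u f * G.v q)) := by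
  rw [rU_eq R G f n, rV_eq' R G q hw, ← map_mul, ten_mul,
    (P.tens_mul_tens n (n := 0) (w := w) fun l hl => absurd hl (Nat.not_lt_zero l)).2]

theorem RepD_mem (n : ℕ) (f : F) (q : Q) {X : Matrix (Fin (P.ρ n)) (Fin (P.ρ n)) ℂ}
    (hX : X ∈ Submodule.span ℂ {X | ∃ w ∈ filW P.μ n, X = P.tens 0 n w}) :
    R.i n (ten X (G.u f * G.v q)) ∈
      Submodule.span ℂ (Set.range fun y : F × (Q × Wy P.μ) => rU R G y.1 * rV R G y.2) := by
  induction hX using Submodule.span_induction with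
  | mem X h =>
    obtain ⟨w, hw, rfl⟩ := h
    rw [← RepD_elt R G n f q hw]
    exact Submodule.subset_span ⟨(f, (q, w)), rfl⟩
  | zero =>
    rw [RepN_ten_zero_left, map_zero]
    exact Submodule.zero_mem _
  | add X Y _ _ hX hY =>
    rw [ten_add_left, map_add]
    exact Submodule.add_mem _ hX hY
  | smul a X _ hX =>
    rw [ten_smul_left, map_smul]
    exact Submodule.smul_mem _ a hX

theorem RepD_span (n : ℕ) {b : Mt (Fin (P.ρ n)) E}
    (hb : b ∈ Submodule.span ℂ {x : Mt (Fin (P.ρ n)) E |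
      ∃ (M : Matrix (Fin (P.ρ n)) (Fin (P.ρ n)) ℂ) (f : F) (q : Q), x = ten M (G.u f * G.v q)}) :
    R.i 0 1 * R.i n b * R.i 0 1 ∈
      Submodule.span ℂ (Set.range fun y : F × (Q × Wy P.μ) => rU R G y.1 * rV R G y.2) := by
  induction hb using Submodule.span_induction with
  | mem x h =>
    obtain ⟨M, f, q, rfl⟩ := h
    rw [RepD_z_eq R G n, ← map_mul, ← map_mul, ten_mul, ten_mul, one_mul, mul_one]
    exact RepD_mem R G n f q (P.tens_span n M)
  | zero =>
    rw [map_zero, mul_zero, zero_mul]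
    exact Submodule.zero_mem _
  | add X Y _ _ hX hY =>
    rw [map_add, mul_add, add_mul]
    exact Submodule.add_mem _ hX hY
  | smul a X _ hX =>
    rw [map_smul, mul_smul_comm, smul_mul_assoc]
    exact Submodule.smul_mem _ a hX

/-- Density.

Proof. Let `z = i 0 1 = i n (ten (tens 0 n 0) 1)` (`rU_eq` for `f = 1`, or `rV_zero`,
`rV_eq`). By `R.dense` choose `n`, `b` with `n2 (i n b - x) < ε / 2`, then
`b'` as in `exists_near_span` within `ε / 2`; `n2 (i n b' - i n b) ≤ ‖b' - b‖`. As `z x z = x`,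
`n2 (z (i n b') z - x) ≤ n2 (i n b' - x) < ε`. And `z (i n b') z` is a finite
combination of elements `i n (ten (tens 0 n 0 * M * tens 0 n 0) (u f * v q))`, hence
(`tens_span`, `ten` linear in the matrix) of the elements
`i n (ten (tens 0 n w) (u f * v q)) = rU f * rV (q, w)` with `w ∈ filW n` (`rV_eq'`, `rU_eq`).
So `z (i n b') z` is in the span of the `rU f * rV y`, and elements of the span of the range of
a family are `Finsupp` sums (`Finsupp.mem_span_range_iff_exists_finsupp`). -/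
theorem r_dense (x : N) (hx : R.i 0 1 * x * R.i 0 1 = x) (ε : ℝ) (hε : 0 < ε) :
    ∃ c : F × (Q × Wy P.μ) →₀ ℂ,
      T.n2 ((c.sum fun y a => a • (rU R G y.1 * rV R G y.2)) - x) < ε := by
  obtain ⟨n, b, hb⟩ := R.dense x (ε / 2) (half_pos hε)
  obtain ⟨b', hb', hbb⟩ := exists_near_span G n b (ε / 2) (half_pos hε)
  obtain ⟨c, hc⟩ := (Finsupp.mem_span_range_iff_exists_finsupp).1 (RepD_span R G n hb')
  refine ⟨c, ?_⟩
  rw [hc]
  have hz : T.Bd 1 (R.i 0 1) := TVN_bd_proj T (RepD_z_proj R)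
  have h1 : R.i 0 1 * R.i n b' * R.i 0 1 - x = R.i 0 1 * (R.i n b' - x) * R.i 0 1 := by
    rw [mul_sub, sub_mul, hx]
  have h2 : T.n2 (R.i n b' - x) < ε := by
    have h3 := T.n2_sub_le_sub (R.i n b') (R.i n b) x
    have h4 : T.n2 (R.i n b' - R.i n b) ≤ ‖b' - b‖ := by
      rw [← map_sub]
      exact R.n2_le n _
    linarith
  rw [h1]
  have h5 := TVN_mul_le T hz (R.i 0 1 * (R.i n b' - x))
  have h6 := T.bd_le 1 _ hz (R.i n b' - x)
  rw [one_mul] at h5 h6
  exact (h5.trans h6).trans_lt h2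

end Pool.Agent.H.MP_e11395_an
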