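import Pool.Agent.H.MP_e11395_an.E.RepB

/-!
# Part E: norms and density in the matrix algebras
-/

set_option autoImplicit false
set_option linter.unusedSectionVars false

open Filter Topology
open Pool.Agent.H.MP_43b197_an

namespace Pool.Agent.H.MP_e11395_an

variable {N : Type} [Ring N] [StarRing N] [Algebra ℂ N] [StarModule ℂ N] {T : TVN N} {P : Tow}
  {E : Type} [CStarAlgebra E] {τ : TrState E} (R : NTower T P τ)
  {F Q : Type} [Group F] [AddCommGroup Q] {S : TwSys F Q} (G : Gen S E τ)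

/-- `n2 (i n b) ≤ ‖b‖`: `Bd ‖b‖ (i n b)` by scaling `R.bd`, and `bd_le` with `y = 1`. -/
theorem NTower.n2_le (n : ℕ) (b : Mt (Fin (P.ρ n)) E) : T.n2 (R.i n b) ≤ ‖b‖ := by
  by_cases hb : b = 0
  · rw [hb, map_zero, T.n2_zero, norm_zero]
  have hb' : ‖b‖ ≠ 0 := norm_ne_zero_iff.2 hb
  have h1 : ‖((‖b‖⁻¹ : ℝ) : ℂ) • b‖ ≤ 1 := by
    rw [norm_smul, Complex.norm_real, norm_inv, norm_norm, inv_mul_cancel₀ hb']
  have h2 := T.bd_smul 1 _ ((‖b‖ : ℝ) : ℂ) (R.bd n _ h1)
  rw [← map_smul, smul_smul, ← Complex.ofReal_mul, mul_inv_cancel₀ hb', Complex.ofReal_one,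
    one_smul, mul_one, Complex.norm_real, norm_norm] at h2
  have h3 := T.bd_le _ _ h2 1
  rwa [mul_one, T.n2_one, mul_one] at h3

/-- Entries of finite sums of matrices over `E`. -/
theorem RepN_sum_apply {r : ℕ} {ι : Type*} (s : Finset ι) (f : ι → Mt (Fin r) E) (i j : Fin r) :
    (∑ k ∈ s, f k) i j = ∑ k ∈ s, f k i j := by
  classical
  induction s using Finset.induction_on with
  | empty => rfl
  | insert a s ha ih => rw [Finset.sum_insert ha, Finset.sum_insert ha, Mt.add_apply, ih]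

theorem RepN_ten_zero_right {r : ℕ} (M : Matrix (Fin r) (Fin r) ℂ) :
    ten M (0 : E) = 0 := by
  ext i j
  rw [ten_apply, smul_zero, Mt.zero_apply]

theorem RepN_ten_zero_left {r : ℕ} (a : E) :
    ten (0 : Matrix (Fin r) (Fin r) ℂ) a = 0 := by
  ext i j
  rw [ten_apply, Matrix.zero_apply, zero_smul, Mt.zero_apply]

theorem RepN_ten_sum {r : ℕ} {ι : Type*} (s : Finset ι) (M : Matrix (Fin r) (Fin r) ℂ)
    (f : ι → E) : ten M (∑ k ∈ s, f k) = ∑ k ∈ s, ten M (f k) := by
  ext i j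
  rw [ten_apply, RepN_sum_apply, Finset.smul_sum]
  rfl

theorem RepN_sum_single_apply {r : ℕ} (f : Fin r → Fin r → E) (i j : Fin r) :
    (∑ i', ∑ j', ten (Matrix.single i' j' 1) (f i' j') : Mt (Fin r) E) i j = f i j := by
  rw [RepN_sum_apply, Finset.sum_eq_single i]
  · rw [RepN_sum_apply, Finset.sum_eq_single j]
    · rw [ten_apply, Matrix.single_apply, if_pos ⟨rfl, rfl⟩, one_smul]
    · intro j' _ hj'
      rw [ten_apply, Matrix.single_apply, if_neg fun h => hj' h.2, zero_smul]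
    · intro h
      exact absurd (Finset.mem_univ _) h
  · intro i' _ hi'
    rw [RepN_sum_apply]
    refine Finset.sum_eq_zero fun j' _ => ?_
    rw [ten_apply, Matrix.single_apply, if_neg fun h => hi' h.1, zero_smul]
  · intro h
    exact absurd (Finset.mem_univ _) h

/-- Density of the finite sums in `M_{ρ n}(E)`: every `b` is within `ε` (in norm) of a finite sum
of elements `ten M (u f * v q)`.

Proof. `b = ∑ s, t, ten (single s t 1) (b s t)`; approximate every entry by `G.dense` within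
`ε / (ρ n ^ 2 + 1)`, and `‖ten (single s t 1) a‖ ≤ ‖a‖` (`Mt.norm_le_sum`). The finite sum is
indexed by a finite set: state it as membership in the span. -/
theorem exists_near_span (n : ℕ) (b : Mt (Fin (P.ρ n)) E) (ε : ℝ) (hε : 0 < ε) :
    ∃ b' ∈ Submodule.span ℂ {x : Mt (Fin (P.ρ n)) E | ∃ (M : Matrix (Fin (P.ρ n)) (Fin (P.ρ n)) ℂ)
      (f : F) (q : Q), x = ten M (G.u f * G.v q)}, ‖b' - b‖ < ε := by
  have hd : (0 : ℝ) < (P.ρ n : ℝ) * P.ρ n + 1 := by positivity
  have hδ : 0 < ε / ((P.ρ n : ℝ) * P.ρ n + 1) := div_pos hε hd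
  choose c hc using fun i j => G.dense (b i j) _ hδ
  refine ⟨∑ i, ∑ j, ten (Matrix.single i j 1)
    ((c i j).sum fun y a => a • (G.u y.1 * G.v y.2)), ?_, ?_⟩
  · refine Submodule.sum_mem _ fun i _ => Submodule.sum_mem _ fun j _ => ?_
    rw [Finsupp.sum, RepN_ten_sum]
    refine Submodule.sum_mem _ fun y _ => ?_
    rw [ten_smul_right]
    exact Submodule.smul_mem _ _ (Submodule.subset_span ⟨_, _, _, rfl⟩)
  · refine (Mt.norm_le_sum _).trans_lt ?_
    have h1 : ∀ i j : Fin (P.ρ n), (∑ i', ∑ j', ten (Matrix.single i' j' 1)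
        ((c i' j').sum fun y a => a • (G.u y.1 * G.v y.2)) : Mt (Fin (P.ρ n)) E) i j =
        (c i j).sum fun y a => a • (G.u y.1 * G.v y.2) := fun i j =>
      RepN_sum_single_apply (fun i' j' => (c i' j').sum fun y a => a • (G.u y.1 * G.v y.2)) i j
    have h2 : ∀ i j : Fin (P.ρ n), ‖((∑ i', ∑ j', ten (Matrix.single i' j' 1)
        ((c i' j').sum fun y a => a • (G.u y.1 * G.v y.2))) - b : Mt (Fin (P.ρ n)) E) i j‖ ≤
        ε / ((P.ρ n : ℝ) * P.ρ n + 1) := by
      intro i j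
      rw [Mt.sub_apply, h1]
      exact (hc i j).le
    refine (Finset.sum_le_sum fun i _ => Finset.sum_le_sum fun j _ => h2 i j).trans_lt ?_
    simp only [Finset.sum_const, Finset.card_univ, Fintype.card_fin, nsmul_eq_mul]
    rw [← mul_assoc, ← mul_div_assoc, div_lt_iff₀ hd]
    nlinarith

end Pool.Agent.H.MP_e11395_an
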