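import Pool.Agent.H.MP_e11395_an.E.KapL

/-!
# Part E, the upper bound, step A
-/

set_option autoImplicit false

open Filter Topology
open Pool.Agent.H.MP_43b197_an

namespace Pool.Agent.H.MP_e11395_an

variable {N : Type} [Ring N] [StarRing N] [Algebra ℂ N] [StarModule ℂ N] {T : TVN N}
  {w : ℕ → N} {Θ : N →⋆ₐ[ℂ] N} {κ : ℂ}
  {F Q : Type} [Group F] [AddCommGroup Q] {S : TwSys F Q} (R : TwRep T S)

/-- A consequence of the gap: an element of the corner moved by at most `δ` by the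
`Ad (U s)`, `s ∈ Sf`, is moved by at most `2 * (C * Sf.card * δ + ε)` by all `Ad (U f)`.

Proof. Let `c` be as in the gap property for `x` and `ε`. `vlt c` commutes with `U f`: `k ∈ K`
whenever `c k ≠ 0`, so `V k * U f = U (act k f) * V k = U f * V k` (`Finset.sum` over the support).
`U f * x - x * U f = U f * (x - vlt c) - (x - vlt c) * U f`, and `U f` has `Bd 1`. -/
theorem TwRep.gap_comm {Sf : Finset F} {C : ℝ} (hg : R.Gap Sf C) {x : N} (hx : R.z * x * R.z = x)
    {δ : ℝ} (hδ : ∀ s ∈ Sf, T.n2 (R.U s * x * star (R.U s) - x) ≤ δ) {ε : ℝ} (hε : 0 < ε) (f : F) :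
    T.n2 (R.U f * x - x * R.U f) ≤ 2 * (C * (Sf.card * δ) + ε) := by
  obtain ⟨c, hc, hle⟩ := hg.2 x hx ε hε
  have hsum : ∑ s ∈ Sf, T.n2 (R.U s * x * star (R.U s) - x) ≤ Sf.card * δ := by
    have := Finset.sum_le_card_nsmul Sf (fun s => T.n2 (R.U s * x * star (R.U s) - x)) δ hδ
    rwa [nsmul_eq_mul] at this
  have hle2 : T.n2 (x - R.vlt c) ≤ C * (Sf.card * δ) + ε :=
    hle.trans (add_le_add_left (mul_le_mul_of_nonneg_left hsum hg.1) ε)
  have hcomm : R.U f * R.vlt c = R.vlt c * R.U f := by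
    unfold TwRep.vlt
    rw [Finsupp.sum, Finset.mul_sum, Finset.sum_mul]
    refine Finset.sum_congr rfl fun k hk => ?_
    have hk' : k ∈ S.K := hc k (Finsupp.mem_support_iff.1 hk)
    have h1 : R.V k * R.U f = R.U f * R.V k := by
      rw [R.VU, hk' f]
    rw [mul_smul_comm, smul_mul_assoc, h1]
  have heq : R.U f * x - x * R.U f = R.U f * (x - R.vlt c) - (x - R.vlt c) * R.U f := by
    rw [mul_sub, sub_mul, hcomm]
    abel
  rw [heq]
  have h1 := T.bd_le 1 (R.U f) (R.U_bd f) (x - R.vlt c)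
  have h2 := TVN_mul_le T (R.U_bd f) (x - R.vlt c)
  have h3 := T.n2_sub_le (R.U f * (x - R.vlt c)) ((x - R.vlt c) * R.U f)
  linarith

/-- **Step A.** `Θ (U f) w_m z - w_m U f → 0` in the 2-norm, uniformly in `f ∈ F`.

Proof. Fix `ε' > 0`. By `K.inter'` choose `m₀` such that
`n2 (star (w m) * Θ (U s) * w m - U s) ≤ ε'` for `m ≥ m₀`, `s ∈ Sf ∪ {1}`. Let `m, m' ≥ m₀` and
`g = star (w m') * w m` (a unitary). For such `s`,
`n2 (U s * g - g * U s) ≤ 2 ε'`: indeed `star (w m') * Θ (U s) * w m` is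
`(star (w m') * Θ (U s) * w m') * g`, within `ε'` of `U s * g`, and it is also
`g * (star (w m) * Θ (U s) * w m)`, within `ε'` of `g * U s`. For `s = 1`: `U 1 = z`,
`n2 (z g - g z) ≤ 2 ε'`. Let `ζ = z * g * z`; `n2 (g z - ζ) = n2 ((g z - z g) z) ≤ 2 ε'`. Then
`U s ζ (U s)* - ζ`: `U s * ζ = U s * g * z`, within `2 ε'` of `g * U s`, so
`n2 (U s ζ (U s)* - g z) ≤ 2 ε'` (as `U s * star (U s) = z`) and
`n2 (U s ζ (U s)* - ζ) ≤ 4 ε'`. By `gap_comm`,
`n2 (U f ζ - ζ U f) ≤ 2 * (C * (Sf.card * (4 * ε')) + ε')` for all `f`. As `U f ζ = U f g z` and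
`n2 (ζ U f - g U f) = n2 ((ζ - g z) U f) ≤ 2 ε'`:
`n2 (U f g z - g U f) ≤ C₁ * ε'` with `C₁ = 2 * (C * Sf.card * 4 + 1) + 2`. Multiply by `w m'`
from the left: `n2 (w m' U f (w m')* w m z - w m U f) ≤ C₁ ε'`. Let `m' → ∞`
(`w m' U f (w m')* → Θ (U f)`, `K.lim`): `n2 (Θ (U f) w m z - w m U f) ≤ C₁ ε'`. -/
theorem stepA (K : Kap T w Θ κ) {Sf : Finset F} {C : ℝ} (hg : R.Gap Sf C) (ε : ℝ) (hε : 0 < ε) :
    ∃ m₀, ∀ m, m₀ ≤ m → ∀ f, T.n2 (Θ (R.U f) * (w m * R.z) - w m * R.U f) ≤ ε := by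
  classical
  have hC := hg.1
  set C₁ : ℝ := 2 * (C * (Sf.card * 4) + 1) + 2 with hC₁
  have hC₁0 : 0 < C₁ := by positivity
  set ε' : ℝ := ε / C₁ with hε'
  have hε'0 : 0 < ε' := div_pos hε hC₁0
  have hCε : C₁ * ε' = ε := mul_div_cancel₀ _ hC₁0.ne'
  have hev : ∀ᶠ m in atTop, ∀ s ∈ insert (1 : F) Sf,
      T.n2 (star (w m) * Θ (R.U s) * w m - R.U s) < ε' := by
    rw [Filter.eventually_all_finset]
    intro s _
    exact (K.inter' (R.U s)).eventually (gt_mem_nhds hε'0)
  obtain ⟨m₀, hm₀⟩ := eventually_atTop.1 hev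
  refine ⟨m₀, fun m hm f => ?_⟩
  have hwm : star (w m) * w m = 1 := Unitary.star_mul_self_of_mem (K.unit m)
  have hwm' : w m * star (w m) = 1 := Unitary.mul_star_self_of_mem (K.unit m)
  have hzb : T.Bd 1 R.z := TVN_bd_proj T R.z_proj
  have hwb : ∀ n, T.Bd 1 (w n) := fun n => T.bd_unitary (K.unit n)
  have main : ∀ m', m₀ ≤ m' →
      T.n2 (w m' * R.U f * star (w m') * (w m * R.z) - w m * R.U f) ≤ ε := by
    intro m' hm'
    have hwn : star (w m') * w m' = 1 := Unitary.star_mul_self_of_mem (K.unit m')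
    have hwn' : w m' * star (w m') = 1 := Unitary.mul_star_self_of_mem (K.unit m')
    set g : N := star (w m') * w m with hgdef
    have hgu : g ∈ unitary N := mul_mem (Unitary.star_mem (K.unit m')) (K.unit m)
    have hgb : T.Bd 1 g := T.bd_unitary hgu
    have hcomm : ∀ s ∈ insert (1 : F) Sf, T.n2 (R.U s * g - g * R.U s) ≤ 2 * ε' := by
      intro s hs
      have e1 := hm₀ m hm s hs
      have e2 := hm₀ m' hm' s hs
      have heq : (star (w m') * Θ (R.U s) * w m') * g = g * (star (w m) * Θ (R.U s) * w m) := by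
        calc (star (w m') * Θ (R.U s) * w m') * g
            = star (w m') * Θ (R.U s) * (w m' * star (w m')) * w m := by
              rw [hgdef]; simp only [mul_assoc]
          _ = star (w m') * (w m * star (w m)) * Θ (R.U s) * w m := by
              rw [hwn', hwm']; simp only [mul_one]
          _ = g * (star (w m) * Θ (R.U s) * w m) := by
              rw [hgdef]; simp only [mul_assoc]
      have hdec : R.U s * g - g * R.U s =
          g * (star (w m) * Θ (R.U s) * w m - R.U s) -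
            (star (w m') * Θ (R.U s) * w m' - R.U s) * g := by
        rw [mul_sub, sub_mul, heq]
        abel
      rw [hdec]
      have h1 := T.bd_le 1 g hgb (star (w m) * Θ (R.U s) * w m - R.U s)
      have h2 := TVN_mul_le T hgb (star (w m') * Θ (R.U s) * w m' - R.U s)
      have h3 := T.n2_sub_le (g * (star (w m) * Θ (R.U s) * w m - R.U s))
        ((star (w m') * Θ (R.U s) * w m' - R.U s) * g)
      linarith
    have hz1 : T.n2 (R.z * g - g * R.z) ≤ 2 * ε' := by
      have := hcomm 1 (Finset.mem_insert_self _ _)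
      rwa [R.U_one] at this
    set ζ : N := R.z * g * R.z with hζ
    have hζz : R.z * ζ * R.z = ζ := by
      calc R.z * ζ * R.z = (R.z * R.z) * g * (R.z * R.z) := by
            rw [hζ]; simp only [mul_assoc]
        _ = ζ := by rw [R.z_mul_z]
    have hgζ : T.n2 (ζ - g * R.z) ≤ 2 * ε' := by
      have heq : ζ - g * R.z = (R.z * g - g * R.z) * R.z := by
        rw [sub_mul, mul_assoc g, R.z_mul_z]
      rw [heq]
      have := TVN_mul_le T hzb (R.z * g - g * R.z)
      linarith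
    have hUζ : ∀ s : F, R.U s * ζ = R.U s * g * R.z := by
      intro s
      rw [hζ, ← mul_assoc, ← mul_assoc, R.U_mul_z]
    have hUs : ∀ s : F, R.U s * star (R.U s) = R.z := by
      intro s
      rw [R.U_star, ← R.U_mul, mul_inv_cancel, R.U_one]
    have hzs : ∀ s : F, R.z * star (R.U s) = star (R.U s) := by
      intro s
      rw [R.U_star, R.z_mul_U]
    have hδ : ∀ s ∈ Sf, T.n2 (R.U s * ζ * star (R.U s) - ζ) ≤ 4 * ε' := by
      intro s hs
      have h1 := hcomm s (Finset.mem_insert_of_mem hs)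
      have hsb : T.Bd 1 (star (R.U s)) := T.bd_star 1 _ (R.U_bd s)
      have heq : R.U s * ζ * star (R.U s) - ζ =
          (R.U s * g - g * R.U s) * star (R.U s) - (ζ - g * R.z) := by
        rw [hUζ, mul_assoc (R.U s * g), hzs, sub_mul, mul_assoc g, hUs]
        abel
      rw [heq]
      have h2 := TVN_mul_le T hsb (R.U s * g - g * R.U s)
      have h3 := T.n2_sub_le ((R.U s * g - g * R.U s) * star (R.U s)) (ζ - g * R.z)
      linarith
    have hgap := R.gap_comm hg hζz hδ hε'0 f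
    have hfin : T.n2 (R.U f * g * R.z - g * R.U f) ≤ C₁ * ε' := by
      have heq : R.U f * g * R.z - g * R.U f =
          (R.U f * ζ - ζ * R.U f) + (ζ - g * R.z) * R.U f := by
        rw [hUζ, sub_mul, mul_assoc g, R.z_mul_U]
        abel
      rw [heq]
      have h1 := TVN_mul_le T (R.U_bd f) (ζ - g * R.z)
      have h2 := T.n2_add_le (R.U f * ζ - ζ * R.U f) ((ζ - g * R.z) * R.U f)
      have h3 : C₁ * ε' = 2 * (C * (Sf.card * (4 * ε')) + ε') + 2 * ε' := by
        rw [hC₁]; ring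
      linarith
    have heq : w m' * R.U f * star (w m') * (w m * R.z) - w m * R.U f =
        w m' * (R.U f * g * R.z - g * R.U f) := by
      have h1 : w m' * (g * R.U f) = w m * R.U f := by
        rw [hgdef, ← mul_assoc, ← mul_assoc, hwn', one_mul]
      rw [mul_sub, h1, hgdef]
      simp only [mul_assoc]
    rw [heq]
    have h1 := T.bd_le 1 (w m') (hwb m') (R.U f * g * R.z - g * R.U f)
    linarith
  have hlim := K.lim (R.U f)
  have hwz : T.Bd 1 (w m * R.z) := by
    have := T.bd_mul 1 1 _ _ (hwb m) hzb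
    rwa [one_mul] at this
  have hle : ∀ᶠ m' in atTop, T.n2 (Θ (R.U f) * (w m * R.z) - w m * R.U f) ≤
      T.n2 (w m' * R.U f * star (w m') - Θ (R.U f)) + ε := by
    filter_upwards [eventually_ge_atTop m₀] with m' hm'
    have h1 := main m' hm'
    have heq : Θ (R.U f) * (w m * R.z) - w m * R.U f =
        (w m' * R.U f * star (w m') * (w m * R.z) - w m * R.U f) -
          (w m' * R.U f * star (w m') - Θ (R.U f)) * (w m * R.z) := by
      rw [sub_mul]
      abel
    rw [heq]
    have h2 := TVN_mul_le T hwz (w m' * R.U f * star (w m') - Θ (R.U f))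
    have h3 := T.n2_sub_le (w m' * R.U f * star (w m') * (w m * R.z) - w m * R.U f)
      ((w m' * R.U f * star (w m') - Θ (R.U f)) * (w m * R.z))
    linarith
  have hl : Tendsto (fun m' => T.n2 (w m' * R.U f * star (w m') - Θ (R.U f)) + ε) atTop
      (𝓝 (0 + ε)) := Tendsto.add_const ε hlim
  have := ge_of_tendsto hl hle
  rwa [zero_add] at this

end Pool.Agent.H.MP_e11395_an
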