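import Pool.Agent.H.MP_e11395_an.E.StepA

/-!
# Part E, the upper bound, step B
-/

set_option autoImplicit false

open Filter Topology
open Pool.Agent.H.MP_43b197_an

namespace Pool.Agent.H.MP_e11395_an

variable {N : Type} [Ring N] [StarRing N] [Algebra ℂ N] [StarModule ℂ N] {T : TVN N}
  {w : ℕ → N} {Θ : N →⋆ₐ[ℂ] N} {κ : ℂ}
  {F Q : Type} [Group F] [AddCommGroup Q] {S : TwSys F Q} (R : TwRep T S)

/-- **Step B.** `Θ (W n k) - W n k → 0` uniformly in `k ∈ Hn n`.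

Proof. Otherwise there are `ε > 0` and, for every `n₀`, an `n ≥ n₀` and `k ∈ Hn n` with
`n2 (Θ (W n k) - W n k) > ε`. So there is a sequence `x : ℕ → N`: `x n = W n (k n)` with
`k n ∈ Hn n` chosen with `n2 (Θ (W n (k n)) - W n (k n)) > ε` if there is such a `k`, and
`k n = 0` otherwise. `Bd 1 (x n)` by `W_bd`; it is asymptotically central by `asy`. By `K.cent`
`n2 (Θ (x n) - x n) → 0`, a contradiction as it is `> ε` for infinitely many `n`. -/
theorem stepB (K : Kap T w Θ κ) (ε : ℝ) (hε : 0 < ε) :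
    ∃ n₀, ∀ n, n₀ ≤ n → ∀ k ∈ S.Hn n, T.n2 (Θ (R.W n k) - R.W n k) ≤ ε := by
  by_contra hcon
  push Not at hcon
  have hex : ∀ n, ∃ k ∈ S.Hn n, (∃ k' ∈ S.Hn n, ε < T.n2 (Θ (R.W n k') - R.W n k')) →
      ε < T.n2 (Θ (R.W n k) - R.W n k) := by
    intro n
    by_cases h : ∃ k' ∈ S.Hn n, ε < T.n2 (Θ (R.W n k') - R.W n k')
    · obtain ⟨k, hk, hk'⟩ := h
      exact ⟨k, hk, fun _ => hk'⟩
    · exact ⟨0, (S.Hn n).zero_mem, fun h' => absurd h' h⟩
  choose k hk hk' using hex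
  have hasy : ∀ y, Tendsto (fun n => T.n2 (R.W n (k n) * y - y * R.W n (k n))) atTop (𝓝 0) := by
    intro y
    rw [Metric.tendsto_atTop]
    intro δ hδ
    obtain ⟨n₀, hn₀⟩ := R.asy y δ hδ
    refine ⟨n₀, fun n hn => ?_⟩
    rw [Real.dist_eq, sub_zero, abs_of_nonneg (T.n2_nonneg _)]
    exact hn₀ n hn (k n) (hk n)
  have hlim := K.cent (fun n => R.W n (k n)) 1 (fun n => R.W_bd n (k n) (hk n)) hasy
  obtain ⟨n₀, hn₀⟩ := eventually_atTop.1 (hlim.eventually (gt_mem_nhds hε))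
  obtain ⟨n, hn, k', hk'', hlt⟩ := hcon n₀
  exact absurd (hn₀ n hn) (not_lt.2 (hk' n ⟨k', hk'', hlt⟩).le)

/-- **Steps A and B together.** For every `ε > 0` there are `m` and `n` such that
`Θ (U f) w_m z ≈ w_m U f` for all `f` and `Θ (V k) w_m z ≈ w_m V k` for all `k ∈ Hn n`; moreover
`Θ z w_m z ≈ w_m z`.

Proof. Choose `m` by `stepA` for `ε / 3`; the third claim is the case `f = 1` (`U 1 = z`).
Choose `n` by `stepB` for `ε / 3` and such that
`n2 (W n k * w m - w m * W n k) ≤ ε / 3` for all `k ∈ Hn n` (`asy`). For `k ∈ Hn n`,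
`V k = W n k * z`, so `Θ (V k) = Θ (W n k) * Θ z` and
`Θ (V k) w z = Θ (W n k) (Θ z w z) ≈ Θ (W n k) w z ≈ W n k w z ≈ w (W n k z) = w V k`, where
each step costs `ε / 3` (`Θ (W n k)` and `w`, `z` have `Bd 1`). -/
theorem stepAB (K : Kap T w Θ κ) {Sf : Finset F} {C : ℝ} (hg : R.Gap Sf C) (ε : ℝ) (hε : 0 < ε) :
    ∃ m n, (∀ f, T.n2 (Θ (R.U f) * (w m * R.z) - w m * R.U f) ≤ ε) ∧
      ∀ k ∈ S.Hn n, T.n2 (Θ (R.V k) * (w m * R.z) - w m * R.V k) ≤ ε := by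
  have hε3 : 0 < ε / 3 := by positivity
  obtain ⟨m, hm⟩ := stepA R K hg (ε / 3) hε3
  obtain ⟨n₁, hn₁⟩ := stepB R K (ε / 3) hε3
  obtain ⟨n₂, hn₂⟩ := R.asy (w m) (ε / 3) hε3
  refine ⟨m, max n₁ n₂, fun f => (hm m le_rfl f).trans (by linarith), fun k hk => ?_⟩
  set n := max n₁ n₂ with hn
  have h1 := hn₁ n (le_max_left _ _) k hk
  have h2 := hn₂ n (le_max_right _ _) k hk
  have h3 := hm m le_rfl 1
  rw [R.U_one] at h3
  have hV : R.V k = R.W n k * R.z := (R.W_mul n k hk).symm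
  have hwz : T.Bd 1 (w m * R.z) := by
    have := T.bd_mul 1 1 _ _ (T.bd_unitary (K.unit m)) (TVN_bd_proj T R.z_proj)
    simpa using this
  have e : Θ (R.V k) * (w m * R.z) - w m * R.V k =
      Θ (R.W n k) * (Θ R.z * (w m * R.z) - w m * R.z) +
        ((Θ (R.W n k) - R.W n k) * (w m * R.z) + (R.W n k * w m - w m * R.W n k) * R.z) := by
    rw [hV, map_mul]
    noncomm_ring
  have i1 : T.n2 (Θ (R.W n k) * (Θ R.z * (w m * R.z) - w m * R.z)) ≤ ε / 3 := by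
    have := T.bd_le 1 _ (K.bd (R.W_bd n k hk)) (Θ R.z * (w m * R.z) - w m * R.z)
    linarith
  have i2 : T.n2 ((Θ (R.W n k) - R.W n k) * (w m * R.z)) ≤ ε / 3 := by
    have := TVN_mul_le T hwz (Θ (R.W n k) - R.W n k)
    linarith
  have i3 : T.n2 ((R.W n k * w m - w m * R.W n k) * R.z) ≤ ε / 3 := by
    have := TVN_mul_le T (TVN_bd_proj T R.z_proj) (R.W n k * w m - w m * R.W n k)
    linarith
  rw [e]
  refine (T.n2_add_le _ _).trans ?_
  have := T.n2_add_le ((Θ (R.W n k) - R.W n k) * (w m * R.z))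
    ((R.W n k * w m - w m * R.W n k) * R.z)
  linarith

end Pool.Agent.H.MP_e11395_an
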