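import Pool.Agent.H.MP_e11395_an.E.StepB
import Pool.Agent.H.MP_e11395_an.E.Avg

/-!
# Part E, the upper bound, step C1: averaging
-/

set_option autoImplicit false

open Filter Topology
open Pool.Agent.H.MP_43b197_an

namespace Pool.Agent.H.MP_e11395_an

variable {N : Type} [Ring N] [StarRing N] [Algebra ℂ N] [StarModule ℂ N] {T : TVN N}
  {w : ℕ → N} {Θ : N →⋆ₐ[ℂ] N} {κ : ℂ}
  {F Q : Type} [Group F] [AddCommGroup Q] {S : TwSys F Q} (R : TwRep T S)

/-- The product of two elements `U f * V k` with `k` in the kernel of the action. -/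
theorem StepC1_mul {k : Q} (hk : k ∈ S.K) (f f' : F) (k' : Q) :
    R.U f * R.V k * (R.U f' * R.V k') = S.b k k' • (R.U (f * f') * R.V (k + k')) := by
  calc R.U f * R.V k * (R.U f' * R.V k')
      = R.U f * (R.V k * R.U f') * R.V k' := by simp only [mul_assoc]
    _ = R.U f * R.U f' * (R.V k * R.V k') := by rw [R.VU, hk f']; simp only [mul_assoc]
    _ = _ := by rw [R.V_mul, ← R.U_mul, mul_smul_comm]

/-- The element `U f * V k` for `g = (f, k)`. -/
noncomputable def StepC1_y (n : ℕ) (g : F × Multiplicative (S.Hn n)) : N :=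
  R.U g.1 * R.V ((Multiplicative.toAdd g.2 : S.Hn n) : Q)

theorem StepC1_y_mul (n : ℕ) (g h : F × Multiplicative (S.Hn n)) :
    StepC1_y R n g * StepC1_y R n h =
      S.b ((Multiplicative.toAdd g.2 : S.Hn n) : Q) ((Multiplicative.toAdd h.2 : S.Hn n) : Q) •
        StepC1_y R n (g * h) :=
  StepC1_mul R (S.Hn_le_K n (Multiplicative.toAdd g.2 : S.Hn n).2) _ _ _

theorem StepC1_star_mul (n : ℕ) (g : F × Multiplicative (S.Hn n)) :
    star (StepC1_y R n g) * StepC1_y R n g = R.z := by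
  rw [StepC1_y, star_mul, R.U_star]
  calc star (R.V ((Multiplicative.toAdd g.2 : S.Hn n) : Q)) * R.U g.1⁻¹ *
        (R.U g.1 * R.V ((Multiplicative.toAdd g.2 : S.Hn n) : Q))
      = star (R.V ((Multiplicative.toAdd g.2 : S.Hn n) : Q)) * ((R.U g.1⁻¹ * R.U g.1) *
        R.V ((Multiplicative.toAdd g.2 : S.Hn n) : Q)) := by simp only [mul_assoc]
    _ = _ := by rw [← R.U_mul, inv_mul_cancel, R.U_one, R.z_mul_V, R.V_star_mul]

theorem StepC1_y_bd (n : ℕ) (g : F × Multiplicative (S.Hn n)) : T.Bd 1 (StepC1_y R n g) :=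
  T.bd_pisom _ (by rw [StepC1_star_mul]; exact R.z_proj)

/-- The action of the group `F × Hn n`. -/
noncomputable def StepC1_r (Θ : N →⋆ₐ[ℂ] N) (n : ℕ) (g : F × Multiplicative (S.Hn n)) :
    N →ₗ[ℂ] N :=
  (LinearMap.mulRight ℂ (star (StepC1_y R n g))).comp
    (LinearMap.mulLeft ℂ (Θ (StepC1_y R n g)))

theorem StepC1_r_apply (Θ : N →⋆ₐ[ℂ] N) (n : ℕ) (g : F × Multiplicative (S.Hn n)) (x : N) :
    StepC1_r R Θ n g x = Θ (StepC1_y R n g) * x * star (StepC1_y R n g) := rfl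

theorem StepC1_r_mul (Θ : N →⋆ₐ[ℂ] N) (n : ℕ) (g h : F × Multiplicative (S.Hn n)) (x : N) :
    StepC1_r R Θ n (g * h) x = StepC1_r R Θ n g (StepC1_r R Θ n h x) := by
  set c : ℂ :=
    S.b ((Multiplicative.toAdd g.2 : S.Hn n) : Q) ((Multiplicative.toAdd h.2 : S.Hn n) : Q)
    with hc
  have hn : ‖c‖ = 1 := S.b_norm _ _
  have h1 : c * star c = 1 := by
    rw [Complex.star_def, Complex.mul_conj, Complex.normSq_eq_norm_sq, hn]
    norm_num
  have hmul := StepC1_y_mul R n g h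
  rw [← hc] at hmul
  rw [StepC1_r_apply, StepC1_r_apply, StepC1_r_apply]
  have e1 : Θ (StepC1_y R n g) * (Θ (StepC1_y R n h) * x * star (StepC1_y R n h)) *
      star (StepC1_y R n g) =
      Θ (StepC1_y R n g * StepC1_y R n h) * x * star (StepC1_y R n g * StepC1_y R n h) := by
    rw [map_mul, star_mul]
    simp only [mul_assoc]
  rw [e1, hmul, map_smul, star_smul, smul_mul_assoc, smul_mul_assoc, mul_smul_comm, smul_smul,
    h1, one_smul]

theorem StepC1_one (n : ℕ) : StepC1_y R n 1 = R.z := by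
  have : StepC1_y R n 1 = R.U 1 * R.V 0 := rfl
  rw [this, R.U_one, R.V_zero, R.z_mul_z]

/-- **Step C1.** There is a nonzero intertwiner for `F` and some `Hn n`.

Proof. Let `ε > 0` be such that `4 * ε < √t` where `√t = n2 z` (`n2_sq`, `tr_one`), and `m`, `n`
from `stepAB` for `ε`. Let `G = F × Multiplicative (S.Hn n)` and, for `g = (f, k)`, let
`y g = U f * V k` and `r g x = Θ (y g) * x * star (y g)`, a linear map. `r (g * g') = r g ∘ r g'`:
`U f V k U f' V k' = U f U (act k f') V k V k' = b k k' • U (f f') V (k + k')` and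
`b * star b = 1` (`‖b‖ = 1`). `n2 (r g x) ≤ n2 x` and `r g` preserves `Bd C`, since `y g` has
`Bd 1`. Let `ξ = w m * z`: `Bd 1`. `n2 (r g ξ - ξ) ≤ 3 * ε`:
`Θ (U f) Θ (V k) w z (V k)* (U f)*`, `Θ (V k) w z ≈ w V k`, `V k (V k)* = z`,
`Θ (U f) w z ≈ w U f`, `U f (U f)* = z`. So by `TVN_avg` there is `V'` with `Bd 1`,
`n2 (V' - ξ) ≤ 3 ε`, fixed by all `r g`; `n2 ξ = n2 z = √t > 3 ε`, so `V' ≠ 0`. With `g = 1`:
`Θ z * V' * z = V'`. With `g = (f, 0)`: `Θ (U f) V' (U f)* = V'`; multiply by `U f`: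
`Θ (U f) V' z = V' U f`, and `V' z = V'`. Similarly for `V k`. -/
theorem stepC1 (K : Kap T w Θ κ) {Sf : Finset F} {C : ℝ} (hg : R.Gap Sf C) :
    ∃ (n : ℕ) (X : N), X ≠ 0 ∧ Θ R.z * X * R.z = X ∧ (∀ f, Θ (R.U f) * X = X * R.U f) ∧
      ∀ k ∈ S.Hn n, Θ (R.V k) * X = X * R.V k := by
  have hz2 : T.n2 R.z ^ 2 = R.t := by
    rw [T.n2_sq, R.z_star, R.z_mul_z, R.tr_one, Complex.ofReal_re]
  have hz0 : 0 < T.n2 R.z := by
    rcases (T.n2_nonneg R.z).lt_or_eq with h | h
    · exact h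
    · have := R.t_pos
      rw [← hz2, ← h] at this
      norm_num at this
  set ε : ℝ := T.n2 R.z / 3 with hε
  have hε0 : 0 < ε := by positivity
  obtain ⟨m, n, hU, hV⟩ := stepAB R K hg ε hε0
  have hwz : T.Bd 1 (w m * R.z) := by
    have := T.bd_mul 1 1 _ _ (T.bd_unitary (K.unit m)) (TVN_bd_proj T R.z_proj)
    simpa using this
  have hΘy : ∀ g, T.Bd 1 (Θ (StepC1_y R n g)) := fun g => K.bd (StepC1_y_bd R n g)
  have hsy : ∀ g, T.Bd 1 (star (StepC1_y R n g)) := fun g => T.bd_star _ _ (StepC1_y_bd R n g)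
  obtain ⟨X, hXb, hXn, hXf⟩ := TVN_avg T (StepC1_r R Θ n) (StepC1_r_mul R Θ n)
    (by
      intro g x
      rw [StepC1_r_apply]
      have h1 := TVN_mul_le T (hsy g) (Θ (StepC1_y R n g) * x)
      have h2 := T.bd_le 1 _ (hΘy g) x
      linarith)
    (by
      intro g C x hx
      rw [StepC1_r_apply]
      have := T.bd_mul _ _ _ _ (T.bd_mul _ _ _ _ (hΘy g) hx) (hsy g)
      rwa [one_mul, mul_one] at this)
    (C := 1) (δ := 2 * ε) (w m * R.z) hwz
    (by
      intro g
      obtain ⟨f, k⟩ := g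
      rw [StepC1_r_apply]
      have hk : ((Multiplicative.toAdd k : S.Hn n) : Q) ∈ S.Hn n :=
        (Multiplicative.toAdd k : S.Hn n).2
      have hy : StepC1_y R n (f, k) = R.U f * R.V ((Multiplicative.toAdd k : S.Hn n) : Q) := rfl
      rw [hy]
      generalize ((Multiplicative.toAdd k : S.Hn n) : Q) = q at hk
      have e : Θ (R.U f * R.V q) * (w m * R.z) * star (R.U f * R.V q) - w m * R.z =
          Θ (R.U f) * ((Θ (R.V q) * (w m * R.z) - w m * R.V q) * (star (R.V q) * star (R.U f))) +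
            (Θ (R.U f) * (w m * R.z) - w m * R.U f) * star (R.U f) := by
        have e1 : Θ (R.U f) * (w m * R.V q * (star (R.V q) * star (R.U f))) =
            Θ (R.U f) * (w m * R.z) * star (R.U f) := by
          rw [← R.V_mul_star q]; simp only [mul_assoc]
        have e2 : w m * R.U f * star (R.U f) = w m * R.z := by
          rw [R.U_star, mul_assoc, ← R.U_mul, mul_inv_cancel, R.U_one]
        rw [sub_mul, mul_sub, e1, sub_mul, e2, map_mul, star_mul]
        simp only [mul_assoc]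
        abel
      rw [e]
      have b1 : T.Bd 1 (star (R.V q) * star (R.U f)) := by
        have := T.bd_mul _ _ _ _ (T.bd_star _ _ (R.V_bd q)) (T.bd_star _ _ (R.U_bd f))
        rwa [one_mul] at this
      have i1 := T.bd_le 1 _ (K.bd (R.U_bd f))
        ((Θ (R.V q) * (w m * R.z) - w m * R.V q) * (star (R.V q) * star (R.U f)))
      have i2 := TVN_mul_le T b1 (Θ (R.V q) * (w m * R.z) - w m * R.V q)
      have i3 := TVN_mul_le T (T.bd_star _ _ (R.U_bd f)) (Θ (R.U f) * (w m * R.z) - w m * R.U f)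
      have i4 := hU f
      have i5 := hV q hk
      have i6 := T.n2_add_le
        (Θ (R.U f) * ((Θ (R.V q) * (w m * R.z) - w m * R.V q) * (star (R.V q) * star (R.U f))))
        ((Θ (R.U f) * (w m * R.z) - w m * R.U f) * star (R.U f))
      linarith)
  have h1 : Θ R.z * X * R.z = X := by
    have := hXf 1
    rwa [StepC1_r_apply, StepC1_one, R.z_star] at this
  have hXz : X * R.z = X := by
    rw [← h1, mul_assoc, R.z_mul_z]
  refine ⟨n, X, ?_, h1, fun f => ?_, fun k hk => ?_⟩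
  · rintro rfl
    have hwz2 : T.n2 (w m * R.z) = T.n2 R.z := T.n2_unitary_mul (K.KapL_l m) _
    rw [zero_sub, T.n2_neg, hwz2] at hXn
    linarith
  · have hf := hXf (f, 1)
    have hy : StepC1_y R n (f, 1) = R.U f := by
      have : StepC1_y R n (f, 1) = R.U f * R.V 0 := rfl
      rw [this, R.V_zero, R.U_mul_z]
    rw [StepC1_r_apply, hy] at hf
    have hs : star (R.U f) * R.U f = R.z := by
      rw [R.U_star, ← R.U_mul, inv_mul_cancel, R.U_one]
    calc Θ (R.U f) * X = Θ (R.U f) * (X * R.z) := by rw [hXz]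
      _ = Θ (R.U f) * X * star (R.U f) * R.U f := by rw [← hs]; simp only [mul_assoc]
      _ = X * R.U f := by rw [hf]
  · have hf := hXf (1, Multiplicative.ofAdd ⟨k, hk⟩)
    have hy : StepC1_y R n (1, Multiplicative.ofAdd ⟨k, hk⟩) = R.V k := by
      have : StepC1_y R n (1, Multiplicative.ofAdd ⟨k, hk⟩) = R.U 1 * R.V k := rfl
      rw [this, R.U_one, R.z_mul_V]
    rw [StepC1_r_apply, hy] at hf
    calc Θ (R.V k) * X = Θ (R.V k) * (X * R.z) := by rw [hXz]
      _ = Θ (R.V k) * X * star (R.V k) * R.V k := by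
        rw [← R.V_star_mul k]; simp only [mul_assoc]
      _ = X * R.V k := by rw [hf]

end Pool.Agent.H.MP_e11395_an
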