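import Pool.Agent.H.MP_e11395_an.E.Tw

/-!
# Part E, the upper bound, step D1: the commutant
-/

set_option autoImplicit false

open Filter Topology
open Pool.Agent.H.MP_43b197_an

namespace Pool.Agent.H.MP_e11395_an

variable {N : Type} [Ring N] [StarRing N] [Algebra ℂ N] [StarModule ℂ N] {T : TVN N}
  {w : ℕ → N} {Θ : N →⋆ₐ[ℂ] N} {κ : ℂ}
  {F Q : Type} [Group F] [AddCommGroup Q] {S : TwSys F Q} (R : TwRep T S)

/-- The trace against `V k`, `k` in the kernel of the action. -/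
theorem StepD1_tr {y : N} (hy : y * R.z = y) (hV : ∀ q, R.V q * y = y * R.V q) {k : Q}
    (hk : k ∈ S.K) (hk0 : k ≠ 0) : T.tr (star (R.V k) * y) = 0 := by
  obtain ⟨q, hq⟩ : ∃ q, S.b k q ≠ S.b q k := by
    by_contra hcon
    push Not at hcon
    exact hk0 (S.nondeg k hk hcon)
  have hβ : S.β k q ≠ 1 := fun h => hq ((S.β_eq_one_iff k q).1 h)
  have h1 : star (R.V q) * R.V k * R.V q = S.β k q • R.V k := by
    rw [mul_assoc, R.VV k q, mul_smul_comm, ← mul_assoc, R.V_star_mul, R.z_mul_V]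
  have h2 : star (R.V q) * star (R.V k) * R.V q = (starRingEnd ℂ) (S.β k q) • star (R.V k) := by
    have h3 := congrArg star h1
    rw [star_mul, star_mul, star_star, star_smul, ← mul_assoc] at h3
    exact h3
  have h4 : y = R.V q * y * star (R.V q) := by
    rw [hV q, mul_assoc, R.V_mul_star, hy]
  have h5 : T.tr (star (R.V k) * y) = (starRingEnd ℂ) (S.β k q) * T.tr (star (R.V k) * y) := by
    calc T.tr (star (R.V k) * y) = T.tr (star (R.V k) * (R.V q * y * star (R.V q))) := by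
          rw [← h4]
      _ = T.tr ((star (R.V k) * (R.V q * y)) * star (R.V q)) := by
          rw [mul_assoc (star (R.V k))]
      _ = T.tr (star (R.V q) * (star (R.V k) * (R.V q * y))) := T.comm _ _
      _ = T.tr ((star (R.V q) * star (R.V k) * R.V q) * y) := by
          rw [mul_assoc, mul_assoc]
      _ = _ := by rw [h2, smul_mul_assoc, map_smul, smul_eq_mul]
  have h6 : (1 - (starRingEnd ℂ) (S.β k q)) * T.tr (star (R.V k) * y) = 0 := by
    rw [sub_mul, one_mul, ← h5, sub_self]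
  rcases mul_eq_zero.1 h6 with h | h
  · exfalso
    apply hβ
    have h7 : (starRingEnd ℂ) (S.β k q) = 1 := (sub_eq_zero.1 h).symm
    have h8 := congrArg (starRingEnd ℂ) h7
    rwa [Complex.conj_conj, map_one] at h8
  · exact h

/-- **Step D1.** An element of the corner which commutes with the `U s`, `s ∈ Sf`, and with all
`V q` is a scalar.

Proof. By the gap property (the right side is `C * 0 + ε`, since
`U s x (U s)* = x U s (U s)* = x z = x`) for every `ε > 0` there is `d : Q →₀ ℂ`, supported in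
`K`, with `n2 (x - vlt d) ≤ ε`. Let `a k = (1 / t) * tr (star (V k) * x)`. For `k ∈ K`, `k ≠ 0`:
`a k = 0`, because by `nondeg` there is `q` with `β k q ≠ 1` and
`tr (star (V k) x) = tr (star (V k) x z) = tr (star (V k) V q x (V q)*)`
`= tr ((V q)* star (V k) V q x)`, where `(V q)* star (V k) V q` is `star` of
`(V q)* V k V q = β k q • V k` ... a scalar `≠ 1` times `star (V k)`. So
`n2 (vlt d - d 0 • z) ^ 2 = t * ∑_{k ≠ 0} ‖d k‖ ^ 2`, and
`t * ∑_{k ≠ 0} ‖d k‖ ^ 2 ≤ n2 (vlt d - x) ^ 2`: with `e = d` without its value at `0`,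
`tr (star (vlt e) * (vlt d - x)) = t * ∑_{k ≠ 0} ‖d k‖ ^ 2 = n2 (vlt e) ^ 2`, and Cauchy–Schwarz
`norm_tr_le`. So `n2 (x - d 0 • z) ≤ 2 ε`. Also
`‖a 0 - d 0‖ * t = ‖tr (star z * (x - vlt d))‖ ≤ √t * ε`. So
`n2 (x - a 0 • z) ≤ 2 ε + ε` for every `ε`, and `x = a 0 • z` (`n2_eq_zero`). -/
theorem stepD1 {Sf : Finset F} {C : ℝ} (hg : R.Gap Sf C) {x : N} (hx : R.z * x * R.z = x)
    (hU : ∀ s ∈ Sf, R.U s * x = x * R.U s) (hV : ∀ q, R.V q * x = x * R.V q) :
    ∃ a : ℂ, x = a • R.z := by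
  have ht : (R.t : ℂ) ≠ 0 := by exact_mod_cast R.t_pos.ne'
  obtain ⟨a, ha⟩ : ∃ a, a = T.tr x / R.t := ⟨_, rfl⟩
  refine ⟨a, ?_⟩
  have hxz : x * R.z = x := by
    conv_lhs => rw [← hx]
    rw [mul_assoc, R.z_mul_z, hx]
  have hzx : R.z * x = x := by
    conv_lhs => rw [← hx]
    rw [← mul_assoc, ← mul_assoc, R.z_mul_z, hx]
  obtain ⟨y, hy⟩ : ∃ y, y = x - a • R.z := ⟨_, rfl⟩
  have hyz : y * R.z = y := by
    rw [hy, sub_mul, hxz, smul_mul_assoc, R.z_mul_z]
  have hzy : R.z * y = y := by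
    rw [hy, mul_sub, hzx, mul_smul_comm, R.z_mul_z]
  have hzyz : R.z * y * R.z = y := by rw [hzy, hyz]
  have hyU : ∀ s ∈ Sf, R.U s * y = y * R.U s := by
    intro s hs
    rw [hy, mul_sub, sub_mul, hU s hs, mul_smul_comm, smul_mul_assoc, R.U_mul_z, R.z_mul_U]
  have hyV : ∀ q, R.V q * y = y * R.V q := by
    intro q
    rw [hy, mul_sub, sub_mul, hV q, mul_smul_comm, smul_mul_assoc, R.V_mul_z, R.z_mul_V]
  have htr : ∀ k ∈ S.K, T.tr (star (R.V k) * y) = 0 := by
    intro k hk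
    by_cases hk0 : k = 0
    · rw [hk0, R.V_zero, R.z_star, hzy, hy, map_sub, map_smul, R.tr_one, ha, smul_eq_mul,
        div_mul_cancel₀ _ ht, sub_self]
    · exact StepD1_tr R hyz hyV hk hk0
  have htr2 : ∀ d : Q →₀ ℂ, (∀ k, d k ≠ 0 → k ∈ S.K) → T.tr (star y * R.vlt d) = 0 := by
    intro d hd
    rw [TwRep.vlt, Finsupp.sum, Finset.mul_sum, map_sum]
    refine Finset.sum_eq_zero fun k hk => ?_
    have h1 := htr k (hd k (Finsupp.mem_support_iff.1 hk))
    have h2 := T.tr_star (star (R.V k) * y)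
    rw [h1, star_mul, star_star, map_zero] at h2
    rw [mul_smul_comm, map_smul, h2, smul_zero]
  have hsmall : ∀ ε : ℝ, 0 < ε → T.n2 y ≤ ε := by
    intro ε hε
    obtain ⟨d, hd, hle⟩ := hg.2 y hzyz ε hε
    have h0 : ∑ s ∈ Sf, T.n2 (R.U s * y * star (R.U s) - y) = 0 := by
      refine Finset.sum_eq_zero fun s hs => ?_
      rw [hyU s hs, mul_assoc, R.U_star, ← R.U_mul, mul_inv_cancel, R.U_one, hyz, sub_self,
        T.n2_zero]
    rw [h0, mul_zero, zero_add] at hle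
    have h1 : ((T.n2 y ^ 2 : ℝ) : ℂ) = T.tr (star y * (y - R.vlt d)) := by
      rw [mul_sub, map_sub, htr2 d hd, sub_zero, T.tr_star_mul_self]
    have h2 : T.n2 y ^ 2 ≤ T.n2 y * T.n2 (y - R.vlt d) := by
      have h3 := T.norm_tr_le y (y - R.vlt d)
      rw [← h1, Complex.norm_real, Real.norm_of_nonneg (sq_nonneg _)] at h3
      exact h3
    rcases (T.n2_nonneg y).eq_or_lt with h | h
    · rw [← h]
      exact hε.le
    · have h4 : T.n2 y * T.n2 y ≤ T.n2 y * ε := by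
        calc T.n2 y * T.n2 y = T.n2 y ^ 2 := by ring
          _ ≤ T.n2 y * T.n2 (y - R.vlt d) := h2
          _ ≤ T.n2 y * ε := mul_le_mul_of_nonneg_left hle h.le
      exact le_of_mul_le_mul_left h4 h
  have hy0 : T.n2 y = 0 := by
    refine le_antisymm ?_ (T.n2_nonneg y)
    exact le_of_forall_pos_le_add fun ε hε => by
      rw [zero_add]
      exact hsmall ε hε
  have hy1 : y = 0 := T.n2_eq_zero.1 hy0
  rw [hy, sub_eq_zero] at hy1
  exact hy1

end Pool.Agent.H.MP_e11395_an
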