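import Pool.Agent.H.MP_e11395_an.E.KapL

/-!
# Part E, the upper bound, step E1
-/

set_option autoImplicit false

open Filter Topology
open Pool.Agent.H.MP_43b197_an

namespace Pool.Agent.H.MP_e11395_an

variable {N : Type} [Ring N] [StarRing N] [Algebra ℂ N] [StarModule ℂ N] {T : TVN N}
  {w : ℕ → N} {Θ : N →⋆ₐ[ℂ] N} {κ : ℂ}
  {F Q : Type} [Group F] [AddCommGroup Q] {S : TwSys F Q} (R : TwRep T S)

omit [StarModule ℂ N] in
theorem StepE1_zero_of {T : TrState N} {x : N} (h : star x * x = 0) : x = 0 := by
  apply T.faithful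
  rw [h, map_zero, Complex.zero_re]

/-- `W z = W`. -/
theorem StepE1_Wz {W : N} (hW : star W * W = R.z) : W * R.z = W := by
  have h1 : star (W - W * R.z) * (W - W * R.z) = 0 := by
    rw [star_sub, star_mul, R.z_star]
    have e : (star W - R.z * star W) * (W - W * R.z) =
        star W * W - star W * W * R.z - (R.z * (star W * W) - R.z * (star W * W) * R.z) := by
      noncomm_ring
    rw [e, hW, R.z_mul_z, R.z_mul_z]
    simp
  exact (sub_eq_zero.1 (StepE1_zero_of (T := T.toTrState) h1)).symm

/-- `Θ z * W = W`. -/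
theorem StepE1_pW {W : N} (hW : star W * W = R.z) (hW' : W * star W = Θ R.z) :
    Θ R.z * W = W := by
  rw [← hW', mul_assoc, hW]
  exact StepE1_Wz R hW

theorem StepE1_star_p {W : N} (hW : star W * W = R.z) (hW' : W * star W = Θ R.z) :
    star W * Θ R.z = star W := by
  have h := congrArg star (StepE1_pW (Θ := Θ) R hW hW')
  rwa [star_mul, ← map_star, R.z_star] at h

theorem StepE1_z_star {W : N} (hW : star W * W = R.z) : R.z * star W = star W := by
  have h := congrArg star (StepE1_Wz R hW)
  rwa [star_mul, R.z_star] at h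

/-- multiplication by contractions on both sides -/
theorem StepE1_le {a b : N} (ha : T.Bd 1 a) (hb : T.Bd 1 b) (x : N) :
    T.n2 (a * x * b) ≤ T.n2 x := by
  have h1 := TVN_mul_le T hb (a * x)
  have h2 := T.bd_le 1 a ha x
  linarith

theorem StepE1_bdW {W : N} (hW : star W * W = R.z) : T.Bd 1 W :=
  T.bd_pisom W (by rw [hW]; exact R.z_proj)

theorem StepE1_tendsto {a : ℕ → ℝ} {b : ℕ → ℝ} (h0 : ∀ m, 0 ≤ a m) (h : ∀ m, a m ≤ b m)
    (hb : Tendsto b atTop (𝓝 0)) : Tendsto a atTop (𝓝 0) :=
  squeeze_zero h0 h hb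

/-- **Step E1.** The elements `Y m = star W * w m * z` of the corner: they are asymptotically of
2-norm `√t`, asymptotically commute with the `U f`, asymptotically satisfy
`c q • V q Y = Y V q`, and `star W * Θ (Y m) * W - κ • Y m → 0`.

Proof. `star W = star W * Θ z` (as `W * star W = Θ z` and `star W * W = z` give
`star W * Θ z = star W W star W = z star W`, and `W z = W (star W W) = Θ z W`; first show
`W z = W`: `n2 (W - W z)`: `star (W - W z) * (W - W z) = z - z z - z z + z z z = 0`, so by
faithfulness; similarly `Θ z * W = W`).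
Norm: `n2 (star W * x) = n2 (Θ z * x)` since `W * star W = Θ z`; `Θ z w m z - w m z → 0`
(`K.inter z`, multiplied by `z`), and `n2 (w m z) = n2 z = √t`.
`U f`: `star W * Θ (U f) = U f * star W` (adjoint of `Θ (U f⁻¹) W = W U f⁻¹`), so
`U f Y m = star W Θ (U f) w m z` and `star W * w m * U f = Y m * U f` (`z U f = U f z`), the
difference is `star W * (Θ (U f) w m - w m U f) * z`; use `K.inter (U f)`.
`V q`: `star W * Θ (V q) = c q • V q * star W` (multiply `Θ (V q) W = c q W V q` by `star W` from
both sides, `W star W = Θ z`), so `c q • V q Y m = star W Θ (V q) w m z`, and again the difference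
to `Y m V q = star W w m V q z` tends to `0`.
Last: `Θ (Y m) = star (Θ W) * Θ (w m) * Θ z`, within `n2 (Θ (w m) - κ • w m)` of
`κ • star (Θ W) * w m * Θ z`; `star (Θ W) * w m - w m * star W → 0` (`K.inter (star W)`), so
`Θ (Y m) - κ • w m * star W * Θ z → 0`, and `star W * (w m * star W * Θ z) * W
= star W * w m * star W * W = Y m`. (`star W` and `W` have `Bd 1`.) -/
theorem stepE1 (K : Kap T w Θ κ) {c : Q → ℂ} {W : N} (hW : star W * W = R.z)
    (hW' : W * star W = Θ R.z) (hU : ∀ f, Θ (R.U f) * W = W * R.U f)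
    (hV : ∀ q, Θ (R.V q) * W = c q • (W * R.V q)) (hc : ∀ q, ‖c q‖ = 1) :
    ∃ Y : ℕ → N, (∀ m, R.z * Y m * R.z = Y m) ∧
      Tendsto (fun m => T.n2 (Y m)) atTop (𝓝 (Real.sqrt R.t)) ∧
      (∀ f, Tendsto (fun m => T.n2 (R.U f * Y m - Y m * R.U f)) atTop (𝓝 0)) ∧
      (∀ q, Tendsto (fun m => T.n2 (c q • (R.V q * Y m) - Y m * R.V q)) atTop (𝓝 0)) ∧
      Tendsto (fun m => T.n2 (star W * Θ (Y m) * W - κ • Y m)) atTop (𝓝 0) := by
  have hWz := StepE1_Wz R hW
  have hpW := StepE1_pW R hW hW'
  have hsp := StepE1_star_p R hW hW'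
  have hzs := StepE1_z_star R hW
  have bW := StepE1_bdW R hW
  have bWs := T.bd_star 1 W bW
  have bz := TVN_bd_proj T R.z_proj
  have bp : T.Bd 1 (Θ R.z) := K.bd bz
  have hsU : ∀ f, star W * Θ (R.U f) = R.U f * star W := by
    intro f
    have h := congrArg star (hU f⁻¹)
    rwa [star_mul, star_mul, ← map_star, R.U_star, inv_inv] at h
  have hsV : ∀ q, star W * Θ (R.V q) = c q • (R.V q * star W) := by
    intro q
    have h : star W * (Θ (R.V q) * W) * star W = star W * (c q • (W * R.V q)) * star W := by
      rw [hV q]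
    have e1 : star W * (Θ (R.V q) * W) * star W = star W * Θ (R.V q) := by
      rw [mul_assoc, mul_assoc, hW', ← map_mul, R.V_mul_z]
    have e2 : star W * (c q • (W * R.V q)) * star W = c q • (R.V q * star W) := by
      rw [mul_smul_comm, smul_mul_assoc, ← mul_assoc, hW, R.z_mul_V]
    rwa [e1, e2] at h
  refine ⟨fun m => star W * w m * R.z, fun m => ?_, ?_, fun f => ?_, fun q => ?_, ?_⟩
  · rw [← mul_assoc, ← mul_assoc, hzs, mul_assoc _ R.z R.z, R.z_mul_z]
  · have h1 : ∀ m, T.n2 (star W * w m * R.z) = T.n2 (Θ R.z * w m * R.z) := by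
      intro m
      unfold TrState.n2
      have e : star (star W * w m * R.z) * (star W * w m * R.z) =
          star (Θ R.z * w m * R.z) * (Θ R.z * w m * R.z) := by
        simp only [star_mul, star_star]
        have e1 : star (Θ R.z) = Θ R.z := by rw [← map_star, R.z_star]
        have e2 : Θ R.z * Θ R.z = Θ R.z := by rw [← map_mul, R.z_mul_z]
        rw [e1]
        calc star R.z * (star (w m) * W) * (star W * w m * R.z)
            = star R.z * star (w m) * (W * star W) * w m * R.z := by noncomm_ring
          _ = star R.z * star (w m) * (Θ R.z * Θ R.z) * w m * R.z := by rw [hW', e2]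
          _ = star R.z * (star (w m) * Θ R.z) * (Θ R.z * w m * R.z) := by noncomm_ring
      rw [e]
    have h2 : ∀ m, T.n2 (w m * R.z) = Real.sqrt R.t := by
      intro m
      rw [T.n2_unitary_mul (Unitary.star_mul_self_of_mem (K.unit m))]
      unfold TrState.n2
      rw [R.z_star, R.z_mul_z, R.tr_one, Complex.ofReal_re]
    have h3 : ∀ m, |T.n2 (star W * w m * R.z) - Real.sqrt R.t| ≤
        T.n2 (Θ R.z * w m - w m * R.z) := by
      intro m
      rw [h1, ← h2 m]
      refine (T.abs_n2_sub_n2_le _ _).trans ?_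
      have e : Θ R.z * w m * R.z - w m * R.z = (Θ R.z * w m - w m * R.z) * R.z := by
        rw [sub_mul, mul_assoc (w m), R.z_mul_z]
      rw [e]
      have h4 := TVN_mul_le T bz (Θ R.z * w m - w m * R.z)
      linarith
    rw [tendsto_iff_dist_tendsto_zero]
    refine StepE1_tendsto (fun m => dist_nonneg) (fun m => ?_) (K.inter R.z)
    rw [Real.dist_eq]
    exact h3 m
  · refine StepE1_tendsto (fun m => T.n2_nonneg _) (fun m => ?_) (K.inter (R.U f))
    have e : R.U f * (star W * w m * R.z) - star W * w m * R.z * R.U f =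
        star W * (Θ (R.U f) * w m - w m * R.U f) * R.z := by
      calc R.U f * (star W * w m * R.z) - star W * w m * R.z * R.U f
          = R.U f * star W * w m * R.z - star W * w m * (R.z * R.U f) := by noncomm_ring
        _ = star W * Θ (R.U f) * w m * R.z - star W * w m * (R.U f * R.z) := by
            rw [hsU, R.z_mul_U, R.U_mul_z]
        _ = star W * (Θ (R.U f) * w m - w m * R.U f) * R.z := by noncomm_ring
    rw [e]
    exact StepE1_le bWs bz _
  · refine StepE1_tendsto (fun m => T.n2_nonneg _) (fun m => ?_) (K.inter (R.V q))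
    have e : c q • (R.V q * (star W * w m * R.z)) - star W * w m * R.z * R.V q =
        star W * (Θ (R.V q) * w m - w m * R.V q) * R.z := by
      calc c q • (R.V q * (star W * w m * R.z)) - star W * w m * R.z * R.V q
          = (c q • (R.V q * star W)) * w m * R.z - star W * w m * (R.z * R.V q) := by
            rw [smul_mul_assoc, smul_mul_assoc]
            noncomm_ring
        _ = star W * Θ (R.V q) * w m * R.z - star W * w m * (R.V q * R.z) := by
            rw [hsV, R.z_mul_V, R.V_mul_z]
        _ = star W * (Θ (R.V q) * w m - w m * R.V q) * R.z := by noncomm_ring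
    rw [e]
    exact StepE1_le bWs bz _
  · have hlim : Tendsto (fun m => T.n2 (Θ (w m) - κ • w m) +
        ‖κ‖ * T.n2 (Θ (star W) * w m - w m * star W)) atTop (𝓝 0) := by
      have h := K.kap.add ((K.inter (star W)).const_mul ‖κ‖)
      rwa [mul_zero, add_zero] at h
    refine StepE1_tendsto (fun m => T.n2_nonneg _) (fun m => ?_) hlim
    have e : star W * Θ (star W * w m * R.z) * W - κ • (star W * w m * R.z) =
        star W * (Θ (star W) * (Θ (w m) - κ • w m) * Θ R.z) * W +
          κ • (star W * ((Θ (star W) * w m - w m * star W) * Θ R.z) * W) := by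
      rw [map_mul, map_mul]
      have e1 : star W * ((Θ (star W) * w m - w m * star W) * Θ R.z) * W =
          star W * Θ (star W) * w m * (Θ R.z * W) - star W * w m * (star W * (Θ R.z * W)) := by
        noncomm_ring
      have e2 : star W * (Θ (star W) * (Θ (w m) - κ • w m) * Θ R.z) * W =
          star W * Θ (star W) * Θ (w m) * (Θ R.z * W) -
            κ • (star W * Θ (star W) * w m * (Θ R.z * W)) := by
        rw [mul_sub, sub_mul, mul_sub, sub_mul, mul_smul_comm, smul_mul_assoc, mul_smul_comm,
          smul_mul_assoc]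
        noncomm_ring
      rw [e1, e2, hpW, hW, smul_sub]
      have e3 : star W * (Θ (star W) * Θ (w m) * Θ R.z) * W =
          star W * Θ (star W) * Θ (w m) * (Θ R.z * W) := by noncomm_ring
      rw [e3, hpW]
      abel
    rw [e]
    refine (T.n2_add_le _ _).trans (add_le_add ?_ ?_)
    · refine (StepE1_le bWs bW _).trans ?_
      have b1 : T.Bd 1 (Θ (star W)) := K.bd bWs
      exact StepE1_le b1 bp _
    · rw [T.n2_smul]
      refine mul_le_mul_of_nonneg_left ?_ (norm_nonneg _)
      refine (StepE1_le bWs bW _).trans ?_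
      have h := TVN_mul_le T bp (Θ (star W) * w m - w m * star W)
      linarith

end Pool.Agent.H.MP_e11395_an
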