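import Pool.Agent.H.MP_e11395_an.E.Mbl

/-!
# Part E: tensor products of Weyl matrices in a tower
-/

set_option autoImplicit false
set_option linter.unusedSectionVars false

open Filter Topology
open Pool.Agent.H.MP_43b197_an

namespace Pool.Agent.H.MP_e11395_an

namespace Tow

variable (P : Tow)

/-- `1 ⊗ W(w n) ⊗ ... ⊗ W(w (m-1))` in the matrices of size `ρ m`: the unit if `m ≤ n`. -/
noncomputable def tens (n : ℕ) : ∀ m, Wy P.μ → Matrix (Fin (P.ρ m)) (Fin (P.ρ m)) ℂ
  | 0, _ => 1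
  | m + 1, w => if m < n then 1 else P.mbl m (Wl (P.μ m) (w m)) (tens n m w)

theorem tens_of_le {n m : ℕ} (h : m ≤ n) (w : Wy P.μ) : P.tens n m w = 1 := by
  cases m with
  | zero => rfl
  | succ m => rw [tens, if_pos (Nat.lt_of_succ_le h)]

theorem tens_succ {n m : ℕ} (h : n ≤ m) (w : Wy P.μ) :
    P.tens n (m + 1) w = P.mbl m (Wl (P.μ m) (w m)) (P.tens n m w) := by
  rw [tens, if_neg (not_lt.2 h)]

/-- At the next stage, if `w m = 0`. -/
theorem tens_succ' {n m : ℕ} (h : n ≤ m) {w : Wy P.μ} (hw : w m = 0) :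
    P.tens n (m + 1) w = P.mbl m 1 (P.tens n m w) := by
  rw [tens_succ P h, hw, Wl_zero]

/-- By induction on `m`, with `Wl_mul`, `mbl_mul`, `mbl_smul`. -/
theorem tens_mul (n m : ℕ) (w w' : Wy P.μ) : P.tens n m w * P.tens n m w' =
    (∏ l ∈ Finset.Ico n m, ch (P.μ l) ((w l).2 * (w' l).1)) • P.tens n m (w + w') := by
  induction m with
  | zero =>
    change (1 : Matrix (Fin (P.ρ 0)) (Fin (P.ρ 0)) ℂ) * 1 =
      (∏ l ∈ Finset.Ico n 0, ch (P.μ l) ((w l).2 * (w' l).1)) • 1
    rw [Finset.Ico_eq_empty (by omega), Finset.prod_empty, one_smul, one_mul]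
  | succ m ih =>
    by_cases h : n ≤ m
    · rw [tens_succ P h, tens_succ P h, tens_succ P h, mbl_mul, ih, Wl_mul, mbl_smul,
        Finset.prod_Ico_succ_top h, DFinsupp.add_apply, mul_comm (ch _ _)]
    · have h1 : m + 1 ≤ n := by omega
      rw [tens_of_le P h1, tens_of_le P h1, tens_of_le P h1, Finset.Ico_eq_empty (by omega),
        Finset.prod_empty, one_smul, one_mul]

theorem tens_star_mul (n m : ℕ) (w : Wy P.μ) :
    star (P.tens n m w) * P.tens n m w = P.tens n m 0 := by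
  induction m with
  | zero =>
    change star (1 : Matrix (Fin (P.ρ 0)) (Fin (P.ρ 0)) ℂ) * 1 = 1
    rw [star_one, one_mul]
  | succ m ih =>
    by_cases h : n ≤ m
    · rw [tens_succ P h, mbl_star, mbl_mul, Wl_star_mul, ih, tens_succ' P h (w := 0) rfl]
    · have h1 : m + 1 ≤ n := by omega
      rw [tens_of_le P h1, tens_of_le P h1, star_one, one_mul]

theorem tens_mul_star (n m : ℕ) (w : Wy P.μ) :
    P.tens n m w * star (P.tens n m w) = P.tens n m 0 := by
  induction m with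
  | zero =>
    change (1 : Matrix (Fin (P.ρ 0)) (Fin (P.ρ 0)) ℂ) * star 1 = 1
    rw [star_one, one_mul]
  | succ m ih =>
    by_cases h : n ≤ m
    · rw [tens_succ P h, mbl_star, mbl_mul, Wl_mul_star, ih, tens_succ' P h (w := 0) rfl]
    · have h1 : m + 1 ≤ n := by omega
      rw [tens_of_le P h1, tens_of_le P h1, star_one, one_mul]

/-- `tens` only depends on `w l`, `n ≤ l < m`. -/
theorem tens_congr {n m : ℕ} {w w' : Wy P.μ} (h : ∀ l, n ≤ l → l < m → w l = w' l) :
    P.tens n m w = P.tens n m w' := by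
  induction m with
  | zero => rfl
  | succ m ih =>
    by_cases h1 : n ≤ m
    · rw [tens_succ P h1, tens_succ P h1, h m h1 (Nat.lt_succ_self m),
        ih fun l hl hl' => h l hl (hl'.trans (Nat.lt_succ_self m))]
    · have h2 : m + 1 ≤ n := by omega
      rw [tens_of_le P h2, tens_of_le P h2]

/-- The product with the unit of the big corner. -/
theorem tens_mul_tens {n : ℕ} (m : ℕ) {w : Wy P.μ} (h : ∀ l, l < n → w l = 0) :
    P.tens n m w * P.tens 0 m 0 = P.tens 0 m w ∧ P.tens 0 m 0 * P.tens n m w = P.tens 0 m w := by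
  induction m with
  | zero =>
    change (1 : Matrix (Fin (P.ρ 0)) (Fin (P.ρ 0)) ℂ) * 1 = 1 ∧
      (1 : Matrix (Fin (P.ρ 0)) (Fin (P.ρ 0)) ℂ) * 1 = 1
    rw [one_mul]
    exact ⟨rfl, rfl⟩
  | succ m ih =>
    by_cases h1 : n ≤ m
    · rw [tens_succ P h1, tens_succ' P (Nat.zero_le m) (w := 0) rfl, mbl_mul, mbl_mul, ih.1, ih.2,
        mul_one, one_mul, tens_succ P (Nat.zero_le m)]
      exact ⟨rfl, rfl⟩
    · have h2 : m + 1 ≤ n := by omega
      have h3 : P.tens 0 (m + 1) w = P.tens 0 (m + 1) 0 :=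
        P.tens_congr fun l _ hl => h l (by omega)
      rw [tens_of_le P h2, h3, one_mul, mul_one]
      exact ⟨rfl, rfl⟩

/-- The trace: `0` as soon as some `w l ≠ 0`, `l < m` (`mbl_trace`, `trace_Wl`). -/
theorem tens_trace_eq_zero {m : ℕ} {w : Wy P.μ} {l : ℕ} (hl : l < m) (h : w l ≠ 0) :
    (P.tens 0 m w).trace = 0 := by
  induction m with
  | zero => exact absurd hl (Nat.not_lt_zero l)
  | succ m ih =>
    rw [tens_succ P (Nat.zero_le m), mbl_trace]
    rcases Nat.lt_succ_iff_lt_or_eq.1 hl with h1 | h1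
    · rw [ih h1, mul_zero]
    · subst h1
      rw [trace_Wl _ h, zero_mul]

end Tow

end Pool.Agent.H.MP_e11395_an
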