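import Pool.Agent.H.MP_e11395_an.E.TowTr

/-!
# Part E: threads in a tower and the basic estimates
-/

set_option autoImplicit false

open Filter Topology
open Pool.Agent.H.MP_43b197_an

namespace Pool.Agent.H.MP_e11395_an

variable {A : Type} [CStarAlgebra A] {τA : TrState A} {P : Tow} {E : Type} [CStarAlgebra E]
  {τ : TrState E}

/-- `c` is a thread from `n` on: `c (l + 1) = emb (c l)` for `l ≥ n`. -/
def Tow.IsThr (P : Tow) (n : ℕ) (c : ∀ l, Mt (Fin (P.ρ l)) E) : Prop :=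
  ∀ l, n ≤ l → c (l + 1) = P.emb l (c l)

/-- Existence of threads.

Proof. `c l = if h : n ≤ l then Nat.leRecOn h (fun {k} => P.emb k) b else 0`
(`Nat.leRecOn_self`, `Nat.leRecOn_succ`). The norms: by induction on `l ≥ n`
(`Nat.le_induction`), star homomorphisms are contractive
(`NonUnitalStarAlgHom.norm_apply_le`). -/
theorem Tow.exists_thr (n : ℕ) (b : Mt (Fin (P.ρ n)) E) :
    ∃ c : ∀ l, Mt (Fin (P.ρ l)) E, P.IsThr n c ∧ c n = b ∧ ∀ l, ‖c l‖ ≤ ‖b‖ := by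
  classical
  let F : ∀ {k : ℕ}, Mt (Fin (P.ρ k)) E → Mt (Fin (P.ρ (k + 1))) E := fun {k} => P.emb k
  let c : ∀ l, Mt (Fin (P.ρ l)) E := fun l =>
    if h : n ≤ l then Nat.leRecOn (C := fun k => Mt (Fin (P.ρ k)) E) h F b else 0
  have hc : P.IsThr n c := by
    intro l hl
    simp only [c, dif_pos hl, dif_pos (Nat.le_succ_of_le hl)]
    exact Nat.leRecOn_succ (C := fun k => Mt (Fin (P.ρ k)) E) hl b
  have hn : c n = b := by
    simp only [c, dif_pos le_rfl]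
    exact Nat.leRecOn_self (C := fun k => Mt (Fin (P.ρ k)) E) b
  refine ⟨c, hc, hn, fun l => ?_⟩
  by_cases h : n ≤ l
  · induction l, h using Nat.le_induction with
    | base => rw [hn]
    | succ l hl ih =>
      rw [hc l hl]
      exact (NonUnitalStarAlgHom.norm_apply_le (P.emb l) (c l)).trans ih
  · simp only [c, dif_neg h, norm_zero]
    exact norm_nonneg _

theorem Tow.thr_unique {n : ℕ} {c c' : ∀ l, Mt (Fin (P.ρ l)) E} (h : P.IsThr n c)
    (h' : P.IsThr n c') (hn : c n = c' n) (l : ℕ) (hl : n ≤ l) : c l = c' l := by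
  induction l, hl using Nat.le_induction with
  | base => exact hn
  | succ l hl ih => rw [h l hl, h' l hl, ih]

/-- The ratio of the traces. -/
noncomputable def Thr_r (P : Tow) (l : ℕ) : ℝ := (P.μ l * P.ρ l : ℝ) / P.ρ (l + 1)

theorem Thr_r_le (P : Tow) (l : ℕ) : Thr_r P l ≤ 1 := by
  have h : (0 : ℝ) < P.ρ (l + 1) := by exact_mod_cast P.ρ_pos (l + 1)
  rw [Thr_r, div_le_one h]
  have := P.card_eq l
  exact_mod_cast (by omega : P.μ l * P.ρ l ≤ P.ρ (l + 1))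

theorem Thr_le_r (P : Tow) (l : ℕ) : 1 - (1 / 8 : ℝ) ^ (l + 1) ≤ Thr_r P l := by
  have h : (0 : ℝ) < P.ρ (l + 1) := by exact_mod_cast P.ρ_pos (l + 1)
  rw [Thr_r, le_div_iff₀ h]
  exact P.ratio l

theorem Thr_r_nonneg (P : Tow) (l : ℕ) : 0 ≤ Thr_r P l := by
  rw [Thr_r]; positivity

/-- The product of the ratios. -/
noncomputable def Thr_q (P : Tow) (n l : ℕ) : ℝ := ∏ i ∈ Finset.Ico n l, Thr_r P i

theorem Thr_q_nonneg (P : Tow) (n l : ℕ) : 0 ≤ Thr_q P n l :=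
  Finset.prod_nonneg fun i _ => Thr_r_nonneg P i

theorem Thr_q_le (P : Tow) (n l : ℕ) : Thr_q P n l ≤ 1 :=
  Finset.prod_le_one (fun i _ => Thr_r_nonneg P i) fun i _ => Thr_r_le P i

theorem Thr_q_self (P : Tow) (n : ℕ) : Thr_q P n n = 1 := by simp [Thr_q]

theorem Thr_q_succ (P : Tow) {n l : ℕ} (h : n ≤ l) :
    Thr_q P n (l + 1) = Thr_q P n l * Thr_r P l := by
  rw [Thr_q, Thr_q, Finset.prod_Ico_succ_top h]

theorem Thr_q_anti (P : Tow) (n : ℕ) : Antitone (Thr_q P n) := by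
  refine antitone_nat_of_succ_le fun l => ?_
  by_cases h : n ≤ l
  · rw [Thr_q_succ P h]
    exact mul_le_of_le_one_right (Thr_q_nonneg P n l) (Thr_r_le P l)
  · have h1 : Finset.Ico n l = ∅ := Finset.Ico_eq_empty (by omega)
    have h2 : Thr_q P n l = 1 := by rw [Thr_q, h1, Finset.prod_empty]
    rw [h2]; exact Thr_q_le P n (l + 1)

theorem Thr_le_q_aux (P : Tow) (n l : ℕ) (h : n ≤ l) :
    1 - (1 / 7 : ℝ) * ((1 / 8) ^ n - (1 / 8) ^ l) ≤ Thr_q P n l := by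
  induction l, h using Nat.le_induction with
  | base => rw [Thr_q_self]; simp
  | succ l hl ih =>
    rw [Thr_q_succ P hl]
    have h1 := Thr_le_r P l
    have h2 := Thr_q_le P n l
    have h3 := Thr_q_nonneg P n l
    have h4 : Thr_q P n l * (1 - (1 / 8 : ℝ) ^ (l + 1)) ≤ Thr_q P n l * Thr_r P l :=
      mul_le_mul_of_nonneg_left h1 h3
    have h5 : Thr_q P n l * (1 / 8 : ℝ) ^ (l + 1) ≤ 1 * (1 / 8 : ℝ) ^ (l + 1) :=
      mul_le_mul_of_nonneg_right h2 (by positivity)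
    have h6 : (1 / 8 : ℝ) ^ (l + 1) = (1 / 8 : ℝ) ^ l * (1 / 8) := pow_succ _ _
    rw [h6] at h4 h5 ⊢
    linarith

theorem Thr_le_q (P : Tow) (n l : ℕ) : 1 - (1 / 7 : ℝ) * (1 / 8) ^ n ≤ Thr_q P n l := by
  by_cases h : n ≤ l
  · have h1 := Thr_le_q_aux P n l h
    have h2 : (0 : ℝ) ≤ (1 / 7) * (1 / 8) ^ l := by positivity
    linarith
  · have h1 : Finset.Ico n l = ∅ := Finset.Ico_eq_empty (by omega)
    have h2 : Thr_q P n l = 1 := by rw [Thr_q, h1, Finset.prod_empty]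
    rw [h2]
    have h3 : (0 : ℝ) ≤ (1 / 7) * (1 / 8) ^ n := by positivity
    linarith

theorem Thr_tauM (P : Tow) (τ : TrState E) {n : ℕ} {c : ∀ l, Mt (Fin (P.ρ l)) E}
    (hc : P.IsThr n c) (l : ℕ) (hl : n ≤ l) :
    tauM τ (c l) = (Thr_q P n l : ℂ) * tauM τ (c n) := by
  induction l, hl using Nat.le_induction with
  | base => rw [Thr_q_self]; simp
  | succ l hl ih =>
    rw [hc l hl, Tow.tauM_emb, ih, Thr_q_succ P hl, Thr_r, ← mul_assoc]
    push_cast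
    ring

/-- The normalised traces along a thread.

Proof. `tauM_emb`: `tauM (c (l+1)) = r l * tauM (c l)`, `r l = μ ρ / ρ'` in
`[1 - (1/8)^(l+1), 1]` (`ratio`, `card_eq`, `ρ_pos`). So
`tauM (c l) = (∏ i ∈ Finset.Ico n l, r i) * tauM (c n)`; the products decrease with `l` and
are `≥ 1 - ∑ i ∈ Ico n l, (1/8)^(i+1) ≥ 1 - (1/7) * (1/8)^n` (`Finset.prod_one_sub_ge`-type
induction: `(1 - a) (1 - b) ≥ 1 - a - b`). So they converge (bounded decreasing). -/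
theorem Tow.exists_t (P : Tow) : ∃ t : ℕ → ℝ, (∀ n, 0 < t n) ∧ Tendsto t atTop (𝓝 1) ∧
    ∀ (E : Type) [CStarAlgebra E] (τ : TrState E) (n : ℕ) (c : ∀ l, Mt (Fin (P.ρ l)) E),
      P.IsThr n c → Tendsto (fun l => tauM τ (c l)) atTop (𝓝 (t n * tauM τ (c n))) := by
  have hb : ∀ n, BddBelow (Set.range (Thr_q P n)) := fun n =>
    ⟨1 - (1 / 7 : ℝ) * (1 / 8) ^ n, by rintro _ ⟨l, rfl⟩; exact Thr_le_q P n l⟩
  have hle : ∀ n, 1 - (1 / 7 : ℝ) * (1 / 8) ^ n ≤ ⨅ l, Thr_q P n l := fun n =>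
    le_ciInf fun l => Thr_le_q P n l
  have hge : ∀ n, ⨅ l, Thr_q P n l ≤ 1 := fun n => by
    have := ciInf_le (hb n) n
    rwa [Thr_q_self] at this
  refine ⟨fun n => ⨅ l, Thr_q P n l, fun n => ?_, ?_, ?_⟩
  · have h1 : (1 / 8 : ℝ) ^ n ≤ 1 := pow_le_one₀ (by norm_num) (by norm_num)
    have := hle n
    linarith
  · have h1 : Tendsto (fun n : ℕ => 1 - (1 / 7 : ℝ) * (1 / 8) ^ n) atTop (𝓝 (1 - (1 / 7) * 0)) :=
      ((tendsto_pow_atTop_nhds_zero_of_lt_one (by norm_num) (by norm_num)).const_mul _).const_sub _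
    rw [mul_zero, sub_zero] at h1
    exact tendsto_of_tendsto_of_tendsto_of_le_of_le h1 tendsto_const_nhds hle hge
  · intro E _ τ n c hc
    have h1 : Tendsto (Thr_q P n) atTop (𝓝 (⨅ l, Thr_q P n l)) :=
      tendsto_atTop_ciInf (Thr_q_anti P n) (hb n)
    have h2 : Tendsto (fun l => ((Thr_q P n l : ℝ) : ℂ) * tauM τ (c n)) atTop
        (𝓝 (((⨅ l, Thr_q P n l : ℝ) : ℂ) * tauM τ (c n))) :=
      ((Complex.continuous_ofReal.tendsto _).comp h1).mul_const _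
    refine h2.congr' ?_
    filter_upwards [eventually_ge_atTop n] with l hl
    exact (Thr_tauM P τ hc l hl).symm

namespace TraceTower

variable (TT : TraceTower A τA P E τ)

/-- Threads in the inductive system (`Nat.leRecOn` as before), `R l (f l) = R n (f n)` by
`compat`, and norms. -/
theorem exists_thr (n : ℕ) (x : TT.X n) :
    ∃ f : ∀ l, TT.X l, (∀ l, n ≤ l → f (l + 1) = TT.Φ l (f l)) ∧ f n = x ∧
      (∀ l, ‖f l‖ ≤ ‖x‖) ∧ ∀ l, n ≤ l → TT.R l (f l) = TT.R n x := by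
  classical
  let F : ∀ {k : ℕ}, TT.X k → TT.X (k + 1) := fun {k} => TT.Φ k
  let c : ∀ l, TT.X l := fun l =>
    if h : n ≤ l then Nat.leRecOn (C := fun k => TT.X k) h F x else 0
  have hc : ∀ l, n ≤ l → c (l + 1) = TT.Φ l (c l) := by
    intro l hl
    simp only [c, dif_pos hl, dif_pos (Nat.le_succ_of_le hl)]
    exact Nat.leRecOn_succ (C := fun k => TT.X k) hl x
  have hn : c n = x := by
    simp only [c, dif_pos le_rfl]
    exact Nat.leRecOn_self (C := fun k => TT.X k) x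
  refine ⟨c, hc, hn, fun l => ?_, fun l hl => ?_⟩
  · by_cases h : n ≤ l
    · induction l, h using Nat.le_induction with
      | base => rw [hn]
      | succ l hl ih =>
        rw [hc l hl]
        exact (NonUnitalStarAlgHom.norm_apply_le (TT.Φ l) (c l)).trans ih
    · simp only [c, dif_neg h, norm_zero]
      exact norm_nonneg _
  · induction l, hl using Nat.le_induction with
    | base => rw [hn]
    | succ l hl ih => rw [hc l hl, TT.compat, ih]

/-- **Estimate 1.** `d l = θ l (f l) - c l` is small in the 2-norm: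
`tauM (d* d) ≤ (1/7) * (1/8)^n * C ^ 2`.

Proof. By induction on `l ≥ n`:
`tauM (d l* d l) ≤ (1/7) ((1/8)^n - (1/8)^l) * C ^ 2`. `d n = 0`. `θ (Φ x) = bl 1 (θ x) c'` for
some `c'` (`θ_Φ`), `emb y = bl 1 y 0`, so `d (l + 1) = bl 1 (d l) c'`, where
`‖c'‖ ≤ ‖θ (Φ x)‖ ≤ ‖x‖ ≤ C` (`norm_corner_le`, `x = f l`, star homomorphisms are contractive).
By `tauM_bl_le`, `tauM (d (l+1)* d (l+1)) ≤ tauM (d l* d l) + (1/8)^(l+1) * C ^ 2`. -/
theorem est {n : ℕ} {f : ∀ l, TT.X l} {c : ∀ l, Mt (Fin (P.ρ l)) E} {C : ℝ}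
    (hf : ∀ l, n ≤ l → f (l + 1) = TT.Φ l (f l)) (hc : P.IsThr n c) (h : TT.θ n (f n) = c n)
    (hC : ∀ l, ‖f l‖ ≤ C) (l : ℕ) (hl : n ≤ l) :
    (tauM τ (star (TT.θ l (f l) - c l) * (TT.θ l (f l) - c l))).re ≤
      (1 / 7 : ℝ) * (1 / 8) ^ n * C ^ 2 := by
  have key : (tauM τ (star (TT.θ l (f l) - c l) * (TT.θ l (f l) - c l))).re ≤
      (1 / 7 : ℝ) * ((1 / 8) ^ n - (1 / 8) ^ l) * C ^ 2 := by
    induction l, hl using Nat.le_induction with
    | base =>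
      rw [h, sub_self, star_zero, mul_zero]
      simp [tauM]
    | succ l hl ih =>
      obtain ⟨c', hc'⟩ := TT.θ_Φ l (f l)
      have h1 : ‖c'‖ ≤ C := by
        have h2 := P.norm_corner_le l 1 (TT.θ l (f l)) c'
        rw [← hc'] at h2
        refine h2.trans ((NonUnitalStarAlgHom.norm_apply_le (TT.θ (l + 1)) _).trans ?_)
        rw [← hf l hl]
        exact hC (l + 1)
      have h3 : TT.θ (l + 1) (f (l + 1)) - c (l + 1) = P.bl l 1 (TT.θ l (f l) - c l) c' := by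
        have h4 : P.bl l 1 (TT.θ l (f l) - c l) c' + P.bl l 1 (c l) 0 =
            P.bl l 1 (TT.θ l (f l)) c' := by
          rw [Tow.bl, Tow.bl, ← map_add, ← blk_add, sub_add_cancel, add_zero, Tow.bl]
        rw [hf l hl, hc', hc l hl, Tow.emb_apply, sub_eq_iff_eq_add, h4]
      rw [h3]
      have h5 := P.tauM_bl_le τ l (TT.θ l (f l) - c l) c'
      have h6 : (1 / 8 : ℝ) ^ (l + 1) * ‖c'‖ ^ 2 ≤ (1 / 8 : ℝ) ^ (l + 1) * C ^ 2 :=
        mul_le_mul_of_nonneg_left (pow_le_pow_left₀ (norm_nonneg _) h1 2) (by positivity)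
      have h7 : (1 / 8 : ℝ) ^ (l + 1) = (1 / 8 : ℝ) ^ l * (1 / 8) := pow_succ _ _
      rw [h7] at h5 h6 ⊢
      nlinarith
  have h8 : (0 : ℝ) ≤ (1 / 7 : ℝ) * (1 / 8) ^ l * C ^ 2 := by positivity
  nlinarith

/-- The 2-norm of `R x` is read off in the quotient. -/
theorem Thr_n2_le (l : ℕ) (x : TT.X l) {D : ℝ} (hx : ‖x‖ ≤ D) :
    τA.n2 (TT.R l x) ^ 2 ≤ (tauM τ (star (TT.θ l x) * TT.θ l x)).re + |TT.ε l| * D ^ 2 := by
  have h1 := TT.tr_le l (star x * x)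
  rw [CStarRing.norm_star_mul_self, map_mul (TT.R l), map_mul (TT.θ l), map_star (TT.R l),
    map_star (TT.θ l)] at h1
  have h2 := (Complex.abs_re_le_norm _).trans h1
  rw [Complex.sub_re] at h2
  have h3 := (le_abs_self _).trans h2
  rw [TrState.n2_sq]
  have h4 : TT.ε l * (‖x‖ * ‖x‖) ≤ |TT.ε l| * D ^ 2 := by
    have h5 : ‖x‖ * ‖x‖ ≤ D ^ 2 := by
      rw [← sq]; exact pow_le_pow_left₀ (norm_nonneg _) hx 2
    exact (mul_le_mul_of_nonneg_right (le_abs_self _) (mul_self_nonneg _)).trans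
      (mul_le_mul_of_nonneg_left h5 (abs_nonneg _))
  linarith

/-- **Estimate 2.** Let `a l : X l` be bounded by `C` with `θ (a l) = c l` for `l ≥ n`, `c` a
thread from `n` on. For `n ≤ m ≤ l`:
`τA.n2 (R (a l) - R (a m)) ^ 2 ≤ (1/7) (1/8)^m C ^ 2 + |ε l| * (2 C) ^ 2`.

Proof. Let `f` be the thread of `a m` from `m` on (`exists_thr`), so `R l (f l) = R m (a m)`;
`x = a l - f l`, `‖x‖ ≤ 2 C`,
`n2 (R x) ^ 2 = re τA (R (star x * x)) ≤ re tauM (θ (star x * x)) + |ε l| * ‖star x * x‖`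
(`tr_le`), and `θ x = c l - θ (f l)`; use `est` for `f` and `c` (a thread from `m` on). -/
theorem est2 {n : ℕ} {a : ∀ l, TT.X l} {c : ∀ l, Mt (Fin (P.ρ l)) E} {C : ℝ}
    (hc : P.IsThr n c) (ha : ∀ l, n ≤ l → TT.θ l (a l) = c l) (hC : ∀ l, ‖a l‖ ≤ C)
    (m l : ℕ) (hm : n ≤ m) (hl : m ≤ l) :
    τA.n2 (TT.R l (a l) - TT.R m (a m)) ^ 2 ≤
      (1 / 7 : ℝ) * (1 / 8) ^ m * C ^ 2 + |TT.ε l| * (2 * C) ^ 2 := by
  obtain ⟨f, hf1, hf2, hf3, hf4⟩ := TT.exists_thr m (a m)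
  have hC' : ∀ l, ‖f l‖ ≤ C := fun l => (hf3 l).trans (hC m)
  have e1 := TT.est hf1 (fun l hl => hc l (hm.trans hl)) (by rw [hf2]; exact ha m hm) hC' l hl
  have hx : ‖a l - f l‖ ≤ 2 * C := by
    have := norm_sub_le (a l) (f l)
    have h1 := hC l
    have h2 := hC' l
    linarith
  rw [← hf4 l hl, ← map_sub]
  have h3 := TT.Thr_n2_le l (a l - f l) hx
  refine h3.trans (add_le_add ?_ le_rfl)
  have h4 : TT.θ l (a l - f l) = -(TT.θ l (f l) - c l) := by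
    rw [map_sub, ha l (hm.trans hl)]; abel
  rw [h4, star_neg, neg_mul_neg]
  exact e1

/-- **Estimate 3.** Bounded elements of the kernels of the `θ l` tend to zero in the 2-norm:
`n2 (R x) ^ 2 = re τA (R (star x * x)) ≤ 0 + |ε l| * ‖x‖ ^ 2`. -/
theorem est3 {a : ∀ l, TT.X l} {C : ℝ} (ha : ∀ᶠ l in atTop, TT.θ l (a l) = 0)
    (hC : ∀ l, ‖a l‖ ≤ C) : Tendsto (fun l => τA.n2 (TT.R l (a l))) atTop (𝓝 0) := by
  have h1 : Tendsto (fun l => |TT.ε l| * C ^ 2) atTop (𝓝 0) := by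
    have := (TT.ε_lim.abs).mul_const (C ^ 2)
    rwa [abs_zero, zero_mul] at this
  have h2 : Tendsto (fun l => Real.sqrt (|TT.ε l| * C ^ 2)) atTop (𝓝 0) := by
    have := (Real.continuous_sqrt.tendsto 0).comp h1
    rwa [Real.sqrt_zero] at this
  refine squeeze_zero' (Eventually.of_forall fun l => TrState.n2_nonneg _ _) ?_ h2
  filter_upwards [ha] with l hl
  apply Real.le_sqrt_of_sq_le
  have h3 := TT.Thr_n2_le l (a l) (hC l)
  rw [hl, star_zero, mul_zero] at h3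
  have h4 : (tauM τ (0 : Mt (Fin (P.ρ l)) E)).re = 0 := by simp [tauM]
  rw [h4, zero_add] at h3
  exact h3

end TraceTower

end Pool.Agent.H.MP_e11395_an
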