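import Pool.Agent.H.MP_e11395_an.E.Lift
import Pool.Agent.H.MP_e11395_an.E.Thr
import Pool.Agent.H.MP_e11395_an.E.Closure

/-!
# Part E: limits of lifts of threads
-/

set_option autoImplicit false

open Filter Topology
open Pool.Agent.H.MP_43b197_an

namespace Pool.Agent.H.MP_e11395_an

variable {A : Type} [CStarAlgebra A] {τA : TrState A} {P : Tow} {E : Type} [CStarAlgebra E]
  {τ : TrState E}

variable {N : Type} [Ring N] [StarRing N] [Algebra ℂ N] [StarModule ℂ N] {T : TVN N}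
  {j : A →⋆ₐ[ℂ] N}

/-- `L` is the 2-norm limit of the images in `N` of bounded lifts of `c`. -/
def TraceTower.IsLim (TT : TraceTower A τA P E τ) (T : TVN N) (j : A →⋆ₐ[ℂ] N)
    (c : ∀ l, Mt (Fin (P.ρ l)) E) (L : N) : Prop :=
  ∃ (a : ∀ l, TT.X l) (C : ℝ), (∀ l, ‖a l‖ ≤ C) ∧ (∀ᶠ l in atTop, TT.θ l (a l) = c l) ∧
    T.CLim (fun l => j (TT.R l (a l))) L

namespace TraceTower

variable (TT : TraceTower A τA P E τ)

theorem ThrLim_n2 (hj : Cl T τA j) (x : A) : T.n2 (j x) = τA.n2 x := by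
  unfold TrState.n2
  rw [← map_star, ← map_mul, hj.tr]

theorem ThrLim_bd (hj : Cl T τA j) {l : ℕ} {x : TT.X l} {C : ℝ} (hx : ‖x‖ ≤ C) :
    T.Bd C (j (TT.R l x)) :=
  T.bd_mono _ _ _ ((NonUnitalStarAlgHom.norm_apply_le (TT.R l) x).trans hx) (hj.bd _)

/-- All bounded lifts converge to `L` (`est3` for the difference;
`T.n2 (j x) = τA.n2 x` by `Cl.tr`). -/
theorem IsLim.any (hj : Cl T τA j) {c : ∀ l, Mt (Fin (P.ρ l)) E} {L : N}
    (h : TT.IsLim T j c L) {a : ∀ l, TT.X l} {C : ℝ} (hC : ∀ l, ‖a l‖ ≤ C)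
    (ha : ∀ᶠ l in atTop, TT.θ l (a l) = c l) : T.CLim (fun l => j (TT.R l (a l))) L := by
  obtain ⟨a', C', h1, h2, h3⟩ := h
  have h4 : Tendsto (fun l => τA.n2 (TT.R l (a l - a' l))) atTop (𝓝 0) := by
    refine TT.est3 (C := C + C') ?_ fun l => (norm_sub_le _ _).trans (add_le_add (hC l) (h1 l))
    filter_upwards [ha, h2] with l h5 h6
    rw [map_sub, h5, h6, sub_self]
  have h7 := h4.add h3
  rw [add_zero] at h7
  refine squeeze_zero (fun l => TrState.n2_nonneg _ _) (fun l => ?_) h7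
  have h8 := T.n2_sub_le_sub (j (TT.R l (a l))) (j (TT.R l (a' l))) L
  rw [← map_sub, ← map_sub, ThrLim_n2 hj] at h8
  exact h8

theorem IsLim.unique (hj : Cl T τA j) {c : ∀ l, Mt (Fin (P.ρ l)) E} {L L' : N}
    (h : TT.IsLim T j c L) (h' : TT.IsLim T j c L') : L = L' := by
  obtain ⟨a, C, h1, h2, h3⟩ := h'
  exact TVN.CLim.unique (IsLim.any TT hj h h1 h2) h3

theorem IsLim.congr {c c' : ∀ l, Mt (Fin (P.ρ l)) E} {L : N}
    (h : TT.IsLim T j c L) (h' : ∀ᶠ l in atTop, c l = c' l) : TT.IsLim T j c' L := by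
  obtain ⟨a, C, h1, h2, h3⟩ := h
  exact ⟨a, C, h1, by filter_upwards [h2, h'] with l h4 h5; rw [h4, h5], h3⟩

/-- Existence of the limit of a thread.

Proof. Let `a l` be a lift of `c l` of norm at most `‖c l‖ ≤ C` (`exists_lift`, `θ_surj`). By
`est2` (with `n2 (j x) = n2 x`), for `n ≤ m ≤ l`,
`n2 (j (R (a l)) - j (R (a m))) ^ 2 ≤ (1/7) (1/8)^m C ^ 2 + |ε l| (2 C) ^ 2`, and `ε → 0`, so the
sequence is Cauchy in the 2-norm; `Bd C` (`Cl.bd` and `bd_mono`), so `T.complete` gives the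
limit. -/
theorem exists_isLim (hj : Cl T τA j) {n : ℕ} {c : ∀ l, Mt (Fin (P.ρ l)) E} (hc : P.IsThr n c)
    {C : ℝ} (hC : ∀ l, ‖c l‖ ≤ C) : ∃ L, TT.IsLim T j c L ∧ T.Bd C L := by
  choose a ha1 ha2 using fun l => exists_lift (TT.θ l) (TT.θ_surj l) (c l)
  have haC : ∀ l, ‖a l‖ ≤ C := fun l => (ha2 l).trans (hC l)
  have hbd : ∀ l, T.Bd C (j (TT.R l (a l))) := fun l => TT.ThrLim_bd hj (haC l)
  have key : ∀ m l, n ≤ m → m ≤ l → T.n2 (j (TT.R l (a l)) - j (TT.R m (a m))) ^ 2 ≤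
      (1 / 7 : ℝ) * (1 / 8) ^ m * C ^ 2 + |TT.ε l| * (2 * C) ^ 2 := by
    intro m l hm hl
    rw [← map_sub, ThrLim_n2 hj]
    exact TT.est2 hc (fun l _ => ha1 l) haC m l hm hl
  obtain ⟨L, hL1, hL2⟩ := T.complete C (fun l => j (TT.R l (a l))) hbd (by
    intro ε hε
    have e1 : Tendsto (fun m : ℕ => (1 / 7 : ℝ) * (1 / 8) ^ m * C ^ 2) atTop (𝓝 0) := by
      have := ((tendsto_pow_atTop_nhds_zero_of_lt_one (r := (1 / 8 : ℝ)) (by norm_num)
        (by norm_num)).const_mul (1 / 7 : ℝ)).mul_const (C ^ 2)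
      simpa using this
    have e2 : Tendsto (fun l => |TT.ε l| * (2 * C) ^ 2) atTop (𝓝 0) := by
      have := (TT.ε_lim.abs).mul_const ((2 * C) ^ 2)
      rwa [abs_zero, zero_mul] at this
    have hε2 : 0 < ε ^ 2 / 2 := by positivity
    obtain ⟨n0, hn0⟩ := eventually_atTop.1
      (((e1.eventually (gt_mem_nhds hε2)).and (e2.eventually (gt_mem_nhds hε2))).and
        (eventually_ge_atTop n))
    have main : ∀ m ≥ n0, ∀ l, m ≤ l →
        T.n2 (j (TT.R l (a l)) - j (TT.R m (a m))) < ε := by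
      intro m hm l hl
      have h1 := key m l (hn0 m hm).2 hl
      have h2 := (hn0 m hm).1.1
      have h3 := (hn0 l (hm.le.trans hl)).1.2
      exact lt_of_pow_lt_pow_left₀ 2 hε.le (by linarith)
    refine ⟨n0, fun m hm l hl => ?_⟩
    rcases le_total m l with h | h
    · rw [T.n2_sub_comm]; exact main m hm l h
    · exact main l hl m h)
  exact ⟨L, ⟨a, C, haC, Eventually.of_forall ha1, hL2⟩, hL1⟩

/-- Limits of sums (the sum of the lifts is a lift of the sum). -/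
theorem IsLim.add {c c' : ∀ l, Mt (Fin (P.ρ l)) E} {L L' : N}
    (h : TT.IsLim T j c L) (h' : TT.IsLim T j c' L') :
    TT.IsLim T j (fun l => c l + c' l) (L + L') := by
  obtain ⟨a, C, h1, h2, h3⟩ := h
  obtain ⟨a', C', h1', h2', h3'⟩ := h'
  refine ⟨fun l => a l + a' l, C + C', fun l => (norm_add_le _ _).trans (add_le_add (h1 l) (h1' l)),
    ?_, (h3.add h3').congr fun l => ?_⟩
  · filter_upwards [h2, h2'] with l h4 h5
    rw [map_add, h4, h5]
  · rw [map_add, map_add]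

theorem IsLim.smul {c : ∀ l, Mt (Fin (P.ρ l)) E} {L : N} (z : ℂ)
    (h : TT.IsLim T j c L) : TT.IsLim T j (fun l => z • c l) (z • L) := by
  obtain ⟨a, C, h1, h2, h3⟩ := h
  refine ⟨fun l => z • a l, ‖z‖ * C, fun l => ?_, ?_, ?_⟩
  · rw [norm_smul]; exact mul_le_mul_of_nonneg_left (h1 l) (norm_nonneg _)
  · filter_upwards [h2] with l h4
    rw [map_smul, h4]
  · have h5 : Tendsto (fun l => ‖z‖ * T.n2 (j (TT.R l (a l)) - L)) atTop (𝓝 0) := by
      have := h3.const_mul ‖z‖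
      rwa [mul_zero] at this
    refine h5.congr fun l => ?_
    change ‖z‖ * T.n2 (j (TT.R l (a l)) - L) = T.n2 (j (TT.R l (z • a l)) - z • L)
    rw [map_smul, map_smul, ← smul_sub, T.n2_smul]

/-- Limits of products: 2-norm limits of bounded sequences (`Cl.bd`, `TVN_bd_lim`). -/
theorem IsLim.mul (hj : Cl T τA j) {c c' : ∀ l, Mt (Fin (P.ρ l)) E} {L L' : N}
    (h : TT.IsLim T j c L) (h' : TT.IsLim T j c' L') :
    TT.IsLim T j (fun l => c l * c' l) (L * L') := by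
  obtain ⟨a, C, h1, h2, h3⟩ := h
  obtain ⟨a', C', h1', h2', h3'⟩ := h'
  have hC0 : 0 ≤ C := (norm_nonneg _).trans (h1 0)
  refine ⟨fun l => a l * a' l, C * C', fun l => (norm_mul_le _ _).trans
    (mul_le_mul (h1 l) (h1' l) (norm_nonneg _) hC0),
    ?_, (TVN.CLim.mul h3 h3' C fun l => TT.ThrLim_bd hj (h1 l)).congr fun l => ?_⟩
  · filter_upwards [h2, h2'] with l h4 h5
    rw [map_mul, h4, h5]
  · rw [map_mul, map_mul]

theorem IsLim.star {c : ∀ l, Mt (Fin (P.ρ l)) E} {L : N}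
    (h : TT.IsLim T j c L) : TT.IsLim T j (fun l => star (c l)) (star L) := by
  obtain ⟨a, C, h1, h2, h3⟩ := h
  refine ⟨fun l => Star.star (a l), C, fun l => by rw [norm_star]; exact h1 l, ?_,
    (TVN.CLim.star h3).congr fun l => ?_⟩
  · filter_upwards [h2] with l h4
    rw [map_star, h4]
  · rw [map_star, map_star]

/-- The trace of the limit: `T.tr (j (R (a l))) = τA (R (a l))` is within `ε l * C` of
`tauM (c l)` (`tr_le`), and `T.tr` is 2-norm continuous (`norm_tr_le_n2`). -/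
theorem IsLim.tr (hj : Cl T τA j) {c : ∀ l, Mt (Fin (P.ρ l)) E} {L : N}
    (h : TT.IsLim T j c L) {s : ℂ} (hs : Tendsto (fun l => tauM τ (c l)) atTop (𝓝 s)) :
    T.tr L = s := by
  obtain ⟨a, C, h1, h2, h3⟩ := h
  have e1 : Tendsto (fun l => T.tr (j (TT.R l (a l)))) atTop (𝓝 (T.tr L)) := by
    rw [tendsto_iff_norm_sub_tendsto_zero]
    refine squeeze_zero (fun l => norm_nonneg _) (fun l => ?_) h3
    rw [← map_sub]
    exact T.norm_tr_le_n2 _
  have e2 : Tendsto (fun l => |TT.ε l| * C) atTop (𝓝 0) := by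
    have := (TT.ε_lim.abs).mul_const C
    rwa [abs_zero, zero_mul] at this
  have e3 : Tendsto (fun l => T.tr (j (TT.R l (a l))) - tauM τ (c l)) atTop (𝓝 0) := by
    refine squeeze_zero_norm' ?_ e2
    filter_upwards [h2] with l h4
    rw [hj.tr, ← h4]
    exact (TT.tr_le l (a l)).trans (mul_le_mul (le_abs_self _) (h1 l) (norm_nonneg _)
      (abs_nonneg _))
  have e4 := e1.sub e3
  rw [sub_zero] at e4
  refine tendsto_nhds_unique (e4.congr fun l => ?_) hs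
  ring

/-- Density.

Proof. By `Cl.dense` and `dense` (and `n2 (j x) ≤ ‖x‖`) there are `n₀` and `f₀ : X n₀` with
`n2 (j (R f₀) - x) < ε / 2`; let `f` be its thread, `C = ‖f₀‖`, and `n ≥ n₀` with
`(1/7) (1/8)^n C ^ 2 < (ε / 4) ^ 2`. Let `c` be the thread of `b = θ n (f n)` from `n`, `a l` lifts of
`c l` of norm `≤ C` with `a n = f n` (`Function.update`), `L` the limit. By `est2` with
`m = n`: `n2 (R (a l) - R (f n)) ^ 2 ≤ (ε / 4) ^ 2 + |ε l| (2 C) ^ 2`, so in the limit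
`n2 (L - j (R (f n))) ≤ ε / 4`, and `R n (f n) = R n₀ f₀`. -/
theorem exists_near (hj : Cl T τA j) (x : N) {ε : ℝ} (hε : 0 < ε) :
    ∃ (n : ℕ) (c : ∀ l, Mt (Fin (P.ρ l)) E) (L : N), P.IsThr n c ∧ TT.IsLim T j c L ∧
      T.n2 (L - x) < ε := by
  obtain ⟨y, hy⟩ := hj.dense x (ε / 4) (by positivity)
  obtain ⟨n₀, f₀, hf₀⟩ := TT.dense y (ε / 4) (by positivity)
  have h1 : T.n2 (j (TT.R n₀ f₀) - x) < ε / 2 := by
    have h2 := T.n2_sub_le_sub (j (TT.R n₀ f₀)) (j y) x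
    rw [← map_sub, ThrLim_n2 hj] at h2
    have h3 := τA.n2_le_norm (TT.R n₀ f₀ - y)
    linarith
  obtain ⟨f, hf1, hf2, hf3, hf4⟩ := TT.exists_thr n₀ f₀
  have e1 : Tendsto (fun m : ℕ => (1 / 7 : ℝ) * (1 / 8) ^ m * ‖f₀‖ ^ 2) atTop (𝓝 0) := by
    have := ((tendsto_pow_atTop_nhds_zero_of_lt_one (r := (1 / 8 : ℝ)) (by norm_num)
      (by norm_num)).const_mul (1 / 7 : ℝ)).mul_const (‖f₀‖ ^ 2)
    simpa using this
  have hε4 : 0 < (ε / 4) ^ 2 := by positivity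
  obtain ⟨n, hn1, hn2⟩ := ((e1.eventually (gt_mem_nhds hε4)).and (eventually_ge_atTop n₀)).exists
  obtain ⟨c, hc1, hc2, hc3⟩ := P.exists_thr n (TT.θ n (f n))
  have hcC : ∀ l, ‖c l‖ ≤ ‖f₀‖ := fun l =>
    (hc3 l).trans ((NonUnitalStarAlgHom.norm_apply_le (TT.θ n) _).trans (hf3 n))
  obtain ⟨L, hL, -⟩ := TT.exists_isLim hj hc1 hcC
  refine ⟨n, c, L, hc1, hL, ?_⟩
  choose a₀ ha1 ha2 using fun l => exists_lift (TT.θ l) (TT.θ_surj l) (c l)
  let a : ∀ l, TT.X l := Function.update a₀ n (f n)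
  have han : a n = f n := Function.update_self ..
  have haθ : ∀ l, TT.θ l (a l) = c l := by
    intro l
    by_cases h : l = n
    · subst h; rw [han, hc2]
    · have : a l = a₀ l := Function.update_of_ne h ..
      rw [this, ha1]
  have haC : ∀ l, ‖a l‖ ≤ ‖f₀‖ := by
    intro l
    by_cases h : l = n
    · subst h; rw [han]; exact hf3 l
    · have : a l = a₀ l := Function.update_of_ne h ..
      rw [this]; exact (ha2 l).trans (hcC l)
  have hlim : T.CLim (fun l => j (TT.R l (a l))) L :=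
    IsLim.any TT hj hL haC (Eventually.of_forall haθ)
  have e2 : Tendsto (fun l => |TT.ε l| * (2 * ‖f₀‖) ^ 2) atTop (𝓝 0) := by
    have := (TT.ε_lim.abs).mul_const ((2 * ‖f₀‖) ^ 2)
    rwa [abs_zero, zero_mul] at this
  have e3 : Tendsto (fun l => T.n2 (j (TT.R l (a l)) - j (TT.R n (f n)))) atTop
      (𝓝 (T.n2 (L - j (TT.R n (f n))))) := by
    rw [tendsto_iff_dist_tendsto_zero]
    refine squeeze_zero (fun l => dist_nonneg) (fun l => ?_) hlim
    rw [Real.dist_eq]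
    refine (T.abs_n2_sub_n2_le _ _).trans (le_of_eq ?_)
    rw [sub_sub_sub_cancel_right]
  have e4 : T.n2 (L - j (TT.R n (f n))) ^ 2 ≤
      (1 / 7 : ℝ) * (1 / 8) ^ n * ‖f₀‖ ^ 2 + 0 := by
    refine le_of_tendsto_of_tendsto (e3.pow 2) (e2.const_add _) ?_
    filter_upwards [eventually_ge_atTop n] with l hl
    have h5 := TT.est2 hc1 (fun l _ => haθ l) haC n l le_rfl hl
    rw [han] at h5
    rw [← map_sub, ThrLim_n2 hj]
    exact h5
  have e5 : T.n2 (L - j (TT.R n (f n))) < ε / 4 :=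
    lt_of_pow_lt_pow_left₀ 2 (by positivity) (by linarith)
  have h6 := T.n2_sub_le_sub L (j (TT.R n (f n))) x
  rw [hf4 n hn2] at h6 e5
  linarith

end TraceTower

end Pool.Agent.H.MP_e11395_an
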