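import Pool.Agent.H.MP_e11395_an.E.Tow

/-!
# Part E: traces of block matrices
-/

set_option autoImplicit false

open Filter Topology
open Pool.Agent.H.MP_43b197_an

namespace Pool.Agent.H.MP_e11395_an

variable {E : Type} [CStarAlgebra E]

/-- `‖τ (b i i)‖ ≤ n2 (b i i) ≤ ‖b i i‖ ≤ ‖b‖` (`norm_tr_le_n2`, `n2_le_norm`, `Mt.norm_entry_le`),
and take the mean. -/
theorem norm_tauM_le (τ : TrState E) {r : ℕ} (b : Mt (Fin r) E) : ‖tauM τ b‖ ≤ ‖b‖ := by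
  have h1 : ‖∑ i, τ.tr (b i i)‖ ≤ (r : ℝ) * ‖b‖ := by
    refine (norm_sum_le _ _).trans ?_
    refine (Finset.sum_le_sum fun i _ => (τ.norm_tr_le_n2 (b i i)).trans
      ((τ.n2_le_norm (b i i)).trans (Mt.norm_entry_le b i i))).trans ?_
    simp
  rw [tauM, norm_mul, norm_inv, Complex.norm_natCast]
  rcases Nat.eq_zero_or_pos r with h0 | h0
  · subst h0
    simp
  · have h2 : (0 : ℝ) < r := by exact_mod_cast h0
    calc (r : ℝ)⁻¹ * ‖∑ i, τ.tr (b i i)‖ ≤ (r : ℝ)⁻¹ * ((r : ℝ) * ‖b‖) :=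
          mul_le_mul_of_nonneg_left h1 (by positivity)
      _ = ‖b‖ := by field_simp

/-- `tauM τ (star b * b) = r⁻¹ * ∑ i, ∑ j, n2 (b j i) ^ 2`, a nonnegative real number
(`TrState.tr_star_mul_self`). -/
theorem tauM_star_mul_self (τ : TrState E) {r : ℕ} (b : Mt (Fin r) E) :
    tauM τ (star b * b) = (((r : ℝ)⁻¹ * ∑ i, ∑ j, τ.n2 (b j i) ^ 2 : ℝ) : ℂ) := by
  rw [tauM, Complex.ofReal_mul, Complex.ofReal_inv, Complex.ofReal_natCast, Complex.ofReal_sum]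
  congr 1
  refine Finset.sum_congr rfl fun i _ => ?_
  rw [Mt.mul_apply, map_sum, Complex.ofReal_sum]
  refine Finset.sum_congr rfl fun j _ => ?_
  rw [Mt.star_apply, τ.tr_star_mul_self]

/-- Linearity. -/
theorem tauM_add (τ : TrState E) {r : ℕ} (b b' : Mt (Fin r) E) :
    tauM τ (b + b') = tauM τ b + tauM τ b' := by
  simp [tauM, Finset.sum_add_distrib, mul_add]

theorem tauM_smul (τ : TrState E) {r : ℕ} (a : ℂ) (b : Mt (Fin r) E) :
    tauM τ (a • b) = a * tauM τ b := by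
  simp only [tauM, Mt.smul_apply, map_smul, smul_eq_mul, ← Finset.mul_sum]
  ring

theorem tauM_sub (τ : TrState E) {r : ℕ} (b b' : Mt (Fin r) E) :
    tauM τ (b - b') = tauM τ b - tauM τ b' := by
  simp [tauM, Finset.sum_sub_distrib, mul_sub]

/-- `tauM (b b') = tauM (b' b)`: exchange the sums. -/
theorem tauM_comm (τ : TrState E) {r : ℕ} (b b' : Mt (Fin r) E) :
    tauM τ (b * b') = tauM τ (b' * b) := by
  simp only [tauM, Mt.mul_apply, map_sum]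
  congr 1
  rw [Finset.sum_comm]
  exact Finset.sum_congr rfl fun i _ => Finset.sum_congr rfl fun j _ => τ.comm _ _

namespace Tow

variable (P : Tow)

/-- The trace of a block matrix.

Proof. `∑ i : Fin (ρ (n+1)), τ (bl .. i i)`; reindex by `P.e n` (`Equiv.sum_comp`) and split
(`Fintype.sum_sum_type`, `Fintype.sum_prod_type`):
`∑ u, ∑ i, X u u * τ (b i i) + ∑ i, τ (c i i)`. -/
theorem tauM_bl (τ : TrState E) (n : ℕ) (X : Matrix (Fin (P.μ n)) (Fin (P.μ n)) ℂ)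
    (b : Mt (Fin (P.ρ n)) E) (c : Mt (P.Cx n) E) :
    tauM τ (P.bl n X b c) = (P.ρ (n + 1) : ℂ)⁻¹ *
      (X.trace * (P.ρ n * tauM τ b) + ∑ i, τ.tr (c i i)) := by
  have hρ : (P.ρ n : ℂ) ≠ 0 := by exact_mod_cast (P.ρ_pos n).ne'
  rw [tauM]
  congr 1
  have h1 : ∑ i, τ.tr (P.bl n X b c i i) =
      ∑ i, τ.tr (blk X b c ((P.e n).symm i) ((P.e n).symm i)) := rfl
  rw [h1, Equiv.sum_comp (P.e n).symm fun i => τ.tr (blk X b c i i), Fintype.sum_sum_type]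
  congr 1
  rw [Fintype.sum_prod_type, tauM, mul_inv_cancel_left₀ hρ, Matrix.trace, Finset.sum_mul]
  refine Finset.sum_congr rfl fun u _ => ?_
  rw [Finset.mul_sum]
  refine Finset.sum_congr rfl fun i _ => ?_
  rw [blk_inl_inl, map_smul, smul_eq_mul, Matrix.diag_apply]

/-- The trace of `emb b`. -/
theorem tauM_emb (τ : TrState E) (n : ℕ) (b : Mt (Fin (P.ρ n)) E) :
    tauM τ (P.emb n b) = ((P.μ n * P.ρ n : ℝ) / P.ρ (n + 1) : ℝ) * tauM τ b := by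
  rw [emb_apply, tauM_bl, Matrix.trace_one, Fintype.card_fin]
  simp only [Mt.zero_apply, map_zero, Finset.sum_const_zero, add_zero]
  push_cast
  ring

/-- If `d' = (1 ⊗ d) ⊕ c` then `tauM (d'* d') ≤ tauM (d* d) + 8 ^ -(n + 1) * ‖c‖ ^ 2`.

Proof. `star d' * d' = (1 ⊗ star d * d) ⊕ (star c * c)` (`bl_star`, `bl_mul`); use `tauM_bl`: the
first part is `(μ ρ / ρ') * tauM (d* d) ≤ tauM (d* d)` (`card_eq` gives `μ ρ ≤ ρ'`, and
`tauM (d* d)` is a nonnegative real); the second part is at most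
`(card Cx / ρ') * ‖star c * c‖`, and `card Cx / ρ' = 1 - μ ρ / ρ' ≤ (1/8)^(n+1)` by `ratio`;
`‖τ ((star c * c) i i)‖ ≤ ‖star c * c‖ = ‖c‖ ^ 2`. -/
theorem tauM_bl_le (τ : TrState E) (n : ℕ) (d : Mt (Fin (P.ρ n)) E) (c : Mt (P.Cx n) E) :
    (tauM τ (star (P.bl n 1 d c) * P.bl n 1 d c)).re ≤
      (tauM τ (star d * d)).re + (1 / 8 : ℝ) ^ (n + 1) * ‖c‖ ^ 2 := by
  have hρ : (0 : ℝ) < P.ρ (n + 1) := by exact_mod_cast P.ρ_pos (n + 1)
  have hcard : (P.μ n : ℝ) * P.ρ n + Fintype.card (P.Cx n) = P.ρ (n + 1) := by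
    exact_mod_cast P.card_eq n
  rw [bl_star, bl_mul, star_one, mul_one, tauM_bl, Matrix.trace_one, Fintype.card_fin,
    tauM_star_mul_self]
  set t : ℝ := (P.ρ n : ℝ)⁻¹ * ∑ i, ∑ j, τ.n2 (d j i) ^ 2 with ht
  have ht0 : 0 ≤ t := by positivity
  have h1 : ‖∑ i, τ.tr ((star c * c) i i)‖ ≤ Fintype.card (P.Cx n) * ‖c‖ ^ 2 := by
    refine (norm_sum_le _ _).trans ?_
    refine (Finset.sum_le_sum fun i _ => (τ.norm_tr_le_n2 ((star c * c) i i)).trans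
      ((τ.n2_le_norm ((star c * c) i i)).trans
        (Mt.norm_entry_le (star c * c) i i))).trans ?_
    rw [Finset.sum_const, Finset.card_univ, nsmul_eq_mul, CStarRing.norm_star_mul_self, sq]
  have h2 : (((P.ρ (n + 1) : ℂ)⁻¹ * ((P.μ n : ℂ) * (P.ρ n * (t : ℂ)) +
      ∑ i, τ.tr ((star c * c) i i))).re) = (P.ρ (n + 1) : ℝ)⁻¹ * ((P.μ n : ℝ) * P.ρ n * t +
      (∑ i, τ.tr ((star c * c) i i)).re) := by
    have h3 : ((P.ρ (n + 1) : ℂ)⁻¹) = (((P.ρ (n + 1) : ℝ)⁻¹ : ℝ) : ℂ) := by push_cast; rfl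
    have h4 : (P.μ n : ℂ) * (P.ρ n * (t : ℂ)) = (((P.μ n : ℝ) * P.ρ n * t : ℝ) : ℂ) := by
      push_cast; ring
    rw [h3, h4, Complex.re_ofReal_mul, Complex.add_re, Complex.ofReal_re]
  rw [h2, Complex.ofReal_re]
  have h5 : (∑ i, τ.tr ((star c * c) i i)).re ≤ Fintype.card (P.Cx n) * ‖c‖ ^ 2 :=
    (Complex.re_le_norm _).trans h1
  have hr := P.ratio n
  have h6 : (Fintype.card (P.Cx n) : ℝ) ≤ (1 / 8 : ℝ) ^ (n + 1) * P.ρ (n + 1) := by linarith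
  rw [inv_mul_le_iff₀ hρ]
  have h7 : (P.μ n : ℝ) * P.ρ n * t ≤ P.ρ (n + 1) * t := by
    refine mul_le_mul_of_nonneg_right ?_ ht0
    have : (0 : ℝ) ≤ Fintype.card (P.Cx n) := Nat.cast_nonneg _
    linarith
  have h8 : (Fintype.card (P.Cx n) : ℝ) * ‖c‖ ^ 2 ≤
      (1 / 8 : ℝ) ^ (n + 1) * P.ρ (n + 1) * ‖c‖ ^ 2 :=
    mul_le_mul_of_nonneg_right h6 (by positivity)
  nlinarith

/-- The corner `c` of `(X ⊗ b) ⊕ c` has norm at most that of the whole matrix.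

Proof. With `p = bl 0 0 1` (a projection), `bl 0 0 c = p * bl X b c * p`; and
`c ↦ bl 0 0 c` is an injective star homomorphism up to the unit, hence isometric:
it is a `NonUnitalStarAlgHom` `Mt (P.Cx n) E →⋆ₙₐ[ℂ] Mt (Fin (P.ρ (n+1))) E`, injective, so
`NonUnitalStarAlgHom.norm_map`; `‖p‖ ≤ 1`. -/
theorem norm_corner_le (n : ℕ) (X : Matrix (Fin (P.μ n)) (Fin (P.μ n)) ℂ)
    (b : Mt (Fin (P.ρ n)) E) (c : Mt (P.Cx n) E) : ‖c‖ ≤ ‖P.bl n X b c‖ := by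
  have hsmul : ∀ (a : ℂ) (c : Mt (P.Cx n) E), P.bl n 0 (0 : Mt (Fin (P.ρ n)) E) (a • c) =
      a • P.bl n 0 (0 : Mt (Fin (P.ρ n)) E) c := by
    intro a c
    have h := blk_smul a (0 : Matrix (Fin (P.μ n)) (Fin (P.μ n)) ℂ) (0 : Mt (Fin (P.ρ n)) E) c
    rw [smul_zero] at h
    rw [bl, h, map_smul, bl]
  have hadd : ∀ (c c' : Mt (P.Cx n) E), P.bl n 0 (0 : Mt (Fin (P.ρ n)) E) (c + c') =
      P.bl n 0 (0 : Mt (Fin (P.ρ n)) E) c + P.bl n 0 (0 : Mt (Fin (P.ρ n)) E) c' := by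
    intro c c'
    have h := blk_add (0 : Matrix (Fin (P.μ n)) (Fin (P.μ n)) ℂ) (0 : Mt (Fin (P.ρ n)) E) 0 c c'
    rw [add_zero] at h
    rw [bl, h, map_add, bl, bl]
  let φ : Mt (P.Cx n) E →⋆ₙₐ[ℂ] Mt (Fin (P.ρ (n + 1))) E :=
    { toFun := fun c => P.bl n 0 (0 : Mt (Fin (P.ρ n)) E) c
      map_smul' := fun a c => hsmul a c
      map_zero' := by
        have h := hsmul 0 (0 : Mt (P.Cx n) E)
        rwa [zero_smul, zero_smul] at h
      map_add' := hadd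
      map_mul' := fun c c' => by rw [bl_mul, mul_zero, mul_zero]
      map_star' := fun c => by rw [bl_star, star_zero, star_zero] }
  have hφ : ∀ c, φ c = P.bl n 0 (0 : Mt (Fin (P.ρ n)) E) c := fun c => rfl
  have hinj : Function.Injective φ := by
    intro c c' h
    refine Mt.ext fun i j => ?_
    have h1 : (φ c) (P.e n (Sum.inr i)) (P.e n (Sum.inr j)) =
        (φ c') (P.e n (Sum.inr i)) (P.e n (Sum.inr j)) := by rw [h]
    rw [hφ, hφ, bl, bl, Mt.reindex_apply, Mt.reindex_apply, Equiv.symm_apply_apply,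
      Equiv.symm_apply_apply, blk_inr_inr, blk_inr_inr] at h1
    exact h1
  have hn : ∀ c, ‖φ c‖ = ‖c‖ := fun c => NonUnitalStarAlgHom.norm_map φ hinj c
  have hp : P.bl n 0 (0 : Mt (Fin (P.ρ n)) E) c =
      P.bl n 0 (0 : Mt (Fin (P.ρ n)) E) 1 * P.bl n X b c * P.bl n 0 0 1 := by
    rw [bl_mul, bl_mul]
    simp
  have h1 : ‖P.bl n 0 (0 : Mt (Fin (P.ρ n)) E) (1 : Mt (P.Cx n) E)‖ ≤ 1 := by
    rw [← hφ, hn]
    rcases subsingleton_or_nontrivial (Mt (P.Cx n) E) with hs | hs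
    · rw [Subsingleton.elim (1 : Mt (P.Cx n) E) 0, norm_zero]
      exact zero_le_one
    · exact (CStarRing.norm_one).le
  calc ‖c‖ = ‖φ c‖ := (hn c).symm
    _ = ‖P.bl n 0 (0 : Mt (Fin (P.ρ n)) E) 1 * P.bl n X b c * P.bl n 0 0 1‖ := by rw [hφ, hp]
    _ ≤ ‖P.bl n 0 (0 : Mt (Fin (P.ρ n)) E) 1‖ * ‖P.bl n X b c‖ *
        ‖P.bl n 0 (0 : Mt (Fin (P.ρ n)) E) 1‖ := by
        refine (norm_mul_le _ _).trans ?_
        exact mul_le_mul_of_nonneg_right (norm_mul_le _ _) (norm_nonneg _)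
    _ ≤ 1 * ‖P.bl n X b c‖ * 1 := by gcongr
    _ = ‖P.bl n X b c‖ := by ring

end Tow

end Pool.Agent.H.MP_e11395_an
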