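import Pool.Agent.H.MP_e11395_an.E.WeylM

/-!
# Part E: the group of Weyl indices
-/

set_option autoImplicit false
set_option linter.unusedSectionVars false

open Filter Topology
open Pool.Agent.H.MP_43b197_an

namespace Pool.Agent.H.MP_e11395_an

/-! ### The group of the tensor products -/

/-- Finitely supported sequences of Weyl indices. -/
abbrev Wy (μ : ℕ → ℕ) : Type := Π₀ l : ℕ, (ZMod (μ l) × ZMod (μ l))

section bW

variable (μ : ℕ → ℕ) [∀ l, NeZero (μ l)]

/-- The bicharacter. -/
noncomputable def bW (w w' : Wy μ) : ℂ := by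
  classical
  exact ∏ l ∈ w.support, ch (μ l) ((w l).2 * (w' l).1)

/-- A bound of the support. -/
noncomputable def wb (w : Wy μ) : ℕ := by
  classical
  exact w.support.sup id + 1

theorem eq_zero_of_wb_le {w : Wy μ} {l : ℕ} (h : wb μ w ≤ l) : w l = 0 := by
  classical
  by_contra hne
  have h1 : l ∈ w.support := DFinsupp.mem_support_iff.2 hne
  have h2 : l ≤ w.support.sup id := Finset.le_sup (f := id) h1
  have h3 : w.support.sup id + 1 ≤ l := by
    unfold wb at h
    convert h
  omega

/-- The product may be taken over every finite set outside of which a factor vanishes. -/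
theorem WeylG_bW_eq {w w' : Wy μ} (I : Finset ℕ) (h : ∀ l, l ∉ I → w l = 0 ∨ w' l = 0) :
    bW μ w w' = ∏ l ∈ I, ch (μ l) ((w l).2 * (w' l).1) := by
  classical
  have h0 : ∀ l, (w l = 0 ∨ w' l = 0) → ch (μ l) ((w l).2 * (w' l).1) = 1 := by
    rintro l (h | h)
    · rw [h, Prod.snd_zero, zero_mul, ch_zero]
    · rw [h, Prod.fst_zero, mul_zero, ch_zero]
  have h1 : bW μ w w' = ∏ l ∈ w.support, ch (μ l) ((w l).2 * (w' l).1) := by
    unfold bW
    congr!
  rw [h1]
  have h2 : ∏ l ∈ w.support, ch (μ l) ((w l).2 * (w' l).1) =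
      ∏ l ∈ w.support ∪ I, ch (μ l) ((w l).2 * (w' l).1) := by
    refine Finset.prod_subset Finset.subset_union_left fun l _ hl => h0 l (Or.inl ?_)
    by_contra hne
    exact hl (DFinsupp.mem_support_iff.2 hne)
  have h3 : ∏ l ∈ I, ch (μ l) ((w l).2 * (w' l).1) =
      ∏ l ∈ w.support ∪ I, ch (μ l) ((w l).2 * (w' l).1) :=
    Finset.prod_subset Finset.subset_union_right fun l _ hl => h0 l (h l hl)
  rw [h2, h3]

/-- The product may be taken over `range n` for every bound `n` of the support of `w` (or of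
`w'`): the other factors are `χ(0) = 1`. -/
theorem bW_eq {w w' : Wy μ} {n : ℕ} (h : ∀ l, n ≤ l → w l = 0 ∨ w' l = 0) :
    bW μ w w' = ∏ l ∈ Finset.range n, ch (μ l) ((w l).2 * (w' l).1) :=
  WeylG_bW_eq μ (Finset.range n) fun l hl => h l (by
    rw [Finset.mem_range] at hl
    exact not_lt.1 hl)

theorem bW_norm (w w' : Wy μ) : ‖bW μ w w'‖ = 1 := by
  rw [bW_eq μ (n := wb μ w) fun l hl => Or.inl (eq_zero_of_wb_le μ hl), norm_prod]
  exact Finset.prod_eq_one fun l _ => ch_norm _ _

theorem bW_add_left (w w' u : Wy μ) : bW μ (w + w') u = bW μ w u * bW μ w' u := by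
  have h : ∀ l, wb μ u ≤ l → u l = 0 := fun l hl => eq_zero_of_wb_le μ hl
  rw [bW_eq μ (n := wb μ u) fun l hl => Or.inr (h l hl),
    bW_eq μ (n := wb μ u) fun l hl => Or.inr (h l hl),
    bW_eq μ (n := wb μ u) fun l hl => Or.inr (h l hl), ← Finset.prod_mul_distrib]
  refine Finset.prod_congr rfl fun l _ => ?_
  rw [DFinsupp.add_apply, Prod.snd_add, add_mul, ch_add]

theorem bW_add_right (w u u' : Wy μ) : bW μ w (u + u') = bW μ w u * bW μ w u' := by
  have h : ∀ l, wb μ w ≤ l → w l = 0 := fun l hl => eq_zero_of_wb_le μ hl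
  rw [bW_eq μ (n := wb μ w) fun l hl => Or.inl (h l hl),
    bW_eq μ (n := wb μ w) fun l hl => Or.inl (h l hl),
    bW_eq μ (n := wb μ w) fun l hl => Or.inl (h l hl), ← Finset.prod_mul_distrib]
  refine Finset.prod_congr rfl fun l _ => ?_
  rw [DFinsupp.add_apply, Prod.fst_add, mul_add, ch_add]

/-- The elements with support below `n`. -/
def filW (n : ℕ) : AddSubgroup (Wy μ) where
  carrier := {w | ∀ l, n ≤ l → w l = 0}
  zero_mem' := fun l _ => rfl
  add_mem' {a b} ha hb l hl := by
    rw [DFinsupp.add_apply, ha l hl, hb l hl, add_zero]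
  neg_mem' {a} ha l hl := by
    rw [DFinsupp.neg_apply, ha l hl, neg_zero]

theorem mem_filW {n : ℕ} {w : Wy μ} : w ∈ filW μ n ↔ ∀ l, n ≤ l → w l = 0 := Iff.rfl

theorem filW_mono : Monotone (filW μ) := fun _ _ h _ hw l hl => hw l (h.trans hl)

/-- An element of `filW n` is determined by its values on `Fin n`, in finite types. -/
theorem filW_fin (n : ℕ) : (filW μ n : Set (Wy μ)).Finite := by
  classical
  have hfin : (Set.univ : Set (∀ l : Fin n, ZMod (μ l) × ZMod (μ l))).Finite := Set.finite_univ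
  refine Set.Finite.of_injOn (f := fun (w : Wy μ) (l : Fin n) => w l) (fun w _ => Set.mem_univ _)
    ?_ hfin
  intro w hw w' hw' hww
  refine DFinsupp.ext fun l => ?_
  by_cases hl : l < n
  · exact congrFun hww ⟨l, hl⟩
  · have h1 : w l = 0 := hw l (not_lt.1 hl)
    have h2 : w' l = 0 := hw' l (not_lt.1 hl)
    rw [h1, h2]

theorem filW_exh (w : Wy μ) : w ∈ filW μ (wb μ w) := fun _ hl => eq_zero_of_wb_le μ hl

/-- Nondegeneracy: take `u = DFinsupp.single l (x, y)` with one coordinate `1` and the other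
`0`, and use `ch_inj`. -/
theorem bW_nondeg {w : Wy μ} (h : ∀ u, bW μ w u = bW μ u w) : w = 0 := by
  refine DFinsupp.ext fun l => ?_
  have key : ∀ x : ZMod (μ l) × ZMod (μ l), (w l).2 * x.1 = x.2 * (w l).1 := by
    intro x
    have hx : ∀ k, k ∉ ({l} : Finset ℕ) → (DFinsupp.single l x : Wy μ) k = 0 := fun k hk =>
      DFinsupp.single_eq_of_ne fun hkl => hk (Finset.mem_singleton.2 hkl)
    have e := h (DFinsupp.single l x)
    rw [WeylG_bW_eq μ {l} fun k hk => Or.inr (hx k hk), WeylG_bW_eq μ {l} fun k hk => Or.inl (hx k hk),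
      Finset.prod_singleton, Finset.prod_singleton, DFinsupp.single_eq_same] at e
    exact ch_inj (μ l) e
  have h1 := key (1, 0)
  have h2 := key (0, 1)
  simp only [mul_one, zero_mul, mul_zero, one_mul] at h1 h2
  exact Prod.ext h2.symm h1

end bW

end Pool.Agent.H.MP_e11395_an
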